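import Pool.Agent.L0h46.TS.Nrm

/-!
# Number theory
-/

set_option autoImplicit false

namespace Pool.Agent.L0h46.TS

open NumberField
open scoped Pointwise

/-- the absolute Galois group -/
abbrev GA (K : Type) [Field K] : Type := Gal(AlgebraicClosure K/K)

/-- the algebraic integers -/
abbrev OA (K : Type) [Field K] : Type := 𝓞 (AlgebraicClosure K)

section transitivity

variable {K : Type} [Field K] [CharZero K]

theorem isGal : IsGalois K (AlgebraicClosure K) := inferInstance

theorem mem_of_fixed {x : AlgebraicClosure K} (h : ∀ g : GA K, g x = x) :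
    ∃ y : K, algebraMap K (AlgebraicClosure K) y = x :=
  (InfiniteGalois.mem_range_algebraMap_iff_fixed (k := K) (K := AlgebraicClosure K) x).2 h

omit [CharZero K] in
theorem smul_coe (g : GA K) (x : OA K) :
    ((g • x : OA K) : AlgebraicClosure K) = g (x : AlgebraicClosure K) :=
  rfl

instance smulComm : SMulCommClass (GA K) (𝓞 K) (OA K) := by
  constructor
  intro g a x
  apply RingOfIntegers.ext
  have h1 : (a • x : OA K) = algebraMap (𝓞 K) (OA K) a * x := Algebra.smul_def a x
  have h2 : (a • (g • x) : OA K) = algebraMap (𝓞 K) (OA K) a * (g • x) := Algebra.smul_def a _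
  rw [h1, h2]
  have h3 : (((g • (algebraMap (𝓞 K) (OA K) a * x) : OA K)) : AlgebraicClosure K) =
      g (algebraMap K (AlgebraicClosure K) a) * g (x : AlgebraicClosure K) :=
    map_mul g _ _
  rw [h3, AlgEquiv.commutes]
  rfl

instance isInv : Algebra.IsInvariant (𝓞 K) (OA K) (GA K) := by
  constructor
  intro x hx
  obtain ⟨y, hy⟩ : ∃ y : K, algebraMap K (AlgebraicClosure K) y = x := mem_of_fixed fun g => by
    have h2 := congrArg (fun z : OA K => (z : AlgebraicClosure K)) (hx g)
    exact h2
  have h3 : IsIntegral ℤ y := by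
    have h4 : IsIntegral ℤ (x : AlgebraicClosure K) := x.2
    have h5 : IsIntegral ℤ (algebraMap K (AlgebraicClosure K) y) := by rw [hy]; exact h4
    exact (isIntegral_algebraMap_iff (algebraMap K (AlgebraicClosure K)).injective).1 h5
  exact ⟨⟨y, h3⟩, RingOfIntegers.ext hy⟩

/-- transitivity on the primes -/
theorem transitive {I J : Ideal (OA K)} (hI : I.IsPrime) (hJ : J.IsPrime)
    (h : I.comap (algebraMap (𝓞 K) (OA K)) = J.comap (algebraMap (𝓞 K) (OA K))) :
    ∃ τ : GA K, ∀ x : OA K, τ • x ∈ J ↔ x ∈ I := by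
  let _ : TopologicalSpace (OA K) := ⊥
  have : DiscreteTopology (OA K) := ⟨rfl⟩
  have : ContinuousSMul (GA K) (OA K) := by
    rw [continuousSMul_iff_stabilizer_isOpen]
    intro x
    have h1 := stabilizer_isOpen_of_isIntegral (K := K) (x : AlgebraicClosure K)
    convert h1 using 1
    ext g
    rw [SetLike.mem_coe, MulAction.mem_stabilizer_iff, SetLike.mem_coe,
      MulAction.mem_stabilizer_iff]
    constructor
    · intro h
      exact congrArg (fun z : (OA K) => (z : AlgebraicClosure K)) h
    · intro h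
      exact RingOfIntegers.ext h
  obtain ⟨g, hg⟩ := Algebra.IsInvariant.exists_smul_of_under_eq_of_profinite (A := 𝓞 K)
    (G := GA K) I J h
  refine ⟨g, fun x => ?_⟩
  rw [hg]
  exact Ideal.smul_mem_pointwise_smul_iff

end transitivity

section primes

variable (K : Type) [Field K] [NumberField K] (p : ℕ)

/-- the prime ideals above `p` -/
def Above : Type := {P : Ideal (𝓞 K) // P.IsPrime ∧ (p : 𝓞 K) ∈ P}

variable {K p}

theorem above_finite (hp : p.Prime) : Finite (Above K p) := by
  have h0 : Ideal.span {(p : 𝓞 K)} ≠ 0 := by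
    intro h
    rw [Ideal.zero_eq_bot, Ideal.span_singleton_eq_bot] at h
    exact hp.ne_zero (by exact_mod_cast h)
  have h1 := Ideal.finite_factors h0
  have hne : ∀ P : Above K p, P.1 ≠ ⊥ := by
    intro P h
    have h2 := P.2.2
    rw [h, Ideal.mem_bot] at h2
    exact hp.ne_zero (by exact_mod_cast h2)
  let f : Above K p → {v : IsDedekindDomain.HeightOneSpectrum (𝓞 K) |
      v.asIdeal ∣ Ideal.span {(p : 𝓞 K)}} :=
    fun P => ⟨⟨P.1, P.2.1, hne P⟩, by
      change P.1 ∣ _
      rw [Ideal.dvd_span_singleton]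
      exact P.2.2⟩
  have hf : Function.Injective f := by
    intro P Q hPQ
    have h2 := congrArg (fun v => v.1.asIdeal) hPQ
    exact Subtype.ext h2
  have h2 : Finite {v : IsDedekindDomain.HeightOneSpectrum (𝓞 K) |
      v.asIdeal ∣ Ideal.span {(p : 𝓞 K)}} := h1
  exact Finite.of_injective f hf

instance integ : Algebra.IsIntegral (𝓞 K) (OA K) := by
  refine ⟨fun x => ?_⟩
  have hx : IsIntegral ℤ x := Algebra.IsIntegral.isIntegral x
  exact hx.tower_top

theorem exists_over (P : Above K p) : ∃ J : Ideal (OA K), J.IsPrime ∧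
    J.comap (algebraMap (𝓞 K) (OA K)) = P.1 := by
  have := P.2.1
  obtain ⟨J, -, hJ, hJP⟩ := Ideal.exists_ideal_over_prime_of_isIntegral (S := OA K) P.1 ⊥ (by
    have h1 : Function.Injective (algebraMap (𝓞 K) (OA K)) := by
      intro a b hab
      apply RingOfIntegers.ext
      exact (algebraMap K (AlgebraicClosure K)).injective
        (congrArg (fun z : OA K => (z : AlgebraicClosure K)) hab)
    have h2 : Ideal.comap (algebraMap (𝓞 K) (OA K)) ⊥ = ⊥ :=
      (RingHom.injective_iff_ker_eq_bot _).1 h1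
    rw [h2]
    exact bot_le)
  exact ⟨J, hJ, hJP⟩

theorem above_nonempty (hp : p.Prime) : Nonempty (Above K p) := by
  have h1 : ¬ IsUnit (p : 𝓞 K) := by
    intro h
    have h2 := (Algebra.norm ℤ).map_dvd (isUnit_iff_dvd_one.1 h)
    have h3 : Algebra.norm ℤ ((p : ℕ) : 𝓞 K) = (p : ℤ) ^ Module.finrank ℤ (𝓞 K) := by
      have := Algebra.norm_algebraMap (S := 𝓞 K) (p : ℤ)
      simpa using this
    rw [h3, map_one] at h2
    have h4 := Int.natAbs_dvd_natAbs.2 h2
    have h5 : 0 < Module.finrank ℤ (𝓞 K) := Module.finrank_pos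
    rw [Int.natAbs_pow, Int.natAbs_natCast, Int.natAbs_one] at h4
    exact hp.one_lt.ne' (Nat.dvd_one.1 ((dvd_pow_self p h5.ne').trans h4))
  obtain ⟨M, hM, hpM⟩ := exists_max_ideal_of_mem_nonunits (a := (p : 𝓞 K)) h1
  exact ⟨⟨M, hM.isPrime, hpM⟩⟩

end primes

end Pool.Agent.L0h46.TS
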