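import Pool.Agent.L0h46.TS.Defs

/-! # Project TS: points near a line with determinants divisible by `q` (helper93) -/

set_option autoImplicit false

namespace Pool.Agent.L0h46.TS.LAT

open Finset Pool.Agent.L0h46.TS
open Pool.Agent.L0h46.TQ (htn)

/-- the determinant -/
def det (x y : ℤ × ℤ) : ℤ := x.1 * y.2 - x.2 * y.1

lemma na (a : ℤ) : ((a.natAbs : ℕ) : ℝ) = |(a : ℝ)| := by
  rw [Nat.cast_natAbs, Int.cast_abs]

lemma htn_eq (x : ℤ × ℤ) : (htn x : ℝ) = max |(x.1 : ℝ)| |(x.2 : ℝ)| := by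
  unfold htn
  rw [Nat.cast_max, na, na]

lemma abs1 (x : ℤ × ℤ) : |(x.1 : ℝ)| ≤ (htn x : ℝ) := by
  rw [htn_eq]
  exact le_max_left _ _

lemma abs2 (x : ℤ × ℤ) : |(x.2 : ℝ)| ≤ (htn x : ℝ) := by
  rw [htn_eq]
  exact le_max_right _ _

/-- the determinant is small -/
lemma det_le (ρ : ℝ × ℝ) (hρ : ρ ≠ 0) : ∃ M : ℝ, 0 < M ∧ ∀ H lam : ℝ, 0 < H → 0 < lam →
    ∀ x y : ℤ × ℤ, (htn x : ℝ) ≤ 2 * H → (htn y : ℝ) ≤ 2 * H → |LR ρ x| ≤ lam * H →
    |LR ρ y| ≤ lam * H → |(det x y : ℝ)| ≤ M * (lam * H ^ 2) := by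
  have key : ∀ a : ℝ, a ≠ 0 → ∀ H lam : ℝ, 0 < H → 0 < lam → ∀ u v s t d : ℝ,
      a * d = u * t - v * s → |u| ≤ lam * H → |v| ≤ lam * H → |s| ≤ 2 * H → |t| ≤ 2 * H →
      |d| ≤ 4 / |a| * (lam * H ^ 2) := by
    intro a ha H lam hH hl u v s t d h hu hv hs ht
    have ha' : 0 < |a| := abs_pos.2 ha
    have h1 : |a| * |d| ≤ 4 * (lam * H ^ 2) := by
      rw [← abs_mul, h]
      refine (abs_sub _ _).trans ?_
      rw [abs_mul, abs_mul]
      have h2 : |u| * |t| ≤ lam * H * (2 * H) :=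
        mul_le_mul hu ht (abs_nonneg _) (by positivity)
      have h3 : |v| * |s| ≤ lam * H * (2 * H) :=
        mul_le_mul hv hs (abs_nonneg _) (by positivity)
      nlinarith
    rw [div_mul_eq_mul_div, le_div_iff₀ ha']
    linarith
  by_cases h2 : ρ.2 = 0
  · have h1 : ρ.1 ≠ 0 := fun h1 => hρ (Prod.ext h1 h2)
    refine ⟨4 / |ρ.1|, by positivity, fun H lam hH hl x y hx hy hLx hLy => ?_⟩
    refine key ρ.1 h1 H lam hH hl (LR ρ x) (LR ρ y) x.1 y.1 _ ?_ hLx hLy ((abs1 x).trans hx)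
      ((abs1 y).trans hy)
    unfold LR det
    push_cast
    ring
  · refine ⟨4 / |ρ.2|, by positivity, fun H lam hH hl x y hx hy hLx hLy => ?_⟩
    refine key ρ.2 h2 H lam hH hl (LR ρ x) (LR ρ y) x.2 y.2 _ ?_ hLx hLy ((abs2 x).trans hx)
      ((abs2 y).trans hy)
    unfold LR det
    push_cast
    ring

/-- the fibres -/
lemma fib_le (H : ℝ) (hH : 0 < H) (E : Finset (ℤ × ℤ)) (x1 : ℤ × ℤ) (h1 : IsCoprime x1.1 x1.2)
    (h1H : H < (htn x1 : ℝ)) (t : ℤ) (hE : ∀ x ∈ E, (htn x : ℝ) ≤ 2 * H ∧ det x x1 = t) :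
    E.card ≤ 7 := by
  rcases E.eq_empty_or_nonempty with rfl | ⟨x0, hx0⟩
  · simp
  obtain ⟨u, v, huv⟩ := h1
  set s : ℤ × ℤ → ℤ := fun x => u * (x.1 - x0.1) + v * (x.2 - x0.2) with hs
  have key : ∀ x ∈ E, s x * x1.1 = x.1 - x0.1 ∧ s x * x1.2 = x.2 - x0.2 := by
    intro x hx
    have h2 := (hE x hx).2
    have h3 := (hE x0 hx0).2
    unfold det at h2 h3
    have h4 : (x.1 - x0.1) * x1.2 = (x.2 - x0.2) * x1.1 := by linarith
    constructor
    · calc s x * x1.1 = u * x1.1 * (x.1 - x0.1) + v * ((x.2 - x0.2) * x1.1) := by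
            simp only [hs]
            ring
        _ = (u * x1.1 + v * x1.2) * (x.1 - x0.1) := by
            rw [← h4]
            ring
        _ = _ := by rw [huv, one_mul]
    · calc s x * x1.2 = u * ((x.1 - x0.1) * x1.2) + v * x1.2 * (x.2 - x0.2) := by
            simp only [hs]
            ring
        _ = (u * x1.1 + v * x1.2) * (x.2 - x0.2) := by
            rw [h4]
            ring
        _ = _ := by rw [huv, one_mul]
  have hsb : ∀ x ∈ E, s x ∈ Icc (-3 : ℤ) 3 := by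
    intro x hx
    obtain ⟨h2, h3⟩ := key x hx
    have hx2 := (hE x hx).1
    have hx02 := (hE x0 hx0).1
    have h4 : |(s x : ℝ)| * |(x1.1 : ℝ)| ≤ 4 * H := by
      rw [← abs_mul]
      have : (s x : ℝ) * x1.1 = x.1 - x0.1 := by exact_mod_cast h2
      rw [this]
      refine (abs_sub _ _).trans ?_
      linarith [abs1 x, abs1 x0]
    have h5 : |(s x : ℝ)| * |(x1.2 : ℝ)| ≤ 4 * H := by
      rw [← abs_mul]
      have : (s x : ℝ) * x1.2 = x.2 - x0.2 := by exact_mod_cast h3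
      rw [this]
      refine (abs_sub _ _).trans ?_
      linarith [abs2 x, abs2 x0]
    have h6 : |(s x : ℝ)| * (htn x1 : ℝ) ≤ 4 * H := by
      rw [htn_eq]
      rcases max_choice |(x1.1 : ℝ)| |(x1.2 : ℝ)| with h | h
      · rw [h]
        exact h4
      · rw [h]
        exact h5
    have h8 : |(s x : ℝ)| < 4 := by
      by_contra h9
      push Not at h9
      have : 4 * H < 4 * (htn x1 : ℝ) := by linarith
      have h10 : 4 * (htn x1 : ℝ) ≤ |(s x : ℝ)| * (htn x1 : ℝ) :=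
        mul_le_mul_of_nonneg_right h9 (Nat.cast_nonneg _)
      linarith
    rw [abs_lt] at h8
    rw [mem_Icc]
    constructor
    · have : (-4 : ℤ) < s x := by exact_mod_cast h8.1
      omega
    · have : s x < (4 : ℤ) := by exact_mod_cast h8.2
      omega
  calc E.card ≤ (Icc (-3 : ℤ) 3).card := by
        refine card_le_card_of_injOn s hsb ?_
        intro x hx y hy hxy
        obtain ⟨h2, h3⟩ := key x hx
        obtain ⟨h4, h5⟩ := key y hy
        have hxy' : s x = s y := hxy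
        rw [hxy'] at h2 h3
        refine Prod.ext ?_ ?_
        · linarith
        · linarith
    _ = 7 := by decide

/-- the number of the values -/
lemma val_le (q C0 : ℕ) (hq : 0 < q) (hC0 : 0 < C0) (B : ℝ) (hB : 0 ≤ B) (T : Finset ℤ)
    (hT : ∀ t ∈ T, (q : ℤ) ∣ C0 * t ∧ |(t : ℝ)| ≤ B) : (T.card : ℝ) ≤ 1 + 2 * (B * C0 / q) := by
  set g := Nat.gcd q C0 with hg
  obtain ⟨q', hq'⟩ := Nat.gcd_dvd_left q C0
  obtain ⟨c', hc'⟩ := Nat.gcd_dvd_right q C0
  rw [← hg] at hq' hc'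
  have hg0 : 0 < g := Nat.gcd_pos_of_pos_left _ hq
  have hq'0 : 0 < q' := by
    rcases Nat.eq_zero_or_pos q' with h | h
    · rw [h] at hq'
      omega
    · exact h
  have hco : Nat.Coprime q' c' := by
    have h1 : g * Nat.gcd q' c' = g * 1 := by
      rw [← Nat.gcd_mul_left, ← hq', ← hc', mul_one]
    exact Nat.eq_of_mul_eq_mul_left hg0 h1
  have hdiv : ∀ t ∈ T, (q' : ℤ) ∣ t := by
    intro t ht
    have h1 := (hT t ht).1
    rw [hq', hc'] at h1
    push_cast at h1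
    rw [mul_assoc] at h1
    have h2 : (q' : ℤ) ∣ c' * t := Int.dvd_of_mul_dvd_mul_left (by exact_mod_cast hg0.ne') h1
    exact (Int.isCoprime_iff_gcd_eq_one.2 (by simpa using hco)).dvd_of_dvd_mul_left h2
  have hq'r : (0 : ℝ) < q' := by exact_mod_cast hq'0
  set N : ℤ := ⌊B / q'⌋ with hN
  have hN0 : 0 ≤ N := Int.floor_nonneg.2 (div_nonneg hB hq'r.le)
  have hsub : T ⊆ (Icc (-N) N).image (fun u : ℤ => q' * u) := by
    intro t ht
    obtain ⟨u, hu⟩ := hdiv t ht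
    rw [mem_image]
    refine ⟨u, ?_, hu.symm⟩
    have h1 := (hT t ht).2
    rw [hu] at h1
    push_cast at h1
    rw [abs_mul, abs_of_pos hq'r] at h1
    have h2 : |(u : ℝ)| ≤ B / q' := by
      rw [le_div_iff₀ hq'r]
      linarith
    rw [abs_le] at h2
    rw [mem_Icc]
    constructor
    · have h3 : ((-u : ℤ) : ℝ) ≤ B / q' := by
        push_cast
        linarith [h2.1]
      have := Int.le_floor.2 h3
      omega
    · exact Int.le_floor.2 h2.2
  have h1 : (T.card : ℝ) ≤ ((Icc (-N) N).card : ℝ) := by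
    exact_mod_cast (card_le_card hsub).trans card_image_le
  have h2 : ((Icc (-N) N).card : ℝ) = 2 * (N : ℝ) + 1 := by
    rw [Int.card_Icc]
    have h3 : ((N + 1 - -N).toNat : ℤ) = 2 * N + 1 := by
      rw [Int.toNat_of_nonneg (by omega)]
      ring
    exact_mod_cast h3
  have h3 : (N : ℝ) ≤ B / q' := Int.floor_le _
  have h4 : B / q' ≤ B * C0 / q := by
    have hqr : (0 : ℝ) < q := by exact_mod_cast hq
    rw [div_le_div_iff₀ hq'r hqr]
    have h5 : (q : ℝ) ≤ C0 * q' := by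
      have h6 : q ≤ C0 * q' := by
        conv_lhs => rw [hq']
        exact Nat.mul_le_mul_right _ (Nat.le_of_dvd hC0 (Nat.gcd_dvd_right q C0))
      exact_mod_cast h6
    have := mul_le_mul_of_nonneg_left h5 hB
    linarith
  rw [h2] at h1
  linarith

/-- **LAT** -/
theorem main : S_LAT := by
  intro ρ hρ
  obtain ⟨M, hM, hdet⟩ := det_le ρ hρ
  refine ⟨7 * (1 + 2 * M), by positivity, fun H lam hH hl q C0 hq hC0 E hE hdvd => ?_⟩
  have hH0 : 0 < H := by linarith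
  have hqr : (0 : ℝ) < q := by exact_mod_cast hq
  have hCr : (0 : ℝ) < C0 := by exact_mod_cast hC0
  have hX : 0 < C0 * lam * H ^ 2 / q := by positivity
  rcases E.eq_empty_or_nonempty with rfl | ⟨x1, hx1⟩
  · rw [card_empty, Nat.cast_zero]
    positivity
  obtain ⟨ha, hb, hc, hd⟩ := hE x1 hx1
  have h1 : E.card ≤ 7 * (E.image (fun x => det x x1)).card := by
    refine card_le_mul_card_image E 7 fun t _ => ?_
    refine fib_le H hH0 _ x1 ha hb t fun x hx => ?_
    rw [mem_filter] at hx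
    exact ⟨(hE x hx.1).2.2.1, hx.2⟩
  have h2 := val_le q C0 hq hC0 (M * (lam * H ^ 2)) (by positivity) (E.image (fun x => det x x1))
    (fun t ht => by
      obtain ⟨x, hx, rfl⟩ := mem_image.1 ht
      obtain ⟨_, _, h5, h6⟩ := hE x hx
      exact ⟨hdvd x hx x1 hx1, hdet H lam hH0 hl x x1 h5 hc h6 hd⟩)
  have h3 : (E.card : ℝ) ≤ 7 * ((E.image (fun x => det x x1)).card : ℝ) := by exact_mod_cast h1
  have h4 : M * (lam * H ^ 2) * C0 / q = M * (C0 * lam * H ^ 2 / q) := by ring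
  rw [h4] at h2
  have h5 : 7 * (1 + 2 * M) * (1 + C0 * lam * H ^ 2 / q) = 7 + 14 * M +
      7 * (C0 * lam * H ^ 2 / q) + 14 * (M * (C0 * lam * H ^ 2 / q)) := by ring
  rw [h5]
  nlinarith

end Pool.Agent.L0h46.TS.LAT
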