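import Pool.Agent.L0h46.TS.Defs

/-!
# Project TS: CNT
-/

set_option autoImplicit false

namespace Pool.Agent.L0h46.TS.CNT

open Finset
open Pool.Agent.L0h46.TS
open Pool.Agent.L0h46.TQ (Nrm Lf htn Indep lg hh N1)

theorem main (hCOL : S_COL) (hLAT : S_LAT) : S_CNT := by
  intro k m α γ e f hs ρ hρ
  obtain ⟨C1, hC1, C0, hC0, h1⟩ := hCOL k m α γ e f hs (1 / 20) (by norm_num)
  obtain ⟨C2, hC2, h2⟩ := hLAT ρ hρ
  have hC0' : (1 : ℝ) ≤ C0 := by exact_mod_cast hC0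
  refine ⟨(C1 + 1) * C2 * C0, by positivity, fun H lam hH hlam q hq E hE => ?_⟩
  obtain ⟨col, hc1, hc2⟩ := h1 q hq
  have hq1 : (1 : ℝ) ≤ q := by exact_mod_cast hq
  have hqe : (1 : ℝ) ≤ (q : ℝ) ^ ((1 : ℝ) / 20) := Real.one_le_rpow hq1 (by norm_num)
  have hq0 : (0 : ℝ) < q := by linarith
  have hB : 0 ≤ lam * H ^ 2 / q := by positivity
  -- the fibres
  have hfib : ∀ j ∈ E.image col, (((E.filter fun x => col x = j).card : ℕ) : ℝ) ≤
      C2 * C0 * (1 + lam * H ^ 2 / q) := by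
    intro j _
    have h3 := h2 H lam hH hlam q C0 hq hC0 (E.filter fun x => col x = j)
      (fun x hx => by
        obtain ⟨a1, a2, a3, a4, -⟩ := hE x (Finset.mem_filter.mp hx).1
        exact ⟨a1, a2, a3, a4⟩)
      (fun x hx y hy => by
        obtain ⟨hx1, hx2⟩ := Finset.mem_filter.mp hx
        obtain ⟨hy1, hy2⟩ := Finset.mem_filter.mp hy
        exact hc2 x y (hE x hx1).1 (hE y hy1).1 (hE x hx1).2.2.2.2 (hE y hy1).2.2.2.2
          (hx2.trans hy2.symm))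
    refine h3.trans ?_
    have h4 : 1 + C0 * lam * H ^ 2 / q ≤ C0 * (1 + lam * H ^ 2 / q) := by
      have : C0 * lam * H ^ 2 / q = C0 * (lam * H ^ 2 / q) := by ring
      rw [this]
      nlinarith
    calc C2 * (1 + C0 * lam * H ^ 2 / q) ≤ C2 * (C0 * (1 + lam * H ^ 2 / q)) :=
          mul_le_mul_of_nonneg_left h4 hC2.le
      _ = _ := by ring
  have himg : ((E.image col).card : ℝ) ≤ (C1 + 1) * (q : ℝ) ^ ((1 : ℝ) / 20) := by
    have h3 : E.image col ⊆ Finset.range (⌈C1 * (q : ℝ) ^ ((1 : ℝ) / 20)⌉₊) := by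
      intro j hj
      obtain ⟨x, hx, rfl⟩ := Finset.mem_image.mp hj
      rw [Finset.mem_range]
      have h4 := hc1 x (hE x hx).1 (hE x hx).2.2.2.2
      have h5 : (col x : ℝ) < (⌈C1 * (q : ℝ) ^ ((1 : ℝ) / 20)⌉₊ : ℝ) :=
        lt_of_lt_of_le h4 (Nat.le_ceil _)
      exact_mod_cast h5
    have h6 := Finset.card_le_card h3
    rw [Finset.card_range] at h6
    have h7 : (⌈C1 * (q : ℝ) ^ ((1 : ℝ) / 20)⌉₊ : ℝ) < C1 * (q : ℝ) ^ ((1 : ℝ) / 20) + 1 :=
      Nat.ceil_lt_add_one (by positivity)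
    have h8 : ((E.image col).card : ℝ) ≤ (⌈C1 * (q : ℝ) ^ ((1 : ℝ) / 20)⌉₊ : ℝ) := by
      exact_mod_cast h6
    nlinarith
  have hcard : (E.card : ℝ) = ∑ j ∈ E.image col, (((E.filter fun x => col x = j).card : ℕ) : ℝ) := by
    rw [Finset.card_eq_sum_card_image col E]
    push_cast
    rfl
  rw [hcard]
  calc ∑ j ∈ E.image col, (((E.filter fun x => col x = j).card : ℕ) : ℝ)
      ≤ ∑ _j ∈ E.image col, C2 * C0 * (1 + lam * H ^ 2 / q) := Finset.sum_le_sum hfib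
    _ = ((E.image col).card : ℝ) * (C2 * C0 * (1 + lam * H ^ 2 / q)) := by
        rw [Finset.sum_const, nsmul_eq_mul]
    _ ≤ ((C1 + 1) * (q : ℝ) ^ ((1 : ℝ) / 20)) * (C2 * C0 * (1 + lam * H ^ 2 / q)) := by
        exact mul_le_mul_of_nonneg_right himg (by positivity)
    _ = _ := by ring

end Pool.Agent.L0h46.TS.CNT
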