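import Pool.Agent.L0h46.TS.Defs

/-!
# Project TS, module COL: few classes of points with `q ∣ F(x)`
-/

set_option autoImplicit false

namespace Pool.Agent.L0h46.TS.COL

open Finset
open Pool.Agent.L0h46.TS
open Pool.Agent.L0h46.TQ (Lf Indep)

/-- the determinant -/
def dt (x y : ℤ × ℤ) : ℤ := x.1 * y.2 - x.2 * y.1

/-! ### Divisibility by coprime pairs -/

theorem dvd_of_pair {N R u v : ℤ} (h : IsCoprime u v) (h1 : N ∣ R * u) (h2 : N ∣ R * v) :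
    N ∣ R := by
  obtain ⟨a, b, hab⟩ := h
  have e : R = a * (R * u) + b * (R * v) := by
    calc R = R * (a * u + b * v) := by rw [hab, mul_one]
      _ = _ := by ring
  rw [e]
  exact dvd_add (h1.mul_left _) (h2.mul_left _)

/-- an irreducible form has no zero -/
theorem Qg_ne_zero {γ : ℤ × ℤ × ℤ} (hγ : IrrQ γ) {x : ℤ × ℤ} (hx : x ≠ 0) : Qg γ x ≠ 0 := by
  obtain ⟨a, b, c⟩ := γ
  obtain ⟨u, v⟩ := x
  intro h0
  apply hγ
  simp only [Qg] at h0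
  simp only
  have key : (2 * a * u + b * v) ^ 2 = (b ^ 2 - 4 * a * c) * v ^ 2 := by
    linear_combination 4 * a * h0
  by_cases hv : v = 0
  · subst hv
    have hu : u ≠ 0 := by
      rintro rfl
      exact hx rfl
    have ha : a = 0 := by
      have : a * u ^ 2 = 0 := by linear_combination h0
      rcases mul_eq_zero.1 this with h | h
      · exact h
      · exact absurd (pow_eq_zero_iff (by norm_num) |>.1 h) hu
    subst ha
    exact ⟨b, by ring⟩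
  · have hd : v ^ 2 ∣ (2 * a * u + b * v) ^ 2 := Dvd.intro_left _ key.symm
    obtain ⟨w, hw⟩ := (Int.pow_dvd_pow_iff (by norm_num)).1 hd
    refine ⟨w, ?_⟩
    rw [hw] at key
    have hv2 : v ^ 2 ≠ 0 := pow_ne_zero 2 hv
    apply mul_right_cancel₀ hv2
    rw [← key]
    ring

theorem irr_fst {γ : ℤ × ℤ × ℤ} (hγ : IrrQ γ) : γ.1 ≠ 0 := by
  intro h
  exact hγ ⟨γ.2.1, by rw [h]; ring⟩

theorem irr_thd {γ : ℤ × ℤ × ℤ} (hγ : IrrQ γ) : γ.2.2 ≠ 0 := by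
  intro h
  exact hγ ⟨γ.2.1, by rw [h]; ring⟩

/-! ### Resultants -/

theorem res_LL {a b : ℤ × ℤ} (h : a.1 * b.2 ≠ b.1 * a.2) : ∃ R : ℤ, R ≠ 0 ∧
    ∀ N : ℤ, ∀ x : ℤ × ℤ, IsCoprime x.1 x.2 → N ∣ Lf a x → N ∣ Lf b x → N ∣ R := by
  refine ⟨a.2 * b.1 - a.1 * b.2, fun h0 => h (by linear_combination -h0), ?_⟩
  intro N x hx h1 h2
  unfold Lf at h1 h2
  refine dvd_of_pair hx ?_ ?_
  · have e : (a.2 * b.1 - a.1 * b.2) * x.1 =
        b.1 * (x.1 * a.2 - x.2 * a.1) - a.1 * (x.1 * b.2 - x.2 * b.1) := by ring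
    rw [e]
    exact dvd_sub (h1.mul_left _) (h2.mul_left _)
  · have e : (a.2 * b.1 - a.1 * b.2) * x.2 =
        b.2 * (x.1 * a.2 - x.2 * a.1) - a.2 * (x.1 * b.2 - x.2 * b.1) := by ring
    rw [e]
    exact dvd_sub (h1.mul_left _) (h2.mul_left _)

theorem res_LQ {a : ℤ × ℤ} {γ : ℤ × ℤ × ℤ} (ha : a ≠ 0) (hγ : IrrQ γ) : ∃ R : ℤ, R ≠ 0 ∧
    ∀ N : ℤ, ∀ x : ℤ × ℤ, IsCoprime x.1 x.2 → N ∣ Lf a x → N ∣ Qg γ x → N ∣ R := by
  refine ⟨Qg γ a, Qg_ne_zero hγ ha, ?_⟩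
  intro N x hx h1 h2
  unfold Lf at h1
  unfold Qg at h2 ⊢
  have hx2 : IsCoprime (x.1 ^ 2) (x.2 ^ 2) := hx.pow
  refine dvd_of_pair hx2 ?_ ?_
  · have e : (γ.1 * a.1 ^ 2 + γ.2.1 * a.1 * a.2 + γ.2.2 * a.2 ^ 2) * x.1 ^ 2 =
        a.1 ^ 2 * (γ.1 * x.1 ^ 2 + γ.2.1 * x.1 * x.2 + γ.2.2 * x.2 ^ 2) +
        (x.1 * a.2 - x.2 * a.1) * (γ.2.1 * a.1 * x.1 + γ.2.2 * (a.2 * x.1 + a.1 * x.2)) := by ring
    rw [e]
    exact dvd_add (h2.mul_left _) (h1.mul_right _)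
  · have e : (γ.1 * a.1 ^ 2 + γ.2.1 * a.1 * a.2 + γ.2.2 * a.2 ^ 2) * x.2 ^ 2 =
        a.2 ^ 2 * (γ.1 * x.1 ^ 2 + γ.2.1 * x.1 * x.2 + γ.2.2 * x.2 ^ 2) -
        (x.1 * a.2 - x.2 * a.1) * (γ.2.1 * a.2 * x.2 + γ.1 * (a.2 * x.1 + a.1 * x.2)) := by ring
    rw [e]
    exact dvd_sub (h2.mul_left _) (h1.mul_right _)

theorem res_QQ {γ δ : ℤ × ℤ × ℤ} (hγ : IrrQ γ) (h : Npr γ δ) : ∃ R : ℤ, R ≠ 0 ∧
    ∀ N : ℤ, ∀ x : ℤ × ℤ, IsCoprime x.1 x.2 → N ∣ Qg γ x → N ∣ Qg δ x → N ∣ R := by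
  obtain ⟨a, b, c⟩ := γ
  obtain ⟨a', b', c'⟩ := δ
  have ha : a ≠ 0 := irr_fst hγ
  have hc : c ≠ 0 := irr_thd hγ
  unfold Npr at h
  simp only at h
  set p := a * b' - a' * b with hp
  set r := a * c' - a' * c with hr
  set s := b * c' - b' * c with hs
  have hRes : r ^ 2 - p * s ≠ 0 := by
    intro h0
    have hpr : p ≠ 0 := by
      intro hp0
      rw [hp0] at h0
      have hr0 : r = 0 := by
        have : r ^ 2 = 0 := by linear_combination h0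
        exact (pow_eq_zero_iff (by norm_num)).1 this
      rcases h with h | h
      · exact h (by linear_combination hp0)
      · exact h (by linear_combination hr0)
    have hz : Qg (a, b, c) (r, -p) = 0 := by
      simp only [Qg]
      have hsyz : a * s - b * r + c * p = 0 := by
        rw [hp, hr, hs]
        ring
      linear_combination p * hsyz + a * h0
    exact Qg_ne_zero hγ (fun h1 => hpr (by simpa using congrArg Prod.snd h1)) hz
  refine ⟨(r ^ 2 - p * s) * a * c, mul_ne_zero (mul_ne_zero hRes ha) hc, ?_⟩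
  rintro N ⟨x, y⟩ hx h1 h2
  simp only at hx
  simp only [Qg] at h1 h2
  have hu : N ∣ y * (p * x + r * y) := by
    have e : y * (p * x + r * y) = a * (a' * x ^ 2 + b' * x * y + c' * y ^ 2) -
        a' * (a * x ^ 2 + b * x * y + c * y ^ 2) := by rw [hp, hr]; ring
    rw [e]
    exact dvd_sub (h2.mul_left _) (h1.mul_left _)
  have hv : N ∣ x * (r * x + s * y) := by
    have e : x * (r * x + s * y) = c' * (a * x ^ 2 + b * x * y + c * y ^ 2) -
        c * (a' * x ^ 2 + b' * x * y + c' * y ^ 2) := by rw [hr, hs]; ring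
    rw [e]
    exact dvd_sub (h1.mul_left _) (h2.mul_left _)
  have hxy : N ∣ (r ^ 2 - p * s) * x * y := by
    refine dvd_of_pair hx ?_ ?_
    · have e : (r ^ 2 - p * s) * x * y * x = r * y * (x * (r * x + s * y)) -
          s * x * (y * (p * x + r * y)) := by ring
      rw [e]
      exact dvd_sub (hv.mul_left _) (hu.mul_left _)
    · have e : (r ^ 2 - p * s) * x * y * y = r * x * (y * (p * x + r * y)) -
          p * y * (x * (r * x + s * y)) := by ring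
      rw [e]
      exact dvd_sub (hu.mul_left _) (hv.mul_left _)
  have hx3 : IsCoprime (x ^ 3) (y ^ 3) := hx.pow
  refine dvd_of_pair hx3 ?_ ?_
  · have e : (r ^ 2 - p * s) * a * c * x ^ 3 =
        (r ^ 2 - p * s) * c * x * (a * x ^ 2 + b * x * y + c * y ^ 2) -
        (r ^ 2 - p * s) * x * y * (c * (b * x + c * y)) := by ring
    rw [e]
    exact dvd_sub (h1.mul_left _) (hxy.mul_right _)
  · have e : (r ^ 2 - p * s) * a * c * y ^ 3 =
        (r ^ 2 - p * s) * a * y * (a * x ^ 2 + b * x * y + c * y ^ 2) -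
        (r ^ 2 - p * s) * x * y * (a * (a * x + b * y)) := by ring
    rw [e]
    exact dvd_sub (h1.mul_left _) (hxy.mul_right _)

/-! ### One factor takes everything -/

theorem one_factor {ι : Type} [Fintype ι] {R : ℤ} (hR : R ≠ 0) {p : ℕ} (hp : p.Prime) (a : ℕ)
    (G : ι → ℤ) (hG : ∀ i j, i ≠ j → ∀ N : ℤ, N ∣ G i → N ∣ G j → N ∣ R)
    (h : (p : ℤ) ^ a ∣ ∏ i, G i) : (∃ i, (p : ℤ) ^ a ∣ R ^ Fintype.card ι * G i) ∨ IsEmpty ι := by
  classical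
  rcases isEmpty_or_nonempty ι with he | hne
  · exact Or.inr he
  left
  have hpp : Prime (p : ℤ) := Nat.prime_iff_prime_int.1 hp
  obtain ⟨i, -, hi⟩ := Finset.exists_max_image (Finset.univ : Finset ι)
    (fun i => emultiplicity (p : ℤ) (G i)) Finset.univ_nonempty
  refine ⟨i, ?_⟩
  rw [pow_dvd_iff_le_emultiplicity] at h ⊢
  rw [Finset.emultiplicity_prod hpp] at h
  rw [emultiplicity_mul hpp, emultiplicity_pow hpp]
  refine h.trans ?_
  have hother : ∀ j, j ≠ i → emultiplicity (p : ℤ) (G j) ≤ emultiplicity (p : ℤ) R := by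
    intro j hj
    have hle := hi j (Finset.mem_univ j)
    by_contra hcon
    push Not at hcon
    -- take b = v(R) + 1
    have hfin : FiniteMultiplicity (p : ℤ) R := by
      refine Int.finiteMultiplicity_iff.2 ⟨?_, hR⟩
      simp only [Int.natAbs_natCast]
      exact hp.one_lt.ne'
    have hb : (p : ℤ) ^ (multiplicity (p : ℤ) R + 1) ∣ G j := by
      rw [pow_dvd_iff_le_emultiplicity]
      rw [hfin.emultiplicity_eq_multiplicity] at hcon
      push_cast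
      exact Order.add_one_le_of_lt hcon
    have hb' : (p : ℤ) ^ (multiplicity (p : ℤ) R + 1) ∣ G i := by
      rw [pow_dvd_iff_le_emultiplicity] at hb ⊢
      exact hb.trans hle
    exact hfin.not_pow_dvd_of_multiplicity_lt (Nat.lt_succ_self _) (hG j i hj _ hb hb')
  rw [← Finset.add_sum_erase _ _ (Finset.mem_univ i), add_comm]
  refine add_le_add_left ?_ _
  calc ∑ j ∈ Finset.univ.erase i, emultiplicity (p : ℤ) (G j)
      ≤ ∑ _j ∈ Finset.univ.erase i, emultiplicity (p : ℤ) R :=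
        Finset.sum_le_sum fun j hj => hother j (Finset.ne_of_mem_erase hj)
    _ ≤ ∑ _j : ι, emultiplicity (p : ℤ) R :=
        Finset.sum_le_sum_of_subset (Finset.erase_subset _ _)
    _ = (Fintype.card ι : ℕ∞) * emultiplicity (p : ℤ) R := by
        rw [Finset.sum_const, nsmul_eq_mul, Finset.card_univ]

/-! ### Classes of points -/

theorem dt_trans {N C : ℤ} {x y z : ℤ × ℤ} (hy : IsCoprime y.1 y.2) (h1 : N ∣ C * dt x y)
    (h2 : N ∣ C * dt y z) : N ∣ C * dt x z := by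
  refine dvd_of_pair hy ?_ ?_
  · have e : C * dt x z * y.1 = C * dt x y * z.1 + C * dt y z * x.1 := by
      unfold dt
      ring
    rw [e]
    exact dvd_add (h1.mul_right _) (h2.mul_right _)
  · have e : C * dt x z * y.2 = C * dt x y * z.2 + C * dt y z * x.2 := by
      unfold dt
      ring
    rw [e]
    exact dvd_add (h1.mul_right _) (h2.mul_right _)

theorem dt_symm (x y : ℤ × ℤ) : dt y x = - dt x y := by
  unfold dt
  ring

/-- three points at which `D1 G` is divisible by `p ^ a` -/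
def TP (D1 : ℤ) (G : ℤ × ℤ → ℤ) (D2 : ℤ) : Prop :=
  ∀ p : ℕ, p.Prime → ∀ a : ℕ, ∀ x y z : ℤ × ℤ, IsCoprime x.1 x.2 → IsCoprime y.1 y.2 →
    IsCoprime z.1 z.2 → (p : ℤ) ^ a ∣ D1 * G x → (p : ℤ) ^ a ∣ D1 * G y →
    (p : ℤ) ^ a ∣ D1 * G z → (p : ℤ) ^ a ∣ D2 * dt x y ∨ (p : ℤ) ^ a ∣ D2 * dt y z ∨
      (p : ℤ) ^ a ∣ D2 * dt x z

theorem tp_L {a : ℤ × ℤ} (ha : a ≠ 0) {D1 : ℤ} (hD : D1 ≠ 0) :
    ∃ D2 : ℤ, D2 ≠ 0 ∧ TP D1 (Lf a) D2 := by
  by_cases h1 : a.1 = 0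
  · have h2 : a.2 ≠ 0 := fun h2 => ha (Prod.ext h1 h2)
    refine ⟨D1 * a.2, mul_ne_zero hD h2, ?_⟩
    intro p _ n x y z _ _ _ hx hy _
    left
    have e : D1 * a.2 * dt x y = D1 * Lf a x * y.2 - D1 * Lf a y * x.2 := by
      unfold dt Lf
      ring
    rw [e]
    exact dvd_sub (hx.mul_right _) (hy.mul_right _)
  · refine ⟨D1 * a.1, mul_ne_zero hD h1, ?_⟩
    intro p _ n x y z _ _ _ hx hy _
    left
    have e : D1 * a.1 * dt x y = D1 * Lf a x * y.1 - D1 * Lf a y * x.1 := by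
      unfold dt Lf
      ring
    rw [e]
    exact dvd_sub (hx.mul_right _) (hy.mul_right _)

/-- two points at which `D1 Q` is divisible by `p ^ a` are near, or not near at all -/
theorem near_or_not {γ : ℤ × ℤ × ℤ} {D1 D : ℤ} (hD : D = γ.2.1 ^ 2 - 4 * γ.1 * γ.2.2) {p : ℕ}
    (hp : p.Prime) {a : ℕ} {x y : ℤ × ℤ} (hx : IsCoprime x.1 x.2) (hy : IsCoprime y.1 y.2)
    (h1 : (p : ℤ) ^ a ∣ D1 * Qg γ x) (h2 : (p : ℤ) ^ a ∣ D1 * Qg γ y) :
    (p : ℤ) ^ a ∣ D1 * D * dt x y ∨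
      ∃ (b : ℕ) (d : ℤ), dt x y = (p : ℤ) ^ b * d ∧ ¬ (p : ℤ) ∣ d ∧ (p : ℤ) ^ b ∣ D1 * D := by
  by_cases h0 : dt x y = 0
  · left
    rw [h0, mul_zero]
    exact dvd_zero _
  have hfin : FiniteMultiplicity (p : ℤ) (dt x y) := by
    refine Int.finiteMultiplicity_iff.2 ⟨?_, h0⟩
    simp only [Int.natAbs_natCast]
    exact hp.one_lt.ne'
  obtain ⟨d, hd, hpd⟩ := hfin.exists_eq_pow_mul_and_not_dvd
  set b := multiplicity (p : ℤ) (dt x y) with hb
  by_cases hba : a ≤ b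
  · left
    rw [hd]
    exact ((pow_dvd_pow _ hba).mul_right _).mul_left _
  push Not at hba
  have hpp : Prime (p : ℤ) := Nat.prime_iff_prime_int.1 hp
  have hp0 : (p : ℤ) ≠ 0 := hpp.ne_zero
  -- the cofactors
  have hcof : ∀ E : ℤ, (p : ℤ) ^ a ∣ D1 * (dt x y * E) → (p : ℤ) ^ (a - b) ∣ D1 * E := by
    intro E hE
    have e : D1 * (dt x y * E) = (p : ℤ) ^ b * (d * (D1 * E)) := by
      rw [hd]
      ring
    have e2 : (p : ℤ) ^ a = (p : ℤ) ^ b * (p : ℤ) ^ (a - b) := by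
      rw [← pow_add]
      congr 1
      omega
    rw [e, e2] at hE
    have h3 := (mul_dvd_mul_iff_left (pow_ne_zero b hp0)).1 hE
    have hcop : IsCoprime ((p : ℤ) ^ (a - b)) d :=
      IsCoprime.pow_left ((Prime.coprime_iff_not_dvd hpp).2 hpd)
    exact hcop.dvd_of_dvd_mul_left h3
  have hE1 : (p : ℤ) ^ (a - b) ∣ D1 * (γ.2.1 * x.1 * y.1 + γ.2.2 * (x.2 * y.1 + x.1 * y.2)) := by
    apply hcof
    have e : D1 * (dt x y * (γ.2.1 * x.1 * y.1 + γ.2.2 * (x.2 * y.1 + x.1 * y.2))) =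
        D1 * Qg γ y * x.1 ^ 2 - D1 * Qg γ x * y.1 ^ 2 := by
      unfold dt Qg
      ring
    rw [e]
    exact dvd_sub (h2.mul_right _) (h1.mul_right _)
  have hE2 : (p : ℤ) ^ (a - b) ∣ D1 * (γ.1 * (x.1 * y.2 + x.2 * y.1) + γ.2.1 * x.2 * y.2) := by
    apply hcof
    have e : D1 * (dt x y * (γ.1 * (x.1 * y.2 + x.2 * y.1) + γ.2.1 * x.2 * y.2)) =
        D1 * Qg γ x * y.2 ^ 2 - D1 * Qg γ y * x.2 ^ 2 := by
      unfold dt Qg
      ring
    rw [e]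
    exact dvd_sub (h1.mul_right _) (h2.mul_right _)
  have hM : ∀ M : ℤ, M ∣ dt x y → M ∣ (p : ℤ) ^ (a - b) → M ∣ D1 * D := by
    intro M hMt hMa
    have hMQ : M ∣ D1 * Qg γ x := (hMa.trans (pow_dvd_pow _ (Nat.sub_le _ _))).trans h1
    have hM1 := hMa.trans hE1
    have hM2 := hMa.trans hE2
    -- the derivatives
    have h12 : M ∣ D1 * (γ.2.1 * x.1 + 2 * γ.2.2 * x.2) * y.1 := by
      have e : D1 * (γ.2.1 * x.1 + 2 * γ.2.2 * x.2) * y.1 =
          D1 * (γ.2.1 * x.1 * y.1 + γ.2.2 * (x.2 * y.1 + x.1 * y.2)) -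
          dt x y * (D1 * γ.2.2) := by
        unfold dt
        ring
      rw [e]
      exact dvd_sub hM1 (hMt.mul_right _)
    have h21 : M ∣ D1 * (2 * γ.1 * x.1 + γ.2.1 * x.2) * y.2 := by
      have e : D1 * (2 * γ.1 * x.1 + γ.2.1 * x.2) * y.2 =
          D1 * (γ.1 * (x.1 * y.2 + x.2 * y.1) + γ.2.1 * x.2 * y.2) +
          dt x y * (D1 * γ.1) := by
        unfold dt
        ring
      rw [e]
      exact dvd_add hM2 (hMt.mul_right _)
    have h11 : M ∣ D1 * (2 * γ.1 * x.1 + γ.2.1 * x.2) * y.1 := by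
      refine dvd_of_pair hx ?_ ?_
      · have e : D1 * (2 * γ.1 * x.1 + γ.2.1 * x.2) * y.1 * x.1 =
            D1 * Qg γ x * (2 * y.1) - D1 * (γ.2.1 * x.1 + 2 * γ.2.2 * x.2) * y.1 * x.2 := by
          unfold Qg
          ring
        rw [e]
        exact dvd_sub (hMQ.mul_right _) (h12.mul_right _)
      · have e : D1 * (2 * γ.1 * x.1 + γ.2.1 * x.2) * y.1 * x.2 =
            D1 * (2 * γ.1 * x.1 + γ.2.1 * x.2) * y.2 * x.1 -
            dt x y * (D1 * (2 * γ.1 * x.1 + γ.2.1 * x.2)) := by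
          unfold dt
          ring
        rw [e]
        exact dvd_sub (h21.mul_right _) (hMt.mul_right _)
    have h22 : M ∣ D1 * (γ.2.1 * x.1 + 2 * γ.2.2 * x.2) * y.2 := by
      refine dvd_of_pair hx ?_ ?_
      · have e : D1 * (γ.2.1 * x.1 + 2 * γ.2.2 * x.2) * y.2 * x.1 =
            D1 * (γ.2.1 * x.1 + 2 * γ.2.2 * x.2) * y.1 * x.2 +
            dt x y * (D1 * (γ.2.1 * x.1 + 2 * γ.2.2 * x.2)) := by
          unfold dt
          ring
        rw [e]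
        exact dvd_add (h12.mul_right _) (hMt.mul_right _)
      · have e : D1 * (γ.2.1 * x.1 + 2 * γ.2.2 * x.2) * y.2 * x.2 =
            D1 * Qg γ x * (2 * y.2) - D1 * (2 * γ.1 * x.1 + γ.2.1 * x.2) * y.2 * x.1 := by
          unfold Qg
          ring
        rw [e]
        exact dvd_sub (hMQ.mul_right _) (h21.mul_right _)
    have k1 : M ∣ D1 * (2 * γ.1 * x.1 + γ.2.1 * x.2) := dvd_of_pair hy h11 h21
    have k2 : M ∣ D1 * (γ.2.1 * x.1 + 2 * γ.2.2 * x.2) := dvd_of_pair hy h12 h22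
    refine dvd_of_pair hx ?_ ?_
    · have e : D1 * D * x.1 = D1 * (γ.2.1 * x.1 + 2 * γ.2.2 * x.2) * γ.2.1 -
          D1 * (2 * γ.1 * x.1 + γ.2.1 * x.2) * (2 * γ.2.2) := by
        rw [hD]
        ring
      rw [e]
      exact dvd_sub (k2.mul_right _) (k1.mul_right _)
    · have e : D1 * D * x.2 = D1 * (2 * γ.1 * x.1 + γ.2.1 * x.2) * γ.2.1 -
          D1 * (γ.2.1 * x.1 + 2 * γ.2.2 * x.2) * (2 * γ.1) := by
        rw [hD]
        ring
      rw [e]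
      exact dvd_sub (k1.mul_right _) (k2.mul_right _)
  rcases le_total b (a - b) with hle | hle
  · right
    refine ⟨b, d, hd, hpd, hM _ ?_ (pow_dvd_pow _ hle)⟩
    rw [hd]
    exact Dvd.intro _ rfl
  · left
    have h3 := hM ((p : ℤ) ^ (a - b)) (by rw [hd]; exact (pow_dvd_pow _ hle).mul_right _) dvd_rfl
    have e2 : (p : ℤ) ^ a = (p : ℤ) ^ (a - b) * (p : ℤ) ^ b := by
      rw [← pow_add]
      congr 1
      omega
    rw [e2]
    refine mul_dvd_mul h3 ?_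
    rw [hd]
    exact Dvd.intro _ rfl

theorem tp_Q {γ : ℤ × ℤ × ℤ} (hγ : IrrQ γ) {D1 : ℤ} (hD : D1 ≠ 0) :
    ∃ D2 : ℤ, D2 ≠ 0 ∧ TP D1 (Qg γ) D2 := by
  obtain ⟨D, hDe⟩ : ∃ D : ℤ, D = γ.2.1 ^ 2 - 4 * γ.1 * γ.2.2 := ⟨_, rfl⟩
  have hD0 : D ≠ 0 := by
    intro h
    apply hγ
    rw [← hDe, h]
    exact ⟨0, by simp⟩
  have h10 := irr_fst hγ
  refine ⟨D1 * γ.1 * (D1 * D) ^ 3, mul_ne_zero (mul_ne_zero hD h10)
    (pow_ne_zero _ (mul_ne_zero hD hD0)), ?_⟩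
  intro p hp a x y z hx hy hz h1 h2 h3
  have hpp : Prime (p : ℤ) := Nat.prime_iff_prime_int.1 hp
  have up : ∀ u v : ℤ × ℤ, (p : ℤ) ^ a ∣ D1 * D * dt u v →
      (p : ℤ) ^ a ∣ D1 * γ.1 * (D1 * D) ^ 3 * dt u v := by
    intro u v h
    have e : D1 * γ.1 * (D1 * D) ^ 3 * dt u v = D1 * D * dt u v * (D1 * γ.1 * (D1 * D) ^ 2) := by
      ring
    rw [e]
    exact h.mul_right _
  rcases near_or_not hDe hp hx hy h1 h2 with h | ⟨b1, d1, e1, n1, g1⟩
  · exact Or.inl (up _ _ h)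
  rcases near_or_not hDe hp hy hz h2 h3 with h | ⟨b2, d2, e2, n2, g2⟩
  · exact Or.inr (Or.inl (up _ _ h))
  rcases near_or_not hDe hp hx hz h1 h3 with h | ⟨b3, d3, e3, n3, g3⟩
  · exact Or.inr (Or.inr (up _ _ h))
  left
  refine Dvd.dvd.mul_right ?_ _
  -- Vandermonde
  have hV : (p : ℤ) ^ a ∣ D1 * γ.1 * (dt x y * dt y z * dt x z) := by
    have e : D1 * γ.1 * (dt x y * dt y z * dt x z) =
        D1 * Qg γ x * (y.2 * z.2 * (y.1 * z.2 - y.2 * z.1)) -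
        D1 * Qg γ y * (x.2 * z.2 * (x.1 * z.2 - x.2 * z.1)) +
        D1 * Qg γ z * (x.2 * y.2 * (x.1 * y.2 - x.2 * y.1)) := by
      unfold dt Qg
      ring
    rw [e]
    exact dvd_add (dvd_sub (h1.mul_right _) (h2.mul_right _)) (h3.mul_right _)
  have hV2 : (p : ℤ) ^ a ∣ (d1 * d2 * d3) * (D1 * γ.1 * ((p : ℤ) ^ b1 * (p : ℤ) ^ b2 *
      (p : ℤ) ^ b3)) := by
    have e : (d1 * d2 * d3) * (D1 * γ.1 * ((p : ℤ) ^ b1 * (p : ℤ) ^ b2 * (p : ℤ) ^ b3)) =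
        D1 * γ.1 * (dt x y * dt y z * dt x z) := by
      rw [e1, e2, e3]
      ring
    rw [e]
    exact hV
  have hcop : IsCoprime ((p : ℤ) ^ a) (d1 * d2 * d3) := by
    apply IsCoprime.pow_left
    rw [Prime.coprime_iff_not_dvd hpp]
    intro h
    rcases hpp.dvd_or_dvd h with h | h
    · rcases hpp.dvd_or_dvd h with h | h
      · exact n1 h
      · exact n2 h
    · exact n3 h
  refine (hcop.dvd_of_dvd_mul_left hV2).trans ?_
  refine mul_dvd_mul_left _ ?_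
  have e : (D1 * D) ^ 3 = (D1 * D) * (D1 * D) * (D1 * D) := by ring
  rw [e]
  exact mul_dvd_mul (mul_dvd_mul g1 g2) g3

theorem TP.up {D1 : ℤ} {G : ℤ × ℤ → ℤ} {D2 D3 : ℤ} (h : TP D1 G D2) (hd : D2 ∣ D3) :
    TP D1 G D3 := by
  obtain ⟨w, rfl⟩ := hd
  have up : ∀ (n : ℤ) (u v : ℤ × ℤ), n ∣ D2 * dt u v → n ∣ D2 * w * dt u v := by
    intro n u v hn
    have e : D2 * w * dt u v = D2 * dt u v * w := by ring
    rw [e]
    exact hn.mul_right _
  intro p hp a x y z hx hy hz h1 h2 h3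
  rcases h p hp a x y z hx hy hz h1 h2 h3 with h | h | h
  · exact Or.inl (up _ _ _ h)
  · exact Or.inr (Or.inl (up _ _ _ h))
  · exact Or.inr (Or.inr (up _ _ _ h))

theorem local_col {ι : Type} [Nonempty ι] {Fm : ι → ℤ × ℤ → ℤ} {F : ℤ × ℤ → ℤ} {D1 C : ℤ}
    (hTP : ∀ s, TP D1 (Fm s) C)
    (hOne : ∀ p : ℕ, p.Prime → ∀ a : ℕ, ∀ x : ℤ × ℤ, IsCoprime x.1 x.2 → (p : ℤ) ^ a ∣ F x →
      ∃ s, (p : ℤ) ^ a ∣ D1 * Fm s x) {p : ℕ} (hp : p.Prime) (a : ℕ) :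
    ∃ c : ℤ × ℤ → ι × Bool, ∀ x y : ℤ × ℤ, IsCoprime x.1 x.2 → IsCoprime y.1 y.2 →
      (p : ℤ) ^ a ∣ F x → (p : ℤ) ^ a ∣ F y → c x = c y → (p : ℤ) ^ a ∣ C * dt x y := by
  classical
  have h1 : ∀ x : ℤ × ℤ, ∃ s : ι, IsCoprime x.1 x.2 → (p : ℤ) ^ a ∣ F x →
      (p : ℤ) ^ a ∣ D1 * Fm s x := by
    intro x
    by_cases hx : IsCoprime x.1 x.2 ∧ (p : ℤ) ^ a ∣ F x
    · obtain ⟨s, hs⟩ := hOne p hp a x hx.1 hx.2
      exact ⟨s, fun _ _ => hs⟩
    · exact ⟨Classical.arbitrary ι, fun h h' => absurd ⟨h, h'⟩ hx⟩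
  choose idx hidx using h1
  have h2 : ∀ s : ι, ∃ z : ℤ × ℤ, ∀ x : ℤ × ℤ, IsCoprime x.1 x.2 → (p : ℤ) ^ a ∣ D1 * Fm s x →
      IsCoprime z.1 z.2 ∧ (p : ℤ) ^ a ∣ D1 * Fm s z := by
    intro s
    by_cases h : ∃ z : ℤ × ℤ, IsCoprime z.1 z.2 ∧ (p : ℤ) ^ a ∣ D1 * Fm s z
    · obtain ⟨z, hz⟩ := h
      exact ⟨z, fun _ _ _ => hz⟩
    · exact ⟨0, fun x hx hx' => absurd ⟨x, hx, hx'⟩ h⟩
  choose z hz using h2
  refine ⟨fun x => (idx x, decide ((p : ℤ) ^ a ∣ C * dt x (z (idx x)))), ?_⟩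
  intro x y hx hy hxF hyF hc
  obtain ⟨hc1, hc2⟩ := Prod.ext_iff.1 hc
  simp only at hc1 hc2
  have gx := hidx x hx hxF
  have gy := hidx y hy hyF
  rw [← hc1] at gy
  rw [← hc1] at hc2
  obtain ⟨hz1, hz2⟩ := hz (idx x) x hx gx
  by_cases hd : (p : ℤ) ^ a ∣ C * dt x (z (idx x))
  · have hd' : (p : ℤ) ^ a ∣ C * dt y (z (idx x)) := by
      rw [decide_eq_true hd] at hc2
      exact of_decide_eq_true hc2.symm
    refine dt_trans hz1 hd ?_
    rw [dt_symm, mul_neg, dvd_neg]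
    exact hd'
  · have hd' : ¬ (p : ℤ) ^ a ∣ C * dt y (z (idx x)) := by
      rw [decide_eq_false hd] at hc2
      exact of_decide_eq_false hc2.symm
    rcases hTP (idx x) p hp a x y (z (idx x)) hx hy hz1 gx gy hz2 with h | h | h
    · exact h
    · exact absurd h hd'
    · exact absurd h hd

/-! ### The number of classes -/

theorem card_bound (M : ℕ) (hM : 1 ≤ M) {ε : ℝ} (hε : 0 < ε) : ∃ C : ℝ, 0 < C ∧ ∀ q : ℕ, 0 < q →
    (M : ℝ) ^ q.primeFactors.card ≤ C * (q : ℝ) ^ ε := by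
  have hM' : (1 : ℝ) ≤ M := by exact_mod_cast hM
  have hM0 : (0 : ℝ) < M := lt_of_lt_of_le one_pos hM'
  set P0 : ℕ := ⌈(M : ℝ) ^ (1 / ε)⌉₊ with hP0
  refine ⟨(M : ℝ) ^ P0, pow_pos hM0 _, ?_⟩
  intro q hq
  have h1 : ∀ p ∈ q.primeFactors, (M : ℝ) ≤ (if p < P0 then (M : ℝ) else 1) * (p : ℝ) ^ ε := by
    intro p hp
    have hp1 : (1 : ℝ) ≤ p := by exact_mod_cast (Nat.prime_of_mem_primeFactors hp).one_le
    split_ifs with hlt
    · have := Real.one_le_rpow hp1 hε.le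
      nlinarith
    · rw [one_mul]
      push Not at hlt
      have h2 : (M : ℝ) ^ (1 / ε) ≤ p := (Nat.le_ceil _).trans (by exact_mod_cast hlt)
      calc (M : ℝ) = ((M : ℝ) ^ (1 / ε)) ^ ε := by
            rw [← Real.rpow_mul hM0.le, one_div, inv_mul_cancel₀ hε.ne', Real.rpow_one]
        _ ≤ (p : ℝ) ^ ε := Real.rpow_le_rpow (Real.rpow_nonneg hM0.le _) h2 hε.le
  have h2 : (M : ℝ) ^ q.primeFactors.card ≤
      ∏ p ∈ q.primeFactors, ((if p < P0 then (M : ℝ) else 1) * (p : ℝ) ^ ε) := by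
    rw [← Finset.prod_const]
    exact Finset.prod_le_prod (fun _ _ => hM0.le) h1
  refine h2.trans ?_
  rw [Finset.prod_mul_distrib]
  refine mul_le_mul ?_ ?_ (Finset.prod_nonneg fun p _ => Real.rpow_nonneg (Nat.cast_nonneg p) _)
    (pow_pos hM0 _).le
  · rw [Finset.prod_ite, Finset.prod_const, Finset.prod_const_one, mul_one]
    refine pow_le_pow_right₀ hM' ?_
    have : q.primeFactors.filter (fun p => p < P0) ⊆ Finset.range P0 := by
      intro p hp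
      exact Finset.mem_range.2 (Finset.mem_filter.1 hp).2
    simpa using Finset.card_le_card this
  · rw [Real.finsetProd_rpow _ _ fun p _ => Nat.cast_nonneg p]
    refine Real.rpow_le_rpow (Finset.prod_nonneg fun p _ => Nat.cast_nonneg p) ?_ hε.le
    have h3 := Nat.le_of_dvd hq (Nat.prod_primeFactors_dvd q)
    have h4 : ((∏ p ∈ q.primeFactors, p : ℕ) : ℝ) ≤ (q : ℝ) := by exact_mod_cast h3
    rwa [Nat.cast_prod] at h4

/-! ### The family of forms -/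

/-- all the forms -/
def Fm {k m : ℕ} (α : Fin k → ℤ × ℤ) (γ : Fin m → ℤ × ℤ × ℤ) : Fin k ⊕ Fin m → ℤ × ℤ → ℤ :=
  Sum.elim (fun i => Lf (α i)) (fun j => Qg (γ j))

theorem FP_eq {k m : ℕ} (α : Fin k → ℤ × ℤ) (γ : Fin m → ℤ × ℤ × ℤ) (x : ℤ × ℤ) :
    FP α γ x = ∏ s, Fm α γ s x := by
  rw [Fintype.prod_sum_type]
  rfl

theorem alpha_ne_zero {k : ℕ} {α : Fin k → ℤ × ℤ} (hk : 3 ≤ k) (hα : Indep α) (i : Fin k) :
    α i ≠ 0 := by
  intro h
  have : ∃ j : Fin k, i ≠ j := by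
    by_cases h0 : i = ⟨0, by omega⟩
    · exact ⟨⟨1, by omega⟩, by rw [h0]; simp⟩
    · exact ⟨⟨0, by omega⟩, h0⟩
  obtain ⟨j, hj⟩ := this
  have := hα i j hj
  rw [h] at this
  simp at this

theorem exists_R {k m : ℕ} {α : Fin k → ℤ × ℤ} {γ : Fin m → ℤ × ℤ × ℤ} {e : Fin k → ℕ}
    {f : Fin m → ℕ} (h : Sys α γ e f) : ∃ R : ℤ, R ≠ 0 ∧ ∀ x : ℤ × ℤ, IsCoprime x.1 x.2 →
      ∀ s t, s ≠ t → ∀ N : ℤ, N ∣ Fm α γ s x → N ∣ Fm α γ t x → N ∣ R := by
  have h1 : ∀ st : (Fin k ⊕ Fin m) × (Fin k ⊕ Fin m), ∃ R : ℤ, R ≠ 0 ∧ (st.1 ≠ st.2 →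
      ∀ N : ℤ, ∀ x : ℤ × ℤ, IsCoprime x.1 x.2 → N ∣ Fm α γ st.1 x → N ∣ Fm α γ st.2 x →
        N ∣ R) := by
    rintro ⟨s | s, t | t⟩
    · by_cases hst : s = t
      · exact ⟨1, one_ne_zero, fun h => absurd (by rw [hst]) h⟩
      · obtain ⟨R, hR, h1⟩ := res_LL (h.ind s t hst)
        exact ⟨R, hR, fun _ => h1⟩
    · obtain ⟨R, hR, h1⟩ := res_LQ (alpha_ne_zero h.three h.ind s) (h.irr t)
      exact ⟨R, hR, fun _ => h1⟩
    · obtain ⟨R, hR, h1⟩ := res_LQ (alpha_ne_zero h.three h.ind t) (h.irr s)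
      exact ⟨R, hR, fun _ N x hx h2 h3 => h1 N x hx h3 h2⟩
    · by_cases hst : s = t
      · exact ⟨1, one_ne_zero, fun h => absurd (by rw [hst]) h⟩
      · obtain ⟨R, hR, h1⟩ := res_QQ (h.irr s) (h.npr s t hst)
        exact ⟨R, hR, fun _ => h1⟩
  choose R hR hR' using h1
  refine ⟨∏ st, R st, Finset.prod_ne_zero_iff.2 fun st _ => hR st, ?_⟩
  intro x hx s t hst N h2 h3
  exact (hR' (s, t) hst N x hx h2 h3).trans (Finset.dvd_prod_of_mem R (Finset.mem_univ (s, t)))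

theorem main : S_COL := by
  classical
  intro k m α γ e f hS ε hε
  obtain ⟨R, hR, hR'⟩ := exists_R hS
  have hk : 0 < k := lt_of_lt_of_le (by norm_num) hS.three
  have : Nonempty (Fin k ⊕ Fin m) := ⟨Sum.inl ⟨0, hk⟩⟩
  set D1 : ℤ := R ^ Fintype.card (Fin k ⊕ Fin m) with hD1
  have hD10 : D1 ≠ 0 := pow_ne_zero _ hR
  have hTP : ∀ s, ∃ D2 : ℤ, D2 ≠ 0 ∧ TP D1 (Fm α γ s) D2 := by
    rintro (s | s)
    · exact tp_L (alpha_ne_zero hS.three hS.ind s) hD10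
    · exact tp_Q (hS.irr s) hD10
  choose D2 hD2 hTP using hTP
  set C : ℤ := ∏ s, D2 s with hC
  have hC0 : C ≠ 0 := Finset.prod_ne_zero_iff.2 fun s _ => hD2 s
  have hTPC : ∀ s, TP D1 (Fm α γ s) C := fun s =>
    (hTP s).up (Finset.dvd_prod_of_mem D2 (Finset.mem_univ s))
  have hOne : ∀ p : ℕ, p.Prime → ∀ a : ℕ, ∀ x : ℤ × ℤ, IsCoprime x.1 x.2 →
      (p : ℤ) ^ a ∣ FP α γ x → ∃ s, (p : ℤ) ^ a ∣ D1 * Fm α γ s x := by
    intro p hp a x hx h
    rw [FP_eq] at h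
    rcases one_factor hR hp a (fun s => Fm α γ s x) (fun i j hij N => hR' x hx i j hij N) h
      with h | h
    · exact h
    · exact absurd h (not_isEmpty_of_nonempty _)
  obtain ⟨C1, hC1, hbound⟩ := card_bound (Fintype.card ((Fin k ⊕ Fin m) × Bool))
    Fintype.card_pos hε
  refine ⟨C1, hC1, C.natAbs, Int.natAbs_pos.2 hC0, ?_⟩
  intro q hq
  have hloc : ∀ p : q.primeFactors, ∃ c : ℤ × ℤ → (Fin k ⊕ Fin m) × Bool, ∀ x y : ℤ × ℤ,
      IsCoprime x.1 x.2 → IsCoprime y.1 y.2 → ((p : ℕ) : ℤ) ^ (q.factorization p) ∣ FP α γ x →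
      ((p : ℕ) : ℤ) ^ (q.factorization p) ∣ FP α γ y → c x = c y →
      ((p : ℕ) : ℤ) ^ (q.factorization p) ∣ C * dt x y := fun p =>
    local_col hTPC hOne (Nat.prime_of_mem_primeFactors p.2) _
  choose c hc using hloc
  let T := q.primeFactors → (Fin k ⊕ Fin m) × Bool
  let en : T ≃ Fin (Fintype.card T) := Fintype.equivFin T
  refine ⟨fun x => (en fun p => c p x : Fin (Fintype.card T)), ?_, ?_⟩
  · intro x _ _
    have h1 : ((en fun p => c p x : Fin (Fintype.card T)) : ℕ) < Fintype.card T :=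
      (en fun p => c p x).2
    have h2 : Fintype.card T = Fintype.card ((Fin k ⊕ Fin m) × Bool) ^ q.primeFactors.card := by
      rw [Fintype.card_fun, Fintype.card_coe]
    have h3 := hbound q hq
    refine lt_of_lt_of_le ?_ h3
    exact_mod_cast lt_of_lt_of_eq h1 h2
  · intro x y hx hy hxF hyF hcol
    have h1 : (fun p => c p x) = fun p => c p y := en.injective (Fin.ext hcol)
    have h2 : ∀ p : q.primeFactors, ((p : ℕ) : ℤ) ^ (q.factorization p) ∣ C * dt x y := by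
      intro p
      have hpq : ((p : ℕ) : ℤ) ^ (q.factorization p) ∣ (q : ℤ) := by
        exact_mod_cast Nat.ordProj_dvd q p
      exact hc p x y hx hy (hpq.trans hxF) (hpq.trans hyF) (congrFun h1 p)
    have h3 : (q : ℤ) ∣ C * dt x y := by
      rw [← Int.natAbs_dvd_natAbs, Int.natAbs_natCast, Nat.dvd_iff_prime_pow_dvd_dvd]
      intro p j hp hj
      rcases Nat.eq_zero_or_pos j with rfl | hj0
      · simp
      have hpq : p ∣ q := (dvd_pow_self p hj0.ne').trans hj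
      have hpm : p ∈ q.primeFactors := Nat.mem_primeFactors.2 ⟨hp, hpq, hq.ne'⟩
      have h4 := h2 ⟨p, hpm⟩
      have h5 : j ≤ q.factorization p := (hp.pow_dvd_iff_le_factorization hq.ne').1 hj
      have h6 : p ^ (q.factorization p) ∣ (C * dt x y).natAbs := by
        have := Int.natAbs_dvd_natAbs.2 h4
        rwa [Int.natAbs_pow, Int.natAbs_natCast] at this
      exact (pow_dvd_pow p h5).trans h6
    have h7 : ((C.natAbs : ℕ) : ℤ) * (x.1 * y.2 - x.2 * y.1) = C * dt x y ∨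
        ((C.natAbs : ℕ) : ℤ) * (x.1 * y.2 - x.2 * y.1) = -(C * dt x y) := by
      unfold dt
      rcases Int.natAbs_eq C with h | h
      · left
        rw [← h]
      · right
        have : ((C.natAbs : ℕ) : ℤ) = -C := by omega
        rw [this]
        ring
    rcases h7 with h | h
    · rw [h]
      exact h3
    · rw [h, dvd_neg]
      exact h3

end Pool.Agent.L0h46.TS.COL
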