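import Mathlib
import Pool.Agent.L0h46.TQ.Defs2

/-!
# Project TS: the Szpiro quotient of the fibres of semistable elliptic surfaces by conductor;
statements of the parts

`k ≥ 3` linear forms and `m` irreducible quadratic forms over `ℤ`, pairwise not proportional,
`F` their product (of degree `d = k + 2 m`), `F_e` the product of powers of them, `N(x)` a function
comparable with the radical of `F(x)`, `D(x)` a function comparable with `F_e(x)`.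
-/

set_option autoImplicit false

namespace Pool.Agent.L0h46.TS

open Finset Filter Topology MeasureTheory
open Pool.Agent.L0h46.TQ (Nrm Lf htn Indep lg hh N1)

/-! ### Forms -/

/-- the quadratic form with the coefficients `γ` -/
def Qg (γ : ℤ × ℤ × ℤ) (x : ℤ × ℤ) : ℤ := γ.1 * x.1 ^ 2 + γ.2.1 * x.1 * x.2 + γ.2.2 * x.2 ^ 2

/-- the form is irreducible over `ℚ` -/
def IrrQ (γ : ℤ × ℤ × ℤ) : Prop := ¬ IsSquare (γ.2.1 ^ 2 - 4 * γ.1 * γ.2.2)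

/-- the two quadratic forms are not proportional -/
def Npr (γ γ' : ℤ × ℤ × ℤ) : Prop := γ.1 * γ'.2.1 ≠ γ.2.1 * γ'.1 ∨ γ.1 * γ'.2.2 ≠ γ.2.2 * γ'.1

/-- at least three linear forms, irreducible quadratic forms, pairwise not proportional, positive
exponents -/
structure Sys {k m : ℕ} (α : Fin k → ℤ × ℤ) (γ : Fin m → ℤ × ℤ × ℤ) (e : Fin k → ℕ)
    (f : Fin m → ℕ) : Prop where
  three : 3 ≤ k
  ind : Indep α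
  irr : ∀ j, IrrQ (γ j)
  npr : ∀ i j, i ≠ j → Npr (γ i) (γ j)
  e1 : ∀ i, 1 ≤ e i
  f1 : ∀ j, 1 ≤ f j

/-- the product of the forms -/
def FP {k m : ℕ} (α : Fin k → ℤ × ℤ) (γ : Fin m → ℤ × ℤ × ℤ) (x : ℤ × ℤ) : ℤ :=
  (∏ i, Lf (α i) x) * ∏ j, Qg (γ j) x

/-- the product of the powers of the forms (absolute values) -/
def FE {k m : ℕ} (α : Fin k → ℤ × ℤ) (γ : Fin m → ℤ × ℤ × ℤ) (e : Fin k → ℕ) (f : Fin m → ℕ)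
    (x : ℤ × ℤ) : ℕ := (∏ i, (Lf (α i) x).natAbs ^ e i) * ∏ j, (Qg (γ j) x).natAbs ^ f j

/-- the degree of `FE` -/
def wt {k m : ℕ} (e : Fin k → ℕ) (f : Fin m → ℕ) : ℕ := ∑ i, e i + 2 * ∑ j, f j

/-- the degree of `FP` -/
noncomputable def dg (k m : ℕ) : ℝ := (k : ℝ) + 2 * m

/-- the exponent `r` -/
noncomputable def rr {k m : ℕ} (e : Fin k → ℕ) (f : Fin m → ℕ) : ℝ := (wt e f : ℝ) / dg k m

/-- coprime coordinates, no form vanishes -/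
def Gd {k m : ℕ} (α : Fin k → ℤ × ℤ) (γ : Fin m → ℤ × ℤ × ℤ) (x : ℤ × ℤ) : Prop :=
  IsCoprime x.1 x.2 ∧ FP α γ x ≠ 0

/-- the product of the primes dividing `n` -/
def radN (n : ℤ) : ℕ := ∏ p ∈ n.natAbs.primeFactors, p

/-- the quotient `|n| / rad n` -/
def exc (n : ℤ) : ℕ := n.natAbs / radN n

/-! ### Arithmetic functions -/

/-- for the points with `|F| / rad F ≤ T` the quotients `N / |F|` and `D / F_e` depend only on the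
point modulo `q` -/
def Per {k m : ℕ} (α : Fin k → ℤ × ℤ) (γ : Fin m → ℤ × ℤ × ℤ) (e : Fin k → ℕ)
    (f : Fin m → ℕ) (N D : ℤ × ℤ → ℕ) (T q : ℕ) : Prop :=
  ∀ x y, Gd α γ x → Gd α γ y → (q : ℤ) ∣ x.1 - y.1 → (q : ℤ) ∣ x.2 - y.2 →
    exc (FP α γ x) ≤ T → exc (FP α γ y) ≤ T →
    N x * (FP α γ y).natAbs = N y * (FP α γ x).natAbs ∧ D x * FE α γ e f y = D y * FE α γ e f x

/-- `N` is comparable with the radical of `F` and `D` with `F_e`, up to constants; if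
`|F| / rad F` is bounded then the quotients `N / |F|` and `D / F_e` depend only on the point
modulo some `q` -/
structure AF {k m : ℕ} (α : Fin k → ℤ × ℤ) (γ : Fin m → ℤ × ℤ × ℤ) (e : Fin k → ℕ)
    (f : Fin m → ℕ) (N D : ℤ × ℤ → ℕ) : Prop where
  pos : ∀ x, Gd α γ x → 1 ≤ N x ∧ 1 ≤ D x
  bd : ∃ C : ℕ, 0 < C ∧ ∀ x, Gd α γ x → radN (FP α γ x) ≤ C * N x ∧ N x ≤ C * radN (FP α γ x) ∧
    D x ≤ C * FE α γ e f x ∧ FE α γ e f x ≤ C * D x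
  per : ∀ T : ℕ, ∃ q : ℕ, 0 < q ∧ Per α γ e f N D T q

/-- the points `x` with `N x ≤ X` (and of height at most `X ^ A` if there are quadratic forms) -/
def Pt {k m : ℕ} (α : Fin k → ℤ × ℤ) (γ : Fin m → ℤ × ℤ × ℤ) (N : ℤ × ℤ → ℕ) (A X : ℝ) :
    Set (ℤ × ℤ) :=
  {x | Nrm x ∧ FP α γ x ≠ 0 ∧ (m = 0 ∨ (htn x : ℝ) ≤ X ^ A) ∧ (N x : ℝ) ≤ X}

/-- `D ≤ y N ^ r`, no condition if `y ≤ 0` -/
def Cy (N D : ℤ × ℤ → ℕ) (r y : ℝ) (x : ℤ × ℤ) : Prop := y ≤ 0 ∨ (D x : ℝ) ≤ y * (N x : ℝ) ^ r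

/-- the number of the points with `N ≤ X` and `D ≤ y N ^ r` is `(Φ y + o(1)) X ^ (2 / d)` -/
def Lim {k m : ℕ} (α : Fin k → ℤ × ℤ) (γ : Fin m → ℤ × ℤ × ℤ) (e : Fin k → ℕ)
    (f : Fin m → ℕ) (N D : ℤ × ℤ → ℕ) (Φ : ℝ → ℝ) : Prop :=
  (∀ A X : ℝ, 1 ≤ X → (Pt α γ N A X).Finite) ∧
  ∀ y A : ℝ, 1 / dg k m < A → Tendsto (fun X : ℝ =>
    (({x | x ∈ Pt α γ N A X ∧ Cy N D (rr e f) y x} : Set (ℤ × ℤ)).ncard : ℝ) / X ^ (2 / dg k m))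
      atTop (𝓝 (Φ y))

/-! ### Counting -/

/-- LC: lattice points in large multiples of a bounded set with a null boundary. -/
def S_LC : Prop := ∀ R : Set (ℝ × ℝ), Bornology.IsBounded R → MeasurableSet R →
  volume (frontier R) = 0 → ∀ q : ℕ, 0 < q → ∀ ξ : ℤ × ℤ,
  Tendsto (fun t : ℝ => (({x : ℤ × ℤ | (q : ℤ) ∣ x.1 - ξ.1 ∧ (q : ℤ) ∣ x.2 - ξ.2 ∧
    ((x.1 : ℝ) / t, (x.2 : ℝ) / t) ∈ R} : Set (ℤ × ℤ)).ncard : ℝ) / t ^ 2) atTop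
    (𝓝 (volume.real R / (q : ℝ) ^ 2))

/-- powerful numbers -/
def Pwf (q : ℕ) : Prop := 0 < q ∧ ∀ p : ℕ, p.Prime → p ∣ q → p ^ 2 ∣ q

/-- SMQ: sums over powerful numbers. -/
def S_SMQ : Prop := ∃ C : ℝ, 0 < C ∧
  (∀ T : ℝ, 1 ≤ T → ∀ E : Finset ℕ, (∀ q ∈ E, Pwf q ∧ T ≤ (exc q : ℝ)) →
    ∑ q ∈ E, (q : ℝ) ^ (-(19 / 20) : ℝ) ≤ C * T ^ (-(4 / 5) : ℝ)) ∧
  ∀ Z : ℝ, 1 ≤ Z → ∀ E : Finset ℕ, (∀ q ∈ E, Pwf q ∧ (q : ℝ) ≤ Z) →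
    (E.card : ℝ) ≤ C * Z ^ ((1 : ℝ) / 2)

/-- COL: the points at which `q` divides `F` fall into few classes, the determinant of two points of
one class is essentially divisible by `q`. -/
def S_COL : Prop := ∀ (k m : ℕ) (α : Fin k → ℤ × ℤ) (γ : Fin m → ℤ × ℤ × ℤ) (e : Fin k → ℕ)
  (f : Fin m → ℕ), Sys α γ e f → ∀ ε : ℝ, 0 < ε → ∃ C : ℝ, 0 < C ∧ ∃ C0 : ℕ, 0 < C0 ∧
  ∀ q : ℕ, 0 < q → ∃ col : ℤ × ℤ → ℕ,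
    (∀ x, IsCoprime x.1 x.2 → (q : ℤ) ∣ FP α γ x → (col x : ℝ) < C * (q : ℝ) ^ ε) ∧
    ∀ x y, IsCoprime x.1 x.2 → IsCoprime y.1 y.2 → (q : ℤ) ∣ FP α γ x → (q : ℤ) ∣ FP α γ y →
      col x = col y → (q : ℤ) ∣ C0 * (x.1 * y.2 - x.2 * y.1)

/-- a real linear form -/
def LR (ρ : ℝ × ℝ) (x : ℤ × ℤ) : ℝ := x.1 * ρ.2 - x.2 * ρ.1

/-- LAT: points near a line with determinants divisible by `q`. -/
def S_LAT : Prop := ∀ ρ : ℝ × ℝ, ρ ≠ 0 → ∃ C : ℝ, 0 < C ∧ ∀ H lam : ℝ, 1 / 2 ≤ H → 0 < lam →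
  ∀ q C0 : ℕ, 0 < q → 0 < C0 → ∀ E : Finset (ℤ × ℤ),
    (∀ x ∈ E, IsCoprime x.1 x.2 ∧ H < (htn x : ℝ) ∧ (htn x : ℝ) ≤ 2 * H ∧ |LR ρ x| ≤ lam * H) →
    (∀ x ∈ E, ∀ y ∈ E, (q : ℤ) ∣ C0 * (x.1 * y.2 - x.2 * y.1)) →
    (E.card : ℝ) ≤ C * (1 + C0 * lam * H ^ 2 / q)

/-- CNT: the points near a line at which `q` divides `F`. -/
def S_CNT : Prop := ∀ (k m : ℕ) (α : Fin k → ℤ × ℤ) (γ : Fin m → ℤ × ℤ × ℤ) (e : Fin k → ℕ)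
  (f : Fin m → ℕ), Sys α γ e f → ∀ ρ : ℝ × ℝ, ρ ≠ 0 → ∃ C : ℝ, 0 < C ∧
  ∀ H lam : ℝ, 1 / 2 ≤ H → 0 < lam → ∀ q : ℕ, 0 < q → ∀ E : Finset (ℤ × ℤ),
    (∀ x ∈ E, IsCoprime x.1 x.2 ∧ H < (htn x : ℝ) ∧ (htn x : ℝ) ≤ 2 * H ∧ |LR ρ x| ≤ lam * H ∧
      (q : ℤ) ∣ FP α γ x) →
    (E.card : ℝ) ≤ C * (q : ℝ) ^ ((1 : ℝ) / 20) * (1 + lam * H ^ 2 / q)

/-- NR: one of the real linear factors is small if the forms are small. -/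
def S_NR : Prop := ∀ (k m : ℕ) (α : Fin k → ℤ × ℤ) (γ : Fin m → ℤ × ℤ × ℤ) (e : Fin k → ℕ)
  (f : Fin m → ℕ), Sys α γ e f → ∃ (s : ℕ) (ρ : Fin s → ℝ × ℝ) (C : ℝ) (E : ℕ), 0 < C ∧
  1 ≤ E ∧ E ≤ wt e f ∧ (∀ j, ρ j ≠ 0) ∧ ∀ x : ℤ × ℤ, ∃ j,
    |LR (ρ j) x| * (htn x : ℝ) ^ (k + 2 * m - 1) ≤ C * |(FP α γ x : ℝ)| ∧
    |LR (ρ j) x| ^ E * (htn x : ℝ) ^ (wt e f - E) ≤ C * (FE α γ e f x : ℝ)

/-- SEC: points near a line. -/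
def S_SEC : Prop := ∀ ρ : ℝ × ℝ, ρ ≠ 0 → ∃ C : ℝ, 0 < C ∧ ∀ H lam : ℝ, 1 ≤ H → 0 ≤ lam →
  ∀ E : Finset (ℤ × ℤ), (∀ x ∈ E, (htn x : ℝ) ≤ H ∧ |LR ρ x| ≤ lam * H) →
    (E.card : ℝ) ≤ C * (lam * H ^ 2 + H)

/-- POW: the points with a large powerful part. -/
def S_POW : Prop := ∀ (k m : ℕ) (α : Fin k → ℤ × ℤ) (γ : Fin m → ℤ × ℤ × ℤ) (e : Fin k → ℕ)
  (f : Fin m → ℕ), Sys α γ e f → ∃ C : ℝ, 0 < C ∧ ∀ H T : ℝ, 1 ≤ H → 1 ≤ T →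
  ∀ E : Finset (ℤ × ℤ), (∀ x ∈ E, Gd α γ x ∧ (htn x : ℝ) ≤ H ∧ T ≤ (exc (FP α γ x) : ℝ)) →
    (E.card : ℝ) ≤ C * (H ^ 2 * T ^ (-(4 / 5) : ℝ) + H ^ ((9 : ℝ) / 5))

/-- TLA: the points of height slightly larger than `X ^ (1 / d)`. -/
def S_TLA : Prop := ∀ (k m : ℕ) (α : Fin k → ℤ × ℤ) (γ : Fin m → ℤ × ℤ × ℤ) (e : Fin k → ℕ)
  (f : Fin m → ℕ), Sys α γ e f → ∃ δ c C : ℝ, 0 < δ ∧ 0 < c ∧ 0 < C ∧ ∀ X H : ℝ, 1 ≤ X →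
  X ^ (1 / dg k m) ≤ H → H ≤ X ^ (1 / dg k m + δ) → ∀ E : Finset (ℤ × ℤ),
    (∀ x ∈ E, Gd α γ x ∧ H < (htn x : ℝ) ∧ (htn x : ℝ) ≤ 2 * H ∧
      (radN (FP α γ x) : ℝ) ≤ X) →
    (E.card : ℝ) ≤ C * (X ^ (2 / dg k m) * (H / X ^ (1 / dg k m)) ^ (-c) +
      X ^ (2 / dg k m - c))

/-- the logarithm of the product of all the radicals -/
noncomputable def NG {k m : ℕ} (α : Fin k → ℤ × ℤ) (γ : Fin m → ℤ × ℤ × ℤ) (S : Finset ℕ)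
    (x : ℤ × ℤ) : ℝ := N1 α S x + ∑ j, lg S (Qg (γ j) x)

/-- CEG: `CE` of project TQ for arbitrary (not monic) quadratic forms. -/
def S_CEG : Prop := ∀ (k m : ℕ), 3 ≤ k → ∀ (α : Fin k → ℤ × ℤ) (γ : Fin m → ℤ × ℤ × ℤ)
  (S : Finset ℕ), Indep α → (∀ j, IrrQ (γ j)) → ∀ B A δ : ℝ, 0 < δ → ∃ η : ℝ, 0 < η ∧
    ∃ C : ℝ, 0 < C ∧ ∀ X : ℝ, 1 ≤ X →
    (({x | Nrm x ∧ (∀ i, Lf (α i) x ≠ 0) ∧ (htn x : ℝ) ≤ B * X ^ A ∧ NG α γ S x ≤ Real.log X ∧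
      NG α γ S x < (dg k m - δ) * hh x} : Set (ℤ × ℤ)).ncard : ℝ) ≤ C * X ^ (2 / dg k m - η)

/-- RED -/
def S_RED : Prop := Pool.Agent.L0h46.TQ.S_CE → S_CEG

/-- the points with `rad F ≤ X` (and of height at most `X ^ A` if there are quadratic forms) -/
def PtR {k m : ℕ} (α : Fin k → ℤ × ℤ) (γ : Fin m → ℤ × ℤ × ℤ) (A X : ℝ) : Set (ℤ × ℤ) :=
  {x | Nrm x ∧ FP α γ x ≠ 0 ∧ (m = 0 ∨ (htn x : ℝ) ≤ X ^ A) ∧ (radN (FP α γ x) : ℝ) ≤ X}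

/-- TLB: the points of height much larger than `X ^ (1 / d)`. -/
def S_TLB : Prop := ∀ (k m : ℕ) (α : Fin k → ℤ × ℤ) (γ : Fin m → ℤ × ℤ × ℤ) (e : Fin k → ℕ)
  (f : Fin m → ℕ), Sys α γ e f → ∀ A δ : ℝ, 0 < δ → ∃ η C : ℝ, 0 < η ∧ 0 < C ∧
  ∀ X : ℝ, 1 ≤ X → (PtR α γ A X).Finite ∧
    (({x | x ∈ PtR α γ A X ∧ X ^ (1 / dg k m + δ) ≤ (htn x : ℝ)} : Set (ℤ × ℤ)).ncard : ℝ) ≤
      C * X ^ (2 / dg k m - η)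

/-! ### The limit law -/

/-- real forms -/
noncomputable def FR {k m : ℕ} (α : Fin k → ℤ × ℤ) (γ : Fin m → ℤ × ℤ × ℤ) (z : ℝ × ℝ) : ℝ :=
  |(∏ i, (z.1 * (α i).2 - z.2 * (α i).1)) *
    ∏ j, ((γ j).1 * z.1 ^ 2 + (γ j).2.1 * z.1 * z.2 + (γ j).2.2 * z.2 ^ 2)|

/-- real forms -/
noncomputable def FER {k m : ℕ} (α : Fin k → ℤ × ℤ) (γ : Fin m → ℤ × ℤ × ℤ) (e : Fin k → ℕ)
    (f : Fin m → ℕ) (z : ℝ × ℝ) : ℝ :=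
  (∏ i, |z.1 * (α i).2 - z.2 * (α i).1| ^ e i) *
    ∏ j, |(γ j).1 * z.1 ^ 2 + (γ j).2.1 * z.1 * z.2 + (γ j).2.2 * z.2 ^ 2| ^ f j

/-- the region -/
def Reg {k m : ℕ} (α : Fin k → ℤ × ℤ) (γ : Fin m → ℤ × ℤ × ℤ) (e : Fin k → ℕ)
    (f : Fin m → ℕ) (K a b y : ℝ) : Set (ℝ × ℝ) :=
  {z | 0 < z.2 ∧ |z.1| ≤ K ∧ |z.2| ≤ K ∧ a * FR α γ z ≤ 1 ∧
    (y ≤ 0 ∨ b * FER α γ e f z ≤ y * (a * FR α γ z) ^ rr e f)}

/-- REG: the region is bounded and measurable with a null boundary. -/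
def S_REG : Prop := ∀ (k m : ℕ) (α : Fin k → ℤ × ℤ) (γ : Fin m → ℤ × ℤ × ℤ) (e : Fin k → ℕ)
  (f : Fin m → ℕ), Sys α γ e f → ∀ K a b y : ℝ, 0 < K → 0 < a → 0 < b →
  Bornology.IsBounded (Reg α γ e f K a b y) ∧ MeasurableSet (Reg α γ e f K a b y) ∧
    volume (frontier (Reg α γ e f K a b y)) = 0

/-- the points of height at most `K X ^ (1 / d)` in the upper half plane which are congruent modulo
`q` to a point `ξ` with `|F| / rad F ≤ T`, at which the conditions hold with `N`, `D` replaced by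
the values computed from those at `ξ` -/
def GS {k m : ℕ} (α : Fin k → ℤ × ℤ) (γ : Fin m → ℤ × ℤ × ℤ) (e : Fin k → ℕ)
    (f : Fin m → ℕ) (N D : ℤ × ℤ → ℕ) (T q : ℕ) (K y X : ℝ) : Set (ℤ × ℤ) :=
  {x | 0 < x.2 ∧ (htn x : ℝ) ≤ K * X ^ (1 / dg k m) ∧ ∃ ξ : ℤ × ℤ, Gd α γ ξ ∧
    exc (FP α γ ξ) ≤ T ∧ (q : ℤ) ∣ x.1 - ξ.1 ∧ (q : ℤ) ∣ x.2 - ξ.2 ∧
    (N ξ : ℝ) / |(FP α γ ξ : ℝ)| * |(FP α γ x : ℝ)| ≤ X ∧
    (y ≤ 0 ∨ (D ξ : ℝ) / (FE α γ e f ξ : ℝ) * (FE α γ e f x : ℝ) ≤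
      y * ((N ξ : ℝ) / |(FP α γ ξ : ℝ)| * |(FP α γ x : ℝ)|) ^ rr e f)}

/-- GLM: the number of the points of `GS`. -/
def S_GLM : Prop := ∀ (k m : ℕ) (α : Fin k → ℤ × ℤ) (γ : Fin m → ℤ × ℤ × ℤ) (e : Fin k → ℕ)
  (f : Fin m → ℕ), Sys α γ e f → ∀ N D : ℤ × ℤ → ℕ, AF α γ e f N D → ∀ T q : ℕ, 0 < q →
  Per α γ e f N D T q → ∀ K y : ℝ, 0 < K → ∃ L : ℝ, Tendsto (fun X : ℝ =>
    ((GS α γ e f N D T q K y X).ncard : ℝ) / X ^ (2 / dg k m)) atTop (𝓝 L)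

/-- GDF: the difference of the numbers. -/
def S_GDF : Prop := ∀ (k m : ℕ) (α : Fin k → ℤ × ℤ) (γ : Fin m → ℤ × ℤ × ℤ) (e : Fin k → ℕ)
  (f : Fin m → ℕ), Sys α γ e f → ∀ N D : ℤ × ℤ → ℕ, AF α γ e f N D → ∃ C c : ℝ, 0 < C ∧ 0 < c ∧
  ∀ y A : ℝ, 1 / dg k m < A → ∀ (K : ℝ) (T q : ℕ), 1 ≤ K → 1 ≤ T → 0 < q →
  Per α γ e f N D T q → (∀ p : ℕ, p.Prime → p ≤ T → p ∣ q) → ∀ᶠ X : ℝ in atTop,
    |(({x | x ∈ Pt α γ N A X ∧ Cy N D (rr e f) y x} : Set (ℤ × ℤ)).ncard : ℝ) -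
      ((GS α γ e f N D T q K y X).ncard : ℝ)| ≤
      C * (K ^ (-c) + K ^ 2 * (T : ℝ) ^ (-(4 / 5) : ℝ)) * X ^ (2 / dg k m)

/-- TLK: all the points of height at least `K X ^ (1 / d)`. -/
def S_TLK : Prop := ∀ (k m : ℕ) (α : Fin k → ℤ × ℤ) (γ : Fin m → ℤ × ℤ × ℤ) (e : Fin k → ℕ)
  (f : Fin m → ℕ), Sys α γ e f → ∃ C c : ℝ, 0 < C ∧ 0 < c ∧ ∀ (A K : ℝ), 1 ≤ K →
  ∀ᶠ X : ℝ in atTop, (({x | x ∈ PtR α γ A X ∧ K * X ^ (1 / dg k m) < (htn x : ℝ)} :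
    Set (ℤ × ℤ)).ncard : ℝ) ≤ C * K ^ (-c) * X ^ (2 / dg k m)

/-- LIM: existence of the limits. -/
def S_LIM : Prop := ∀ (k m : ℕ) (α : Fin k → ℤ × ℤ) (γ : Fin m → ℤ × ℤ × ℤ) (e : Fin k → ℕ)
  (f : Fin m → ℕ), Sys α γ e f → ∀ N D : ℤ × ℤ → ℕ, AF α γ e f N D → ∃ Φ : ℝ → ℝ,
  Lim α γ e f N D Φ

/-- LM2: the limits at `0` and at infinity. -/
def S_LM2 : Prop := ∀ (k m : ℕ) (α : Fin k → ℤ × ℤ) (γ : Fin m → ℤ × ℤ × ℤ) (e : Fin k → ℕ)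
  (f : Fin m → ℕ), Sys α γ e f → ∀ N D : ℤ × ℤ → ℕ, AF α γ e f N D → ∀ Φ : ℝ → ℝ,
  Lim α γ e f N D Φ → 0 < Φ 0 ∧ MonotoneOn Φ (Set.Ioi 0) ∧ Tendsto Φ (𝓝[>] 0) (𝓝 0) ∧
    Tendsto Φ atTop (𝓝 (Φ 0))

/-- PSI: `N ^ r / ψ(N) ≤ D ≤ ψ(N) N ^ r` for almost all points. -/
def S_PSI : Prop := ∀ (k m : ℕ) (α : Fin k → ℤ × ℤ) (γ : Fin m → ℤ × ℤ × ℤ) (e : Fin k → ℕ)
  (f : Fin m → ℕ), Sys α γ e f → ∀ N D : ℤ × ℤ → ℕ, AF α γ e f N D → ∀ Φ : ℝ → ℝ,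
  Lim α γ e f N D Φ → ∀ ψ : ℕ → ℝ, Tendsto ψ atTop atTop → ∀ A : ℝ, 1 / dg k m < A →
  Tendsto (fun X : ℝ => (({x | x ∈ Pt α γ N A X ∧ ¬((N x : ℝ) ^ rr e f ≤ ψ (N x) * D x ∧
    (D x : ℝ) ≤ ψ (N x) * (N x : ℝ) ^ rr e f)} : Set (ℤ × ℤ)).ncard : ℝ) / X ^ (2 / dg k m))
      atTop (𝓝 0)

/-- PSV: the power saving. -/
def S_PSV : Prop := ∀ (k m : ℕ) (α : Fin k → ℤ × ℤ) (γ : Fin m → ℤ × ℤ × ℤ) (e : Fin k → ℕ)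
  (f : Fin m → ℕ), Sys α γ e f → ∀ N D : ℤ × ℤ → ℕ, AF α γ e f N D → ∀ A δ : ℝ, 0 < δ →
  ∃ η C : ℝ, 0 < η ∧ 0 < C ∧ ∀ X : ℝ, 1 ≤ X →
    (({x | x ∈ Pt α γ N A X ∧ ¬((N x : ℝ) ^ (rr e f - δ) ≤ D x ∧
      (D x : ℝ) ≤ (N x : ℝ) ^ (rr e f + δ))} : Set (ℤ × ℤ)).ncard : ℝ) ≤
        C * X ^ (2 / dg k m - η)

/-- HTD: bounds for `D` and for the height. -/
def S_HTD : Prop := ∀ (k m : ℕ) (α : Fin k → ℤ × ℤ) (γ : Fin m → ℤ × ℤ × ℤ) (e : Fin k → ℕ)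
  (f : Fin m → ℕ), Sys α γ e f → ∀ N D : ℤ × ℤ → ℕ, AF α γ e f N D →
  (∀ A' : ℝ, ∃ A : ℝ, 1 / dg k m < A ∧ ∀ X : ℝ, 2 ≤ X → ∀ x, Gd α γ x → (D x : ℝ) ≤ X ^ A' →
    (htn x : ℝ) ≤ X ^ A) ∧
  (∀ A' : ℝ, rr e f < A' → ∃ A : ℝ, 1 / dg k m < A ∧ ∃ X₀ : ℝ, ∀ X : ℝ, X₀ ≤ X → ∀ x,
    Gd α γ x → (htn x : ℝ) ≤ X ^ A → (D x : ℝ) ≤ X ^ A')

/-! ### Elliptic surfaces -/

/-- isomorphic over `ℚ` -/
def Iso (E W : WeierstrassCurve ℚ) : Prop := ∃ C : WeierstrassCurve.VariableChange ℚ, C • E = W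

/-- the coefficients are integral at `p` -/
def PInt (p : ℕ) (W : WeierstrassCurve ℚ) : Prop :=
  ¬ p ∣ W.a₁.den ∧ ¬ p ∣ W.a₂.den ∧ ¬ p ∣ W.a₃.den ∧ ¬ p ∣ W.a₄.den ∧ ¬ p ∣ W.a₆.den

/-- the exponent of `p` in the minimal discriminant: the least valuation of the discriminant of a
Weierstrass equation of `E` with `p`-integral coefficients -/
noncomputable def locMin (p : ℕ) (E : WeierstrassCurve ℚ) : ℕ :=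
  sInf {v : ℕ | ∃ W : WeierstrassCurve ℚ, Iso E W ∧ PInt p W ∧ padicValRat p W.Δ = v}

/-- the (absolute value of the) minimal discriminant -/
noncomputable def minDisc (E : WeierstrassCurve ℚ) : ℕ := ∏ᶠ p : Nat.Primes, (p : ℕ) ^ locMin p E

/-- the product of the primes of bad reduction -/
noncomputable def badProd (E : WeierstrassCurve ℚ) : ℕ := ∏ p ∈ (minDisc E).primeFactors, p

/-- the fibre `y² = x³ - 27 A(t) x - 54 B(t)`, with `c₄ = 6⁴ A(t)`, `c₆ = 6⁶ B(t)` -/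
noncomputable def fib (A B : Polynomial ℤ) (t : ℚ) : WeierstrassCurve ℚ :=
  ⟨0, 0, 0, -27 * Polynomial.aeval t A, -54 * Polynomial.aeval t B⟩

/-- the values of the form of degree `d` attached to a polynomial -/
def hom (g : Polynomial ℤ) (d : ℕ) (x : ℤ × ℤ) : ℤ :=
  ∑ j ∈ range (d + 1), g.coeff j * x.1 ^ j * x.2 ^ (d - j)

/-- the fibre over `(u : v)` with integral coefficients -/
def HE (A B : Polynomial ℤ) (n : ℕ) (x : ℤ × ℤ) : WeierstrassCurve ℚ :=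
  ⟨0, 0, 0, -27 * (hom A (4 * n) x : ℚ), -54 * (hom B (6 * n) x : ℚ)⟩

/-- the polynomial of a linear form -/
noncomputable def lpol (a : ℤ × ℤ) : Polynomial ℤ :=
  Polynomial.C a.2 * Polynomial.X - Polynomial.C a.1

/-- the polynomial of a quadratic form -/
noncomputable def qpol (g : ℤ × ℤ × ℤ) : Polynomial ℤ :=
  Polynomial.C g.1 * Polynomial.X ^ 2 + Polynomial.C g.2.1 * Polynomial.X + Polynomial.C g.2.2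

/-- a semistable elliptic surface over the line with at least three rational bad fibres, the
others over quadratic points, with a smooth fibre at infinity -/
structure Surf {k m : ℕ} (n : ℕ) (A B : Polynomial ℤ) (α : Fin k → ℤ × ℤ)
    (γ : Fin m → ℤ × ℤ × ℤ) (e : Fin k → ℕ) (f : Fin m → ℕ) (c : ℤ) : Prop where
  sys : Sys α γ e f
  n1 : 1 ≤ n
  dA : A.natDegree ≤ 4 * n
  dB : B.natDegree ≤ 6 * n
  cop : IsCoprime (A.map (Int.castRingHom ℚ)) (B.map (Int.castRingHom ℚ))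
  c0 : c ≠ 0
  fac : A ^ 3 - B ^ 2 = Polynomial.C c * (∏ i, lpol (α i) ^ e i) * ∏ j, qpol (γ j) ^ f j
  inf : ∀ i, (α i).2 ≠ 0
  deg : wt e f = 12 * n

/-- FBA: the local minimal discriminant, bounds. -/
def S_FBA : Prop := ∀ (k m n : ℕ) (A B : Polynomial ℤ) (α : Fin k → ℤ × ℤ)
  (γ : Fin m → ℤ × ℤ × ℤ) (e : Fin k → ℕ) (f : Fin m → ℕ) (c : ℤ), Surf n A B α γ e f c →
  ∃ (S : Finset ℕ) (K : ℕ), ∀ x, Gd α γ x → ∀ p : ℕ, p.Prime →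
    (p ∉ S → locMin p (HE A B n x) = (FE α γ e f x).factorization p) ∧
    locMin p (HE A B n x) ≤ (FE α γ e f x).factorization p + K ∧
    (FE α γ e f x).factorization p ≤ locMin p (HE A B n x) + K

/-- FBB: the local minimal discriminant is locally constant. -/
def S_FBB : Prop := ∀ (k m n : ℕ) (A B : Polynomial ℤ) (α : Fin k → ℤ × ℤ)
  (γ : Fin m → ℤ × ℤ × ℤ) (e : Fin k → ℕ) (f : Fin m → ℕ) (c : ℤ), Surf n A B α γ e f c →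
  ∀ p : ℕ, p.Prime → ∀ v : ℕ, ∃ j : ℕ, ∀ x y, Gd α γ x → Gd α γ y → (p : ℤ) ^ j ∣ x.1 - y.1 →
    (p : ℤ) ^ j ∣ x.2 - y.2 → (FE α γ e f x).factorization p ≤ v →
    (FE α γ e f y).factorization p = (FE α γ e f x).factorization p ∧
    (FP α γ y).natAbs.factorization p = (FP α γ x).natAbs.factorization p ∧
    locMin p (HE A B n y) = locMin p (HE A B n x)

/-- FBC: the minimal discriminants and the products of the bad primes of the fibres. -/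
def S_FBC : Prop := ∀ (k m n : ℕ) (A B : Polynomial ℤ) (α : Fin k → ℤ × ℤ)
  (γ : Fin m → ℤ × ℤ × ℤ) (e : Fin k → ℕ) (f : Fin m → ℕ) (c : ℤ), Surf n A B α γ e f c →
  AF α γ e f (fun x => badProd (HE A B n x)) (fun x => minDisc (HE A B n x))

/-- ISO: the fibre over a rational number. -/
def S_ISO : Prop := ∀ (k m n : ℕ) (A B : Polynomial ℤ) (α : Fin k → ℤ × ℤ)
  (γ : Fin m → ℤ × ℤ × ℤ) (e : Fin k → ℕ) (f : Fin m → ℕ) (c : ℤ), Surf n A B α γ e f c →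
  ∀ t : ℚ, ((fib A B t).Δ ≠ 0 ↔ FP α γ (t.num, (t.den : ℤ)) ≠ 0) ∧
    minDisc (fib A B t) = minDisc (HE A B n (t.num, (t.den : ℤ))) ∧
    badProd (fib A B t) = badProd (HE A B n (t.num, (t.den : ℤ)))

/-- MAS: the inequality of Mason and Stothers. -/
def S_MAS : Prop := ∀ (k m n : ℕ) (A B : Polynomial ℤ) (α : Fin k → ℤ × ℤ)
  (γ : Fin m → ℤ × ℤ × ℤ) (e : Fin k → ℕ) (f : Fin m → ℕ) (c : ℤ), Surf n A B α γ e f c →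
  rr e f < 6

end Pool.Agent.L0h46.TS
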