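import Mathlib
import Pool.Agent.L0h46.TS.Defs
import Pool.Agent.L0h81.TS.Kit

/-!
# Project TS, module FBA: the local minimal discriminant, bounds
-/

set_option autoImplicit false

namespace Pool.Agent.L0h46.TS.FBA

open Finset
open Pool.Agent.L0h46.TS Pool.Agent.L0h81.TS
open Pool.Agent.L0h46.TQ (Lf)

lemma hom_congr (g : Polynomial ℤ) (d : ℕ) {N : ℤ} {x y : ℤ × ℤ} (h1 : N ∣ x.1 - y.1)
    (h2 : N ∣ x.2 - y.2) : N ∣ hom g d x - hom g d y := by
  unfold hom
  rw [← sum_sub_distrib]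
  refine dvd_sum fun j _ => ?_
  have e1 : y.1 ≡ x.1 [ZMOD N] := Int.modEq_iff_dvd.2 h1
  have e2 : y.2 ≡ x.2 [ZMOD N] := Int.modEq_iff_dvd.2 h2
  exact (((e1.pow j).mul_left _).mul (e2.pow _)).dvd

/-- clearing denominators -/
lemma bez {A B : Polynomial ℤ} (h : IsCoprime (A.map (Int.castRingHom ℚ))
    (B.map (Int.castRingHom ℚ))) : ∃ (a b : Polynomial ℤ) (R : ℤ), R ≠ 0 ∧
      a * A + b * B = Polynomial.C R := by
  obtain ⟨a, b, hab⟩ := h
  obtain ⟨s, hs0, hs⟩ := IsLocalization.integerNormalization_spec (nonZeroDivisors ℤ) a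
  obtain ⟨t, ht0, ht⟩ := IsLocalization.integerNormalization_spec (nonZeroDivisors ℤ) b
  rw [mem_nonZeroDivisors_iff_ne_zero] at hs0 ht0
  refine ⟨Polynomial.C t * IsLocalization.integerNormalization (nonZeroDivisors ℤ) a,
    Polynomial.C s * IsLocalization.integerNormalization (nonZeroDivisors ℤ) b,
    s * t, mul_ne_zero hs0 ht0, ?_⟩
  apply Polynomial.map_injective (Int.castRingHom ℚ) Int.cast_injective
  rw [← algebraMap_int_eq] at hab ⊢
  simp only [Polynomial.map_add, Polynomial.map_mul, Polynomial.map_C, hs, ht]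
  have e1 : ∀ (z : ℤ) (g : Polynomial ℚ), z • g = Polynomial.C (algebraMap ℤ ℚ z) * g := by
    intro z g
    rw [← Polynomial.smul_eq_C_mul]
    ext i
    simp
  rw [e1, e1, map_mul, map_mul]
  linear_combination (Polynomial.C (algebraMap ℤ ℚ s) *
    Polynomial.C (algebraMap ℤ ℚ t)) * hab

variable {k m n : ℕ} {A B : Polynomial ℤ} {α : Fin k → ℤ × ℤ} {γ : Fin m → ℤ × ℤ × ℤ}
  {e : Fin k → ℕ} {f : Fin m → ℕ} {c : ℤ}

lemma fac_le {a : ℕ} {p : ℕ} (hp : p.Prime) {z : ℤ} (hz : z ≠ 0) (h : (p : ℤ) ^ a ∣ z) :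
    a ≤ z.natAbs.factorization p := by
  rw [← hp.pow_dvd_iff_le_factorization (Int.natAbs_ne_zero.2 hz), ← Int.natCast_dvd,
    Nat.cast_pow]
  exact h

lemma le_nat {a : ℕ} {p : ℕ} (hp : p.Prime) {z : ℤ} (hz : z ≠ 0) (h : (p : ℤ) ^ a ∣ z) :
    a ≤ z.natAbs :=
  (fac_le hp hz h).trans (Nat.factorization_lt p (Int.natAbs_ne_zero.2 hz)).le

/-- the leading coefficient -/
lemma lead_ne (hS : Surf n A B α γ e f c) : c * PE α γ e f (1, 0) ≠ 0 := by
  refine mul_ne_zero hS.c0 (mul_ne_zero (prod_ne_zero_iff.2 fun i _ => pow_ne_zero _ ?_)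
    (prod_ne_zero_iff.2 fun j _ => pow_ne_zero _ ?_))
  · have := hS.inf i
    simpa [Lf] using this
  · intro h0
    have h1 : (γ j).1 = 0 := by simpa [Qg] using h0
    exact hS.sys.irr j ⟨(γ j).2.1, by rw [h1]; ring⟩

/-- common prime powers of the two forms -/
lemma common (hS : Surf n A B α γ e f c) : ∃ (R : ℤ) (K : ℕ), R ≠ 0 ∧ c ∣ R ∧
    ∀ x : ℤ × ℤ, IsCoprime x.1 x.2 → ∀ p : ℕ, p.Prime → ∀ a : ℕ,
      (p : ℤ) ^ a ∣ hom A (4 * n) x → (p : ℤ) ^ a ∣ hom B (6 * n) x →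
        a ≤ K ∧ (¬ (p : ℤ) ∣ R → a = 0) := by
  obtain ⟨g, h, R1, hR1, hgh⟩ := bez hS.cop
  set D := max (g.natDegree + 4 * n) (h.natDegree + 6 * n) with hD
  set L := c * PE α γ e f (1, 0) with hL
  have hL0 : L ≠ 0 := lead_ne hS
  have hLk : A.coeff (4 * n) ^ 3 - B.coeff (6 * n) ^ 2 = L := by
    have := key hS (1, 0)
    rw [hom_zero rfl, hom_zero rfl] at this
    simpa using this
  have hbz : ∀ x : ℤ × ℤ, hom g (D - 4 * n) x * hom A (4 * n) x +
      hom h (D - 6 * n) x * hom B (6 * n) x = R1 * x.2 ^ D := by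
    intro x
    have d1 : g.natDegree + 4 * n ≤ D := le_max_left _ _
    have d2 : h.natDegree + 6 * n ≤ D := le_max_right _ _
    rw [← hom_C, ← hgh, hom_add, ← hom_mul (by omega) hS.dA, ← hom_mul (by omega) hS.dB,
      Nat.sub_add_cancel (by omega), Nat.sub_add_cancel (by omega)]
  refine ⟨R1 * L, R1.natAbs + D * L.natAbs + L.natAbs, mul_ne_zero hR1 hL0,
    Dvd.dvd.mul_left (dvd_mul_right _ _) _, ?_⟩
  intro x hx p hp a hA hB
  have hpi : Prime (p : ℤ) := Nat.prime_iff_prime_int.1 hp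
  have hdv : (p : ℤ) ^ a ∣ R1 * x.2 ^ D := by
    rw [← hbz x]
    exact dvd_add (hA.mul_left _) (hB.mul_left _)
  by_cases hv : (p : ℤ) ∣ x.2
  · have hu : ¬ (p : ℤ) ∣ x.1 := by
      intro h1
      have := hx.isUnit_of_dvd' h1 hv
      exact hpi.not_isUnit this
    have hcong : ∀ t ≤ a, (p : ℤ) ^ t ∣ x.2 → (p : ℤ) ^ t ∣ L := by
      intro t ht htv
      have hcp : IsCoprime ((p : ℤ) ^ t) (x.1 ^ (4 * n)) :=
        (hpi.coprime_iff_not_dvd.2 hu).pow
      have hcp2 : IsCoprime ((p : ℤ) ^ t) (x.1 ^ (6 * n)) :=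
        (hpi.coprime_iff_not_dvd.2 hu).pow
      have h1 : (p : ℤ) ^ t ∣ hom A (4 * n) x - hom A (4 * n) (x.1, 0) :=
        hom_congr _ _ (by simp) (by simpa using htv)
      have h2 : (p : ℤ) ^ t ∣ hom B (6 * n) x - hom B (6 * n) (x.1, 0) :=
        hom_congr _ _ (by simp) (by simpa using htv)
      have h3 : (p : ℤ) ^ t ∣ hom A (4 * n) (x.1, 0) :=
        (dvd_iff_dvd_of_dvd_sub h1).1 ((pow_dvd_pow _ ht).trans hA)
      have h4 : (p : ℤ) ^ t ∣ hom B (6 * n) (x.1, 0) :=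
        (dvd_iff_dvd_of_dvd_sub h2).1 ((pow_dvd_pow _ ht).trans hB)
      rw [hom_zero rfl] at h3 h4
      have h5 := hcp.dvd_of_dvd_mul_right h3
      have h6 := hcp2.dvd_of_dvd_mul_right h4
      rw [← hLk]
      exact dvd_sub (h5.trans (dvd_pow_self _ (by norm_num)))
        (h6.trans (dvd_pow_self _ (by norm_num)))
    constructor
    · by_cases hv0 : x.2 = 0
      · have := le_nat hp hL0 (hcong a le_rfl (by rw [hv0]; exact dvd_zero _))
        omega
      · set b := x.2.natAbs.factorization p with hb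
        have hbv : (p : ℤ) ^ b ∣ x.2 := by
          rw [← Nat.cast_pow, Int.natCast_dvd]
          exact Nat.ordProj_dvd _ _
        have h7 := le_nat hp hL0 (hcong (min a b) (min_le_left _ _)
          ((pow_dvd_pow _ (min_le_right _ _)).trans hbv))
        rcases le_total a b with h8 | h8
        · rw [min_eq_left h8] at h7
          omega
        · rw [min_eq_right h8] at h7
          have h9 := fac_le hp (mul_ne_zero hR1 (pow_ne_zero D hv0)) hdv
          rw [Int.natAbs_mul, Int.natAbs_pow, Nat.factorization_mul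
            (Int.natAbs_ne_zero.2 hR1) (pow_ne_zero _ (Int.natAbs_ne_zero.2 hv0)),
            Nat.factorization_pow] at h9
          simp only [Finsupp.coe_add, Pi.add_apply, Finsupp.coe_smul, Pi.smul_apply,
            smul_eq_mul] at h9
          rw [← hb] at h9
          have h10 := (Nat.factorization_lt p (Int.natAbs_ne_zero.2 hR1)).le
          have h11 : D * b ≤ D * L.natAbs := Nat.mul_le_mul_left _ h7
          omega
    · intro hR
      by_contra ha
      apply hR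
      have := hcong 1 (Nat.one_le_iff_ne_zero.2 ha) (by simpa using hv)
      rw [pow_one] at this
      exact this.mul_left _
  · have hcp : IsCoprime ((p : ℤ) ^ a) (x.2 ^ D) := (hpi.coprime_iff_not_dvd.2 hv).pow
    have h1 := hcp.dvd_of_dvd_mul_right hdv
    constructor
    · have := le_nat hp hR1 h1
      omega
    · intro hR
      by_contra ha
      apply hR
      exact ((dvd_pow_self _ ha).trans h1).mul_right _

section

variable (p : ℕ) [hp : Fact p.Prime]

lemma iadd {a b : ℚ} (ha : padicNorm p a ≤ 1) (hb : padicNorm p b ≤ 1) :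
    padicNorm p (a + b) ≤ 1 := padicNorm.nonarchimedean.trans (max_le ha hb)

lemma imul {a b : ℚ} (ha : padicNorm p a ≤ 1) (hb : padicNorm p b ≤ 1) :
    padicNorm p (a * b) ≤ 1 := by
  rw [padicNorm.mul]
  exact mul_le_one₀ ha (padicNorm.nonneg _) hb

lemma isub {a b : ℚ} (ha : padicNorm p a ≤ 1) (hb : padicNorm p b ≤ 1) :
    padicNorm p (a - b) ≤ 1 := by
  rw [sub_eq_add_neg]
  exact iadd p ha (by rwa [padicNorm.neg])

lemma icast (z : ℤ) : padicNorm p (z : ℚ) ≤ 1 := padicNorm.of_int z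

/-- the covariants are integral -/
lemma cov {W : WeierstrassCurve ℚ} (h : PInt p W) :
    padicNorm p W.c₄ ≤ 1 ∧ padicNorm p W.c₆ ≤ 1 := by
  obtain ⟨i1, i2, i3, i4, i6⟩ := h
  rw [← int_iff] at i1 i2 i3 i4 i6
  have n2 : padicNorm p (2 : ℚ) ≤ 1 := by exact_mod_cast icast p 2
  have n4 : padicNorm p (4 : ℚ) ≤ 1 := by exact_mod_cast icast p 4
  have n24 : padicNorm p (24 : ℚ) ≤ 1 := by exact_mod_cast icast p 24
  have n36 : padicNorm p (36 : ℚ) ≤ 1 := by exact_mod_cast icast p 36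
  have n216 : padicNorm p (216 : ℚ) ≤ 1 := by exact_mod_cast icast p 216
  have b2 : padicNorm p W.b₂ ≤ 1 := by
    unfold WeierstrassCurve.b₂
    rw [pow_two]
    exact iadd p (imul p i1 i1) (imul p n4 i2)
  have b4 : padicNorm p W.b₄ ≤ 1 := by
    unfold WeierstrassCurve.b₄
    exact iadd p (imul p n2 i4) (imul p i1 i3)
  have b6 : padicNorm p W.b₆ ≤ 1 := by
    unfold WeierstrassCurve.b₆
    rw [pow_two]
    exact iadd p (imul p i3 i3) (imul p n4 i6)
  constructor
  · unfold WeierstrassCurve.c₄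
    rw [pow_two]
    exact isub p (imul p b2 b2) (imul p n24 b4)
  · unfold WeierstrassCurve.c₆
    have e1 : -W.b₂ ^ 3 + 36 * W.b₂ * W.b₄ - 216 * W.b₆ =
      (36 * W.b₂ * W.b₄ - 216 * W.b₆) - W.b₂ * (W.b₂ * W.b₂) := by ring
    rw [e1]
    exact isub p (isub p (imul p (imul p n36 b2) b4) (imul p n216 b6))
      (imul p b2 (imul p b2 b2))

lemma npow (w : ℚ) (i : ℕ) : padicNorm p (w ^ i) = padicNorm p w ^ i := by
  induction i with
  | zero => simp
  | succ i ih => rw [pow_succ, padicNorm.mul, ih, pow_succ]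

lemma half_dvd {w : ℚ} {t : ℕ} (hw : padicNorm p w = (p : ℚ) ^ t) {z : ℤ} {i : ℕ}
    (h : padicNorm p (w ^ i * z) ≤ 1) : (p : ℤ) ^ (i * t) ∣ z := by
  have hp0 : (0 : ℚ) < p := by exact_mod_cast hp.out.pos
  have := (padicNorm.dvd_iff_norm_le (p := p) (n := i * t) (z := z)).2 (by
    rw [padicNorm.mul, npow, hw, ← pow_mul, mul_comm t i] at h
    rw [zpow_neg, zpow_natCast, ← one_div, le_div_iff₀ (by positivity), mul_comm]
    exact h)
  exact_mod_cast this

end

lemma strip {p a : ℕ} (hp : p.Prime) {C0 z : ℤ} (h0 : C0 ≠ 0) (h : (p : ℤ) ^ a ∣ C0 * z) :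
    (p : ℤ) ^ (a - C0.natAbs) ∣ z := by
  by_cases hz : z = 0
  · rw [hz]
    exact dvd_zero _
  have h1 := fac_le hp (mul_ne_zero h0 hz) h
  rw [Int.natAbs_mul, Nat.factorization_mul (Int.natAbs_ne_zero.2 h0)
    (Int.natAbs_ne_zero.2 hz), Finsupp.coe_add, Pi.add_apply] at h1
  have h2 := (Nat.factorization_lt p (Int.natAbs_ne_zero.2 h0)).le
  rw [← Nat.cast_pow, Int.natCast_dvd,
    hp.pow_dvd_iff_le_factorization (Int.natAbs_ne_zero.2 hz)]
  omega

theorem main : S_FBA := by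
  intro k m n A B α γ e f c hS
  obtain ⟨R, K, hR, hcR, hK⟩ := common hS
  refine ⟨(6 * R).natAbs.primeFactors, 12 * (K + 46656) + (1259712 * c).natAbs,
    fun x hx p hp => ?_⟩
  have := Fact.mk hp
  have hpi : Prime (p : ℤ) := Nat.prime_iff_prime_int.1 hp
  obtain ⟨C, hC, hD⟩ := locMin_mem p hS hx.2
  set w : ℚ := ((C.u⁻¹ : ℚˣ) : ℚ) with hw
  have hw0 : w ≠ 0 := (C.u⁻¹).ne_zero
  have hle := locMin_le_val p hS hx.2
  have hc0 : (1259712 * c).natAbs ≠ 0 :=
    Int.natAbs_ne_zero.2 (mul_ne_zero (by norm_num) hS.c0)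
  have hM := (Nat.factorization_lt p hc0).le
  have hrel : (locMin p (HE A B n x) : ℤ) = 12 * padicValRat p w +
      (((1259712 * c).natAbs.factorization p + (FE α γ e f x).factorization p : ℕ) : ℤ) := by
    rw [← hD, WeierstrassCurve.variableChange_Δ, ← hw, padicValRat.mul (pow_ne_zero _ hw0)
      (HE_disc_ne hS hx.2), padicValRat.pow, val_disc p hS hx.2]
    push_cast
    ring
  have ht : ∀ t : ℕ, padicValRat p w = -(t : ℤ) →
      (p : ℤ) ^ (4 * t) ∣ 1296 * hom A (4 * n) x ∧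
      (p : ℤ) ^ (6 * t) ∣ 46656 * hom B (6 * n) x := by
    intro t ht
    have hwt : padicNorm p w = (p : ℚ) ^ t := by
      rw [norm_val p hw0, ht, neg_neg, zpow_natCast]
    obtain ⟨c4, c6⟩ := cov p hC
    rw [WeierstrassCurve.variableChange_c₄, ← hw] at c4
    rw [WeierstrassCurve.variableChange_c₆, ← hw] at c6
    have e4 : (HE A B n x).c₄ = ((1296 * hom A (4 * n) x : ℤ) : ℚ) := by
      simp only [HE, WeierstrassCurve.c₄, WeierstrassCurve.b₂, WeierstrassCurve.b₄]
      push_cast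
      ring
    have e6 : (HE A B n x).c₆ = ((46656 * hom B (6 * n) x : ℤ) : ℚ) := by
      simp only [HE, WeierstrassCurve.c₆, WeierstrassCurve.b₂, WeierstrassCurve.b₄,
        WeierstrassCurve.b₆]
      push_cast
      ring
    rw [e4] at c4
    rw [e6] at c6
    exact ⟨half_dvd p hwt c4, half_dvd p hwt c6⟩
  refine ⟨fun hpS => ?_, ?_, ?_⟩
  · have h6R : ¬ (p : ℤ) ∣ 6 * R := by
      intro h
      apply hpS
      rw [Nat.mem_primeFactors]
      exact ⟨hp, Int.natCast_dvd.1 h, Int.natAbs_ne_zero.2 (mul_ne_zero (by norm_num) hR)⟩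
    have h6 : ¬ (p : ℤ) ∣ 6 := fun h => h6R (h.mul_right _)
    have hR' : ¬ (p : ℤ) ∣ R := fun h => h6R (h.mul_left _)
    have h2 : ¬ (p : ℤ) ∣ 2 := fun h => h6 (h.trans (by norm_num))
    have h3 : ¬ (p : ℤ) ∣ 3 := fun h => h6 (h.trans (by norm_num))
    have hM0 : (1259712 * c).natAbs.factorization p = 0 := by
      apply Nat.factorization_eq_zero_of_not_dvd
      rw [← Int.natCast_dvd]
      intro h
      rcases hpi.dvd_or_dvd h with h | h
      · rw [show (1259712 : ℤ) = 2 ^ 6 * 3 ^ 9 by norm_num] at h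
        rcases hpi.dvd_or_dvd h with h | h
        · exact h2 (hpi.dvd_of_dvd_pow h)
        · exact h3 (hpi.dvd_of_dvd_pow h)
      · exact hR' (h.trans hcR)
    have hge : 0 ≤ padicValRat p w := by
      by_contra hcon
      push Not at hcon
      obtain ⟨t, ht'⟩ : ∃ t : ℕ, padicValRat p w = -(t : ℤ) :=
        ⟨(padicValRat p w).natAbs, by omega⟩
      obtain ⟨g1, g2⟩ := ht t ht'
      have cp1 : IsCoprime ((p : ℤ) ^ (4 * t)) 1296 := by
        rw [show (1296 : ℤ) = 6 ^ 4 by norm_num]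
        exact (hpi.coprime_iff_not_dvd.2 h6).pow
      have cp2 : IsCoprime ((p : ℤ) ^ (6 * t)) 46656 := by
        rw [show (46656 : ℤ) = 6 ^ 6 by norm_num]
        exact (hpi.coprime_iff_not_dvd.2 h6).pow
      have g3 := cp1.dvd_of_dvd_mul_left g1
      have g4 := cp2.dvd_of_dvd_mul_left g2
      have g5 := (hK x hx.1 p hp (4 * t) g3 ((pow_dvd_pow _ (by omega)).trans g4)).2 hR'
      omega
    omega
  · omega
  · by_cases hge : 0 ≤ padicValRat p w
    · omega
    · push Not at hge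
      obtain ⟨t, ht'⟩ : ∃ t : ℕ, padicValRat p w = -(t : ℤ) :=
        ⟨(padicValRat p w).natAbs, by omega⟩
      obtain ⟨g1, g2⟩ := ht t ht'
      have g3 := strip hp (by norm_num) g1
      have g4 := strip hp (by norm_num) g2
      have e1 : (1296 : ℤ).natAbs = 1296 := rfl
      have e2 : (46656 : ℤ).natAbs = 46656 := rfl
      rw [e1] at g3
      rw [e2] at g4
      have g5 := (hK x hx.1 p hp (4 * t - 46656) ((pow_dvd_pow _ (by omega)).trans g3)
        ((pow_dvd_pow _ (by omega)).trans g4)).1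
      omega

end Pool.Agent.L0h46.TS.FBA
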