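import Mathlib
import Pool.Agent.L0h46.TS.Defs
import Pool.Agent.L0h81.TS.Kit

/-!
# Project TS, module FBB: the local minimal discriminant is locally constant
-/

set_option autoImplicit false

namespace Pool.Agent.L0h46.TS.FBB

open Finset
open Pool.Agent.L0h46.TS Pool.Agent.L0h81.TS
open Pool.Agent.L0h46.TQ (Lf)

lemma hom_congr (g : Polynomial ℤ) (d : ℕ) {N : ℤ} {x y : ℤ × ℤ} (h1 : N ∣ x.1 - y.1)
    (h2 : N ∣ x.2 - y.2) : N ∣ hom g d x - hom g d y := by
  unfold hom
  rw [← sum_sub_distrib]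
  refine dvd_sum fun j _ => ?_
  have e1 : y.1 ≡ x.1 [ZMOD N] := Int.modEq_iff_dvd.2 h1
  have e2 : y.2 ≡ x.2 [ZMOD N] := Int.modEq_iff_dvd.2 h2
  exact (((e1.pow j).mul_left _).mul (e2.pow _)).dvd

lemma fac_eq {p v j : ℕ} (hp : p.Prime) {a b : ℤ} (ha : a ≠ 0) (hb : b ≠ 0) (hj : v < j)
    (hab : (p : ℤ) ^ j ∣ a - b) (hv : a.natAbs.factorization p ≤ v) :
    b.natAbs.factorization p = a.natAbs.factorization p := by
  have key : ∀ s ≤ j, (s ≤ b.natAbs.factorization p ↔ s ≤ a.natAbs.factorization p) := by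
    intro s hs
    rw [← hp.pow_dvd_iff_le_factorization (Int.natAbs_ne_zero.2 hb),
      ← hp.pow_dvd_iff_le_factorization (Int.natAbs_ne_zero.2 ha), ← Int.natCast_dvd,
      ← Int.natCast_dvd, Nat.cast_pow]
    have h1 : (p : ℤ) ^ s ∣ a - b := (pow_dvd_pow _ hs).trans hab
    exact (dvd_iff_dvd_of_dvd_sub h1).symm
  have h1 := key (a.natAbs.factorization p) (by omega)
  have h2 := key (a.natAbs.factorization p + 1) (by omega)
  omega

variable {k m n : ℕ} {A B : Polynomial ℤ} {α : Fin k → ℤ × ℤ} {γ : Fin m → ℤ × ℤ × ℤ}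
  {e : Fin k → ℕ} {f : Fin m → ℕ} {c : ℤ}

lemma parts_ne {x : ℤ × ℤ} (hx : FP α γ x ≠ 0) :
    (∀ i, Lf (α i) x ≠ 0) ∧ ∀ j, Qg (γ j) x ≠ 0 := by
  unfold FP at hx
  have h1 := left_ne_zero_of_mul hx
  have h2 := right_ne_zero_of_mul hx
  rw [prod_ne_zero_iff] at h1 h2
  exact ⟨fun i => h1 i (mem_univ _), fun j => h2 j (mem_univ _)⟩

lemma FE_fac (p : ℕ) {x : ℤ × ℤ} (hx : FP α γ x ≠ 0) : (FE α γ e f x).factorization p =
    ∑ i, e i * (Lf (α i) x).natAbs.factorization p +
      ∑ j, f j * (Qg (γ j) x).natAbs.factorization p := by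
  obtain ⟨n1, n2⟩ := parts_ne hx
  have m1 : ∀ i ∈ (univ : Finset (Fin k)), (Lf (α i) x).natAbs ^ e i ≠ 0 := fun i _ =>
    pow_ne_zero _ (Int.natAbs_ne_zero.2 (n1 i))
  have m2 : ∀ j ∈ (univ : Finset (Fin m)), (Qg (γ j) x).natAbs ^ f j ≠ 0 := fun j _ =>
    pow_ne_zero _ (Int.natAbs_ne_zero.2 (n2 j))
  unfold FE
  rw [Nat.factorization_mul (prod_ne_zero_iff.2 m1) (prod_ne_zero_iff.2 m2),
    Nat.factorization_prod m1, Nat.factorization_prod m2]
  simp [Nat.factorization_pow]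

lemma FP_eq (x : ℤ × ℤ) : (FP α γ x).natAbs = FE α γ (fun _ => 1) (fun _ => 1) x := by
  rw [← PE_natAbs]
  unfold FP PE
  simp

/-- the valuations agree -/
lemma vals (hS : Surf n A B α γ e f c) {p : ℕ} (hp : p.Prime) {v j : ℕ} (hj : v < j)
    {x y : ℤ × ℤ} (hx : FP α γ x ≠ 0) (hy : FP α γ y ≠ 0)
    (h1 : (p : ℤ) ^ j ∣ x.1 - y.1) (h2 : (p : ℤ) ^ j ∣ x.2 - y.2)
    (hv : (FE α γ e f x).factorization p ≤ v) :
    (FE α γ e f y).factorization p = (FE α γ e f x).factorization p ∧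
      (FP α γ y).natAbs.factorization p = (FP α γ x).natAbs.factorization p := by
  obtain ⟨x1, x2⟩ := parts_ne hx
  obtain ⟨y1, y2⟩ := parts_ne hy
  rw [FE_fac p hx] at hv
  have a1 : ∀ i, (Lf (α i) y).natAbs.factorization p = (Lf (α i) x).natAbs.factorization p := by
    intro i
    apply fac_eq hp (x1 i) (y1 i) hj
    · rw [← hom_lpol, ← hom_lpol]
      exact hom_congr _ _ h1 h2
    · calc (Lf (α i) x).natAbs.factorization p ≤
          e i * (Lf (α i) x).natAbs.factorization p :=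
            Nat.le_mul_of_pos_left _ (hS.sys.e1 i)
        _ ≤ ∑ i, e i * (Lf (α i) x).natAbs.factorization p :=
            single_le_sum (f := fun i => e i * (Lf (α i) x).natAbs.factorization p)
              (fun _ _ => Nat.zero_le _) (mem_univ i)
        _ ≤ v := by omega
  have a2 : ∀ i, (Qg (γ i) y).natAbs.factorization p = (Qg (γ i) x).natAbs.factorization p := by
    intro i
    apply fac_eq hp (x2 i) (y2 i) hj
    · rw [← hom_qpol, ← hom_qpol]
      exact hom_congr _ _ h1 h2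
    · calc (Qg (γ i) x).natAbs.factorization p ≤
          f i * (Qg (γ i) x).natAbs.factorization p :=
            Nat.le_mul_of_pos_left _ (hS.sys.f1 i)
        _ ≤ ∑ i, f i * (Qg (γ i) x).natAbs.factorization p :=
            single_le_sum (f := fun i => f i * (Qg (γ i) x).natAbs.factorization p)
              (fun _ _ => Nat.zero_le _) (mem_univ i)
        _ ≤ v := by omega
  constructor
  · rw [FE_fac p hx, FE_fac p hy]
    simp only [a1, a2]
  · rw [FP_eq, FP_eq, FE_fac p hx, FE_fac p hy]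
    simp only [a1, a2]

/-- one inequality -/
lemma half (hS : Surf n A B α γ e f c) {p : ℕ} (hp : p.Prime) {v : ℕ} {x y : ℤ × ℤ}
    (hx : FP α γ x ≠ 0) (hy : FP α γ y ≠ 0)
    (h1 : (p : ℤ) ^ ((1259712 * c).natAbs.factorization p + v + 12) ∣ x.1 - y.1)
    (h2 : (p : ℤ) ^ ((1259712 * c).natAbs.factorization p + v + 12) ∣ x.2 - y.2)
    (hv : (FE α γ e f x).factorization p ≤ v)
    (he : (FE α γ e f y).factorization p = (FE α γ e f x).factorization p) :
    locMin p (HE A B n y) ≤ locMin p (HE A B n x) := by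
  have := Fact.mk hp
  obtain ⟨C, hC, hD⟩ := locMin_mem p hS hx
  have hval : padicValRat p (HE A B n x).Δ = padicValRat p (HE A B n y).Δ := by
    rw [val_disc p hS hx, val_disc p hS hy, he]
  have nx := HE_disc_ne hS hx
  have ny := HE_disc_ne hS hy
  set w : ℚ := ((C.u⁻¹ : ℚˣ) : ℚ) with hw
  have hw0 : w ≠ 0 := (C.u⁻¹).ne_zero
  have hp1 : (1 : ℚ) < p := by exact_mod_cast hp.one_lt
  have hp0 : (0 : ℚ) < p := by linarith
  refine locMin_le p ⟨C, rfl⟩ ?_ ?_
  swap
  · rw [← hD, WeierstrassCurve.variableChange_Δ, WeierstrassCurve.variableChange_Δ,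
      padicValRat.mul (pow_ne_zero _ hw0) nx, padicValRat.mul (pow_ne_zero _ hw0) ny, hval]
  set M := (1259712 * c).natAbs.factorization p with hM
  -- the norm of `w`
  have hle := locMin_le_val p hS hx
  have d0 : (C • HE A B n x).Δ = w ^ 12 * (HE A B n x).Δ :=
    WeierstrassCurve.variableChange_Δ _ _
  have nW : (C • HE A B n x).Δ ≠ 0 := by
    rw [d0]
    exact mul_ne_zero (pow_ne_zero _ hw0) nx
  have t1 : padicNorm p (HE A B n x).Δ ≤ padicNorm p (C • HE A B n x).Δ := by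
    rw [norm_le_iff p nx nW, hD, val_disc p hS hx]
    exact_mod_cast hle
  have t2 : padicNorm p (C • HE A B n x).Δ ≤ 1 := by
    rw [norm_val p nW, hD]
    apply zpow_le_one_of_nonpos₀ hp1.le
    simp
  have t3 : ((p : ℚ) ^ (M + v))⁻¹ ≤ padicNorm p (HE A B n x).Δ := by
    rw [norm_val p nx, val_disc p hS hx, zpow_neg, zpow_natCast]
    apply inv_anti₀ (by positivity)
    apply pow_le_pow_right₀ hp1.le
    omega
  rw [d0, padicNorm.mul] at t1 t2
  have hNΔ : 0 < padicNorm p (HE A B n x).Δ :=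
    lt_of_le_of_ne (padicNorm.nonneg _) (padicNorm.nonzero nx).symm
  have t4 : 1 ≤ padicNorm p (w ^ 12) := by
    by_contra hcon
    push Not at hcon
    nlinarith
  have hpw : ∀ i : ℕ, padicNorm p (w ^ i) = padicNorm p w ^ i := by
    intro i
    induction i with
    | zero => simp
    | succ i ih => rw [pow_succ, padicNorm.mul, ih, pow_succ]
  have hwn : 0 ≤ padicNorm p w := padicNorm.nonneg _
  have t5 : 1 ≤ padicNorm p w := by
    by_contra hcon
    push Not at hcon
    have := pow_lt_one₀ hwn hcon (n := 12) (by norm_num)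
    rw [hpw] at t4
    linarith
  have t6 : padicNorm p w ^ 12 ≤ (p : ℚ) ^ (M + v) := by
    rw [hpw] at t2
    have h3 : padicNorm p w ^ 12 * ((p : ℚ) ^ (M + v))⁻¹ ≤ 1 := by
      calc padicNorm p w ^ 12 * ((p : ℚ) ^ (M + v))⁻¹ ≤
          padicNorm p w ^ 12 * padicNorm p (HE A B n x).Δ := by gcongr
        _ ≤ 1 := t2
    rwa [← div_eq_mul_inv, div_le_one (by positivity)] at h3
  have t7 : ∀ i : ℕ, i ≤ 12 → padicNorm p (w ^ i) ≤ (p : ℚ) ^ (M + v) := by
    intro i hi
    rw [hpw]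
    exact (pow_le_pow_right₀ t5 hi).trans t6
  -- the coefficients
  obtain ⟨i1, i2, i3, i4, i6⟩ := hC
  rw [← int_iff] at i1 i2 i4 i6
  have z1 : (C • HE A B n x).a₁ = w * (2 * C.s) := by
    rw [WeierstrassCurve.variableChange_a₁]
    simp only [HE, ← hw]
    ring
  have z2 : (C • HE A B n x).a₂ = w ^ 2 * (3 * C.r - C.s ^ 2) := by
    rw [WeierstrassCurve.variableChange_a₂]
    simp only [HE, ← hw]
    ring
  rw [z1, padicNorm.mul] at i1
  rw [z2, padicNorm.mul] at i2
  have s1 : padicNorm p (2 * C.s) ≤ 1 := by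
    have := padicNorm.nonneg (p := p) (2 * C.s)
    nlinarith
  have t8 : 1 ≤ padicNorm p (w ^ 2) := by
    rw [hpw]
    exact one_le_pow₀ t5
  have s2 : padicNorm p (3 * C.r - C.s ^ 2) ≤ 1 := by
    have := padicNorm.nonneg (p := p) (3 * C.r - C.s ^ 2)
    nlinarith
  have s3 : padicNorm p (12 * C.r) ≤ 1 := by
    have e1 : 12 * C.r = 4 * (3 * C.r - C.s ^ 2) + (2 * C.s) * (2 * C.s) := by ring
    rw [e1]
    refine padicNorm.nonarchimedean.trans (max_le ?_ ?_)
    · rw [padicNorm.mul]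
      have h4 : padicNorm p (4 : ℚ) ≤ 1 := by
        have := padicNorm.of_int (p := p) 4
        exact_mod_cast this
      exact mul_le_one₀ h4 (padicNorm.nonneg _) s2
    · rw [padicNorm.mul]
      exact mul_le_one₀ s1 (padicNorm.nonneg _) s1
  -- the differences
  have hdvd : ∀ z : ℤ, (p : ℤ) ^ (M + v + 12) ∣ z →
      padicNorm p (z : ℚ) ≤ ((p : ℚ) ^ (M + v + 12))⁻¹ := by
    intro z hz
    have := (padicNorm.dvd_iff_norm_le (p := p) (n := M + v + 12) (z := z)).1
      (by exact_mod_cast hz)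
    rwa [zpow_neg, zpow_natCast] at this
  have g4 : (p : ℤ) ^ (M + v + 12) ∣ hom A (4 * n) x - hom A (4 * n) y := hom_congr _ _ h1 h2
  have g6 : (p : ℤ) ^ (M + v + 12) ∣ hom B (6 * n) x - hom B (6 * n) y := hom_congr _ _ h1 h2
  have δ4 : padicNorm p ((HE A B n y).a₄ - (HE A B n x).a₄) ≤ ((p : ℚ) ^ (M + v + 12))⁻¹ := by
    have e1 : (HE A B n y).a₄ - (HE A B n x).a₄ =
      ((27 * (hom A (4 * n) x - hom A (4 * n) y) : ℤ) : ℚ) := by
      simp only [HE]
      push_cast
      ring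
    rw [e1]
    exact hdvd _ (g4.mul_left _)
  have δ6 : padicNorm p ((HE A B n y).a₆ - (HE A B n x).a₆) ≤ ((p : ℚ) ^ (M + v + 12))⁻¹ := by
    have e1 : (HE A B n y).a₆ - (HE A B n x).a₆ =
      ((54 * (hom B (6 * n) x - hom B (6 * n) y) : ℤ) : ℚ) := by
      simp only [HE]
      push_cast
      ring
    rw [e1]
    exact hdvd _ (g6.mul_left _)
  have hmul : ∀ (i : ℕ) (q : ℚ), i ≤ 12 → padicNorm p q ≤ ((p : ℚ) ^ (M + v))⁻¹ →
      padicNorm p (w ^ i * q) ≤ 1 := by
    intro i q hi hq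
    rw [padicNorm.mul]
    calc padicNorm p (w ^ i) * padicNorm p q ≤ (p : ℚ) ^ (M + v) * ((p : ℚ) ^ (M + v))⁻¹ := by
          have := t7 i hi
          have := padicNorm.nonneg (p := p) q
          have := padicNorm.nonneg (p := p) (w ^ i)
          gcongr
      _ = 1 := mul_inv_cancel₀ (by positivity)
  have hsm : ((p : ℚ) ^ (M + v + 12))⁻¹ * 12 ≤ ((p : ℚ) ^ (M + v))⁻¹ := by
    have h12 : (12 : ℚ) ≤ (p : ℚ) ^ 12 := by
      have hp2 : (2 : ℚ) ≤ p := by exact_mod_cast hp.two_le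
      calc (12 : ℚ) ≤ 2 ^ 12 := by norm_num
        _ ≤ (p : ℚ) ^ 12 := by gcongr
    rw [pow_add, mul_inv, mul_assoc]
    have h3 : ((p : ℚ) ^ 12)⁻¹ * 12 ≤ 1 := by
      rw [inv_mul_le_iff₀ (by positivity), mul_one]
      exact h12
    have h4 : (0 : ℚ) ≤ ((p : ℚ) ^ (M + v))⁻¹ := by positivity
    nlinarith
  have hpos : (0 : ℚ) < ((p : ℚ) ^ (M + v + 12))⁻¹ := by positivity
  have z1' : (C • HE A B n y).a₁ = (C • HE A B n x).a₁ := by
    rw [WeierstrassCurve.variableChange_a₁, WeierstrassCurve.variableChange_a₁]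
    simp [HE]
  have z2' : (C • HE A B n y).a₂ = (C • HE A B n x).a₂ := by
    rw [WeierstrassCurve.variableChange_a₂, WeierstrassCurve.variableChange_a₂]
    simp [HE]
  have z3' : (C • HE A B n y).a₃ = (C • HE A B n x).a₃ := by
    rw [WeierstrassCurve.variableChange_a₃, WeierstrassCurve.variableChange_a₃]
    simp [HE]
  have z4' : (C • HE A B n y).a₄ = (C • HE A B n x).a₄ +
      w ^ 4 * ((HE A B n y).a₄ - (HE A B n x).a₄) := by
    rw [WeierstrassCurve.variableChange_a₄, WeierstrassCurve.variableChange_a₄]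
    simp only [HE, ← hw]
    ring
  have z6' : (C • HE A B n y).a₆ = (C • HE A B n x).a₆ +
      w ^ 6 * (((HE A B n y).a₆ - (HE A B n x).a₆) +
        C.r * ((HE A B n y).a₄ - (HE A B n x).a₄)) := by
    rw [WeierstrassCurve.variableChange_a₆, WeierstrassCurve.variableChange_a₆]
    simp only [HE, ← hw]
    ring
  refine ⟨?_, ?_, ?_, ?_, ?_⟩
  · rw [z1', ← int_iff, z1, padicNorm.mul]
    exact i1
  · rw [z2', ← int_iff, z2, padicNorm.mul]
    exact i2
  · rw [z3']
    exact i3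
  · rw [← int_iff, z4']
    refine padicNorm.nonarchimedean.trans (max_le i4 (hmul 4 _ (by norm_num) (δ4.trans ?_)))
    linarith
  · rw [← int_iff, z6']
    refine padicNorm.nonarchimedean.trans (max_le i6 (hmul 6 _ (by norm_num) ?_))
    set D4 := (HE A B n y).a₄ - (HE A B n x).a₄
    set D6 := (HE A B n y).a₆ - (HE A B n x).a₆
    have f1 : padicNorm p (12 * (D6 + C.r * D4)) ≤ ((p : ℚ) ^ (M + v + 12))⁻¹ := by
      have e1 : 12 * (D6 + C.r * D4) = 12 * D6 + (12 * C.r) * D4 := by ring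
      rw [e1]
      refine padicNorm.nonarchimedean.trans (max_le ?_ ?_)
      · rw [padicNorm.mul]
        have h4 : padicNorm p (12 : ℚ) ≤ 1 := by
          have := padicNorm.of_int (p := p) 12
          exact_mod_cast this
        have := mul_le_mul_of_nonneg_right h4 (padicNorm.nonneg (p := p) D6)
        rw [one_mul] at this
        exact this.trans δ6
      · rw [padicNorm.mul]
        have := mul_le_mul_of_nonneg_right s3 (padicNorm.nonneg (p := p) D4)
        rw [one_mul] at this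
        exact this.trans δ4
    have f2 : 1 / 12 ≤ padicNorm p (12 : ℚ) := by
      have := norm_lb p 12 (by norm_num)
      simpa using this
    rw [padicNorm.mul] at f1
    have f3 := padicNorm.nonneg (p := p) (D6 + C.r * D4)
    have f4 : padicNorm p (D6 + C.r * D4) ≤ ((p : ℚ) ^ (M + v + 12))⁻¹ * 12 := by
      have f5 := mul_le_mul_of_nonneg_right f2 f3
      linarith
    exact f4.trans hsm

theorem main : S_FBB := by
  intro k m n A B α γ e f c hS p hp v
  refine ⟨(1259712 * c).natAbs.factorization p + v + 12, fun x y hx hy h1 h2 hv => ?_⟩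
  obtain ⟨v1, v2⟩ := vals hS hp (by omega) hx.2 hy.2 h1 h2 hv
  refine ⟨v1, v2, le_antisymm (half hS hp hx.2 hy.2 h1 h2 hv v1) ?_⟩
  have h1' := (dvd_sub_comm).1 h1
  have h2' := (dvd_sub_comm).1 h2
  exact half hS hp hy.2 hx.2 h1' h2' (v1 ▸ hv) v1.symm

end Pool.Agent.L0h46.TS.FBB
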