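import Mathlib
import Pool.Agent.L0h46.TS.Defs
import Pool.Agent.L0h81.TS.Kit

/-!
# Project TS, module FBC: the minimal discriminants and the products of the bad primes
-/

set_option autoImplicit false

namespace Pool.Agent.L0h46.TS.FBC

open Finset
open Pool.Agent.L0h46.TS Pool.Agent.L0h81.TS
open Pool.Agent.L0h46.TQ (Lf)

variable {k m n : ℕ} {A B : Polynomial ℤ} {α : Fin k → ℤ × ℤ} {γ : Fin m → ℤ × ℤ × ℤ}
  {e : Fin k → ℕ} {f : Fin m → ℕ} {c : ℤ}

lemma parts_ne {x : ℤ × ℤ} (hx : FP α γ x ≠ 0) :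
    (∀ i, Lf (α i) x ≠ 0) ∧ ∀ j, Qg (γ j) x ≠ 0 := by
  unfold FP at hx
  have h1 := left_ne_zero_of_mul hx
  have h2 := right_ne_zero_of_mul hx
  rw [prod_ne_zero_iff] at h1 h2
  exact ⟨fun i => h1 i (mem_univ _), fun j => h2 j (mem_univ _)⟩

lemma FE_fac (p : ℕ) {x : ℤ × ℤ} (hx : FP α γ x ≠ 0) : (FE α γ e f x).factorization p =
    ∑ i, e i * (Lf (α i) x).natAbs.factorization p +
      ∑ j, f j * (Qg (γ j) x).natAbs.factorization p := by
  obtain ⟨n1, n2⟩ := parts_ne hx
  have m1 : ∀ i ∈ (univ : Finset (Fin k)), (Lf (α i) x).natAbs ^ e i ≠ 0 := fun i _ =>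
    pow_ne_zero _ (Int.natAbs_ne_zero.2 (n1 i))
  have m2 : ∀ j ∈ (univ : Finset (Fin m)), (Qg (γ j) x).natAbs ^ f j ≠ 0 := fun j _ =>
    pow_ne_zero _ (Int.natAbs_ne_zero.2 (n2 j))
  unfold FE
  rw [Nat.factorization_mul (prod_ne_zero_iff.2 m1) (prod_ne_zero_iff.2 m2),
    Nat.factorization_prod m1, Nat.factorization_prod m2]
  simp [Nat.factorization_pow]

lemma FP_eq (x : ℤ × ℤ) : (FP α γ x).natAbs = FE α γ (fun _ => 1) (fun _ => 1) x := by
  rw [← PE_natAbs]
  unfold FP PE
  simp

/-- the valuations of the two products -/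
lemma FE_FP (hS : Sys α γ e f) (p : ℕ) {x : ℤ × ℤ} (hx : FP α γ x ≠ 0) :
    (FP α γ x).natAbs.factorization p ≤ (FE α γ e f x).factorization p ∧
    (FE α γ e f x).factorization p ≤ wt e f * (FP α γ x).natAbs.factorization p := by
  rw [FP_eq, FE_fac p hx, FE_fac p hx]
  constructor
  · gcongr with i _ j _
    · exact hS.e1 i
    · exact hS.f1 j
  · rw [mul_add, mul_sum, mul_sum]
    have h1 : ∀ i, e i ≤ wt e f := by
      intro i
      have := single_le_sum (f := e) (fun _ _ => Nat.zero_le _) (mem_univ i)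
      unfold wt
      omega
    have h2 : ∀ j, f j ≤ wt e f := by
      intro j
      have := single_le_sum (f := f) (fun _ _ => Nat.zero_le _) (mem_univ j)
      unfold wt
      omega
    simp only [one_mul]
    gcongr with i _ j _
    · exact h1 i
    · exact h2 j

/-- factorization of a product of prime powers -/
lemma prod_fac (s : Finset ℕ) (hs : ∀ p ∈ s, p.Prime) (l : ℕ → ℕ) (q : ℕ) :
    (∏ p ∈ s, p ^ l p).factorization q = if q ∈ s then l q else 0 := by
  rw [Nat.factorization_prod (fun p hp => pow_ne_zero _ (hs p hp).ne_zero), Finsupp.finsetSum_apply]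
  have h1 : ∀ p ∈ s, (p ^ l p).factorization q = if p = q then l p else 0 := by
    intro p hp
    rw [(hs p hp).factorization_pow, Finsupp.single_apply]
  rw [sum_congr rfl h1, sum_ite_eq']

lemma rad_fac (n q : ℕ) : (∏ p ∈ n.primeFactors, p).factorization q =
    if q ∈ n.primeFactors then 1 else 0 := by
  have := prod_fac n.primeFactors (fun p hp => Nat.prime_of_mem_primeFactors hp) (fun _ => 1) q
  simpa only [pow_one] using this

lemma rad_ne (n : ℕ) : (∏ p ∈ n.primeFactors, p) ≠ 0 :=
  prod_ne_zero_iff.2 fun _ hp => (Nat.prime_of_mem_primeFactors hp).ne_zero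

/-- the valuations of a number with small `exc` -/
lemma exc_fac {z : ℤ} (hz : z ≠ 0) {T : ℕ} (hT : exc z ≤ T) (p : ℕ) :
    z.natAbs.factorization p ≤ T + 1 ∧ (T < p → z.natAbs.factorization p ≤ 1) := by
  have hd : radN z ∣ z.natAbs := Nat.prod_primeFactors_dvd _
  have hm : radN z * exc z = z.natAbs := Nat.mul_div_cancel' hd
  have hz' : z.natAbs ≠ 0 := Int.natAbs_ne_zero.2 hz
  have h1 : radN z ≠ 0 := rad_ne _
  have h2 : exc z ≠ 0 := by
    intro h
    rw [h, mul_zero] at hm
    exact hz' hm.symm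
  have h3 : z.natAbs.factorization p = (radN z).factorization p + (exc z).factorization p := by
    rw [← hm, Nat.factorization_mul h1 h2]
    rfl
  have h4 : (radN z).factorization p ≤ 1 := by
    unfold radN
    rw [rad_fac]
    split_ifs <;> omega
  have h5 := Nat.factorization_lt p h2
  refine ⟨by omega, fun hTp => ?_⟩
  have h6 : (exc z).factorization p = 0 := by
    apply Nat.factorization_eq_zero_of_not_dvd
    intro h
    have := Nat.le_of_dvd (Nat.pos_of_ne_zero h2) h
    omega
  omega

/-- the minimal discriminant -/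
lemma md_fac {E : WeierstrassCurve ℚ} (P : Finset ℕ) (hP : ∀ p, p.Prime → p ∉ P → locMin p E = 0) :
    minDisc E ≠ 0 ∧ ∀ p, p.Prime → (minDisc E).factorization p = locMin p E := by
  classical
  have h1 : minDisc E = ∏ p ∈ P.filter Nat.Prime, p ^ locMin p E := by
    let s : Finset Nat.Primes := P.subtype Nat.Prime
    have hs : ∀ p : Nat.Primes, p ∈ s ↔ (p : ℕ) ∈ P := fun p => mem_subtype
    have h2 : minDisc E = ∏ p ∈ s, (p : ℕ) ^ locMin p E := by
      unfold minDisc
      apply finprod_eq_prod_of_mulSupport_subset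
      intro p hp
      rw [Function.mem_mulSupport] at hp
      rw [mem_coe, hs]
      by_contra hcon
      apply hp
      rw [hP p p.2 hcon, pow_zero]
    rw [h2]
    exact Finset.prod_subtype_eq_prod_filter (s := P) (p := Nat.Prime)
      (fun p : ℕ => p ^ locMin p E)
  have hpr : ∀ p ∈ P.filter Nat.Prime, p.Prime := fun p hp => (mem_filter.1 hp).2
  rw [h1]
  refine ⟨prod_ne_zero_iff.2 fun p hp => pow_ne_zero _ (hpr p hp).ne_zero, fun p hp => ?_⟩
  rw [prod_fac _ hpr]
  by_cases h : p ∈ P
  · rw [if_pos (mem_filter.2 ⟨h, hp⟩)]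
  · rw [if_neg (fun h' => h (mem_filter.1 h').1), hP p hp h]

lemma bp_fac {E : WeierstrassCurve ℚ} {p : ℕ}
    (h : (minDisc E).factorization p = locMin p E) :
    (badProd E).factorization p = if locMin p E = 0 then 0 else 1 := by
  unfold badProd
  rw [rad_fac]
  have h1 : p ∈ (minDisc E).primeFactors ↔ locMin p E ≠ 0 := by
    rw [← h, ← Nat.support_factorization, Finsupp.mem_support_iff]
  by_cases h2 : locMin p E = 0
  · rw [if_pos h2, if_neg (fun h3 => h1.1 h3 h2)]
  · rw [if_neg h2, if_pos (h1.2 h2)]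

lemma prod_le (U V S : Finset ℕ) (hV : ∀ p ∈ V, 1 ≤ p) (hS : ∀ p ∈ S, 1 ≤ p) (h : U ⊆ V ∪ S) :
    ∏ p ∈ U, p ≤ (∏ p ∈ S, p) * ∏ p ∈ V, p := by
  classical
  calc ∏ p ∈ U, p ≤ ∏ p ∈ V ∪ S, p := by
        apply prod_le_prod_of_subset_of_one_le' h
        intro p hp _
        rcases mem_union.1 hp with h1 | h1
        · exact hV p h1
        · exact hS p h1
    _ ≤ (∏ p ∈ V ∪ S, p) * ∏ p ∈ V ∩ S, p := by
        apply Nat.le_mul_of_pos_right
        exact prod_pos fun p hp => hV p (mem_inter.1 hp).1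
    _ = (∏ p ∈ V, p) * ∏ p ∈ S, p := prod_union_inter
    _ = _ := mul_comm _ _

theorem main (hA : S_FBA) (hB : S_FBB) : S_FBC := by
  classical
  intro k m n A B α γ e f c hS
  obtain ⟨S, K, hK⟩ := hA k m n A B α γ e f c hS
  -- the minimal discriminants
  have hmd : ∀ x, Gd α γ x → minDisc (HE A B n x) ≠ 0 ∧
      ∀ p, p.Prime → (minDisc (HE A B n x)).factorization p = locMin p (HE A B n x) := by
    intro x hx
    apply md_fac (S ∪ (FE α γ e f x).primeFactors)
    intro p hp hpS
    rw [mem_union, not_or] at hpS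
    rw [(hK x hx p hp).1 hpS.1]
    by_contra h
    exact hpS.2 (Nat.support_factorization _ ▸ Finsupp.mem_support_iff.2 h)
  have hbp : ∀ x, Gd α γ x → ∀ p, p.Prime → (badProd (HE A B n x)).factorization p =
      if locMin p (HE A B n x) = 0 then 0 else 1 := fun x hx p hp =>
    bp_fac ((hmd x hx).2 p hp)
  have hbp0 : ∀ x, badProd (HE A B n x) ≠ 0 := fun x => rad_ne _
  refine ⟨fun x hx => ⟨Nat.one_le_iff_ne_zero.2 (hbp0 x), Nat.one_le_iff_ne_zero.2 (hmd x hx).1⟩,
    ?_, ?_⟩
  · -- bounds
    set S' := S.filter Nat.Prime with hS'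
    have hpr : ∀ p ∈ S', p.Prime := fun p hp => (mem_filter.1 hp).2
    set C1 := ∏ p ∈ S', p ^ K with hC1
    set C2 := ∏ p ∈ S', p with hC2
    have hC1p : 0 < C1 := prod_pos fun p hp => pow_pos (hpr p hp).pos _
    have hC2p : 0 < C2 := prod_pos fun p hp => (hpr p hp).pos
    have hC1f : ∀ p, C1.factorization p = if p ∈ S' then K else 0 := prod_fac S' hpr _
    refine ⟨C1 * C2, Nat.mul_pos hC1p hC2p, fun x hx => ?_⟩
    obtain ⟨d0, d1⟩ := hmd x hx
    have hFE0 : FE α γ e f x ≠ 0 := FE_ne hx.2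
    have g1 : minDisc (HE A B n x) ∣ C1 * FE α γ e f x := by
      rw [← Nat.factorization_le_iff_dvd d0 (mul_ne_zero hC1p.ne' hFE0)]
      intro p
      by_cases hp : p.Prime
      · rw [d1 p hp, Nat.factorization_mul hC1p.ne' hFE0, Finsupp.coe_add, Pi.add_apply, hC1f]
        obtain ⟨a1, a2, a3⟩ := hK x hx p hp
        by_cases h : p ∈ S'
        · rw [if_pos h]
          omega
        · have := a1 (fun h' => h (mem_filter.2 ⟨h', hp⟩))
          omega
      · rw [Nat.factorization_eq_zero_of_not_prime _ hp]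
        exact Nat.zero_le _
    have g2 : FE α γ e f x ∣ C1 * minDisc (HE A B n x) := by
      rw [← Nat.factorization_le_iff_dvd hFE0 (mul_ne_zero hC1p.ne' d0)]
      intro p
      by_cases hp : p.Prime
      · rw [Nat.factorization_mul hC1p.ne' d0, Finsupp.coe_add, Pi.add_apply, hC1f, d1 p hp]
        obtain ⟨a1, a2, a3⟩ := hK x hx p hp
        by_cases h : p ∈ S'
        · rw [if_pos h]
          omega
        · have := a1 (fun h' => h (mem_filter.2 ⟨h', hp⟩))
          omega
      · rw [Nat.factorization_eq_zero_of_not_prime _ hp]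
        exact Nat.zero_le _
    have g1' := Nat.le_of_dvd (Nat.mul_pos hC1p (Nat.pos_of_ne_zero hFE0)) g1
    have g2' := Nat.le_of_dvd (Nat.mul_pos hC1p (Nat.pos_of_ne_zero d0)) g2
    have hz : (FP α γ x).natAbs ≠ 0 := Int.natAbs_ne_zero.2 hx.2
    -- the primes
    have u1 : ∀ p, p.Prime → p ∉ S' → (p ∈ (minDisc (HE A B n x)).primeFactors ↔
        p ∈ (FP α γ x).natAbs.primeFactors) := by
      intro p hp hpS
      rw [← Nat.support_factorization, ← Nat.support_factorization, Finsupp.mem_support_iff,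
        Finsupp.mem_support_iff, d1 p hp,
        (hK x hx p hp).1 (fun h' => hpS (mem_filter.2 ⟨h', hp⟩))]
      obtain ⟨b1, b2⟩ := FE_FP hS.sys p hx.2
      constructor
      · intro h1 h2
        rw [h2, mul_zero] at b2
        omega
      · intro h1 h2
        omega
    have u2 : (minDisc (HE A B n x)).primeFactors ⊆ (FP α γ x).natAbs.primeFactors ∪ S' := by
      intro p hp
      by_cases h : p ∈ S'
      · exact mem_union_right _ h
      · exact mem_union_left _ ((u1 p (Nat.prime_of_mem_primeFactors hp) h).1 hp)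
    have u3 : (FP α γ x).natAbs.primeFactors ⊆ (minDisc (HE A B n x)).primeFactors ∪ S' := by
      intro p hp
      by_cases h : p ∈ S'
      · exact mem_union_right _ h
      · exact mem_union_left _ ((u1 p (Nat.prime_of_mem_primeFactors hp) h).2 hp)
    have w2 := prod_le _ _ _ (fun p hp => (Nat.prime_of_mem_primeFactors hp).pos)
      (fun p hp => (hpr p hp).pos) u2
    have w3 := prod_le _ _ _ (fun p hp => (Nat.prime_of_mem_primeFactors hp).pos)
      (fun p hp => (hpr p hp).pos) u3
    have l1 : ∀ z : ℕ, C1 * z ≤ C1 * C2 * z := fun z =>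
      Nat.mul_le_mul_right z (Nat.le_mul_of_pos_right _ hC2p)
    have l2 : ∀ z : ℕ, C2 * z ≤ C1 * C2 * z := fun z =>
      Nat.mul_le_mul_right z (Nat.le_mul_of_pos_left _ hC1p)
    exact ⟨w3.trans (l2 _), w2.trans (l2 _), g1'.trans (l1 _), g2'.trans (l1 _)⟩
  · -- periodicity
    intro T
    choose! j hj using fun (p : ℕ) (hp : p.Prime) =>
      hB k m n A B α γ e f c hS p hp (wt e f * (T + 1))
    set P0 := (range (T + 1) ∪ S).filter Nat.Prime with hP0
    have hpr : ∀ p ∈ P0, p.Prime := fun p hp => (mem_filter.1 hp).2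
    refine ⟨∏ p ∈ P0, p ^ j p, prod_pos fun p hp => pow_pos (hpr p hp).pos _, ?_⟩
    intro x y hx hy h1 h2 hTx hTy
    obtain ⟨dx0, dx1⟩ := hmd x hx
    obtain ⟨dy0, dy1⟩ := hmd y hy
    have fx0 : FE α γ e f x ≠ 0 := FE_ne hx.2
    have fy0 : FE α γ e f y ≠ 0 := FE_ne hy.2
    have zx : (FP α γ x).natAbs ≠ 0 := Int.natAbs_ne_zero.2 hx.2
    have zy : (FP α γ y).natAbs ≠ 0 := Int.natAbs_ne_zero.2 hy.2
    have hin : ∀ p ∈ P0, (FE α γ e f y).factorization p = (FE α γ e f x).factorization p ∧
        (FP α γ y).natAbs.factorization p = (FP α γ x).natAbs.factorization p ∧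
        locMin p (HE A B n y) = locMin p (HE A B n x) := by
      intro p hp
      have hd : (p : ℤ) ^ j p ∣ ((∏ p ∈ P0, p ^ j p : ℕ) : ℤ) := by
        have := dvd_prod_of_mem (fun p => p ^ j p) hp
        exact_mod_cast this
      apply hj p (hpr p hp) x y hx hy (hd.trans h1) (hd.trans h2)
      exact (FE_FP hS.sys p hx.2).2.trans
        (Nat.mul_le_mul_left _ (exc_fac hx.2 hTx p).1)
    have hout : ∀ p, p.Prime → p ∉ P0 → ∀ z, Gd α γ z → exc (FP α γ z) ≤ T →
        locMin p (HE A B n z) = (FE α γ e f z).factorization p ∧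
        (FP α γ z).natAbs.factorization p ≤ 1 := by
      intro p hp hpP z hz hTz
      have n1 : p ∉ range (T + 1) := fun h => hpP (mem_filter.2 ⟨mem_union_left _ h, hp⟩)
      have n2 : p ∉ S := fun h => hpP (mem_filter.2 ⟨mem_union_right _ h, hp⟩)
      rw [mem_range, not_lt] at n1
      exact ⟨(hK z hz p hp).1 n2, (exc_fac hz.2 hTz p).2 (by omega)⟩
    constructor
    · apply Nat.eq_of_factorization_eq (mul_ne_zero (hbp0 x) zy) (mul_ne_zero (hbp0 y) zx)
      intro p
      by_cases hp : p.Prime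
      · rw [Nat.factorization_mul (hbp0 x) zy, Nat.factorization_mul (hbp0 y) zx,
          Finsupp.coe_add, Finsupp.coe_add, Pi.add_apply, Pi.add_apply, hbp x hx p hp,
          hbp y hy p hp]
        by_cases h : p ∈ P0
        · obtain ⟨i1, i2, i3⟩ := hin p h
          rw [i2, i3]
        · obtain ⟨o1, o2⟩ := hout p hp h x hx hTx
          obtain ⟨o3, o4⟩ := hout p hp h y hy hTy
          obtain ⟨b1, b2⟩ := FE_FP hS.sys p hx.2
          obtain ⟨b3, b4⟩ := FE_FP hS.sys p hy.2
          have q1 : (if locMin p (HE A B n x) = 0 then 0 else 1) =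
              (FP α γ x).natAbs.factorization p := by
            rw [o1]
            split_ifs with h0
            · omega
            · by_contra h3
              have : (FP α γ x).natAbs.factorization p = 0 := by omega
              rw [this, mul_zero] at b2
              omega
          have q2 : (if locMin p (HE A B n y) = 0 then 0 else 1) =
              (FP α γ y).natAbs.factorization p := by
            rw [o3]
            split_ifs with h0
            · omega
            · by_contra h3
              have : (FP α γ y).natAbs.factorization p = 0 := by omega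
              rw [this, mul_zero] at b4
              omega
          rw [q1, q2, add_comm]
      · rw [Nat.factorization_eq_zero_of_not_prime _ hp, Nat.factorization_eq_zero_of_not_prime _ hp]
    · apply Nat.eq_of_factorization_eq (mul_ne_zero dx0 fy0) (mul_ne_zero dy0 fx0)
      intro p
      by_cases hp : p.Prime
      · rw [Nat.factorization_mul dx0 fy0, Nat.factorization_mul dy0 fx0,
          Finsupp.coe_add, Finsupp.coe_add, Pi.add_apply, Pi.add_apply, dx1 p hp, dy1 p hp]
        by_cases h : p ∈ P0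
        · obtain ⟨i1, i2, i3⟩ := hin p h
          rw [i1, i3]
        · rw [(hout p hp h x hx hTx).1, (hout p hp h y hy hTy).1, add_comm]
      · rw [Nat.factorization_eq_zero_of_not_prime _ hp, Nat.factorization_eq_zero_of_not_prime _ hp]

end Pool.Agent.L0h46.TS.FBC
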