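import Pool.Agent.L0h46.TS.Defs

/-!
# Project TS: assembly
-/

set_option autoImplicit false

namespace Pool.Agent.L0h46.TS

open Finset Filter Topology
open Pool.Agent.L0h46.TQ (Nrm Lf htn Indep lg hh N1)

/-- the fibres with bad product at most `X` and minimal discriminant at most `X ^ A'` (no condition
if `m = 0`) with the property `P` -/
def FbX (A B : Polynomial ℤ) (m : ℕ) (A' X : ℝ) (P : ℕ → ℕ → Prop) : Set ℚ :=
  {t | (fib A B t).Δ ≠ 0 ∧ (badProd (fib A B t) : ℝ) ≤ X ∧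
    (m = 0 ∨ (minDisc (fib A B t) : ℝ) ≤ X ^ A') ∧ P (badProd (fib A B t)) (minDisc (fib A B t))}

/-- the corresponding set of points -/
def XS {k m : ℕ} (α : Fin k → ℤ × ℤ) (γ : Fin m → ℤ × ℤ × ℤ) (N D : ℤ × ℤ → ℕ) (A' X : ℝ)
    (P : ℕ → ℕ → Prop) : Set (ℤ × ℤ) :=
  {x | Nrm x ∧ FP α γ x ≠ 0 ∧ (m = 0 ∨ (D x : ℝ) ≤ X ^ A') ∧ (N x : ℝ) ≤ X ∧ P (N x) (D x)}

theorem card_cmp (hI : S_ISO) {k m n : ℕ} {A B : Polynomial ℤ} {α : Fin k → ℤ × ℤ}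
    {γ : Fin m → ℤ × ℤ × ℤ} {e : Fin k → ℕ} {f : Fin m → ℕ} {c : ℤ}
    (hS : Surf n A B α γ e f c) (A' X : ℝ) (P : ℕ → ℕ → Prop)
    (hfin : (XS α γ (fun x => badProd (HE A B n x)) (fun x => minDisc (HE A B n x)) A' X
      P).Finite) :
    (FbX A B m A' X P).Finite ∧
    (FbX A B m A' X P).ncard ≤ (XS α γ (fun x => badProd (HE A B n x))
      (fun x => minDisc (HE A B n x)) A' X P).ncard ∧
    (XS α γ (fun x => badProd (HE A B n x)) (fun x => minDisc (HE A B n x)) A' X P).ncard ≤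
      (FbX A B m A' X P).ncard + 1 := by
  set φ : ℚ → ℤ × ℤ := fun t => (t.num, (t.den : ℤ)) with hφ
  have hinj : Function.Injective φ := by
    intro s t h
    simp only [hφ, Prod.mk.injEq, Nat.cast_inj] at h
    exact Rat.ext h.1 h.2
  set T := XS α γ (fun x => badProd (HE A B n x)) (fun x => minDisc (HE A B n x)) A' X P with hT
  have himg : φ '' FbX A B m A' X P ⊆ T := by
    rintro _ ⟨t, ⟨h1, h2, h3, h4⟩, rfl⟩
    obtain ⟨i1, i2, i3⟩ := hI k m n A B α γ e f c hS t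
    refine ⟨⟨?_, Or.inl ?_⟩, i1.mp h1, ?_, ?_, ?_⟩
    · change IsCoprime t.num (t.den : ℤ)
      rw [Int.isCoprime_iff_gcd_eq_one]
      change Nat.gcd t.num.natAbs ((t.den : ℤ)).natAbs = 1
      rw [Int.natAbs_natCast]
      exact t.reduced
    · simpa [hφ] using t.den_pos
    · rw [i2] at h3
      exact h3
    · rw [i3] at h2
      exact h2
    · rw [i2, i3] at h4
      exact h4
  have hsub : T ⊆ insert (1, 0) (φ '' FbX A B m A' X P) := by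
    rintro x ⟨⟨h1, h2⟩, h3, h4, h5, h6⟩
    rcases h2 with h2 | ⟨h2, h2'⟩
    · right
      have hden : ((x.1 : ℚ) / (x.2 : ℚ)).den = x.2 :=
        Rat.den_div_eq_of_coprime h2 (Int.isCoprime_iff_gcd_eq_one.mp h1)
      have hnum : ((x.1 : ℚ) / (x.2 : ℚ)).num = x.1 :=
        Rat.num_div_eq_of_coprime h2 (Int.isCoprime_iff_gcd_eq_one.mp h1)
      have hx : φ ((x.1 : ℚ) / (x.2 : ℚ)) = x := by
        simp only [hφ]
        rw [hden, hnum]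
      refine ⟨(x.1 : ℚ) / (x.2 : ℚ), ?_, hx⟩
      obtain ⟨i1, i2, i3⟩ := hI k m n A B α γ e f c hS ((x.1 : ℚ) / (x.2 : ℚ))
      have hx' : ((((x.1 : ℚ) / (x.2 : ℚ)).num, ((((x.1 : ℚ) / (x.2 : ℚ)).den : ℕ) : ℤ)) : ℤ × ℤ)
          = x := hx
      rw [hx'] at i1 i2 i3
      refine ⟨i1.mpr h3, ?_, ?_, ?_⟩
      · rw [i3]; exact h5
      · rw [i2]; exact h4
      · rw [i2, i3]; exact h6
    · left
      rw [h2] at h1
      have h7 : IsUnit x.1 := isCoprime_zero_right.mp h1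
      rcases Int.isUnit_iff.mp h7 with h8 | h8
      · exact Prod.ext h8 h2
      · omega
  have hfin' : (φ '' FbX A B m A' X P).Finite := hfin.subset himg
  have hF : (FbX A B m A' X P).Finite := Set.Finite.of_finite_image hfin' hinj.injOn
  have hc : (φ '' FbX A B m A' X P).ncard = (FbX A B m A' X P).ncard :=
    Set.ncard_image_of_injective _ hinj
  refine ⟨hF, ?_, ?_⟩
  · rw [← hc]
    exact Set.ncard_le_ncard himg hfin
  · rw [← hc]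
    refine (Set.ncard_le_ncard hsub (hfin'.insert _)).trans ?_
    exact Set.ncard_insert_le _ _

/-- sandwich: if the counts with height bounds have the limit `L` then so do those with bounds for
the discriminant -/
theorem tendsto_XS (hH : S_HTD) {k m : ℕ} {α : Fin k → ℤ × ℤ}
    {γ : Fin m → ℤ × ℤ × ℤ} {e : Fin k → ℕ} {f : Fin m → ℕ} {N D : ℤ × ℤ → ℕ}
    (hs : Sys α γ e f) (hAF : AF α γ e f N D) (P : ℕ → ℕ → Prop) (L : ℝ)
    (hfin : ∀ A X : ℝ, 1 ≤ X → (Pt α γ N A X).Finite)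
    (hL : ∀ A : ℝ, 1 / dg k m < A → Tendsto (fun X : ℝ =>
      (({x | x ∈ Pt α γ N A X ∧ P (N x) (D x)} : Set (ℤ × ℤ)).ncard : ℝ) / X ^ (2 / dg k m))
        atTop (𝓝 L)) (A' : ℝ) (hA' : rr e f < A') :
    (∀ X : ℝ, 2 ≤ X → (XS α γ N D A' X P).Finite) ∧
    Tendsto (fun X : ℝ => ((XS α γ N D A' X P).ncard : ℝ) / X ^ (2 / dg k m)) atTop (𝓝 L) := by
  obtain ⟨H1, H2⟩ := hH k m α γ e f hs N D hAF
  obtain ⟨A2, hA2, h2⟩ := H1 A'
  obtain ⟨A1, hA1, X₀, h1⟩ := H2 A' hA'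
  have sub2 : ∀ X : ℝ, 2 ≤ X → XS α γ N D A' X P ⊆ {x | x ∈ Pt α γ N A2 X ∧ P (N x) (D x)} := by
    rintro X hX x ⟨a1, a2, a3, a4, a5⟩
    exact ⟨⟨a1, a2, a3.imp_right (h2 X hX x ⟨a1.1, a2⟩), a4⟩, a5⟩
  have sub1 : ∀ X : ℝ, X₀ ≤ X → {x | x ∈ Pt α γ N A1 X ∧ P (N x) (D x)} ⊆ XS α γ N D A' X P := by
    rintro X hX x ⟨⟨a1, a2, a3, a4⟩, a5⟩
    exact ⟨a1, a2, a3.imp_right (h1 X hX x ⟨a1.1, a2⟩), a4, a5⟩
  have fin2 : ∀ X : ℝ, 2 ≤ X → ({x | x ∈ Pt α γ N A2 X ∧ P (N x) (D x)} : Set (ℤ × ℤ)).Finite :=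
    fun X hX => (hfin A2 X (by linarith)).subset fun x hx => hx.1
  have fin1 : ∀ X : ℝ, 2 ≤ X → (XS α γ N D A' X P).Finite := fun X hX =>
    (fin2 X hX).subset (sub2 X hX)
  refine ⟨fin1, tendsto_of_tendsto_of_tendsto_of_le_of_le' (hL A1 hA1) (hL A2 hA2) ?_ ?_⟩
  · filter_upwards [eventually_ge_atTop X₀, eventually_ge_atTop (2 : ℝ)] with X hX hX2
    refine div_le_div_of_nonneg_right ?_ (by positivity)
    exact_mod_cast Set.ncard_le_ncard (sub1 X hX) (fin1 X hX2)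
  · filter_upwards [eventually_ge_atTop (2 : ℝ)] with X hX2
    refine div_le_div_of_nonneg_right ?_ (by positivity)
    exact_mod_cast Set.ncard_le_ncard (sub2 X hX2) (fin2 X hX2)

/-- the counts of fibres -/
theorem tendsto_FbX (hI : S_ISO) {k m n : ℕ} {A B : Polynomial ℤ} {α : Fin k → ℤ × ℤ}
    {γ : Fin m → ℤ × ℤ × ℤ} {e : Fin k → ℕ} {f : Fin m → ℕ} {c : ℤ}
    (hS : Surf n A B α γ e f c) (A' : ℝ) (P : ℕ → ℕ → Prop) (L : ℝ)
    (hfin : ∀ X : ℝ, 2 ≤ X → (XS α γ (fun x => badProd (HE A B n x))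
      (fun x => minDisc (HE A B n x)) A' X P).Finite)
    (hL : Tendsto (fun X : ℝ => ((XS α γ (fun x => badProd (HE A B n x))
      (fun x => minDisc (HE A B n x)) A' X P).ncard : ℝ) / X ^ (2 / dg k m)) atTop (𝓝 L)) :
    (∀ X : ℝ, 2 ≤ X → (FbX A B m A' X P).Finite) ∧
    Tendsto (fun X : ℝ => ((FbX A B m A' X P).ncard : ℝ) / X ^ (2 / dg k m)) atTop (𝓝 L) := by
  have hd : 0 < dg k m := by
    have h3 : (3 : ℝ) ≤ k := by exact_mod_cast hS.sys.three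
    unfold dg
    positivity
  refine ⟨fun X hX => (card_cmp hI hS A' X P (hfin X hX)).1, ?_⟩
  have h1 : Tendsto (fun X : ℝ => ((XS α γ (fun x => badProd (HE A B n x))
      (fun x => minDisc (HE A B n x)) A' X P).ncard : ℝ) / X ^ (2 / dg k m) -
      1 / X ^ (2 / dg k m)) atTop (𝓝 L) := by
    have h2 : Tendsto (fun X : ℝ => 1 / X ^ (2 / dg k m)) atTop (𝓝 0) := by
      simp_rw [one_div]
      exact (tendsto_rpow_atTop (by positivity)).inv_tendsto_atTop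
    simpa using hL.sub h2
  refine tendsto_of_tendsto_of_tendsto_of_le_of_le' h1 hL ?_ ?_
  · filter_upwards [eventually_ge_atTop (2 : ℝ)] with X hX
    obtain ⟨-, -, h3⟩ := card_cmp hI hS A' X P (hfin X hX)
    rw [← sub_div]
    refine div_le_div_of_nonneg_right ?_ (by positivity)
    have h4 : ((XS α γ (fun x => badProd (HE A B n x))
      (fun x => minDisc (HE A B n x)) A' X P).ncard : ℝ) ≤ ((FbX A B m A' X P).ncard : ℝ) + 1 := by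
      exact_mod_cast h3
    linarith
  · filter_upwards [eventually_ge_atTop (2 : ℝ)] with X hX
    obtain ⟨-, h3, -⟩ := card_cmp hI hS A' X P (hfin X hX)
    refine div_le_div_of_nonneg_right ?_ (by positivity)
    exact_mod_cast h3

/-- the law for a surface -/
def SLaw (A B : Polynomial ℤ) (m : ℕ) (s r : ℝ) : Prop :=
  (∃ (c : ℝ) (Φ : ℝ → ℝ), 0 < c ∧ MonotoneOn Φ (Set.Ioi 0) ∧ Tendsto Φ (𝓝[>] 0) (𝓝 0) ∧
    Tendsto Φ atTop (𝓝 c) ∧ ∀ A' : ℝ, r < A' →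
      (∀ X : ℝ, 2 ≤ X → (FbX A B m A' X (fun _ _ => True)).Finite) ∧
      Tendsto (fun X : ℝ => ((FbX A B m A' X (fun _ _ => True)).ncard : ℝ) / X ^ s) atTop (𝓝 c) ∧
      (∀ y : ℝ, 0 < y → Tendsto (fun X : ℝ => ((FbX A B m A' X (fun N D => (D : ℝ) ≤
        y * (N : ℝ) ^ r)).ncard : ℝ) / X ^ s) atTop (𝓝 (Φ y))) ∧
      ∀ ψ : ℕ → ℝ, Tendsto ψ atTop atTop → Tendsto (fun X : ℝ => ((FbX A B m A' X
        (fun N D => ¬((N : ℝ) ^ r ≤ ψ N * D ∧ (D : ℝ) ≤ ψ N * (N : ℝ) ^ r))).ncard : ℝ) /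
          X ^ s) atTop (𝓝 0)) ∧
  ∀ A' δ : ℝ, 0 < δ → ∃ η C : ℝ, 0 < η ∧ 0 < C ∧ ∀ X : ℝ, 2 ≤ X →
    ((FbX A B m A' X (fun N D => ¬((N : ℝ) ^ (r - δ) ≤ D ∧
      (D : ℝ) ≤ (N : ℝ) ^ (r + δ)))).ncard : ℝ) ≤ C * X ^ (s - η)

theorem slaw (hLIM : S_LIM) (hLM2 : S_LM2) (hPSI : S_PSI) (hPSV : S_PSV) (hHTD : S_HTD)
    (hFBC : S_FBC) (hI : S_ISO) {k m n : ℕ} {A B : Polynomial ℤ} {α : Fin k → ℤ × ℤ}
    {γ : Fin m → ℤ × ℤ × ℤ} {e : Fin k → ℕ} {f : Fin m → ℕ} {c : ℤ}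
    (hS : Surf n A B α γ e f c) : SLaw A B m (2 / dg k m) (rr e f) := by
  have hAF := hFBC k m n A B α γ e f c hS
  obtain ⟨Φ, hΦ⟩ := hLIM k m α γ e f hS.sys _ _ hAF
  obtain ⟨p1, p2, p3, p4⟩ := hLM2 k m α γ e f hS.sys _ _ hAF Φ hΦ
  refine ⟨⟨Φ 0, Φ, p1, p2, p3, p4, fun A' hA' => ?_⟩, fun A' δ hδ => ?_⟩
  · have hc : ∀ (P : ℕ → ℕ → Prop) (L : ℝ), (∀ A₁ : ℝ, 1 / dg k m < A₁ → Tendsto (fun X : ℝ =>
        (({x | x ∈ Pt α γ (fun x => badProd (HE A B n x)) A₁ X ∧ P (badProd (HE A B n x))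
          (minDisc (HE A B n x))} : Set (ℤ × ℤ)).ncard : ℝ) / X ^ (2 / dg k m)) atTop (𝓝 L)) →
        (∀ X : ℝ, 2 ≤ X → (FbX A B m A' X P).Finite) ∧
        Tendsto (fun X : ℝ => ((FbX A B m A' X P).ncard : ℝ) / X ^ (2 / dg k m)) atTop
          (𝓝 L) := by
      intro P L h
      obtain ⟨f1, f2⟩ := tendsto_XS hHTD hS.sys hAF P L hΦ.1 h A' hA'
      exact tendsto_FbX hI hS A' P L f1 f2
    have h0 := hc (fun _ _ => True) (Φ 0) fun A₁ hA₁ => by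
      have h1 := hΦ.2 0 A₁ hA₁
      simpa only [Cy, le_refl, true_or, and_true] using h1
    refine ⟨h0.1, h0.2, fun y hy => ?_, fun ψ hψ => ?_⟩
    · refine (hc (fun N D => (D : ℝ) ≤ y * (N : ℝ) ^ rr e f) (Φ y) fun A₁ hA₁ => ?_).2
      have h1 := hΦ.2 y A₁ hA₁
      simpa only [Cy, not_le.mpr hy, false_or] using h1
    · exact (hc (fun N D => ¬((N : ℝ) ^ rr e f ≤ ψ N * D ∧ (D : ℝ) ≤ ψ N * (N : ℝ) ^ rr e f)) 0
        fun A₁ hA₁ => hPSI k m α γ e f hS.sys _ _ hAF Φ hΦ ψ hψ A₁ hA₁).2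
  · obtain ⟨H1, -⟩ := hHTD k m α γ e f hS.sys _ _ hAF
    obtain ⟨A2, hA2, h2⟩ := H1 A'
    obtain ⟨η, C, hη, hC, h⟩ := hPSV k m α γ e f hS.sys _ _ hAF A2 δ hδ
    refine ⟨η, C, hη, hC, fun X hX => ?_⟩
    have sub2 : XS α γ (fun x => badProd (HE A B n x)) (fun x => minDisc (HE A B n x)) A' X
        (fun N D => ¬((N : ℝ) ^ (rr e f - δ) ≤ D ∧ (D : ℝ) ≤ (N : ℝ) ^ (rr e f + δ))) ⊆
        {x | x ∈ Pt α γ (fun x => badProd (HE A B n x)) A2 X ∧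
          ¬((badProd (HE A B n x) : ℝ) ^ (rr e f - δ) ≤ minDisc (HE A B n x) ∧
          (minDisc (HE A B n x) : ℝ) ≤ (badProd (HE A B n x) : ℝ) ^ (rr e f + δ))} := by
      rintro x ⟨a1, a2, a3, a4, a5⟩
      exact ⟨⟨a1, a2, a3.imp_right (h2 X hX x ⟨a1.1, a2⟩), a4⟩, a5⟩
    have fin2 : ({x | x ∈ Pt α γ (fun x => badProd (HE A B n x)) A2 X ∧
          ¬((badProd (HE A B n x) : ℝ) ^ (rr e f - δ) ≤ minDisc (HE A B n x) ∧
          (minDisc (HE A B n x) : ℝ) ≤ (badProd (HE A B n x) : ℝ) ^ (rr e f + δ))} :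
          Set (ℤ × ℤ)).Finite := (hΦ.1 A2 X (by linarith)).subset fun x hx => hx.1
    obtain ⟨-, h3, -⟩ := card_cmp hI hS A' X _ (fin2.subset sub2)
    calc _ ≤ (((XS α γ (fun x => badProd (HE A B n x)) (fun x => minDisc (HE A B n x)) A' X
        (fun N D => ¬((N : ℝ) ^ (rr e f - δ) ≤ D ∧ (D : ℝ) ≤ (N : ℝ) ^ (rr e f + δ)))).ncard : ℕ) :
          ℝ) := by exact_mod_cast h3
      _ ≤ _ := by exact_mod_cast Set.ncard_le_ncard sub2 fin2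
      _ ≤ _ := h X (by linarith)

end Pool.Agent.L0h46.TS
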