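import Mathlib
import Pool.Agent.L0h46.TS.Defs

/-!
# Project TS, part GDF: the points counted by congruences and the points with `N ≤ X`
-/

set_option autoImplicit false

namespace Pool.Agent.L0h46.TS.GDF

open Finset Filter Topology
open Pool.Agent.L0h46.TQ (Nrm Lf htn Indep)

/-! ### Boxes, lines, points which are not primitive -/

theorem abs1_le (x : ℤ × ℤ) : |x.1| ≤ (htn x : ℤ) := by
  unfold htn; rw [Int.abs_eq_natAbs]; exact_mod_cast le_max_left _ _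

theorem abs2_le (x : ℤ × ℤ) : |x.2| ≤ (htn x : ℤ) := by
  unfold htn; rw [Int.abs_eq_natAbs]; exact_mod_cast le_max_right _ _

theorem box_sub (H : ℝ) : ({x : ℤ × ℤ | (htn x : ℝ) ≤ H} : Set (ℤ × ℤ)) ⊆
    ((Finset.Icc (-(⌊H⌋₊ : ℤ)) ⌊H⌋₊ ×ˢ Finset.Icc (-(⌊H⌋₊ : ℤ)) ⌊H⌋₊ : Finset (ℤ × ℤ)) :
      Set (ℤ × ℤ)) := by
  intro x hx
  have h : htn x ≤ ⌊H⌋₊ := Nat.le_floor hx
  have h1 := abs_le.1 (abs1_le x)
  have h2 := abs_le.1 (abs2_le x)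
  simp only [coe_product, Set.mem_prod, Finset.coe_Icc, Set.mem_Icc]
  refine ⟨⟨?_, ?_⟩, ?_, ?_⟩ <;> omega

theorem box_fin (H : ℝ) : ({x : ℤ × ℤ | (htn x : ℝ) ≤ H} : Set (ℤ × ℤ)).Finite :=
  (Finset.finite_toSet _).subset (box_sub H)

theorem box_card (H : ℝ) (hH : 1 ≤ H) :
    ((({x : ℤ × ℤ | (htn x : ℝ) ≤ H} : Set (ℤ × ℤ)).ncard : ℕ) : ℝ) ≤ 9 * H ^ 2 := by
  have h1 := Set.ncard_le_ncard (box_sub H) (Finset.finite_toSet _)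
  rw [Set.ncard_coe_finset, card_product, Int.card_Icc] at h1
  have h2 : (((⌊H⌋₊ : ℤ) + 1 - -(⌊H⌋₊ : ℤ)).toNat : ℝ) ≤ 3 * H := by
    have h3 : ((⌊H⌋₊ : ℤ) + 1 - -(⌊H⌋₊ : ℤ)).toNat = 2 * ⌊H⌋₊ + 1 := by omega
    rw [h3]; push_cast
    have := Nat.floor_le (by linarith : (0 : ℝ) ≤ H)
    linarith
  have h3 : ((((⌊H⌋₊ : ℤ) + 1 - -(⌊H⌋₊ : ℤ)).toNat * ((⌊H⌋₊ : ℤ) + 1 - -(⌊H⌋₊ : ℤ)).toNat : ℕ) : ℝ)
      ≤ 9 * H ^ 2 := by
    push_cast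
    have h0 : (0 : ℝ) ≤ (((⌊H⌋₊ : ℤ) + 1 - -(⌊H⌋₊ : ℤ)).toNat : ℝ) := Nat.cast_nonneg _
    nlinarith
  exact le_trans (by exact_mod_cast h1) h3

/-- points on a line through the origin -/
theorem line_card (a : ℤ × ℤ) (ha : a ≠ 0) (H : ℝ) (hH : 1 ≤ H) :
    ((({x : ℤ × ℤ | 0 < x.2 ∧ (htn x : ℝ) ≤ H ∧ Lf a x = 0} : Set (ℤ × ℤ)).ncard : ℕ) : ℝ) ≤ H := by
  by_cases h2 : a.2 = 0
  · have h1 : a.1 ≠ 0 := fun h => ha (Prod.ext h h2)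
    have : ({x : ℤ × ℤ | 0 < x.2 ∧ (htn x : ℝ) ≤ H ∧ Lf a x = 0} : Set (ℤ × ℤ)) = ∅ := by
      ext x
      rw [Set.mem_empty_iff_false, iff_false]
      rintro ⟨hx, -, h⟩
      unfold Lf at h
      rw [h2, mul_zero, zero_sub, neg_eq_zero] at h
      rcases mul_eq_zero.1 h with h | h
      · omega
      · exact h1 h
    rw [this, Set.ncard_empty]; push_cast; linarith
  · have h1 : ({x : ℤ × ℤ | 0 < x.2 ∧ (htn x : ℝ) ≤ H ∧ Lf a x = 0} : Set (ℤ × ℤ)).ncard ≤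
        ((Finset.Icc (1 : ℤ) ⌊H⌋₊ : Finset ℤ) : Set ℤ).ncard := by
      apply Set.ncard_le_ncard_of_injOn (fun x => x.2)
      · intro x hx
        have h : htn x ≤ ⌊H⌋₊ := Nat.le_floor hx.2.1
        have h2 := abs_le.1 (abs2_le x)
        have h3 := hx.1
        simp only [Finset.coe_Icc, Set.mem_Icc]
        constructor <;> omega
      · intro x hx x' hx' hxx
        have h3 := hx.2.2
        have h4 := hx'.2.2
        simp only at hxx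
        unfold Lf at h3 h4
        rw [← hxx] at h4
        have h5 : (x.1 - x'.1) * a.2 = 0 := by linarith
        rcases mul_eq_zero.1 h5 with h | h
        · exact Prod.ext (by omega) hxx
        · exact absurd h h2
    rw [Set.ncard_coe_finset, Int.card_Icc] at h1
    have h3 : ((⌊H⌋₊ : ℤ) + 1 - 1).toNat = ⌊H⌋₊ := by omega
    rw [h3] at h1
    exact le_trans (by exact_mod_cast h1) (Nat.floor_le (by linarith))

/-- points whose coordinates have a common divisor larger than `T` -/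
theorem ncop_card (T : ℕ) (hT : 1 ≤ T) (H : ℝ) (hH : 1 ≤ H) :
    ((({x : ℤ × ℤ | 0 < x.2 ∧ (htn x : ℝ) ≤ H ∧ ∃ n : ℕ, T < n ∧ (n : ℤ) ∣ x.1 ∧ (n : ℤ) ∣ x.2} :
      Set (ℤ × ℤ)).ncard : ℕ) : ℝ) ≤ 3 * H ^ 2 / T := by
  set E : Finset (ℤ × ℤ) := (Finset.Ioc T ⌊H⌋₊).biUnion fun n =>
    ((Finset.Icc (-(⌊H / n⌋₊ : ℤ)) ⌊H / n⌋₊) ×ˢ (Finset.Icc (1 : ℤ) ⌊H / n⌋₊)).image
      (fun z => ((n : ℤ) * z.1, (n : ℤ) * z.2)) with hE
  have hsub : ({x : ℤ × ℤ | 0 < x.2 ∧ (htn x : ℝ) ≤ H ∧ ∃ n : ℕ, T < n ∧ (n : ℤ) ∣ x.1 ∧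
      (n : ℤ) ∣ x.2} : Set (ℤ × ℤ)) ⊆ (E : Set (ℤ × ℤ)) := by
    rintro x ⟨hx, hH', n, hn, ⟨u, hu⟩, v, hv⟩
    have h : htn x ≤ ⌊H⌋₊ := Nat.le_floor hH'
    have hn0 : 0 < (n : ℤ) := by omega
    have hn0' : 0 < (n : ℝ) := by exact_mod_cast hn0
    have hv0 : 0 < v := by
      by_contra hv0
      have : (n : ℤ) * v ≤ 0 := mul_nonpos_of_nonneg_of_nonpos hn0.le (by omega)
      omega
    have h1 := abs1_le x
    have h2 := abs2_le x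
    have hvn : (n : ℤ) * |v| ≤ htn x := by
      rw [hv, abs_mul, abs_of_pos hn0] at h2; exact h2
    have hun : (n : ℤ) * |u| ≤ htn x := by
      rw [hu, abs_mul, abs_of_pos hn0] at h1; exact h1
    have key : ∀ w : ℤ, (n : ℤ) * |w| ≤ htn x → w.natAbs ≤ ⌊H / n⌋₊ := by
      intro w hw
      apply Nat.le_floor
      rw [le_div_iff₀ hn0']
      have : ((n : ℤ) * |w| : ℤ) = ((w.natAbs * n : ℕ) : ℤ) := by
        push_cast; rw [Int.abs_eq_natAbs]; push_cast; ring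
      rw [this] at hw
      have hw' : w.natAbs * n ≤ htn x := by exact_mod_cast hw
      have : ((w.natAbs * n : ℕ) : ℝ) ≤ H := le_trans (by exact_mod_cast hw') hH'
      push_cast at this
      exact_mod_cast this
    have hu' := key u hun
    have hv' := key v hvn
    rw [hE, Finset.mem_coe, Finset.mem_biUnion]
    refine ⟨n, ?_, ?_⟩
    · rw [Finset.mem_Ioc]
      refine ⟨hn, ?_⟩
      have : (n : ℤ) * 1 ≤ (n : ℤ) * |v| := by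
        apply mul_le_mul_of_nonneg_left _ hn0.le
        rw [abs_of_pos hv0]; omega
      omega
    · rw [Finset.mem_image]
      refine ⟨(u, v), ?_, ?_⟩
      · rw [Finset.mem_product, Finset.mem_Icc, Finset.mem_Icc]
        refine ⟨⟨?_, ?_⟩, ?_, ?_⟩ <;> simp only <;> omega
      · exact Prod.ext hu.symm hv.symm
  have h1 := Set.ncard_le_ncard hsub (Finset.finite_toSet _)
  rw [Set.ncard_coe_finset] at h1
  have h2 : (E.card : ℝ) ≤ ∑ n ∈ Finset.Ioc T ⌊H⌋₊, 3 * H ^ 2 * ((n : ℝ) ^ 2)⁻¹ := by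
    have h3 : E.card ≤ ∑ n ∈ Finset.Ioc T ⌊H⌋₊, (((Finset.Icc (-(⌊H / n⌋₊ : ℤ)) ⌊H / n⌋₊) ×ˢ
        (Finset.Icc (1 : ℤ) ⌊H / n⌋₊)).image (fun z => ((n : ℤ) * z.1, (n : ℤ) * z.2))).card :=
      Finset.card_biUnion_le
    have h4 : (E.card : ℝ) ≤ ∑ n ∈ Finset.Ioc T ⌊H⌋₊, ((((Finset.Icc (-(⌊H / n⌋₊ : ℤ)) ⌊H / n⌋₊) ×ˢ
        (Finset.Icc (1 : ℤ) ⌊H / n⌋₊)).image
          (fun z => ((n : ℤ) * z.1, (n : ℤ) * z.2))).card : ℝ) := by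
      exact_mod_cast h3
    refine h4.trans (Finset.sum_le_sum fun n hn => ?_)
    rw [Finset.mem_Ioc] at hn
    have hn0' : 0 < (n : ℝ) := by
      have : 0 < n := by omega
      exact_mod_cast this
    have h5 : ((((Finset.Icc (-(⌊H / n⌋₊ : ℤ)) ⌊H / n⌋₊) ×ˢ
        (Finset.Icc (1 : ℤ) ⌊H / n⌋₊)).image
          (fun z => ((n : ℤ) * z.1, (n : ℤ) * z.2))).card) ≤ (2 * ⌊H / n⌋₊ + 1) * ⌊H / n⌋₊ := by
      refine Finset.card_image_le.trans ?_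
      rw [card_product, Int.card_Icc, Int.card_Icc]
      apply le_of_eq
      congr 1 <;> omega
    have h6 : (⌊H / n⌋₊ : ℝ) ≤ H / n := Nat.floor_le (by positivity)
    have h7 : 1 ≤ H / n := by
      rw [le_div_iff₀ hn0', one_mul]
      exact le_trans (by exact_mod_cast hn.2) (Nat.floor_le (by linarith))
    have h8 : (0 : ℝ) ≤ (⌊H / n⌋₊ : ℝ) := Nat.cast_nonneg _
    have h9 : (((2 * ⌊H / n⌋₊ + 1) * ⌊H / n⌋₊ : ℕ) : ℝ) ≤ 3 * (H / n) ^ 2 := by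
      push_cast
      nlinarith
    refine (le_trans (by exact_mod_cast h5) h9).trans (le_of_eq ?_)
    rw [div_pow]; ring
  rw [← Finset.mul_sum] at h2
  have hT0 : (0 : ℝ) < T := by exact_mod_cast hT
  have h3 : ∑ n ∈ Finset.Ioc T ⌊H⌋₊, ((n : ℝ) ^ 2)⁻¹ ≤ (T : ℝ)⁻¹ := by
    by_cases hTH : T ≤ ⌊H⌋₊
    · have h4 := sum_Ioc_inv_sq_le_sub (α := ℝ) (k := T) (n := ⌊H⌋₊) (by omega) hTH
      have h5 : (0 : ℝ) ≤ ((⌊H⌋₊ : ℝ))⁻¹ := by positivity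
      linarith
    · rw [Finset.Ioc_eq_empty (by omega), Finset.sum_empty]; positivity
  calc ((({x : ℤ × ℤ | 0 < x.2 ∧ (htn x : ℝ) ≤ H ∧ ∃ n : ℕ, T < n ∧ (n : ℤ) ∣ x.1 ∧ (n : ℤ) ∣ x.2} :
      Set (ℤ × ℤ)).ncard : ℕ) : ℝ) ≤ (E.card : ℝ) := by exact_mod_cast h1
    _ ≤ _ := h2
    _ ≤ 3 * H ^ 2 * (T : ℝ)⁻¹ := by
        apply mul_le_mul_of_nonneg_left h3; positivity
    _ = 3 * H ^ 2 / T := by rw [div_eq_mul_inv]

/-! ### The forms -/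

theorem Qg_ne (g : ℤ × ℤ × ℤ) (hg : IrrQ g) (x : ℤ × ℤ) (hx : x.2 ≠ 0) : Qg g x ≠ 0 := by
  intro h
  apply hg
  unfold Qg at h
  have h1 : (2 * g.1 * x.1 + g.2.1 * x.2) ^ 2 = (g.2.1 ^ 2 - 4 * g.1 * g.2.2) * x.2 ^ 2 := by
    linear_combination 4 * g.1 * h
  have h2 : x.2 ^ 2 ∣ (2 * g.1 * x.1 + g.2.1 * x.2) ^ 2 := ⟨g.2.1 ^ 2 - 4 * g.1 * g.2.2, by rw [h1]; ring⟩
  rw [Int.pow_dvd_pow_iff (by norm_num)] at h2
  obtain ⟨w, hw⟩ := h2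
  refine ⟨w, ?_⟩
  rw [hw] at h1
  have h3 : x.2 ^ 2 * ((g.2.1 ^ 2 - 4 * g.1 * g.2.2) - w * w) = 0 := by linear_combination -h1
  rcases mul_eq_zero.1 h3 with h | h
  · exact absurd (pow_eq_zero_iff (by norm_num) |>.1 h) hx
  · linarith

theorem FE_ne {k m : ℕ} (α : Fin k → ℤ × ℤ) (γ : Fin m → ℤ × ℤ × ℤ) (e : Fin k → ℕ)
    (f : Fin m → ℕ) (x : ℤ × ℤ) (h : FP α γ x ≠ 0) : FE α γ e f x ≠ 0 := by
  unfold FP at h
  unfold FE
  rw [mul_ne_zero_iff, Finset.prod_ne_zero_iff, Finset.prod_ne_zero_iff] at h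
  rw [mul_ne_zero_iff, Finset.prod_ne_zero_iff, Finset.prod_ne_zero_iff]
  exact ⟨fun i hi => pow_ne_zero _ (Int.natAbs_ne_zero.2 (h.1 i hi)),
    fun j hj => pow_ne_zero _ (Int.natAbs_ne_zero.2 (h.2 j hj))⟩

theorem al_ne {k : ℕ} (α : Fin k → ℤ × ℤ) (hk : 3 ≤ k) (h : Indep α) (i : Fin k) : α i ≠ 0 := by
  intro h0
  obtain ⟨j, hj⟩ : ∃ j : Fin k, i ≠ j := by
    by_cases hi : i = ⟨0, by omega⟩
    · exact ⟨⟨1, by omega⟩, by rw [hi]; intro h; simp [Fin.ext_iff] at h⟩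
    · exact ⟨⟨0, by omega⟩, hi⟩
  apply h i j hj
  rw [h0]; simp

/-! ### The differences of the sets -/

section
variable {k m : ℕ} {α : Fin k → ℤ × ℤ} {γ : Fin m → ℤ × ℤ × ℤ} {e : Fin k → ℕ} {f : Fin m → ℕ}
variable {N D : ℤ × ℤ → ℕ}

theorem sub1 {A X y K : ℝ} {T q : ℕ} (x : ℤ × ℤ) (hx : x ∈ Pt α γ N A X)
    (hy : Cy N D (rr e f) y x) (hh : (htn x : ℝ) ≤ K * X ^ (1 / dg k m))
    (hT : exc (FP α γ x) ≤ T) (h2 : 0 < x.2) : x ∈ GS α γ e f N D T q K y X := by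
  obtain ⟨⟨hcop, -⟩, hF, -, hN⟩ := hx
  have hF' : |(FP α γ x : ℝ)| ≠ 0 := by
    rw [abs_ne_zero]; exact_mod_cast hF
  have hFE : (FE α γ e f x : ℝ) ≠ 0 := by exact_mod_cast FE_ne α γ e f x hF
  refine ⟨h2, hh, x, ⟨hcop, hF⟩, hT, by simp, by simp, ?_, ?_⟩
  · rw [div_mul_cancel₀ _ hF']; exact hN
  · rcases hy with hy | hy
    · exact Or.inl hy
    · right; rw [div_mul_cancel₀ _ hF', div_mul_cancel₀ _ hFE]; exact hy

theorem sub2 {A X y K : ℝ} {T q : ℕ} (hper : Per α γ e f N D T q)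
    (x : ℤ × ℤ) (hx : x ∈ GS α γ e f N D T q K y X) (hG : Gd α γ x)
    (hT : exc (FP α γ x) ≤ T) (hXA : K * X ^ (1 / dg k m) ≤ X ^ A) :
    x ∈ Pt α γ N A X ∧ Cy N D (rr e f) y x := by
  obtain ⟨h2, hh, ξ, hξ, hTξ, hq1, hq2, hN, hD⟩ := hx
  have hF' : |(FP α γ ξ : ℝ)| ≠ 0 := by
    rw [abs_ne_zero]; exact_mod_cast hξ.2
  have hFE : (FE α γ e f ξ : ℝ) ≠ 0 := by exact_mod_cast FE_ne α γ e f ξ hξ.2
  obtain ⟨e1, e2⟩ := hper x ξ hG hξ hq1 hq2 hT hTξ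
  have e1' : (N x : ℝ) * |(FP α γ ξ : ℝ)| = (N ξ : ℝ) * |(FP α γ x : ℝ)| := by
    have : ((N x * (FP α γ ξ).natAbs : ℕ) : ℝ) = ((N ξ * (FP α γ x).natAbs : ℕ) : ℝ) := by
      rw [e1]
    push_cast at this
    rw [Nat.cast_natAbs, Nat.cast_natAbs] at this
    push_cast at this
    exact this
  have e2' : (D x : ℝ) * (FE α γ e f ξ : ℝ) = (D ξ : ℝ) * (FE α γ e f x : ℝ) := by
    exact_mod_cast e2
  have e3 : (N ξ : ℝ) / |(FP α γ ξ : ℝ)| * |(FP α γ x : ℝ)| = N x := by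
    rw [div_mul_eq_mul_div, ← e1', mul_div_cancel_right₀ _ hF']
  have e4 : (D ξ : ℝ) / (FE α γ e f ξ : ℝ) * (FE α γ e f x : ℝ) = D x := by
    rw [div_mul_eq_mul_div, ← e2', mul_div_cancel_right₀ _ hFE]
  rw [e3] at hN hD
  rw [e4] at hD
  exact ⟨⟨⟨hG.1, Or.inl h2⟩, hG.2, Or.inr (hh.trans hXA), hN⟩, hD⟩

theorem sub3 {X y K : ℝ} {T q : ℕ} (hs : Sys α γ e f) (hpq : ∀ p : ℕ, p.Prime → p ≤ T → p ∣ q)
    (x : ℤ × ℤ) (hx : x ∈ GS α γ e f N D T q K y X) (hG : ¬ Gd α γ x) :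
    (∃ i, Lf (α i) x = 0) ∨ ∃ n : ℕ, T < n ∧ (n : ℤ) ∣ x.1 ∧ (n : ℤ) ∣ x.2 := by
  obtain ⟨h2, hh, ξ, hξ, hTξ, hq1, hq2, hN, hD⟩ := hx
  by_cases hF : FP α γ x = 0
  · left
    unfold FP at hF
    rcases mul_eq_zero.1 hF with h | h
    · obtain ⟨i, -, hi⟩ := Finset.prod_eq_zero_iff.1 h
      exact ⟨i, hi⟩
    · obtain ⟨j, -, hj⟩ := Finset.prod_eq_zero_iff.1 h
      exact absurd hj (Qg_ne _ (hs.irr j) x (by omega))
  · right
    have hc : ¬ IsCoprime x.1 x.2 := fun h => hG ⟨h, hF⟩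
    rw [Int.isCoprime_iff_gcd_eq_one] at hc
    obtain ⟨p, hp, hpd⟩ := Nat.exists_prime_and_dvd hc
    have h1 : (p : ℤ) ∣ x.1 := (Int.natCast_dvd_natCast.2 hpd).trans (Int.gcd_dvd_left ..)
    have h2 : (p : ℤ) ∣ x.2 := (Int.natCast_dvd_natCast.2 hpd).trans (Int.gcd_dvd_right ..)
    refine ⟨p, ?_, h1, h2⟩
    by_contra hpT
    have hpq' : (p : ℤ) ∣ q := Int.natCast_dvd_natCast.2 (hpq p hp (by omega))
    have h3 : (p : ℤ) ∣ ξ.1 := by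
      have := dvd_sub h1 (hpq'.trans hq1); simpa using this
    have h4 : (p : ℤ) ∣ ξ.2 := by
      have := dvd_sub h2 (hpq'.trans hq2); simpa using this
    have h5 := hξ.1.isUnit_of_dvd' h3 h4
    rw [Int.isUnit_iff] at h5
    have := hp.two_le
    omega

theorem p_sub_R {A X : ℝ} {C0 : ℕ} (hA0 : 0 ≤ A) (hC0 : 0 < C0) (hX : 1 ≤ X)
    (hbd : ∀ x, Gd α γ x → radN (FP α γ x) ≤ C0 * N x) :
    Pt α γ N A X ⊆ PtR α γ A (C0 * X) := by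
  rintro x ⟨hN, hF, hh, hNX⟩
  have h1 : (1 : ℝ) ≤ C0 := by exact_mod_cast hC0
  refine ⟨hN, hF, ?_, ?_⟩
  · rcases hh with hh | hh
    · exact Or.inl hh
    · right
      refine hh.trans (Real.rpow_le_rpow (by linarith) ?_ hA0)
      nlinarith
  · have h2 := hbd x ⟨hN.1, hF⟩
    have h3 : (radN (FP α γ x) : ℝ) ≤ C0 * N x := by exact_mod_cast h2
    refine h3.trans (mul_le_mul_of_nonneg_left hNX (by linarith))

/-- the number of the tall points -/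
theorem tall {A X K d c CK : ℝ} {C0 : ℕ} {P : Set (ℤ × ℤ)} (hd : 3 ≤ d) (hc : 0 < c)
    (hCK : 0 < CK) (hC0 : 0 < C0) (hX : 1 ≤ X) (hK1 : 1 ≤ K)
    (hP : P ⊆ PtR α γ A (C0 * X)) (hfin : (PtR α γ A (C0 * X)).Finite)
    (h : (({x | x ∈ PtR α γ A (C0 * X) ∧ max 1 (K / (C0 : ℝ) ^ (1 / d)) * (C0 * X) ^ (1 / d) <
      (htn x : ℝ)} : Set (ℤ × ℤ)).ncard : ℝ) ≤
      CK * (max 1 (K / (C0 : ℝ) ^ (1 / d))) ^ (-c) * (C0 * X) ^ (2 / d)) :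
    (({x | x ∈ P ∧ K * X ^ (1 / d) < (htn x : ℝ)} : Set (ℤ × ℤ)).ncard : ℝ) ≤
      (CK + 9) * (C0 : ℝ) ^ ((2 + c) / d) * K ^ (-c) * X ^ (2 / d) := by
  have h1 : (1 : ℝ) ≤ C0 := by exact_mod_cast hC0
  have hX0 : 0 < X := by linarith
  have hC00 : (0 : ℝ) < C0 := by linarith
  have hd0 : 0 < d := by linarith
  have e1 : ((C0 : ℝ) * X) ^ (1 / d) = (C0 : ℝ) ^ (1 / d) * X ^ (1 / d) :=
    Real.mul_rpow hC00.le hX0.le
  have e2 : ((C0 : ℝ) * X) ^ (2 / d) = (C0 : ℝ) ^ (2 / d) * X ^ (2 / d) :=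
    Real.mul_rpow hC00.le hX0.le
  have e3 : (C0 : ℝ) ^ ((2 + c) / d) = (C0 : ℝ) ^ (2 / d) * (C0 : ℝ) ^ (c / d) := by
    rw [← Real.rpow_add hC00]; congr 1; ring
  have hCd : 0 < (C0 : ℝ) ^ (1 / d) := Real.rpow_pos_of_pos hC00 _
  have hCd2 : 0 < (C0 : ℝ) ^ (2 / d) := Real.rpow_pos_of_pos hC00 _
  have hCdc : 0 < (C0 : ℝ) ^ (c / d) := Real.rpow_pos_of_pos hC00 _
  have hXd2 : 0 < X ^ (2 / d) := Real.rpow_pos_of_pos hX0 _
  have hKc : 0 < K ^ (-c) := Real.rpow_pos_of_pos (by linarith) _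
  by_cases hcase : (C0 : ℝ) ^ (1 / d) ≤ K
  · have hm : max 1 (K / (C0 : ℝ) ^ (1 / d)) = K / (C0 : ℝ) ^ (1 / d) := by
      apply max_eq_right; rw [le_div_iff₀ hCd, one_mul]; exact hcase
    rw [hm] at h
    have e4 : K / (C0 : ℝ) ^ (1 / d) * ((C0 : ℝ) * X) ^ (1 / d) = K * X ^ (1 / d) := by
      rw [e1]; field_simp
    rw [e4] at h
    have hsub : ({x | x ∈ P ∧ K * X ^ (1 / d) < (htn x : ℝ)} : Set (ℤ × ℤ)) ⊆
        {x | x ∈ PtR α γ A (C0 * X) ∧ K * X ^ (1 / d) < (htn x : ℝ)} :=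
      fun x hx => ⟨hP hx.1, hx.2⟩
    have h5 := Set.ncard_le_ncard hsub (hfin.subset fun x hx => hx.1)
    have h6 : (({x | x ∈ P ∧ K * X ^ (1 / d) < (htn x : ℝ)} : Set (ℤ × ℤ)).ncard : ℝ) ≤
        CK * (K / (C0 : ℝ) ^ (1 / d)) ^ (-c) * (C0 * X) ^ (2 / d) :=
      le_trans (by exact_mod_cast h5) h
    refine h6.trans ?_
    have e5 : (K / (C0 : ℝ) ^ (1 / d)) ^ (-c) = K ^ (-c) * (C0 : ℝ) ^ (c / d) := by
      rw [Real.div_rpow (by linarith) hCd.le, ← Real.rpow_mul hC00.le, div_eq_mul_inv,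
        ← Real.rpow_neg hC00.le]
      congr 2; ring
    rw [e5, e2, e3]
    have : 0 ≤ 9 * ((C0 : ℝ) ^ (2 / d) * (C0 : ℝ) ^ (c / d) * K ^ (-c) * X ^ (2 / d)) := by
      positivity
    nlinarith [this]
  · push Not at hcase
    have hm : max 1 (K / (C0 : ℝ) ^ (1 / d)) = 1 := by
      apply max_eq_left; rw [div_le_one hCd]; exact hcase.le
    rw [hm, one_mul, Real.one_rpow, mul_one] at h
    have hsub : ({x | x ∈ P ∧ K * X ^ (1 / d) < (htn x : ℝ)} : Set (ℤ × ℤ)) ⊆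
        {x | x ∈ PtR α γ A (C0 * X) ∧ (C0 * X) ^ (1 / d) < (htn x : ℝ)} ∪
          {x | (htn x : ℝ) ≤ ((C0 : ℝ) * X) ^ (1 / d)} := by
      intro x hx
      rcases lt_or_ge (((C0 : ℝ) * X) ^ (1 / d)) (htn x : ℝ) with h | h
      · exact Or.inl ⟨hP hx.1, h⟩
      · exact Or.inr h
    have h5 := (Set.ncard_le_ncard hsub
      ((hfin.subset fun x hx => hx.1).union (box_fin _))).trans (Set.ncard_union_le _ _)
    have h7 : 1 ≤ ((C0 : ℝ) * X) ^ (1 / d) :=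
      Real.one_le_rpow (by nlinarith) (by positivity)
    have h8 := box_card _ h7
    have e6 : (((C0 : ℝ) * X) ^ (1 / d)) ^ 2 = (C0 : ℝ) ^ (2 / d) * X ^ (2 / d) := by
      rw [← e2, ← Real.rpow_natCast, ← Real.rpow_mul (by positivity)]
      congr 1; push_cast; ring
    rw [e6] at h8
    rw [e2] at h
    have h9 : (1 : ℝ) ≤ (C0 : ℝ) ^ (c / d) * K ^ (-c) := by
      have h10 : K ^ c ≤ ((C0 : ℝ) ^ (1 / d)) ^ c :=
        Real.rpow_le_rpow (by linarith) hcase.le hc.le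
      rw [← Real.rpow_mul hC00.le] at h10
      have h11 : (1 : ℝ) / d * c = c / d := by ring
      rw [h11] at h10
      rw [Real.rpow_neg (by linarith), ← div_eq_mul_inv, le_div_iff₀ (by positivity), one_mul]
      exact h10
    have h12 : (({x | x ∈ P ∧ K * X ^ (1 / d) < (htn x : ℝ)} : Set (ℤ × ℤ)).ncard : ℝ) ≤
        (CK + 9) * ((C0 : ℝ) ^ (2 / d) * X ^ (2 / d)) := by
      have : (({x | x ∈ P ∧ K * X ^ (1 / d) < (htn x : ℝ)} : Set (ℤ × ℤ)).ncard : ℝ) ≤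
        (({x | x ∈ PtR α γ A (C0 * X) ∧ (C0 * X) ^ (1 / d) < (htn x : ℝ)} :
          Set (ℤ × ℤ)).ncard : ℝ) + (({x | (htn x : ℝ) ≤ ((C0 : ℝ) * X) ^ (1 / d)} :
            Set (ℤ × ℤ)).ncard : ℝ) := by exact_mod_cast h5
      linarith
    refine h12.trans ?_
    rw [e3]
    calc (CK + 9) * ((C0 : ℝ) ^ (2 / d) * X ^ (2 / d)) =
        ((CK + 9) * (C0 : ℝ) ^ (2 / d) * X ^ (2 / d)) * 1 := by ring
      _ ≤ ((CK + 9) * (C0 : ℝ) ^ (2 / d) * X ^ (2 / d)) * ((C0 : ℝ) ^ (c / d) * K ^ (-c)) :=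
          mul_le_mul_of_nonneg_left h9 (by positivity)
      _ = _ := by ring

/-- the points with a large powerful part -/
theorem pow_card {B CP : ℝ} {T : ℕ} (hB1 : 1 ≤ B) (hT1 : 1 ≤ T)
    (hP : ∀ H T : ℝ, 1 ≤ H → 1 ≤ T → ∀ E : Finset (ℤ × ℤ),
      (∀ x ∈ E, Gd α γ x ∧ (htn x : ℝ) ≤ H ∧ T ≤ (exc (FP α γ x) : ℝ)) →
      (E.card : ℝ) ≤ CP * (H ^ 2 * T ^ (-(4 / 5) : ℝ) + H ^ ((9 : ℝ) / 5))) :
    (({x | Gd α γ x ∧ (htn x : ℝ) ≤ B ∧ T ≤ exc (FP α γ x)} : Set (ℤ × ℤ)).ncard : ℝ) ≤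
      CP * (B ^ 2 * (T : ℝ) ^ (-(4 / 5) : ℝ) + B ^ ((9 : ℝ) / 5)) := by
  have hfin : ({x | Gd α γ x ∧ (htn x : ℝ) ≤ B ∧ T ≤ exc (FP α γ x)} : Set (ℤ × ℤ)).Finite :=
    (box_fin B).subset fun x hx => hx.2.1
  rw [Set.ncard_eq_toFinset_card _ hfin]
  apply hP B T hB1 (by exact_mod_cast hT1)
  intro x hx
  rw [Set.Finite.mem_toFinset] at hx
  exact ⟨hx.1, hx.2.1, by exact_mod_cast hx.2.2⟩

end

theorem main (hP : S_POW) (hK : S_TLK) (hB : S_TLB) : S_GDF := by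
  intro k m α γ e f hs N D hA
  obtain ⟨CP, hCP, hP⟩ := hP k m α γ e f hs
  obtain ⟨CK, c, hCK, hc, hK⟩ := hK k m α γ e f hs
  obtain ⟨C0, hC0, hbd⟩ := hA.bd
  have hd : 3 ≤ dg k m := by
    unfold dg
    have h1 : (3 : ℝ) ≤ k := by exact_mod_cast hs.three
    have h2 : (0 : ℝ) ≤ m := Nat.cast_nonneg _
    linarith
  have hC0r : (1 : ℝ) ≤ C0 := by exact_mod_cast hC0
  have hC00 : (0 : ℝ) < C0 := by linarith
  have hCi : 0 ≤ (CK + 9) * (C0 : ℝ) ^ ((2 + c) / dg k m) := by positivity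
  refine ⟨(CK + 9) * (C0 : ℝ) ^ ((2 + c) / dg k m) + 2 * CP + 4, c, by positivity, hc, ?_⟩
  intro y A hAd K T q hK1 hT1 hq hper hpq
  have hd0 : 0 < dg k m := by linarith
  have hA0 : 0 < A := lt_trans (by positivity) hAd
  have hTr : (1 : ℝ) ≤ T := by exact_mod_cast hT1
  have hT0 : (0 : ℝ) < T := by linarith
  have ev1 : ∀ᶠ X : ℝ in atTop, (({x | x ∈ PtR α γ A (C0 * X) ∧
      max 1 (K / (C0 : ℝ) ^ (1 / dg k m)) * (C0 * X) ^ (1 / dg k m) < (htn x : ℝ)} :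
      Set (ℤ × ℤ)).ncard : ℝ) ≤
      CK * (max 1 (K / (C0 : ℝ) ^ (1 / dg k m))) ^ (-c) * (C0 * X) ^ (2 / dg k m) :=
    (tendsto_id.const_mul_atTop hC00).eventually (hK A _ (le_max_left _ _))
  have ev2 : ∀ᶠ X : ℝ in atTop, K * X ^ (1 / dg k m) ≤ X ^ A := by
    have h1 : Tendsto (fun X : ℝ => X ^ (A - 1 / dg k m)) atTop atTop :=
      tendsto_rpow_atTop (by linarith)
    filter_upwards [h1.eventually_ge_atTop K, eventually_gt_atTop 0] with X h2 h3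
    have h4 : X ^ A = X ^ (A - 1 / dg k m) * X ^ (1 / dg k m) := by
      rw [← Real.rpow_add h3]; congr 1; ring
    rw [h4]
    exact mul_le_mul_of_nonneg_right h2 (Real.rpow_nonneg h3.le _)
  have ev3 : ∀ᶠ X : ℝ in atTop, (2 * CP + 1 + k) * (T : ℝ) ^ ((4 : ℝ) / 5) ≤
      (K * X ^ (1 / dg k m)) ^ ((1 : ℝ) / 5) := by
    have h1 : Tendsto (fun X : ℝ => (K * X ^ (1 / dg k m)) ^ ((1 : ℝ) / 5)) atTop atTop :=
      (tendsto_rpow_atTop (by norm_num)).comp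
        ((tendsto_rpow_atTop (by positivity)).const_mul_atTop (by linarith))
    exact h1.eventually_ge_atTop _
  filter_upwards [ev1, ev2, ev3, eventually_ge_atTop 1] with X h1 h2 h3 hX
  have hX0 : 0 < X := by linarith
  have hXd : 1 ≤ X ^ (1 / dg k m) := Real.one_le_rpow hX (by positivity)
  have hPR := p_sub_R (α := α) (γ := γ) hA0.le hC0 hX (fun x hx => (hbd x hx).1)
  obtain ⟨_, C2, _, _, hB'⟩ := hB k m α γ e f hs A 1 one_pos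
  have hRfin : (PtR α γ A (C0 * X)).Finite := (hB' (C0 * X) (by nlinarith)).1
  set P : Set (ℤ × ℤ) := {x | x ∈ Pt α γ N A X ∧ Cy N D (rr e f) y x} with hPdef
  set G : Set (ℤ × ℤ) := GS α γ e f N D T q K y X with hGdef
  have hPsub : P ⊆ PtR α γ A (C0 * X) := fun x hx => hPR hx.1
  have hPfin : P.Finite := hRfin.subset hPsub
  have htall := tall (α := α) (γ := γ) (A := A) hd hc hCK hC0 hX hK1 hPsub hRfin h1
  set B : ℝ := K * X ^ (1 / dg k m) with hBdef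
  have hB1 : 1 ≤ B := by rw [hBdef]; nlinarith
  have hGfin : G.Finite := (box_fin B).subset fun x hx => hx.2.1
  have hB2 : B ^ 2 = K ^ 2 * X ^ (2 / dg k m) := by
    rw [hBdef, mul_pow, ← Real.rpow_natCast (X ^ (1 / dg k m)) 2, ← Real.rpow_mul hX0.le]
    congr 2; push_cast; ring
  have hpow := pow_card (α := α) (γ := γ) hB1 hT1 hP
  set W : Set (ℤ × ℤ) := {x | Gd α γ x ∧ (htn x : ℝ) ≤ B ∧ T ≤ exc (FP α γ x)} with hWdef
  have hWfin : W.Finite := (box_fin B).subset fun x hx => hx.2.1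
  have hnc := ncop_card T hT1 B hB1
  set V : Set (ℤ × ℤ) := {x | 0 < x.2 ∧ (htn x : ℝ) ≤ B ∧ ∃ n : ℕ, T < n ∧ (n : ℤ) ∣ x.1 ∧
    (n : ℤ) ∣ x.2} with hVdef
  have hVfin : V.Finite := (box_fin B).subset fun x hx => hx.2.1
  set U : Set (ℤ × ℤ) := ⋃ i : Fin k, {x | 0 < x.2 ∧ (htn x : ℝ) ≤ B ∧ Lf (α i) x = 0} with hUdef
  have hUfin : U.Finite := Set.finite_iUnion fun i => (box_fin B).subset fun x hx => hx.2.1
  have hU : (U.ncard : ℝ) ≤ k * B := by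
    have h4 : U.ncard ≤ ∑ i : Fin k, ({x | 0 < x.2 ∧ (htn x : ℝ) ≤ B ∧ Lf (α i) x = 0} :
        Set (ℤ × ℤ)).ncard := by
      have := Finset.set_ncard_biUnion_le Finset.univ
        (fun i : Fin k => ({x | 0 < x.2 ∧ (htn x : ℝ) ≤ B ∧ Lf (α i) x = 0} : Set (ℤ × ℤ)))
      rw [hUdef]
      simpa using this
    have h5 : (U.ncard : ℝ) ≤ ∑ i : Fin k, (({x | 0 < x.2 ∧ (htn x : ℝ) ≤ B ∧ Lf (α i) x = 0} :
        Set (ℤ × ℤ)).ncard : ℝ) := by exact_mod_cast h4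
    refine h5.trans ?_
    refine (Finset.sum_le_sum fun i _ =>
      line_card (α i) (al_ne α hs.three hs.ind i) B hB1).trans ?_
    simp
  have hd1 : P \ G ⊆ {x | x ∈ P ∧ B < (htn x : ℝ)} ∪ (W ∪ {((1 : ℤ), (0 : ℤ))}) := by
    rintro x ⟨hx, hxG⟩
    rcases lt_or_ge B (htn x : ℝ) with h | h
    · exact Or.inl ⟨hx, h⟩
    · right
      by_cases hT : T ≤ exc (FP α γ x)
      · exact Or.inl ⟨⟨hx.1.1.1, hx.1.2.1⟩, h, hT⟩
      · right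
        push Not at hT
        rcases hx.1.1.2 with h0 | ⟨h0, h0'⟩
        · exact absurd (sub1 x hx.1 hx.2 h hT.le h0) hxG
        · have hc := hx.1.1.1
          rw [h0] at hc
          have hu : IsUnit x.1 := by
            simpa using isCoprime_zero_right.1 hc
          rw [Int.isUnit_iff] at hu
          exact Prod.ext (by simp only; omega) h0
  have hd2 : G \ P ⊆ U ∪ (V ∪ W) := by
    rintro x ⟨hx, hxP⟩
    by_cases hG : Gd α γ x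
    · by_cases hT : T ≤ exc (FP α γ x)
      · exact Or.inr (Or.inr ⟨hG, hx.2.1, hT⟩)
      · push Not at hT
        exact absurd (sub2 hper x hx hG hT.le h2) hxP
    · rcases sub3 hs hpq x hx hG with ⟨i, hi⟩ | h
      · exact Or.inl (Set.mem_iUnion.2 ⟨i, hx.1, hx.2.1, hi⟩)
      · exact Or.inr (Or.inl ⟨hx.1, hx.2.1, h⟩)
  have hTfin : ({x | x ∈ P ∧ B < (htn x : ℝ)} : Set (ℤ × ℤ)).Finite :=
    hPfin.subset fun x hx => hx.1
  have n1 : ((P \ G).ncard : ℝ) ≤ (({x | x ∈ P ∧ B < (htn x : ℝ)} : Set (ℤ × ℤ)).ncard : ℝ) +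
      ((W.ncard : ℝ) + 1) := by
    have h4 := (Set.ncard_le_ncard hd1 (hTfin.union (hWfin.union (Set.finite_singleton _)))).trans
      (Set.ncard_union_le _ _)
    have h5 := Set.ncard_union_le W {((1 : ℤ), (0 : ℤ))}
    rw [Set.ncard_singleton] at h5
    have h6 : (P \ G).ncard ≤ ({x | x ∈ P ∧ B < (htn x : ℝ)} : Set (ℤ × ℤ)).ncard +
      (W.ncard + 1) := by omega
    exact_mod_cast h6
  have n2 : ((G \ P).ncard : ℝ) ≤ (U.ncard : ℝ) + ((V.ncard : ℝ) + (W.ncard : ℝ)) := by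
    have h4 := (Set.ncard_le_ncard hd2 (hUfin.union (hVfin.union hWfin))).trans
      (Set.ncard_union_le _ _)
    have h5 := Set.ncard_union_le V W
    have h6 : (G \ P).ncard ≤ U.ncard + (V.ncard + W.ncard) := by omega
    exact_mod_cast h6
  have n3 : (P.ncard : ℝ) ≤ ((P \ G).ncard : ℝ) + (G.ncard : ℝ) := by
    exact_mod_cast Set.ncard_le_ncard_sdiff_add_ncard P G hGfin
  have n4 : (G.ncard : ℝ) ≤ ((G \ P).ncard : ℝ) + (P.ncard : ℝ) := by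
    exact_mod_cast Set.ncard_le_ncard_sdiff_add_ncard G P hPfin
  have p1 : (0 : ℝ) ≤ ((P \ G).ncard : ℝ) := Nat.cast_nonneg _
  have p2 : (0 : ℝ) ≤ ((G \ P).ncard : ℝ) := Nat.cast_nonneg _
  -- the small terms
  set t : ℝ := (T : ℝ) ^ (-(4 / 5) : ℝ) with htdef
  have ht0 : 0 < t := Real.rpow_pos_of_pos hT0 _
  have ht1 : t * (T : ℝ) ^ ((4 : ℝ) / 5) = 1 := by
    rw [htdef, Real.rpow_neg hT0.le, inv_mul_cancel₀]
    exact (Real.rpow_pos_of_pos hT0 _).ne'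
  have hB95 : B ^ ((9 : ℝ) / 5) * B ^ ((1 : ℝ) / 5) = B ^ 2 := by
    rw [← Real.rpow_add (by linarith), ← Real.rpow_natCast]; congr 1; norm_num
  have hB95' : 0 < B ^ ((9 : ℝ) / 5) := Real.rpow_pos_of_pos (by linarith) _
  have hB951 : B ≤ B ^ ((9 : ℝ) / 5) := by
    have := Real.rpow_le_rpow_of_exponent_le hB1 (by norm_num : (1 : ℝ) ≤ 9 / 5)
    rwa [Real.rpow_one] at this
  have s1 : (2 * CP + 1 + k) * B ^ ((9 : ℝ) / 5) ≤ B ^ 2 * t := by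
    have h4 : (2 * CP + 1 + k) * (T : ℝ) ^ ((4 : ℝ) / 5) * (t * B ^ ((9 : ℝ) / 5)) ≤
      B ^ ((1 : ℝ) / 5) * (t * B ^ ((9 : ℝ) / 5)) :=
        mul_le_mul_of_nonneg_right h3 (by positivity)
    calc (2 * CP + 1 + k) * B ^ ((9 : ℝ) / 5) =
        (2 * CP + 1 + k) * B ^ ((9 : ℝ) / 5) * (t * (T : ℝ) ^ ((4 : ℝ) / 5)) := by
          rw [ht1, mul_one]
      _ = (2 * CP + 1 + k) * (T : ℝ) ^ ((4 : ℝ) / 5) * (t * B ^ ((9 : ℝ) / 5)) := by ring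
      _ ≤ _ := h4
      _ = (B ^ ((9 : ℝ) / 5) * B ^ ((1 : ℝ) / 5)) * t := by ring
      _ = B ^ 2 * t := by rw [hB95]
  have s2 : 2 * CP * B ^ ((9 : ℝ) / 5) + 1 + k * B ≤ (2 * CP + 1 + k) * B ^ ((9 : ℝ) / 5) := by
    have hk0 : (0 : ℝ) ≤ k := Nat.cast_nonneg _
    nlinarith [mul_le_mul_of_nonneg_left hB951 hk0]
  have s3 : 3 * B ^ 2 / T ≤ 3 * B ^ 2 * t := by
    rw [div_eq_mul_inv]
    apply mul_le_mul_of_nonneg_left _ (by positivity)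
    rw [htdef, ← Real.rpow_neg_one]
    exact Real.rpow_le_rpow_of_exponent_le hTr (by norm_num)
  have total : ((P \ G).ncard : ℝ) + ((G \ P).ncard : ℝ) ≤
      (CK + 9) * (C0 : ℝ) ^ ((2 + c) / dg k m) * K ^ (-c) * X ^ (2 / dg k m) +
      (2 * CP + 4) * (B ^ 2 * t) := by
    linarith
  have q1 : 0 < X ^ (2 / dg k m) := Real.rpow_pos_of_pos hX0 _
  have q2 : 0 < K ^ (-c) := Real.rpow_pos_of_pos (by linarith) _
  have fin : (CK + 9) * (C0 : ℝ) ^ ((2 + c) / dg k m) * K ^ (-c) * X ^ (2 / dg k m) +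
      (2 * CP + 4) * (B ^ 2 * t) ≤ ((CK + 9) * (C0 : ℝ) ^ ((2 + c) / dg k m) + 2 * CP + 4) *
        (K ^ (-c) + K ^ 2 * t) * X ^ (2 / dg k m) := by
    rw [hB2]
    have z1 : 0 ≤ (CK + 9) * (C0 : ℝ) ^ ((2 + c) / dg k m) * (K ^ 2 * t * X ^ (2 / dg k m)) := by
      positivity
    have z2 : 0 ≤ (2 * CP + 4) * (K ^ (-c) * X ^ (2 / dg k m)) := by positivity
    nlinarith [z1, z2]
  rw [abs_le]
  constructor <;> linarith

end Pool.Agent.L0h46.TS.GDF
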