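import Pool.Agent.L0h46.TS.Defs

/-! Project TS, module GLM: the number of the points of `GS`. -/

set_option autoImplicit false

namespace Pool.Agent.L0h46.TS.GLM

open Finset Filter Topology MeasureTheory
open Pool.Agent.L0h46.TQ (Nrm Lf htn Indep lg hh N1)

section
variable {k m : ℕ} {α : Fin k → ℤ × ℤ} {γ : Fin m → ℤ × ℤ × ℤ} {e : Fin k → ℕ} {f : Fin m → ℕ}

theorem FR_div (x : ℤ × ℤ) {Y : ℝ} (hY : 0 < Y) :
    FR α γ ((x.1 : ℝ) / Y, (x.2 : ℝ) / Y) = |(FP α γ x : ℝ)| / Y ^ (k + 2 * m) := by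
  have h1 : ∀ i, ((x.1 : ℝ) / Y) * (α i).2 - ((x.2 : ℝ) / Y) * (α i).1 =
      (Lf (α i) x : ℝ) / Y := by
    intro i
    unfold Lf
    push_cast
    field_simp
  have h2 : ∀ j, ((γ j).1 : ℝ) * ((x.1 : ℝ) / Y) ^ 2 + (γ j).2.1 * ((x.1 : ℝ) / Y) *
      ((x.2 : ℝ) / Y) + (γ j).2.2 * ((x.2 : ℝ) / Y) ^ 2 = (Qg (γ j) x : ℝ) / Y ^ 2 := by
    intro j
    unfold Qg
    push_cast
    field_simp
  unfold FR
  dsimp only
  rw [Finset.prod_congr rfl (fun i _ => h1 i), Finset.prod_congr rfl (fun j _ => h2 j),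
    Finset.prod_div_distrib, Finset.prod_div_distrib, Finset.prod_const, Finset.prod_const,
    Finset.card_univ, Finset.card_univ, Fintype.card_fin, Fintype.card_fin, div_mul_div_comm,
    ← pow_mul, ← pow_add, abs_div, abs_of_pos (pow_pos hY _)]
  congr 2
  unfold FP
  push_cast
  rfl

theorem FE_cast (x : ℤ × ℤ) : (FE α γ e f x : ℝ) =
    (∏ i, |(Lf (α i) x : ℝ)| ^ e i) * ∏ j, |(Qg (γ j) x : ℝ)| ^ f j := by
  unfold FE
  push_cast
  simp only [Nat.cast_natAbs, Int.cast_abs]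

theorem FER_div (x : ℤ × ℤ) {Y : ℝ} (hY : 0 < Y) :
    FER α γ e f ((x.1 : ℝ) / Y, (x.2 : ℝ) / Y) = (FE α γ e f x : ℝ) / Y ^ wt e f := by
  have h1 : ∀ i, |((x.1 : ℝ) / Y) * (α i).2 - ((x.2 : ℝ) / Y) * (α i).1| ^ e i =
      |(Lf (α i) x : ℝ)| ^ e i / Y ^ e i := by
    intro i
    rw [← div_pow, ← abs_of_pos hY, ← abs_div, abs_of_pos hY]
    congr 2
    unfold Lf
    push_cast
    field_simp
  have h2 : ∀ j, |((γ j).1 : ℝ) * ((x.1 : ℝ) / Y) ^ 2 + (γ j).2.1 * ((x.1 : ℝ) / Y) *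
      ((x.2 : ℝ) / Y) + (γ j).2.2 * ((x.2 : ℝ) / Y) ^ 2| ^ f j =
      |(Qg (γ j) x : ℝ)| ^ f j / (Y ^ 2) ^ f j := by
    intro j
    rw [← div_pow]
    congr 1
    have h3 : ((γ j).1 : ℝ) * ((x.1 : ℝ) / Y) ^ 2 + (γ j).2.1 * ((x.1 : ℝ) / Y) *
      ((x.2 : ℝ) / Y) + (γ j).2.2 * ((x.2 : ℝ) / Y) ^ 2 = (Qg (γ j) x : ℝ) / Y ^ 2 := by
      unfold Qg
      push_cast
      field_simp
    rw [h3, abs_div, abs_of_pos (pow_pos hY 2)]
  unfold FER
  dsimp only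
  rw [Finset.prod_congr rfl (fun i _ => h1 i), Finset.prod_congr rfl (fun j _ => h2 j),
    Finset.prod_div_distrib, Finset.prod_div_distrib, Finset.prod_pow_eq_pow_sum,
    Finset.prod_pow_eq_pow_sum, div_mul_div_comm, ← pow_mul, ← pow_add, FE_cast]
  rfl

theorem FE_pos {x : ℤ × ℤ} (h : FP α γ x ≠ 0) : 0 < FE α γ e f x := by
  unfold FP at h
  have h1 := left_ne_zero_of_mul h
  have h2 := right_ne_zero_of_mul h
  rw [Finset.prod_ne_zero_iff] at h1 h2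
  unfold FE
  refine Nat.mul_pos ?_ ?_
  · exact Finset.prod_pos fun i hi => pow_pos (Int.natAbs_pos.2 (h1 i hi)) _
  · exact Finset.prod_pos fun i hi => pow_pos (Int.natAbs_pos.2 (h2 i hi)) _

theorem dg_pos (h : 3 ≤ k) : 0 < dg k m := by
  unfold dg
  have : (3 : ℝ) ≤ k := by exact_mod_cast h
  positivity

theorem Y_pow (h : 3 ≤ k) {X : ℝ} (hX : 0 < X) : (X ^ (1 / dg k m)) ^ (k + 2 * m) = X := by
  have hd := dg_pos (m := m) h
  rw [← Real.rpow_natCast, ← Real.rpow_mul hX.le]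
  have : 1 / dg k m * ((k + 2 * m : ℕ) : ℝ) = 1 := by
    have e1 : ((k + 2 * m : ℕ) : ℝ) = dg k m := by unfold dg; push_cast; ring
    rw [e1]
    field_simp
  rw [this, Real.rpow_one]

theorem Y_pow_wt {X : ℝ} (hX : 0 < X) : (X ^ (1 / dg k m)) ^ wt e f = X ^ rr e f := by
  rw [← Real.rpow_natCast, ← Real.rpow_mul hX.le]
  congr 1
  unfold rr
  ring

theorem Y_sq {X : ℝ} (hX : 0 < X) : (X ^ (1 / dg k m)) ^ 2 = X ^ (2 / dg k m) := by
  rw [← Real.rpow_natCast, ← Real.rpow_mul hX.le]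
  congr 1
  push_cast
  ring

/-- the conditions in terms of the region -/
theorem mem_Reg (h3 : 3 ≤ k) {K a b y X : ℝ} (hX : 0 < X) (ha : 0 < a) (x : ℤ × ℤ) :
    ((x.1 : ℝ) / X ^ (1 / dg k m), (x.2 : ℝ) / X ^ (1 / dg k m)) ∈ Reg α γ e f K a b y ↔
      (0 < x.2 ∧ (htn x : ℝ) ≤ K * X ^ (1 / dg k m) ∧ a * |(FP α γ x : ℝ)| ≤ X ∧
        (y ≤ 0 ∨ b * (FE α γ e f x : ℝ) ≤ y * (a * |(FP α γ x : ℝ)|) ^ rr e f)) := by
  have hY : 0 < X ^ (1 / dg k m) := Real.rpow_pos_of_pos hX _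
  have e0 : (0 < (x.2 : ℝ) / X ^ (1 / dg k m)) ↔ 0 < x.2 := by
    rw [div_pos_iff_of_pos_right hY]
    exact Int.cast_pos
  have e1 : (|(x.1 : ℝ) / X ^ (1 / dg k m)| ≤ K ∧ |(x.2 : ℝ) / X ^ (1 / dg k m)| ≤ K) ↔
      (htn x : ℝ) ≤ K * X ^ (1 / dg k m) := by
    rw [abs_div, abs_div, abs_of_pos hY, div_le_iff₀ hY, div_le_iff₀ hY]
    unfold htn
    rw [Nat.cast_max, max_le_iff, Nat.cast_natAbs, Nat.cast_natAbs, Int.cast_abs, Int.cast_abs]
  have e2 : a * FR α γ ((x.1 : ℝ) / X ^ (1 / dg k m), (x.2 : ℝ) / X ^ (1 / dg k m)) =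
      a * |(FP α γ x : ℝ)| / X := by
    rw [FR_div x hY, Y_pow h3 hX, mul_div_assoc]
  have e3 : b * FER α γ e f ((x.1 : ℝ) / X ^ (1 / dg k m), (x.2 : ℝ) / X ^ (1 / dg k m)) =
      b * (FE α γ e f x : ℝ) / X ^ rr e f := by
    rw [FER_div x hY, Y_pow_wt hX, mul_div_assoc]
  have e4 : y * (a * |(FP α γ x : ℝ)| / X) ^ rr e f =
      y * (a * |(FP α γ x : ℝ)|) ^ rr e f / X ^ rr e f := by
    rw [Real.div_rpow (by positivity) hX.le, mul_div_assoc]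
  have hXr : 0 < X ^ rr e f := Real.rpow_pos_of_pos hX _
  unfold Reg
  rw [Set.mem_ofPred_eq]
  dsimp only
  rw [e2, e3, e4, e0, ← and_assoc (b := |(x.2 : ℝ) / X ^ (1 / dg k m)| ≤ K), e1,
    div_le_one hX, div_le_div_iff_of_pos_right hXr]

theorem finite_box {B : ℝ} : {x : ℤ × ℤ | (htn x : ℝ) ≤ B}.Finite := by
  refine (Set.finite_Icc ((-⌈B⌉, -⌈B⌉) : ℤ × ℤ) ((⌈B⌉, ⌈B⌉) : ℤ × ℤ)).subset ?_
  intro x hx
  have h0 : (htn x : ℝ) ≤ B := hx
  have h1 : (htn x : ℝ) ≤ ⌈B⌉ := h0.trans (Int.le_ceil B)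
  have h2 : (htn x : ℤ) ≤ ⌈B⌉ := by exact_mod_cast h1
  unfold htn at h2
  refine ⟨⟨?_, ?_⟩, ⟨?_, ?_⟩⟩
  · change -⌈B⌉ ≤ x.1
    omega
  · change -⌈B⌉ ≤ x.2
    omega
  · change x.1 ≤ ⌈B⌉
    omega
  · change x.2 ≤ ⌈B⌉
    omega

end

theorem main (hL : S_LC) (hR : S_REG) : S_GLM := by
  classical
  intro k m α γ e f hS N D hAF T q hq hPer K y hK
  have hd := dg_pos (m := m) hS.three
  have hqz : (0 : ℤ) < q := by exact_mod_cast hq
  set C : Finset (ℤ × ℤ) := Finset.Ico (0 : ℤ) q ×ˢ Finset.Ico (0 : ℤ) q with hC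
  let ρ : ℤ × ℤ → ℤ × ℤ := fun x => (x.1 % q, x.2 % q)
  have hρC : ∀ x, ρ x ∈ C := by
    intro x
    rw [hC, Finset.mem_product, Finset.mem_Ico, Finset.mem_Ico]
    exact ⟨⟨Int.emod_nonneg _ hqz.ne', Int.emod_lt_of_pos _ hqz⟩,
      ⟨Int.emod_nonneg _ hqz.ne', Int.emod_lt_of_pos _ hqz⟩⟩
  have hfin : ∀ X : ℝ, (GS α γ e f N D T q K y X).Finite := by
    intro X
    refine (finite_box (B := K * X ^ (1 / dg k m))).subset ?_
    rintro x ⟨_, h, _⟩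
    exact h
  -- one class
  have hone : ∀ c ∈ C, ∃ L : ℝ, Tendsto (fun X : ℝ =>
      (({x | x ∈ GS α γ e f N D T q K y X ∧ ρ x = c} : Set (ℤ × ℤ)).ncard : ℝ) /
        X ^ (2 / dg k m)) atTop (𝓝 L) := by
    intro c hc
    rw [hC, Finset.mem_product, Finset.mem_Ico, Finset.mem_Ico] at hc
    have hρ : ∀ x : ℤ × ℤ, ρ x = c ↔ (q : ℤ) ∣ x.1 - c.1 ∧ (q : ℤ) ∣ x.2 - c.2 := by
      intro x
      constructor
      · intro h
        have h1 : x.1 % q = c.1 := congrArg Prod.fst h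
        have h2 : x.2 % q = c.2 := congrArg Prod.snd h
        rw [← h1, ← h2]
        exact ⟨Int.dvd_self_sub_emod, Int.dvd_self_sub_emod⟩
      · rintro ⟨h1, h2⟩
        have k1 : x.1 % q = c.1 % q := Int.ModEq.symm ((Int.modEq_iff_dvd).2 h1)
        have k2 : x.2 % q = c.2 % q := Int.ModEq.symm ((Int.modEq_iff_dvd).2 h2)
        rw [Int.emod_eq_of_lt hc.1.1 hc.1.2] at k1
        rw [Int.emod_eq_of_lt hc.2.1 hc.2.2] at k2
        exact Prod.ext k1 k2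
    by_cases hP : ∃ ξ : ℤ × ℤ, Gd α γ ξ ∧ exc (FP α γ ξ) ≤ T ∧ (q : ℤ) ∣ c.1 - ξ.1 ∧
        (q : ℤ) ∣ c.2 - ξ.2
    · obtain ⟨ξ, hξ1, hξ2, hξ3, hξ4⟩ := hP
      have hF : (0 : ℝ) < |(FP α γ ξ : ℝ)| := abs_pos.2 (by exact_mod_cast hξ1.2)
      have hN : (0 : ℝ) < N ξ := by
        have := (hAF.pos ξ hξ1).1
        exact_mod_cast this
      have hD : (0 : ℝ) < D ξ := by
        have := (hAF.pos ξ hξ1).2
        exact_mod_cast this
      have hFE : ∀ x : ℤ × ℤ, FP α γ x ≠ 0 → (0 : ℝ) < FE α γ e f x := by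
        intro x hx
        exact_mod_cast (FE_pos (e := e) (f := f) hx)
      have ha : 0 < (N ξ : ℝ) / |(FP α γ ξ : ℝ)| := div_pos hN hF
      have hb : 0 < (D ξ : ℝ) / (FE α γ e f ξ : ℝ) := div_pos hD (hFE ξ hξ1.2)
      obtain ⟨r1, r2, r3⟩ := hR k m α γ e f hS K ((N ξ : ℝ) / |(FP α γ ξ : ℝ)|)
        ((D ξ : ℝ) / (FE α γ e f ξ : ℝ)) y hK ha hb
      have hlc := hL _ r1 r2 r3 q hq ξ
      refine ⟨_, ((hlc.comp (tendsto_rpow_atTop (y := 1 / dg k m) (by positivity))).congr' ?_)⟩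
      filter_upwards [eventually_gt_atTop 0] with X hX
      rw [Function.comp_apply, Y_sq hX]
      congr 2
      congr 1
      ext x
      rw [Set.mem_ofPred_eq, Set.mem_ofPred_eq, mem_Reg hS.three hX ha, hρ]
      constructor
      · rintro ⟨h1, h2, h3, h4, h5, h6⟩
        refine ⟨⟨h3, h4, ξ, hξ1, hξ2, h1, h2, h5, h6⟩, ?_, ?_⟩
        · have := dvd_sub h1 hξ3
          have e1 : x.1 - ξ.1 - (c.1 - ξ.1) = x.1 - c.1 := by ring
          rwa [e1] at this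
        · have := dvd_sub h2 hξ4
          have e1 : x.2 - ξ.2 - (c.2 - ξ.2) = x.2 - c.2 := by ring
          rwa [e1] at this
      · rintro ⟨⟨h3, h4, η, hη1, hη2, g1, g2, g3, g4⟩, h1, h2⟩
        have d1 : (q : ℤ) ∣ ξ.1 - η.1 := by
          have e1 : ξ.1 - η.1 = (x.1 - η.1) - (x.1 - c.1) - (c.1 - ξ.1) := by ring
          rw [e1]
          exact dvd_sub (dvd_sub g1 h1) hξ3
        have d2 : (q : ℤ) ∣ ξ.2 - η.2 := by
          have e1 : ξ.2 - η.2 = (x.2 - η.2) - (x.2 - c.2) - (c.2 - ξ.2) := by ring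
          rw [e1]
          exact dvd_sub (dvd_sub g2 h2) hξ4
        obtain ⟨p1, p2⟩ := hPer ξ η hξ1 hη1 d1 d2 hξ2 hη2
        have hFη : (0 : ℝ) < |(FP α γ η : ℝ)| := abs_pos.2 (by exact_mod_cast hη1.2)
        have p1' : (N ξ : ℝ) * |(FP α γ η : ℝ)| = N η * |(FP α γ ξ : ℝ)| := by
          have := congrArg (Nat.cast : ℕ → ℝ) p1
          push_cast at this
          simpa only [Nat.cast_natAbs, Int.cast_abs] using this
        have p2' : (D ξ : ℝ) * (FE α γ e f η : ℝ) = D η * (FE α γ e f ξ : ℝ) := by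
          exact_mod_cast congrArg (Nat.cast : ℕ → ℝ) p2
        have q1 : (N ξ : ℝ) / |(FP α γ ξ : ℝ)| = (N η : ℝ) / |(FP α γ η : ℝ)| := by
          rw [div_eq_div_iff hF.ne' hFη.ne']
          exact p1'
        have q2 : (D ξ : ℝ) / (FE α γ e f ξ : ℝ) = (D η : ℝ) / (FE α γ e f η : ℝ) := by
          rw [div_eq_div_iff (hFE ξ hξ1.2).ne' (hFE η hη1.2).ne']
          exact p2'
        rw [q1, q2]
        refine ⟨?_, ?_, h3, h4, g3, g4⟩
        · have e1 : x.1 - ξ.1 = (x.1 - c.1) + (c.1 - ξ.1) := by ring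
          rw [e1]
          exact dvd_add h1 hξ3
        · have e1 : x.2 - ξ.2 = (x.2 - c.2) + (c.2 - ξ.2) := by ring
          rw [e1]
          exact dvd_add h2 hξ4
    · refine ⟨0, ?_⟩
      have hempty : ∀ X : ℝ, ({x | x ∈ GS α γ e f N D T q K y X ∧ ρ x = c} : Set (ℤ × ℤ)) = ∅ := by
        intro X
        rw [Set.eq_empty_iff_forall_notMem]
        rintro x ⟨⟨h3, h4, η, hη1, hη2, g1, g2, g3, g4⟩, hx⟩
        rw [hρ] at hx
        apply hP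
        refine ⟨η, hη1, hη2, ?_, ?_⟩
        · have e1 : c.1 - η.1 = (x.1 - η.1) - (x.1 - c.1) := by ring
          rw [e1]
          exact dvd_sub g1 hx.1
        · have e1 : c.2 - η.2 = (x.2 - η.2) - (x.2 - c.2) := by ring
          rw [e1]
          exact dvd_sub g2 hx.2
      simp only [hempty, Set.ncard_empty, Nat.cast_zero, zero_div]
      exact tendsto_const_nhds
  choose! L hLc using hone
  refine ⟨∑ c ∈ C, L c, ((tendsto_finsetSum C fun c hc => hLc c hc).congr ?_)⟩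
  intro X
  rw [← Finset.sum_div]
  congr 1
  rw [Set.ncard_eq_toFinset_card _ (hfin X),
    Finset.card_eq_sum_card_fiberwise (f := ρ) (t := C) (fun x _ => hρC x)]
  push_cast
  refine Finset.sum_congr rfl fun c _ => ?_
  congr 1
  rw [← Set.ncard_coe_finset]
  congr 1
  ext x
  simp only [Set.mem_ofPred_eq, Finset.coe_filter, Set.Finite.mem_toFinset]

end Pool.Agent.L0h46.TS.GLM
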