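import Pool.Agent.L0h46.TS.PSV

/-!
# TS.HTD
-/

set_option autoImplicit false

namespace Pool.Agent.L0h46.TS.HTD

open Finset Filter Topology
open Pool.Agent.L0h46.TQ (Nrm Lf htn Indep lg hh N1)

variable {k m : ℕ} {α : Fin k → ℤ × ℤ} {γ : Fin m → ℤ × ℤ × ℤ} {e : Fin k → ℕ} {f : Fin m → ℕ}

theorem low (hs : Sys α γ e f) : ∃ M : ℕ, 0 < M ∧ ∀ x, Gd α γ x →
    htn x ≤ M * FE α γ e f x := by
  have hk := hs.three
  obtain ⟨i, j, hij⟩ : ∃ i j : Fin k, i ≠ j :=
    ⟨⟨0, by omega⟩, ⟨1, by omega⟩, by intro h; simp [Fin.ext_iff] at h⟩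
  have hd := hs.ind i j hij
  refine ⟨(α i).1.natAbs + (α j).1.natAbs + (α i).2.natAbs + (α j).2.natAbs + 1, by omega,
    fun x hx => ?_⟩
  have hF := hx.2
  unfold FP at hF
  rw [mul_ne_zero_iff, Finset.prod_ne_zero_iff, Finset.prod_ne_zero_iff] at hF
  have ha : Lf (α i) x ≠ 0 := hF.1 i (mem_univ i)
  have hb : Lf (α j) x ≠ 0 := hF.1 j (mem_univ j)
  have e1 : x.1 * ((α i).1 * (α j).2 - (α j).1 * (α i).2) =
      (α i).1 * Lf (α j) x - (α j).1 * Lf (α i) x := by simp only [Lf]; ring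
  have e2 : x.2 * ((α i).1 * (α j).2 - (α j).1 * (α i).2) =
      (α i).2 * Lf (α j) x - (α j).2 * Lf (α i) x := by simp only [Lf]; ring
  have hd0 : (α i).1 * (α j).2 - (α j).1 * (α i).2 ≠ 0 := sub_ne_zero.2 hd
  have hab : (Lf (α i) x).natAbs * (Lf (α j) x).natAbs ≤ FE α γ e f x := by
    have h1 : FE α γ e f x ≠ 0 := by
      unfold FE
      rw [mul_ne_zero_iff, Finset.prod_ne_zero_iff, Finset.prod_ne_zero_iff]
      exact ⟨fun i hi => pow_ne_zero _ (Int.natAbs_ne_zero.2 (hF.1 i hi)),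
        fun j hj => pow_ne_zero _ (Int.natAbs_ne_zero.2 (hF.2 j hj))⟩
    refine Nat.le_of_dvd (Nat.pos_of_ne_zero h1) ?_
    unfold FE
    refine Dvd.dvd.mul_right ?_ _
    have h2 := Finset.prod_dvd_prod_of_subset {i, j} univ
      (fun l => (Lf (α l) x).natAbs ^ e l) (subset_univ _)
    rw [Finset.prod_pair hij] at h2
    refine (mul_dvd_mul ?_ ?_).trans h2
    · exact dvd_pow_self _ (by have := hs.e1 i; omega)
    · exact dvd_pow_self _ (by have := hs.e1 j; omega)
  generalize Lf (α i) x = a at *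
  generalize Lf (α j) x = b at *
  generalize (α i).1 * (α j).2 - (α j).1 * (α i).2 = d at *
  have ha1 : 1 ≤ a.natAbs := Int.natAbs_pos.2 ha
  have hb1 : 1 ≤ b.natAbs := Int.natAbs_pos.2 hb
  have hd1 : 1 ≤ d.natAbs := Int.natAbs_pos.2 hd0
  have g1 : b.natAbs ≤ a.natAbs * b.natAbs := Nat.le_mul_of_pos_left _ ha1
  have g2 : a.natAbs ≤ a.natAbs * b.natAbs := Nat.le_mul_of_pos_right _ hb1
  have key : ∀ u v w : ℤ, u * d = v * b - w * a →
      u.natAbs ≤ (v.natAbs + w.natAbs) * (a.natAbs * b.natAbs) := by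
    intro u v w h
    calc u.natAbs ≤ (u * d).natAbs := by
          rw [Int.natAbs_mul]; exact Nat.le_mul_of_pos_right _ hd1
      _ = (v * b - w * a).natAbs := by rw [h]
      _ ≤ (v * b).natAbs + (w * a).natAbs := Int.natAbs_sub_le _ _
      _ = v.natAbs * b.natAbs + w.natAbs * a.natAbs := by rw [Int.natAbs_mul, Int.natAbs_mul]
      _ ≤ v.natAbs * (a.natAbs * b.natAbs) + w.natAbs * (a.natAbs * b.natAbs) := by gcongr
      _ = _ := by ring
  have k1 := key _ _ _ e1
  have k2 := key _ _ _ e2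
  unfold htn
  refine max_le ?_ ?_
  · refine k1.trans (Nat.mul_le_mul ?_ hab)
    omega
  · refine k2.trans (Nat.mul_le_mul ?_ hab)
    omega

theorem main : S_HTD := by
  intro k m α γ e f hs N D hA
  obtain ⟨C, hC, hbd⟩ := hA.bd
  obtain ⟨M, hM, hlow⟩ := low hs
  obtain ⟨B, hB, hform⟩ := PSV.form_bound (α := α) (γ := γ) (e := e) (f := f)
  have hd : 0 < dg k m := PSV.dg_pos hs.three
  constructor
  · intro A'
    have hMC : (1 : ℝ) ≤ M * C := by exact_mod_cast Nat.mul_pos hM hC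
    set L : ℝ := Real.logb 2 (M * C) with hL
    refine ⟨max (|A'| + L) (1 / dg k m + 1), lt_max_of_lt_right (by linarith),
      fun X hX x hx hD => ?_⟩
    have hX1 : (1 : ℝ) ≤ X := by linarith
    have h1 : (htn x : ℝ) ≤ M * C * D x := by
      have h2 := (hlow x hx).trans (Nat.mul_le_mul_left M (hbd x hx).2.2.2)
      rw [← mul_assoc] at h2
      exact_mod_cast h2
    have h3 : (M * C : ℝ) ≤ X ^ L := by
      calc (M * C : ℝ) = 2 ^ L := (Real.rpow_logb (by norm_num) (by norm_num) (by linarith)).symm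
        _ ≤ X ^ L := Real.rpow_le_rpow (by norm_num) hX (Real.logb_nonneg (by norm_num) hMC)
    calc (htn x : ℝ) ≤ M * C * D x := h1
      _ ≤ X ^ L * X ^ |A'| := by
          have h4 : (D x : ℝ) ≤ X ^ |A'| :=
            hD.trans (Real.rpow_le_rpow_of_exponent_le hX1 (le_abs_self _))
          gcongr
      _ = X ^ (|A'| + L) := by rw [← Real.rpow_add (by linarith), add_comm]
      _ ≤ _ := Real.rpow_le_rpow_of_exponent_le hX1 (le_max_left _ _)
  · intro A' hA'
    have hw : 0 < wt e f := by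
      have h1 := hs.three
      have h2 := hs.e1 ⟨0, by omega⟩
      have h3 : e ⟨0, by omega⟩ ≤ ∑ i, e i :=
        Finset.single_le_sum (f := e) (fun i _ => Nat.zero_le _) (mem_univ _)
      unfold wt
      omega
    have hw' : (0 : ℝ) < wt e f := by exact_mod_cast hw
    have hr : (1 : ℝ) / dg k m < A' / wt e f := by
      unfold rr at hA'
      rw [div_lt_iff₀ hd] at hA'
      rw [div_lt_div_iff₀ hd hw']
      linarith
    obtain ⟨A, h1, h2⟩ := exists_between hr
    rw [lt_div_iff₀ hw'] at h2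
    obtain ⟨X0, hX0⟩ := PSV.evl (C * B) (a := A' - A * wt e f) (by linarith)
    refine ⟨A, h1, max X0 1, fun X hX x hx hh => ?_⟩
    have hX1 : (1 : ℝ) ≤ X := (le_max_right _ _).trans hX
    have hX' := (hX0 X ((le_max_left _ _).trans hX)).le
    have h3 : (D x : ℝ) ≤ C * FE α γ e f x := by exact_mod_cast (hbd x hx).2.2.1
    calc (D x : ℝ) ≤ C * FE α γ e f x := h3
      _ ≤ C * (B * (htn x : ℝ) ^ wt e f) := by gcongr; exact (hform x).2
      _ ≤ C * (B * (X ^ A) ^ wt e f) := by gcongr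
      _ = C * B * X ^ (A * wt e f) := by
          rw [← Real.rpow_natCast (X ^ A), ← Real.rpow_mul (by linarith)]; ring
      _ ≤ X ^ (A' - A * wt e f) * X ^ (A * wt e f) := by gcongr
      _ = X ^ A' := by rw [← Real.rpow_add (by linarith)]; ring_nf

end Pool.Agent.L0h46.TS.HTD
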