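import Mathlib
import Pool.Agent.L0h46.TS.Defs
import Pool.Agent.L0h81.TS.Kit

/-!
# Project TS, module ISO: the fibre over a rational number
-/

set_option autoImplicit false

namespace Pool.Agent.L0h46.TS.ISO

open Finset
open Pool.Agent.L0h46.TS Pool.Agent.L0h81.TS
open Pool.Agent.L0h46.TQ (Lf)

lemma iso_symm {E W : WeierstrassCurve ℚ} (h : Iso E W) : Iso W E := by
  obtain ⟨C, rfl⟩ := h
  exact ⟨C⁻¹, by rw [smul_smul, inv_mul_cancel, one_smul]⟩

lemma iso_trans {E W V : WeierstrassCurve ℚ} (h : Iso E W) (h' : Iso W V) : Iso E V := by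
  obtain ⟨C, rfl⟩ := h
  obtain ⟨D, rfl⟩ := h'
  exact ⟨D * C, by rw [smul_smul]⟩

lemma locMin_iso (p : ℕ) {E W : WeierstrassCurve ℚ} (h : Iso E W) : locMin p E = locMin p W := by
  unfold locMin
  congr 1
  ext v
  constructor
  · rintro ⟨V, h1, h2⟩
    exact ⟨V, iso_trans (iso_symm h) h1, h2⟩
  · rintro ⟨V, h1, h2⟩
    exact ⟨V, iso_trans h h1, h2⟩

lemma PE_iff {k m : ℕ} {α : Fin k → ℤ × ℤ} {γ : Fin m → ℤ × ℤ × ℤ} {e : Fin k → ℕ}
    {f : Fin m → ℕ} (hS : Sys α γ e f) (x : ℤ × ℤ) : PE α γ e f x ≠ 0 ↔ FP α γ x ≠ 0 := by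
  refine ⟨fun h => ?_, PE_ne⟩
  unfold PE at h
  have h1 := left_ne_zero_of_mul h
  have h2 := right_ne_zero_of_mul h
  rw [prod_ne_zero_iff] at h1 h2
  unfold FP
  refine mul_ne_zero (prod_ne_zero_iff.2 fun i hi => ?_) (prod_ne_zero_iff.2 fun j hj => ?_)
  · intro h0
    apply h1 i hi
    rw [h0, zero_pow (by have := hS.e1 i; omega)]
  · intro h0
    apply h2 j hj
    rw [h0, zero_pow (by have := hS.f1 j; omega)]

theorem main : S_ISO := by
  intro k m n A B α γ e f c hS t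
  have hd : (t.den : ℤ) ≠ 0 := by exact_mod_cast t.den_ne_zero
  have hdq : (t.den : ℚ) ≠ 0 := by exact_mod_cast t.den_ne_zero
  have ht : ((t.num : ℤ) : ℚ) / ((t.den : ℤ) : ℚ) = t := by
    exact_mod_cast Rat.num_div_den t
  have hA : (hom A (4 * n) (t.num, (t.den : ℤ)) : ℚ) =
      (t.den : ℚ) ^ (4 * n) * Polynomial.aeval t A := by
    rw [hom_ne hS.dA hd]
    simp only
    rw [ht]
    norm_cast
  have hB : (hom B (6 * n) (t.num, (t.den : ℤ)) : ℚ) =
      (t.den : ℚ) ^ (6 * n) * Polynomial.aeval t B := by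
    rw [hom_ne hS.dB hd]
    simp only
    rw [ht]
    norm_cast
  have hiso : Iso (fib A B t) (HE A B n (t.num, (t.den : ℤ))) := by
    refine ⟨⟨(Units.mk0 ((t.den : ℚ) ^ n) (pow_ne_zero _ hdq))⁻¹, 0, 0, 0⟩, ?_⟩
    ext
    · rw [WeierstrassCurve.variableChange_a₁]
      simp [fib, HE]
    · rw [WeierstrassCurve.variableChange_a₂]
      simp [fib, HE]
    · rw [WeierstrassCurve.variableChange_a₃]
      simp [fib, HE]
    · rw [WeierstrassCurve.variableChange_a₄]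
      simp only [fib, HE, inv_inv, Units.val_mk0]
      rw [hA]
      ring
    · rw [WeierstrassCurve.variableChange_a₆]
      simp only [fib, HE, inv_inv, Units.val_mk0]
      rw [hB]
      ring
  have hmd : minDisc (fib A B t) = minDisc (HE A B n (t.num, (t.den : ℤ))) := by
    unfold minDisc
    congr 1
    funext p
    rw [locMin_iso p hiso]
  refine ⟨?_, hmd, by unfold badProd; rw [hmd]⟩
  obtain ⟨C, hC⟩ := hiso
  have h1 : (HE A B n (t.num, (t.den : ℤ))).Δ ≠ 0 ↔ (fib A B t).Δ ≠ 0 := by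
    rw [← hC, WeierstrassCurve.variableChange_Δ]
    have : ((C.u⁻¹ : ℚˣ) : ℚ) ^ 12 ≠ 0 := pow_ne_zero _ (C.u⁻¹).ne_zero
    simp only [ne_eq, mul_eq_zero, this, false_or]
  rw [← h1, HE_disc hS, ← PE_iff hS.sys]
  have h2 : (1259712 * c) ≠ 0 := mul_ne_zero (by norm_num) hS.c0
  constructor
  · intro h h0
    apply h
    rw [h0]
    simp
  · intro h
    exact_mod_cast mul_ne_zero h2 h

end Pool.Agent.L0h46.TS.ISO
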