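import Pool.Agent.L0h46.TS.Defs

/-! Project TS, module LC: lattice points in large multiples of a bounded set. -/

set_option autoImplicit false

namespace Pool.Agent.L0h46.TS.LC

open Finset Filter Topology MeasureTheory

/-- the lattice point (rescaled) of the cell of `z` -/
noncomputable def gr (τ s1 s2 : ℝ) (z : ℝ × ℝ) : ℝ × ℝ :=
  (((⌊τ * z.1 - s1⌋ : ℤ) + s1) / τ, ((⌊τ * z.2 - s2⌋ : ℤ) + s2) / τ)

theorem gr_meas (τ s1 s2 : ℝ) : Measurable (gr τ s1 s2) := by
  unfold gr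
  refine Measurable.prodMk ?_ ?_
  · refine Measurable.div_const (Measurable.add_const ?_ _) _
    exact (measurable_from_top (f := fun n : ℤ => (n : ℝ))).comp
      (((measurable_fst.const_mul τ).sub_const s1).floor)
  · refine Measurable.div_const (Measurable.add_const ?_ _) _
    exact (measurable_from_top (f := fun n : ℤ => (n : ℝ))).comp
      (((measurable_snd.const_mul τ).sub_const s2).floor)

theorem aux_le {τ s a : ℝ} (hτ : 0 < τ) : |((⌊τ * a - s⌋ : ℤ) + s) / τ - a| ≤ 1 / τ := by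
  have h1 := Int.floor_le (τ * a - s)
  have h2 := Int.lt_floor_add_one (τ * a - s)
  have e : ((⌊τ * a - s⌋ : ℤ) + s) / τ - a = ((⌊τ * a - s⌋ : ℤ) + s - τ * a) / τ := by
    field_simp
  rw [e, abs_div, abs_of_pos hτ]
  gcongr
  rw [abs_le]
  constructor <;> linarith

theorem dist_gr {τ s1 s2 : ℝ} (hτ : 0 < τ) (z : ℝ × ℝ) : dist (gr τ s1 s2 z) z ≤ 1 / τ := by
  rw [Prod.dist_eq]
  refine max_le ?_ ?_
  · rw [Real.dist_eq]
    exact aux_le hτ
  · rw [Real.dist_eq]
    exact aux_le hτ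

/-- the lattice points -/
def W (R : Set (ℝ × ℝ)) (τ s1 s2 : ℝ) : Set (ℤ × ℤ) :=
  {w | (((w.1 : ℝ) + s1) / τ, ((w.2 : ℝ) + s2) / τ) ∈ R}

theorem W_finite {R : Set (ℝ × ℝ)} (hR : Bornology.IsBounded R) {τ s1 s2 : ℝ} (hτ : 0 < τ) :
    (W R τ s1 s2).Finite := by
  obtain ⟨M, hM⟩ := hR.subset_closedBall (0 : ℝ × ℝ)
  refine (Set.finite_Icc ((-⌈M * τ + |s1|⌉, -⌈M * τ + |s2|⌉) : ℤ × ℤ)
    ((⌈M * τ + |s1|⌉, ⌈M * τ + |s2|⌉) : ℤ × ℤ)).subset ?_
  intro w hw
  have h1 := hM hw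
  rw [mem_closedBall_zero_iff, Prod.norm_def, max_le_iff] at h1
  have key : ∀ (a : ℤ) (s : ℝ), ‖((a : ℝ) + s) / τ‖ ≤ M → |(a : ℝ)| ≤ ⌈M * τ + |s|⌉ := by
    intro a s h
    rw [Real.norm_eq_abs, abs_div, abs_of_pos hτ, div_le_iff₀ hτ] at h
    have h2 : |(a : ℝ)| ≤ |(a : ℝ) + s| + |s| := by
      have := abs_add_le ((a : ℝ) + s) (-s)
      rw [abs_neg, add_neg_cancel_right] at this
      exact this
    have h3 := Int.le_ceil (M * τ + |s|)
    linarith
  have k1 := key _ _ h1.1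
  have k2 := key _ _ h1.2
  rw [abs_le] at k1 k2
  refine ⟨⟨?_, ?_⟩, ⟨?_, ?_⟩⟩
  · exact_mod_cast k1.1
  · exact_mod_cast k2.1
  · exact_mod_cast k1.2
  · exact_mod_cast k2.2

theorem cell {τ s a : ℝ} (hτ : 0 < τ) (w : ℤ) :
    ⌊τ * a - s⌋ = w ↔ a ∈ Set.Ico (((w : ℝ) + s) / τ) (((w : ℝ) + 1 + s) / τ) := by
  rw [Int.floor_eq_iff, Set.mem_Ico, div_le_iff₀ hτ, lt_div_iff₀ hτ]
  constructor
  · rintro ⟨h1, h2⟩
    constructor <;> linarith
  · rintro ⟨h1, h2⟩
    constructor <;> linarith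

/-- the volume of the union of the cells -/
theorem vol_eq {R : Set (ℝ × ℝ)} (hR : Bornology.IsBounded R) {τ s1 s2 : ℝ} (hτ : 0 < τ) :
    (volume (gr τ s1 s2 ⁻¹' R)).toReal = (W R τ s1 s2).ncard / τ ^ 2 := by
  classical
  have hfin := W_finite hR hτ (s1 := s1) (s2 := s2)
  let box : ℤ × ℤ → Set (ℝ × ℝ) := fun w =>
    Set.Ico (((w.1 : ℝ) + s1) / τ) (((w.1 : ℝ) + 1 + s1) / τ) ×ˢ
      Set.Ico (((w.2 : ℝ) + s2) / τ) (((w.2 : ℝ) + 1 + s2) / τ)
  have hmem : ∀ (w : ℤ × ℤ) (z : ℝ × ℝ), z ∈ box w ↔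
      (⌊τ * z.1 - s1⌋ = w.1 ∧ ⌊τ * z.2 - s2⌋ = w.2) := by
    intro w z
    rw [cell hτ, cell hτ]
    exact Set.mem_prod
  have e : gr τ s1 s2 ⁻¹' R = ⋃ w ∈ hfin.toFinset, box w := by
    ext z
    rw [Set.mem_iUnion₂]
    constructor
    · intro hz
      refine ⟨(⌊τ * z.1 - s1⌋, ⌊τ * z.2 - s2⌋), ?_, ?_⟩
      · rw [Set.Finite.mem_toFinset]
        exact hz
      · rw [hmem]
        exact ⟨rfl, rfl⟩
    · rintro ⟨w, hw, hz⟩
      rw [hmem] at hz
      rw [Set.Finite.mem_toFinset] at hw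
      change gr τ s1 s2 z ∈ R
      unfold gr
      rw [hz.1, hz.2]
      exact hw
  have hvol : ∀ w, volume (box w) = ENNReal.ofReal (1 / τ ^ 2) := by
    intro w
    change volume (Set.Ico _ _ ×ˢ Set.Ico _ _) = _
    rw [Measure.volume_eq_prod, Measure.prod_prod, Real.volume_Ico, Real.volume_Ico,
      ← ENNReal.ofReal_mul (by
        rw [← sub_div]
        exact div_nonneg (by linarith) hτ.le)]
    congr 1
    field_simp
    ring
  rw [e, measure_biUnion_finset]
  · rw [Finset.sum_congr rfl (fun w _ => hvol w), Finset.sum_const, nsmul_eq_mul,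
      ENNReal.toReal_mul, ENNReal.toReal_natCast, ENNReal.toReal_ofReal (by positivity),
      Set.ncard_eq_toFinset_card _ hfin]
    ring
  · intro w _ w' _ hww'
    rw [Function.onFun, Set.disjoint_left]
    intro z hz hz'
    rw [hmem] at hz hz'
    exact hww' (Prod.ext (hz.1.symm.trans hz'.1) (hz.2.symm.trans hz'.2))
  · intro w _
    exact measurableSet_Ico.prod measurableSet_Ico

theorem main : S_LC := by
  intro R hR hRm hRf q hq ξ
  have hq' : (0 : ℝ) < q := by exact_mod_cast hq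
  -- convergence of the measures
  have key : Tendsto (fun t : ℝ => volume (gr (t / q) (ξ.1 / q) (ξ.2 / q) ⁻¹' R)) atTop
      (𝓝 (volume R)) := by
    obtain ⟨M, hM⟩ := hR.subset_closedBall (0 : ℝ × ℝ)
    have htau : Tendsto (fun t : ℝ => t / (q : ℝ)) atTop atTop :=
      tendsto_id.atTop_div_const hq'
    refine tendsto_measure_of_ae_tendsto_indicator atTop hRm
      (fun t => gr_meas _ _ _ hRm) (B := Metric.closedBall (0 : ℝ × ℝ) (M + 1))
      measurableSet_closedBall measure_closedBall_lt_top.ne ?_ ?_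
    · filter_upwards [htau.eventually_ge_atTop 1] with t ht
      intro z hz
      have h1 : gr (t / q) (ξ.1 / q) (ξ.2 / q) z ∈ Metric.closedBall (0 : ℝ × ℝ) M := hM hz
      have h2 := dist_gr (s1 := ξ.1 / q) (s2 := ξ.2 / q) (lt_of_lt_of_le one_pos ht) z
      rw [Metric.mem_closedBall] at h1 ⊢
      have h3 : 1 / (t / (q : ℝ)) ≤ 1 := by
        rw [div_le_one (by linarith)]
        exact ht
      have h4 := dist_triangle z (gr (t / q) (ξ.1 / q) (ξ.2 / q) z) 0
      rw [dist_comm z (gr (t / q) (ξ.1 / q) (ξ.2 / q) z)] at h4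
      linarith
    · have hae : ∀ᵐ z : ℝ × ℝ, z ∉ frontier R := by
        rw [ae_iff]
        simpa using hRf
      filter_upwards [hae] with z hz
      have hlim : Tendsto (fun t : ℝ => gr (t / q) (ξ.1 / q) (ξ.2 / q) z) atTop (𝓝 z) := by
        rw [tendsto_iff_dist_tendsto_zero]
        refine squeeze_zero' (Eventually.of_forall fun t => dist_nonneg) ?_
          ((tendsto_const_nhds (x := (1 : ℝ))).div_atTop htau)
        filter_upwards [htau.eventually_gt_atTop 0] with t ht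
        exact dist_gr ht z
      by_cases hzR : z ∈ interior R
      · filter_upwards [hlim.eventually_mem (isOpen_interior.mem_nhds hzR)] with t ht
        exact ⟨fun _ => interior_subset hzR, fun _ => Set.mem_preimage.2 (interior_subset ht)⟩
      · have hzc : z ∈ (closure R)ᶜ := by
          intro hc
          exact hz ⟨hc, hzR⟩
        filter_upwards [hlim.eventually_mem (isClosed_closure.isOpen_compl.mem_nhds hzc)]
          with t ht
        constructor
        · intro h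
          exact absurd (subset_closure (Set.mem_preimage.1 h)) ht
        · intro h
          exact absurd (subset_closure h) hzc
  have hfinR : volume R ≠ ⊤ := hR.measure_lt_top.ne
  have key2 : Tendsto (fun t : ℝ => (volume (gr (t / q) (ξ.1 / q) (ξ.2 / q) ⁻¹' R)).toReal /
      (q : ℝ) ^ 2) atTop (𝓝 (volume.real R / (q : ℝ) ^ 2)) :=
    ((ENNReal.tendsto_toReal hfinR).comp key).div_const _
  refine key2.congr' ?_
  filter_upwards [eventually_gt_atTop 0] with t ht
  have hτ : 0 < t / (q : ℝ) := div_pos ht hq'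
  rw [vol_eq hR hτ]
  have himg : {x : ℤ × ℤ | (q : ℤ) ∣ x.1 - ξ.1 ∧ (q : ℤ) ∣ x.2 - ξ.2 ∧
      ((x.1 : ℝ) / t, (x.2 : ℝ) / t) ∈ R} =
      (fun w : ℤ × ℤ => (ξ.1 + q * w.1, ξ.2 + q * w.2)) ''
        W R (t / q) (ξ.1 / q) (ξ.2 / q) := by
    have hval : ∀ (a : ℤ) (b : ℤ), ((b : ℝ) + a / q) / (t / q) = ((a + q * b : ℤ) : ℝ) / t := by
      intro a b
      push_cast
      field_simp
      ring
    ext x
    constructor
    · rintro ⟨⟨a, ha⟩, ⟨b, hb⟩, hx⟩
      have h1 : x.1 = ξ.1 + q * a := by linarith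
      have h2 : x.2 = ξ.2 + q * b := by linarith
      refine ⟨(a, b), ?_, ?_⟩
      · change (((a : ℝ) + ξ.1 / q) / (t / q), ((b : ℝ) + ξ.2 / q) / (t / q)) ∈ R
        rw [hval, hval, ← h1, ← h2]
        exact hx
      · exact Prod.ext h1.symm h2.symm
    · rintro ⟨w, hw, rfl⟩
      refine ⟨⟨w.1, by ring⟩, ⟨w.2, by ring⟩, ?_⟩
      have hw' : (((w.1 : ℝ) + ξ.1 / q) / (t / q), ((w.2 : ℝ) + ξ.2 / q) / (t / q)) ∈ R := hw
      rw [hval, hval] at hw'
      exact hw'
  rw [himg, Set.ncard_image_of_injective]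
  · field_simp
  · intro w w' h
    have h1 := congrArg Prod.fst h
    have h2 := congrArg Prod.snd h
    dsimp only at h1 h2
    have hqz : (q : ℤ) ≠ 0 := by exact_mod_cast hq.ne'
    refine Prod.ext ?_ ?_
    · exact mul_left_cancel₀ hqz (by linarith)
    · exact mul_left_cancel₀ hqz (by linarith)

end Pool.Agent.L0h46.TS.LC
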