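import Pool.Agent.L0h46.TS.Defs

/-!
# Project TS: LIM
-/

set_option autoImplicit false

namespace Pool.Agent.L0h46.TS.LIM

open Finset Filter Topology
open Pool.Agent.L0h46.TS
open Pool.Agent.L0h46.TQ (Nrm Lf htn Indep lg hh N1)

theorem exists_lim {f : ℝ → ℝ} (h : ∀ ε : ℝ, 0 < ε → ∃ (g : ℝ → ℝ) (L : ℝ),
    Tendsto g atTop (𝓝 L) ∧ ∀ᶠ X in atTop, |f X - g X| ≤ ε) :
    ∃ L : ℝ, Tendsto f atTop (𝓝 L) := by
  apply cauchySeq_tendsto_of_complete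
  rw [Metric.cauchySeq_iff]
  intro ε hε
  obtain ⟨g, L, h1, h2⟩ := h (ε / 5) (by positivity)
  have h3 : ∀ᶠ X in atTop, |g X - L| < ε / 5 := by
    have := (Metric.tendsto_nhds.mp h1) (ε / 5) (by positivity)
    simpa [Real.dist_eq] using this
  obtain ⟨X₀, h4⟩ := eventually_atTop.mp (h2.and h3)
  refine ⟨X₀, fun a ha b hb => ?_⟩
  obtain ⟨a1, a2⟩ := h4 a ha
  obtain ⟨b1, b2⟩ := h4 b hb
  rw [Real.dist_eq]
  rw [abs_le] at a1 b1
  rw [abs_lt] at a2 b2 ⊢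
  constructor <;> linarith

theorem box_finite (H : ℝ) : ({x : ℤ × ℤ | (htn x : ℝ) ≤ H} : Set (ℤ × ℤ)).Finite := by
  refine Set.Finite.subset ((Set.finite_Icc (-⌈H⌉) ⌈H⌉).prod (Set.finite_Icc (-⌈H⌉) ⌈H⌉)) ?_
  intro x hx
  have h1 : (x.1.natAbs : ℝ) ≤ H := le_trans (by
    exact_mod_cast le_max_left x.1.natAbs x.2.natAbs) hx
  have h2 : (x.2.natAbs : ℝ) ≤ H := le_trans (by
    exact_mod_cast le_max_right x.1.natAbs x.2.natAbs) hx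
  have h3 : ∀ a : ℤ, (a.natAbs : ℝ) ≤ H → -⌈H⌉ ≤ a ∧ a ≤ ⌈H⌉ := by
    intro a ha
    have h4 : ((|a| : ℤ) : ℝ) ≤ (⌈H⌉ : ℝ) := by
      have h6 : ((|a| : ℤ) : ℝ) = ((a.natAbs : ℕ) : ℝ) := by
        rw [Int.abs_eq_natAbs, Int.cast_natCast]
      rw [h6]
      exact le_trans ha (Int.le_ceil H)
    have h5 : |a| ≤ ⌈H⌉ := by exact_mod_cast h4
    exact abs_le.mp h5
  exact ⟨h3 x.1 h1, h3 x.2 h2⟩

theorem per_mul {k m : ℕ} {α : Fin k → ℤ × ℤ} {γ : Fin m → ℤ × ℤ × ℤ} {e : Fin k → ℕ}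
    {f : Fin m → ℕ} {N D : ℤ × ℤ → ℕ} {T q : ℕ} (h : Per α γ e f N D T q) (r : ℕ) :
    Per α γ e f N D T (q * r) := by
  intro x y hx hy h1 h2 h3 h4
  have h5 : (q : ℤ) ∣ ((q * r : ℕ) : ℤ) := by
    push_cast
    exact Dvd.intro _ rfl
  exact h x y hx hy (h5.trans h1) (h5.trans h2) h3 h4

theorem main (h1 : S_GLM) (h2 : S_GDF) (hB : S_TLB) : S_LIM := by
  intro k m α γ e f hs N D hAF
  obtain ⟨C0, hC0, hbd⟩ := hAF.bd
  have hfin : ∀ A X : ℝ, 1 ≤ X → (Pt α γ N A X).Finite := by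
    intro A X hX
    rcases Nat.eq_zero_or_pos m with hm | hm
    · obtain ⟨η, C, -, -, h3⟩ := hB k m α γ e f hs A 1 (by norm_num)
      have hC1 : (1 : ℝ) ≤ C0 := by exact_mod_cast hC0
      have h4 : 1 ≤ C0 * X := by nlinarith
      refine (h3 (C0 * X) h4).1.subset ?_
      rintro x ⟨a1, a2, -, a4⟩
      refine ⟨a1, a2, Or.inl hm, ?_⟩
      have h5 : ((radN (FP α γ x) : ℕ) : ℝ) ≤ C0 * N x := by
        exact_mod_cast (hbd x ⟨a1.1, a2⟩).1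
      exact h5.trans (mul_le_mul_of_nonneg_left a4 (by positivity))
    · refine (box_finite (X ^ A)).subset ?_
      rintro x ⟨-, -, a3, -⟩
      rcases a3 with a3 | a3
      · omega
      · exact a3
  obtain ⟨C, c, hC, hc, hG⟩ := h2 k m α γ e f hs N D hAF
  have key : ∀ y ε : ℝ, 0 < ε → ∃ (g : ℝ → ℝ) (L : ℝ), Tendsto g atTop (𝓝 L) ∧
      ∀ A : ℝ, 1 / dg k m < A → ∀ᶠ X in atTop,
        |(({x | x ∈ Pt α γ N A X ∧ Cy N D (rr e f) y x} : Set (ℤ × ℤ)).ncard : ℝ) /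
          X ^ (2 / dg k m) - g X| ≤ ε := by
    intro y ε hε
    -- choice of K
    obtain ⟨K, hK1, hK⟩ : ∃ K : ℝ, 1 ≤ K ∧ C * K ^ (-c) ≤ ε / 2 := by
      have h3 : Tendsto (fun K : ℝ => C * K ^ (-c)) atTop (𝓝 (C * 0)) :=
        (tendsto_rpow_neg_atTop hc).const_mul C
      rw [mul_zero] at h3
      have h4 : ∀ᶠ K : ℝ in atTop, C * K ^ (-c) < ε / 2 :=
        (tendsto_order.mp h3).2 _ (by positivity)
      obtain ⟨K, hK⟩ := (h4.and (eventually_ge_atTop 1)).exists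
      exact ⟨K, hK.2, hK.1.le⟩
    obtain ⟨T, hT1, hT⟩ : ∃ T : ℕ, 1 ≤ T ∧ C * K ^ 2 * (T : ℝ) ^ (-(4 / 5) : ℝ) ≤ ε / 2 := by
      have h3 : Tendsto (fun T : ℕ => C * K ^ 2 * (T : ℝ) ^ (-(4 / 5) : ℝ)) atTop
          (𝓝 (C * K ^ 2 * 0)) :=
        ((tendsto_rpow_neg_atTop (by norm_num : (0 : ℝ) < 4 / 5)).comp
          tendsto_natCast_atTop_atTop).const_mul _
      rw [mul_zero] at h3
      have h4 : ∀ᶠ T : ℕ in atTop, C * K ^ 2 * (T : ℝ) ^ (-(4 / 5) : ℝ) < ε / 2 :=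
        (tendsto_order.mp h3).2 _ (by positivity)
      obtain ⟨T, hT⟩ := (h4.and (eventually_ge_atTop 1)).exists
      exact ⟨T, hT.2, hT.1.le⟩
    obtain ⟨q0, hq0, hper⟩ := hAF.per T
    have hq : 0 < q0 * T.factorial := Nat.mul_pos hq0 (Nat.factorial_pos T)
    have hper' := per_mul hper T.factorial
    have hdiv : ∀ p : ℕ, p.Prime → p ≤ T → p ∣ q0 * T.factorial := fun p hp hpT =>
      Dvd.dvd.mul_left ((hp.dvd_factorial).mpr hpT) _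
    obtain ⟨L, hL⟩ := h1 k m α γ e f hs N D hAF T (q0 * T.factorial) hq hper' K y (by linarith)
    refine ⟨_, L, hL, fun A hA => ?_⟩
    filter_upwards [hG y A hA K T (q0 * T.factorial) hK1 hT1 hq hper' hdiv,
      eventually_gt_atTop (0 : ℝ)] with X h3 hX
    have hXp : 0 < X ^ (2 / dg k m) := Real.rpow_pos_of_pos hX _
    rw [← sub_div, abs_div, abs_of_pos hXp, div_le_iff₀ hXp]
    refine h3.trans (mul_le_mul_of_nonneg_right ?_ hXp.le)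
    calc C * (K ^ (-c) + K ^ 2 * (T : ℝ) ^ (-(4 / 5) : ℝ))
        = C * K ^ (-c) + C * K ^ 2 * (T : ℝ) ^ (-(4 / 5) : ℝ) := by ring
      _ ≤ ε := by linarith
  have hlim : ∀ y : ℝ, ∃ L : ℝ, ∀ A : ℝ, 1 / dg k m < A → Tendsto (fun X : ℝ =>
      (({x | x ∈ Pt α γ N A X ∧ Cy N D (rr e f) y x} : Set (ℤ × ℤ)).ncard : ℝ) /
        X ^ (2 / dg k m)) atTop (𝓝 L) := by
    intro y
    obtain ⟨L, hL⟩ := exists_lim (f := fun X : ℝ =>
      (({x | x ∈ Pt α γ N (1 / dg k m + 1) X ∧ Cy N D (rr e f) y x} : Set (ℤ × ℤ)).ncard : ℝ) /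
        X ^ (2 / dg k m)) (fun ε hε => by
          obtain ⟨g, L, h3, h4⟩ := key y ε hε
          exact ⟨g, L, h3, h4 _ (by linarith)⟩)
    refine ⟨L, fun A hA => ?_⟩
    rw [Metric.tendsto_nhds] at hL ⊢
    intro ε hε
    obtain ⟨g, L', h3, h4⟩ := key y (ε / 4) (by positivity)
    filter_upwards [hL (ε / 4) (by positivity), h4 _ (by linarith : 1 / dg k m < 1 / dg k m + 1),
      h4 A hA] with X h5 h6 h7
    rw [Real.dist_eq] at h5 ⊢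
    rw [abs_lt] at h5 ⊢
    rw [abs_le] at h6 h7
    constructor <;> linarith
  choose Φ hΦ using hlim
  exact ⟨Φ, hfin, fun y A hA => hΦ y A hA⟩

end Pool.Agent.L0h46.TS.LIM
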