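import Pool.Agent.L0h46.TS.PSV
import Pool.Agent.L0h46.TS.GDF

/-! Project TS, module LM2: the limits at `0` and at infinity. -/

set_option autoImplicit false

namespace Pool.Agent.L0h46.TS.LM2

open Finset Filter Topology MeasureTheory
open Pool.Agent.L0h46.TQ (Nrm Lf htn Indep lg hh N1)

section
variable {k m : ℕ} {α : Fin k → ℤ × ℤ} {γ : Fin m → ℤ × ℤ × ℤ} {e : Fin k → ℕ} {f : Fin m → ℕ}
variable {N D : ℤ × ℤ → ℕ} {Φ : ℝ → ℝ}

/-- the number of the points counted by `Φ y` -/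
noncomputable def cn (α : Fin k → ℤ × ℤ) (γ : Fin m → ℤ × ℤ × ℤ) (e : Fin k → ℕ) (f : Fin m → ℕ)
    (N D : ℤ × ℤ → ℕ) (y X : ℝ) : ℝ :=
  (({x | x ∈ Pt α γ N (1 / dg k m + 1) X ∧ Cy N D (rr e f) y x} : Set (ℤ × ℤ)).ncard : ℝ)

theorem lim_cn (hL : Lim α γ e f N D Φ) (y : ℝ) :
    Tendsto (fun X : ℝ => cn α γ e f N D y X / X ^ (2 / dg k m)) atTop (𝓝 (Φ y)) :=
  hL.2 y _ (by linarith)

theorem dg3 (hs : Sys α γ e f) : 3 ≤ dg k m := by
  unfold dg
  have h1 : (3 : ℝ) ≤ k := by exact_mod_cast hs.three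
  have h2 : (0 : ℝ) ≤ m := Nat.cast_nonneg _
  linarith

theorem wt3 (hs : Sys α γ e f) : 3 ≤ wt e f := by
  have h1 : k ≤ ∑ i, e i := by
    calc k = ∑ _i : Fin k, 1 := by simp
      _ ≤ ∑ i, e i := Finset.sum_le_sum fun i _ => hs.e1 i
  unfold wt
  have := hs.three
  omega

theorem rr_pos (hs : Sys α γ e f) : 0 < rr e f := by
  unfold rr
  have h1 : (3 : ℝ) ≤ wt e f := by exact_mod_cast wt3 hs
  have h2 := dg3 hs
  positivity

theorem pow_wt {X : ℝ} (hX : 0 ≤ X) (hs : Sys α γ e f) :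
    (X ^ (1 / dg k m)) ^ (wt e f) = X ^ rr e f := by
  have h2 := dg3 hs
  rw [← Real.rpow_natCast, ← Real.rpow_mul hX]
  congr 1
  unfold rr
  field_simp

theorem pow_dg {X : ℝ} (hX : 0 ≤ X) (hs : Sys α γ e f) :
    (X ^ (1 / dg k m)) ^ (k + 2 * m) = X := by
  have h2 := dg3 hs
  rw [← Real.rpow_natCast, ← Real.rpow_mul hX]
  have : 1 / dg k m * ((k + 2 * m : ℕ) : ℝ) = 1 := by
    have e1 : ((k + 2 * m : ℕ) : ℝ) = dg k m := by unfold dg; push_cast; ring
    rw [e1]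
    field_simp
  rw [this, Real.rpow_one]

theorem pow_sq {X : ℝ} (hX : 0 ≤ X) : (X ^ (1 / dg k m)) ^ 2 = X ^ (2 / dg k m) := by
  rw [← Real.rpow_natCast, ← Real.rpow_mul hX]
  congr 1
  push_cast
  ring

theorem tallP (hK : S_TLK) (hB : S_TLB) (hs : Sys α γ e f) (haf : AF α γ e f N D) :
    ∃ C c : ℝ, 0 < C ∧ 0 < c ∧ ∀ K : ℝ, 1 ≤ K → ∀ᶠ X : ℝ in atTop,
      (({x | x ∈ Pt α γ N (1 / dg k m + 1) X ∧ K * X ^ (1 / dg k m) < (htn x : ℝ)} :
        Set (ℤ × ℤ)).ncard : ℝ) ≤ C * K ^ (-c) * X ^ (2 / dg k m) := by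
  have hd := dg3 hs
  obtain ⟨CK, c, hCK, hc, h⟩ := hK k m α γ e f hs
  obtain ⟨η, C', hη, hC', hfin⟩ := hB k m α γ e f hs (1 / dg k m + 1) 1 one_pos
  obtain ⟨C0, hC0, hbd⟩ := haf.bd
  have hC0' : (1 : ℝ) ≤ C0 := by exact_mod_cast hC0
  have hC0'' : (0 : ℝ) < C0 := by linarith
  refine ⟨(CK + 9) * (C0 : ℝ) ^ ((2 + c) / dg k m), c, by positivity, hc, fun K hK1 => ?_⟩
  have h1 := h (1 / dg k m + 1) (max 1 (K / (C0 : ℝ) ^ (1 / dg k m))) (le_max_left _ _)
  have h2 := (tendsto_id.const_mul_atTop hC0'').eventually h1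
  filter_upwards [h2, eventually_ge_atTop (1 : ℝ)] with X hX hX1
  exact GDF.tall hd hc hCK hC0 hX1 hK1 (GDF.p_sub_R (by positivity) hC0 hX1
    (fun x hx => (hbd x hx).1)) (hfin (C0 * X) (by nlinarith)).1 hX

theorem cn_mono (hL : Lim α γ e f N D Φ) {y y' X : ℝ} (hX : 1 ≤ X)
    (h : ∀ x, Cy N D (rr e f) y x → Cy N D (rr e f) y' x) :
    cn α γ e f N D y X ≤ cn α γ e f N D y' X := by
  unfold cn
  have := Set.ncard_le_ncard (s := {x | x ∈ Pt α γ N (1 / dg k m + 1) X ∧ Cy N D (rr e f) y x})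
    (t := {x | x ∈ Pt α γ N (1 / dg k m + 1) X ∧ Cy N D (rr e f) y' x})
    (fun x hx => ⟨hx.1, h x hx.2⟩) ((hL.1 _ X hX).subset fun x hx => hx.1)
  exact_mod_cast this

theorem phi_le (hL : Lim α γ e f N D Φ) {y y' : ℝ}
    (h : ∀ x, Cy N D (rr e f) y x → Cy N D (rr e f) y' x) : Φ y ≤ Φ y' := by
  refine le_of_tendsto_of_tendsto (lim_cn hL y) (lim_cn hL y') ?_
  filter_upwards [eventually_ge_atTop (1 : ℝ)] with X hX
  exact div_le_div_of_nonneg_right (cn_mono hL hX h) (Real.rpow_nonneg (by linarith) _)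

theorem phi_nonneg (hL : Lim α γ e f N D Φ) (y : ℝ) : 0 ≤ Φ y := by
  refine ge_of_tendsto (lim_cn hL y) ?_
  filter_upwards [eventually_ge_atTop (1 : ℝ)] with X hX
  exact div_nonneg (Nat.cast_nonneg _) (Real.rpow_nonneg (by linarith) _)

theorem phi_zero_pos (hG : Pool.Agent.L0h46.TQ.S_GD) (hs : Sys α γ e f) (haf : AF α γ e f N D)
    (hL : Lim α γ e f N D Φ) : 0 < Φ 0 := by
  classical
  have hd := dg3 hs
  have hd0 : 0 < dg k m := by linarith
  obtain ⟨c, hc, B, hG⟩ := hG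
  obtain ⟨C0, hC0, hbd⟩ := haf.bd
  obtain ⟨C1, hC1, hform⟩ := PSV.form_bound (α := α) (γ := γ) (e := e) (f := f)
  have hC0' : (1 : ℝ) ≤ C0 := by exact_mod_cast hC0
  have hCC : (1 : ℝ) ≤ C0 * C1 := by nlinarith
  set b : ℝ := (B + 1 : ℝ) * (C0 * C1) with hb
  have hB0 : (0 : ℝ) ≤ B := Nat.cast_nonneg _
  have hb1 : 1 ≤ b := by nlinarith
  have hb2 : (B : ℝ) + 1 ≤ b := by nlinarith
  have hk3 : (3 : ℝ) ≤ k := by exact_mod_cast hs.three
  have key : ∀ᶠ X : ℝ in atTop, c / (8 * b ^ 2) ≤ cn α γ e f N D 0 X / X ^ (2 / dg k m) := by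
    have ht : Tendsto (fun X : ℝ => X ^ (1 / dg k m)) atTop atTop :=
      tendsto_rpow_atTop (by positivity)
    filter_upwards [eventually_ge_atTop (1 : ℝ), ht.eventually_ge_atTop (2 * b),
      ht.eventually_ge_atTop (8 * b ^ 2 * k / c)] with X hX1 hX2 hX3
    have hX0 : (0 : ℝ) ≤ X := by linarith
    set Y : ℝ := X ^ (1 / dg k m) with hY
    have hY0 : 0 < Y := by linarith
    have hYb : 2 ≤ Y / b := by
      rw [le_div_iff₀ (by linarith)]
      exact hX2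
    set M : ℕ := ⌊Y / b⌋₊ with hM
    have hM1 : (M : ℝ) ≤ Y / b := Nat.floor_le (by positivity)
    have hM2 : Y / b < M + 1 := Nat.lt_floor_add_one _
    have hM3 : Y / (2 * b) ≤ M := by
      have : Y / (2 * b) = Y / b / 2 := by rw [div_div, mul_comm]
      rw [this]
      linarith
    have hMpos : 1 ≤ M := by
      have : (1 : ℝ) ≤ M := by linarith
      exact_mod_cast this
    have hbM : b * M ≤ Y := by
      rw [le_div_iff₀ (by linarith)] at hM1
      linarith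
    obtain ⟨G, hG1, hG2⟩ := hG M hMpos
    set g : ℕ × ℕ → ℤ × ℤ := fun p => ((p.1 : ℤ), (p.2 : ℤ)) with hg
    have hginj : Function.Injective g := by
      intro p q h
      have h1 : (p.1 : ℤ) = q.1 := congrArg Prod.fst h
      have h2 : (p.2 : ℤ) = q.2 := congrArg Prod.snd h
      exact Prod.ext (by exact_mod_cast h1) (by exact_mod_cast h2)
    set E : Finset (ℤ × ℤ) := G.image g with hE
    have hEcard : E.card = G.card := Finset.card_image_of_injective _ hginj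
    set H : ℝ := (B + 1) * M with hH
    have hMr : (1 : ℝ) ≤ M := by exact_mod_cast hMpos
    have hH1 : 1 ≤ H := by nlinarith
    have hHY : H ≤ Y := by
      refine le_trans ?_ hbM
      exact mul_le_mul_of_nonneg_right hb2 (by positivity)
    have hEp : ∀ x ∈ E, 0 < x.2 ∧ IsCoprime x.1 x.2 ∧ (htn x : ℝ) ≤ H := by
      intro x hx
      obtain ⟨p, hp, rfl⟩ := Finset.mem_image.1 hx
      obtain ⟨⟨h1, h2, h3, h4⟩, h5, h6⟩ := hG2 p hp
      refine ⟨(by exact_mod_cast h2 : (0 : ℤ) < (p.2 : ℤ)), Nat.isCoprime_iff_coprime.2 h3, ?_⟩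
      have h7 : htn (g p) ≤ B * M := by
        unfold htn
        simp only [hg, Int.natAbs_natCast]
        exact max_le h5 h6
      have h8 : (htn (g p) : ℝ) ≤ B * M := by exact_mod_cast h7
      refine h8.trans ?_
      rw [hH]
      nlinarith
    -- the points on the lines
    have hbadcard : ((E.filter fun x => FP α γ x = 0).card : ℝ) ≤ k * H := by
      have hsub : (E.filter fun x => FP α γ x = 0) ⊆
          (Finset.univ : Finset (Fin k)).biUnion fun i => E.filter fun x => Lf (α i) x = 0 := by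
        intro x hx
        rw [Finset.mem_filter] at hx
        obtain ⟨hxE, hx0⟩ := hx
        have h2 := (hEp x hxE).1.ne'
        unfold FP at hx0
        rcases mul_eq_zero.1 hx0 with h | h
        · obtain ⟨i, -, hi⟩ := Finset.prod_eq_zero_iff.1 h
          exact Finset.mem_biUnion.2 ⟨i, Finset.mem_univ _, Finset.mem_filter.2 ⟨hxE, hi⟩⟩
        · obtain ⟨j, -, hj⟩ := Finset.prod_eq_zero_iff.1 h
          exact absurd hj (GDF.Qg_ne _ (hs.irr j) x h2)
      have h1 : ((E.filter fun x => FP α γ x = 0).card : ℝ) ≤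
          ∑ i : Fin k, ((E.filter fun x => Lf (α i) x = 0).card : ℝ) := by
        exact_mod_cast (Finset.card_le_card hsub).trans Finset.card_biUnion_le
      have h2 : ∀ i : Fin k, ((E.filter fun x => Lf (α i) x = 0).card : ℝ) ≤ H := by
        intro i
        have h3 := GDF.line_card (α i) (GDF.al_ne α hs.three hs.ind i) H hH1
        refine le_trans ?_ h3
        rw [← Set.ncard_coe_finset]
        have h4 := Set.ncard_le_ncard
          (s := ((E.filter fun x => Lf (α i) x = 0 : Finset (ℤ × ℤ)) : Set (ℤ × ℤ)))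
          (t := {x : ℤ × ℤ | 0 < x.2 ∧ (htn x : ℝ) ≤ H ∧ Lf (α i) x = 0}) (by
            intro x hx
            have hx' := Finset.mem_filter.1 (Finset.mem_coe.1 hx)
            exact ⟨(hEp x hx'.1).1, (hEp x hx'.1).2.2, hx'.2⟩)
          ((GDF.box_fin H).subset fun x hx => hx.2.1)
        exact_mod_cast h4
      calc ((E.filter fun x => FP α γ x = 0).card : ℝ) ≤
          ∑ i : Fin k, ((E.filter fun x => Lf (α i) x = 0).card : ℝ) := h1
        _ ≤ ∑ _i : Fin k, H := Finset.sum_le_sum fun i _ => h2 i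
        _ = k * H := by simp
    have hgood : ((E.filter fun x => FP α γ x ≠ 0).card : ℝ) ≤ cn α γ e f N D 0 X := by
      unfold cn
      rw [← Set.ncard_coe_finset]
      have h4 := Set.ncard_le_ncard
        (s := ((E.filter fun x => FP α γ x ≠ 0 : Finset (ℤ × ℤ)) : Set (ℤ × ℤ)))
        (t := {x | x ∈ Pt α γ N (1 / dg k m + 1) X ∧ Cy N D (rr e f) 0 x}) (by
          intro x hx
          obtain ⟨hxE, hxF⟩ := Finset.mem_filter.1 (Finset.mem_coe.1 hx)
          obtain ⟨h1, h2, h3⟩ := hEp x hxE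
          have hgd : Gd α γ x := ⟨h2, hxF⟩
          refine ⟨⟨⟨h2, Or.inl h1⟩, hxF, Or.inr ?_, ?_⟩, Or.inl le_rfl⟩
          · refine h3.trans (hHY.trans ?_)
            rw [hY]
            exact Real.rpow_le_rpow_of_exponent_le hX1 (by linarith)
          · have h5 : (N x : ℝ) ≤ C0 * radN (FP α γ x) := by exact_mod_cast (hbd x hgd).2.1
            have h6 := PSV.radN_le hxF
            have h7 := (hform x).1
            have h8 : (htn x : ℝ) ^ (k + 2 * m) ≤ H ^ (k + 2 * m) :=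
              pow_le_pow_left₀ (Nat.cast_nonneg _) h3 _
            have h0 : (0 : ℝ) ≤ H ^ (k + 2 * m) := by positivity
            have h00 : (C0 * C1 : ℝ) ≤ (C0 * C1 : ℝ) ^ (k + 2 * m) :=
              le_self_pow₀ hCC (by have := hs.three; omega)
            have h9 : (C0 * C1 : ℝ) * H ^ (k + 2 * m) ≤ ((C0 * C1 : ℝ) * H) ^ (k + 2 * m) := by
              rw [mul_pow (C0 * C1 : ℝ) H]
              exact mul_le_mul_of_nonneg_right h00 h0
            have h10 : (C0 * C1) * H = b * M := by rw [hH, hb]; ring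
            calc (N x : ℝ) ≤ C0 * radN (FP α γ x) := h5
              _ ≤ C0 * (C1 * (htn x : ℝ) ^ (k + 2 * m)) := by gcongr; exact h6.trans h7
              _ ≤ C0 * (C1 * H ^ (k + 2 * m)) := by gcongr
              _ = (C0 * C1) * H ^ (k + 2 * m) := by ring
              _ ≤ ((C0 * C1) * H) ^ (k + 2 * m) := h9
              _ = (b * M) ^ (k + 2 * m) := by rw [h10]
              _ ≤ Y ^ (k + 2 * m) := pow_le_pow_left₀ (by positivity) hbM _
              _ = X := pow_dg hX0 hs)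
        ((hL.1 _ X hX1).subset fun x hx => hx.1)
      exact_mod_cast h4
    have hsum : (E.card : ℝ) = ((E.filter fun x => FP α γ x = 0).card : ℝ) +
        ((E.filter fun x => FP α γ x ≠ 0).card : ℝ) := by
      exact_mod_cast (Finset.card_filter_add_card_filter_not (s := E)
        (fun x : ℤ × ℤ => FP α γ x = 0)).symm
    have hlow : c * (M : ℝ) ^ 2 ≤ E.card := by rw [hEcard]; exact hG1
    have hfin : c * (M : ℝ) ^ 2 - k * Y ≤ cn α γ e f N D 0 X := by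
      have : (k : ℝ) * H ≤ k * Y := by gcongr
      linarith
    have hM4 : Y ^ 2 / (4 * b ^ 2) ≤ (M : ℝ) ^ 2 := by
      have h1 : (Y / (2 * b)) ^ 2 ≤ (M : ℝ) ^ 2 := pow_le_pow_left₀ (by positivity) hM3 2
      have h2 : (Y / (2 * b)) ^ 2 = Y ^ 2 / (4 * b ^ 2) := by rw [div_pow, mul_pow]; norm_num
      rwa [h2] at h1
    have hkY : (k : ℝ) * Y ≤ c / (8 * b ^ 2) * Y ^ 2 := by
      have h1 : 8 * b ^ 2 * k ≤ Y * c := by
        rw [div_le_iff₀ hc] at hX3
        exact hX3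
      have h2 : (k : ℝ) ≤ c / (8 * b ^ 2) * Y := by
        rw [div_mul_eq_mul_div, le_div_iff₀ (by positivity)]
        linarith
      calc (k : ℝ) * Y ≤ c / (8 * b ^ 2) * Y * Y := by gcongr
        _ = _ := by ring
    rw [← pow_sq hX0, le_div_iff₀ (by positivity)]
    have h3 : c * (Y ^ 2 / (4 * b ^ 2)) = c / (8 * b ^ 2) * Y ^ 2 + c / (8 * b ^ 2) * Y ^ 2 := by
      field_simp
      ring
    have h4 : c * (Y ^ 2 / (4 * b ^ 2)) ≤ c * (M : ℝ) ^ 2 := by gcongr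
    linarith
  have := ge_of_tendsto (lim_cn hL 0) key
  have h2 : 0 < c / (8 * b ^ 2) := by positivity
  linarith

/-- the bound at infinity -/
theorem top_bound (hK : S_TLK) (hB : S_TLB) (hs : Sys α γ e f) (haf : AF α γ e f N D)
    (hL : Lim α γ e f N D Φ) : ∃ C c C' : ℝ, 0 < C ∧ 0 < c ∧ 0 < C' ∧ ∀ K y : ℝ, 1 ≤ K → 0 < y →
      Φ 0 ≤ Φ y + C * K ^ (-c) +
        Φ 0 * ((C' * K ^ (wt e f) / y) ^ (1 / rr e f)) ^ (2 / dg k m) := by
  have hd := dg3 hs
  have hr := rr_pos hs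
  obtain ⟨C, c, hC, hc, htall⟩ := tallP hK hB hs haf
  obtain ⟨C0, hC0, hbd⟩ := haf.bd
  obtain ⟨C1, hC1, hform⟩ := PSV.form_bound (α := α) (γ := γ) (e := e) (f := f)
  have hC0' : (1 : ℝ) ≤ C0 := by exact_mod_cast hC0
  refine ⟨C, c, C0 * C1, hC, hc, by positivity, fun K y hK1 hy => ?_⟩
  set η : ℝ := (C0 * C1 * K ^ (wt e f) / y) ^ (1 / rr e f) with hη
  have hbase : 0 < C0 * C1 * K ^ (wt e f) / y := by positivity
  have hη0 : 0 < η := Real.rpow_pos_of_pos hbase _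
  have hηr : η ^ rr e f = C0 * C1 * K ^ (wt e f) / y := by
    rw [hη, ← Real.rpow_mul hbase.le, one_div, inv_mul_cancel₀ hr.ne', Real.rpow_one]
  have ht3 : Tendsto (fun X : ℝ => cn α γ e f N D 0 (η * X) / X ^ (2 / dg k m)) atTop
      (𝓝 (Φ 0 * η ^ (2 / dg k m))) := by
    have h1 : Tendsto (fun X : ℝ => cn α γ e f N D 0 (η * X) / (η * X) ^ (2 / dg k m) *
        η ^ (2 / dg k m)) atTop (𝓝 (Φ 0 * η ^ (2 / dg k m))) :=
      ((lim_cn hL 0).comp (tendsto_id.const_mul_atTop hη0)).mul_const _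
    refine h1.congr' ?_
    filter_upwards [eventually_gt_atTop (0 : ℝ)] with X hX
    rw [Real.mul_rpow hη0.le hX.le]
    have h2 : 0 < η ^ (2 / dg k m) := Real.rpow_pos_of_pos hη0 _
    have h3 : 0 < X ^ (2 / dg k m) := Real.rpow_pos_of_pos hX _
    field_simp
  have ht2 : Tendsto (fun X : ℝ => cn α γ e f N D y X / X ^ (2 / dg k m) + C * K ^ (-c) +
      cn α γ e f N D 0 (η * X) / X ^ (2 / dg k m)) atTop
      (𝓝 (Φ y + C * K ^ (-c) + Φ 0 * η ^ (2 / dg k m))) :=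
    ((lim_cn hL y).add_const _).add ht3
  refine le_of_tendsto_of_tendsto (lim_cn hL 0) ht2 ?_
  have hbig : ∀ᶠ X : ℝ in atTop, K / η ^ (1 / dg k m + 1) ≤ X := eventually_ge_atTop _
  filter_upwards [htall K hK1, hbig, eventually_ge_atTop (1 : ℝ),
    (tendsto_id.const_mul_atTop hη0).eventually_ge_atTop (1 : ℝ)] with X h1 h2 hX1 hX2
  have hX0 : 0 < X := by linarith
  have hηX : 1 ≤ η * X := hX2
  have hXp : 0 < X ^ (2 / dg k m) := Real.rpow_pos_of_pos hX0 _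
  have hcount : cn α γ e f N D 0 X ≤ cn α γ e f N D y X + C * K ^ (-c) * X ^ (2 / dg k m) +
      cn α γ e f N D 0 (η * X) := by
    have hsub : {x | x ∈ Pt α γ N (1 / dg k m + 1) X ∧ Cy N D (rr e f) 0 x} ⊆
        ({x | x ∈ Pt α γ N (1 / dg k m + 1) X ∧ Cy N D (rr e f) y x} ∪
          {x | x ∈ Pt α γ N (1 / dg k m + 1) X ∧ K * X ^ (1 / dg k m) < (htn x : ℝ)}) ∪
          {x | x ∈ Pt α γ N (1 / dg k m + 1) (η * X) ∧ Cy N D (rr e f) 0 x} := by
      rintro x ⟨hx, -⟩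
      by_cases hcy : Cy N D (rr e f) y x
      · exact Or.inl (Or.inl ⟨hx, hcy⟩)
      by_cases hht : K * X ^ (1 / dg k m) < (htn x : ℝ)
      · exact Or.inl (Or.inr ⟨hx, hht⟩)
      refine Or.inr ⟨?_, Or.inl le_rfl⟩
      have hgd : Gd α γ x := ⟨hx.1.1, hx.2.1⟩
      have hN0 : (1 : ℝ) ≤ N x := by exact_mod_cast (haf.pos x hgd).1
      have hDy : y * (N x : ℝ) ^ rr e f < D x := by
        by_contra hcon
        exact hcy (Or.inr (not_lt.1 hcon))
      have hht' : (htn x : ℝ) ≤ K * X ^ (1 / dg k m) := not_lt.1 hht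
      have hD1 : (D x : ℝ) ≤ C0 * FE α γ e f x := by exact_mod_cast (hbd x hgd).2.2.1
      have hD2 : (D x : ℝ) ≤ C0 * C1 * K ^ (wt e f) * X ^ rr e f := by
        calc (D x : ℝ) ≤ C0 * FE α γ e f x := hD1
          _ ≤ C0 * (C1 * (htn x : ℝ) ^ (wt e f)) := by gcongr; exact (hform x).2
          _ ≤ C0 * (C1 * (K * X ^ (1 / dg k m)) ^ (wt e f)) := by gcongr
          _ = C0 * C1 * K ^ (wt e f) * X ^ rr e f := by
            rw [mul_pow, pow_wt hX0.le hs]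
            ring
      have hN1 : (N x : ℝ) ^ rr e f < (η * X) ^ rr e f := by
        rw [Real.mul_rpow hη0.le hX0.le, hηr]
        have h5 : y * (N x : ℝ) ^ rr e f < C0 * C1 * K ^ (wt e f) * X ^ rr e f :=
          hDy.trans_le hD2
        have h6 : (N x : ℝ) ^ rr e f < C0 * C1 * K ^ (wt e f) * X ^ rr e f / y := by
          rw [lt_div_iff₀ hy]
          linarith
        refine h6.trans_eq ?_
        ring
      have hN2 : (N x : ℝ) ≤ η * X := by
        by_contra hcon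
        have h5 := Real.rpow_le_rpow (by positivity) (not_le.1 hcon).le hr.le
        linarith
      refine ⟨hx.1, hx.2.1, Or.inr ?_, hN2⟩
      have hp : 0 < η ^ (1 / dg k m + 1) := Real.rpow_pos_of_pos hη0 _
      rw [div_le_iff₀ hp] at h2
      rw [Real.mul_rpow hη0.le hX0.le, Real.rpow_add hX0, Real.rpow_one]
      calc (htn x : ℝ) ≤ K * X ^ (1 / dg k m) := hht'
        _ ≤ X * η ^ (1 / dg k m + 1) * X ^ (1 / dg k m) := by gcongr
        _ = _ := by ring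
    have hf1 : ({x | x ∈ Pt α γ N (1 / dg k m + 1) X ∧ Cy N D (rr e f) y x}).Finite :=
      (hL.1 _ X hX1).subset fun x hx => hx.1
    have hf2 : ({x | x ∈ Pt α γ N (1 / dg k m + 1) X ∧
        K * X ^ (1 / dg k m) < (htn x : ℝ)}).Finite :=
      (hL.1 _ X hX1).subset fun x hx => hx.1
    have hf3 : ({x | x ∈ Pt α γ N (1 / dg k m + 1) (η * X) ∧ Cy N D (rr e f) 0 x}).Finite :=
      (hL.1 _ (η * X) hηX).subset fun x hx => hx.1
    have h7 := (Set.ncard_le_ncard hsub ((hf1.union hf2).union hf3)).trans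
      ((Set.ncard_union_le _ _).trans (Nat.add_le_add_right (Set.ncard_union_le _ _) _))
    have h8 : cn α γ e f N D 0 X ≤ cn α γ e f N D y X +
        (({x | x ∈ Pt α γ N (1 / dg k m + 1) X ∧ K * X ^ (1 / dg k m) < (htn x : ℝ)} :
          Set (ℤ × ℤ)).ncard : ℝ) + cn α γ e f N D 0 (η * X) := by
      unfold cn
      exact_mod_cast h7
    linarith
  change cn α γ e f N D 0 X / X ^ (2 / dg k m) ≤ cn α γ e f N D y X / X ^ (2 / dg k m) +
    C * K ^ (-c) + cn α γ e f N D 0 (η * X) / X ^ (2 / dg k m)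
  rw [div_le_iff₀ hXp]
  have e1 : (cn α γ e f N D y X / X ^ (2 / dg k m) + C * K ^ (-c) +
      cn α γ e f N D 0 (η * X) / X ^ (2 / dg k m)) * X ^ (2 / dg k m) =
      cn α γ e f N D y X + C * K ^ (-c) * X ^ (2 / dg k m) + cn α γ e f N D 0 (η * X) := by
    field_simp
  rw [e1]
  exact hcount

/-- the bound at zero -/
theorem zero_bound (hS : S_SEC) (hN : S_NR) (hK : S_TLK) (hB : S_TLB) (hs : Sys α γ e f)
    (haf : AF α γ e f N D) (hL : Lim α γ e f N D Φ) : ∃ (C c C' C'' : ℝ) (E : ℕ), 0 < C ∧ 0 < c ∧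
      0 < C' ∧ 0 < C'' ∧ 1 ≤ E ∧ ∀ K κ y : ℝ, 1 ≤ K → 0 < κ → 0 < y →
      Φ y ≤ C * K ^ (-c) + 9 * κ ^ 2 +
        C' * ((C'' * (κ ^ (wt e f))⁻¹ * y) ^ (1 / (E : ℝ)) * K ^ 2) := by
  have hd := dg3 hs
  have hr := rr_pos hs
  obtain ⟨C, c, hC, hc, htall⟩ := tallP hK hB hs haf
  obtain ⟨C0, hC0, hbd⟩ := haf.bd
  have hC0' : (1 : ℝ) ≤ C0 := by exact_mod_cast hC0
  obtain ⟨s, ρ, CN, E, hCN, hE1, hE2, hρ, hnr⟩ := hN k m α γ e f hs
  choose Cs hCs hsec using fun j => PSV.sec hS (ρ j) (hρ j)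
  have hCs0 : 0 ≤ ∑ j, Cs j := Finset.sum_nonneg fun j _ => (hCs j).le
  have hE0 : (0 : ℝ) < E := by exact_mod_cast hE1
  refine ⟨C, c, 2 * (∑ j, Cs j) + 1, CN * C0, E, hC, hc, by positivity, by positivity, hE1,
    fun K κ y hK1 hκ hy => ?_⟩
  set lam : ℝ := (CN * C0 * (κ ^ (wt e f))⁻¹ * y) ^ (1 / (E : ℝ)) with hlam
  have hbase : 0 < CN * C0 * (κ ^ (wt e f))⁻¹ * y := by positivity
  have hlam0 : 0 < lam := Real.rpow_pos_of_pos hbase _
  have hlamE : lam ^ E = CN * C0 * (κ ^ (wt e f))⁻¹ * y := by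
    rw [hlam, ← Real.rpow_natCast, ← Real.rpow_mul hbase.le, one_div, inv_mul_cancel₀ hE0.ne',
      Real.rpow_one]
  refine le_of_tendsto (lim_cn hL y) ?_
  have ht : Tendsto (fun X : ℝ => X ^ (1 / dg k m)) atTop atTop :=
    tendsto_rpow_atTop (by positivity)
  filter_upwards [htall K hK1, eventually_ge_atTop (1 : ℝ), ht.eventually_ge_atTop (1 / κ),
    ht.eventually_ge_atTop (1 / (lam * K))] with X h1 hX1 hX2 hX3
  have hX0 : 0 < X := by linarith
  set Y : ℝ := X ^ (1 / dg k m) with hY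
  have hY0 : 0 < Y := Real.rpow_pos_of_pos hX0 _
  have hY1 : 1 ≤ Y := Real.one_le_rpow hX1 (by positivity)
  have hκY : 1 ≤ κ * Y := by
    rw [div_le_iff₀ hκ] at hX2
    linarith
  have hKY : 1 ≤ K * Y := by nlinarith
  have hlY : 1 ≤ lam * K * Y := by
    rw [div_le_iff₀ (by positivity)] at hX3
    linarith
  have hsub : {x | x ∈ Pt α γ N (1 / dg k m + 1) X ∧ Cy N D (rr e f) y x} ⊆
      ({x | x ∈ Pt α γ N (1 / dg k m + 1) X ∧ K * Y < (htn x : ℝ)} ∪
        {x : ℤ × ℤ | (htn x : ℝ) ≤ κ * Y}) ∪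
        ⋃ j : Fin s, {x : ℤ × ℤ | (htn x : ℝ) ≤ K * Y ∧ |LR (ρ j) x| ≤ lam * (K * Y)} := by
    rintro x ⟨hx, hcy⟩
    by_cases hht : K * Y < (htn x : ℝ)
    · exact Or.inl (Or.inl ⟨hx, hht⟩)
    by_cases hht2 : (htn x : ℝ) ≤ κ * Y
    · exact Or.inl (Or.inr hht2)
    refine Or.inr ?_
    have hgd : Gd α γ x := ⟨hx.1.1, hx.2.1⟩
    have hht' : (htn x : ℝ) ≤ K * Y := not_lt.1 hht
    have hht3 : κ * Y < (htn x : ℝ) := not_le.1 hht2
    have hh1 : (0 : ℝ) < htn x := lt_of_lt_of_le one_pos (hκY.trans hht3.le)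
    have hDy : (D x : ℝ) ≤ y * (N x : ℝ) ^ rr e f := hcy.resolve_left (not_le.2 hy)
    have hNX : (N x : ℝ) ≤ X := hx.2.2.2
    obtain ⟨j, -, hj⟩ := hnr x
    refine Set.mem_iUnion.2 ⟨j, hht', ?_⟩
    have hXr : X ^ rr e f ≤ (htn x : ℝ) ^ (wt e f) * (κ ^ (wt e f))⁻¹ := by
      rw [← pow_wt hX0.le hs, ← div_eq_mul_inv, ← div_pow]
      refine pow_le_pow_left₀ hY0.le ?_ _
      rw [le_div_iff₀ hκ]
      linarith
    have hFE : (FE α γ e f x : ℝ) ≤ C0 * D x := by exact_mod_cast (hbd x hgd).2.2.2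
    have h5 : |LR (ρ j) x| ^ E * (htn x : ℝ) ^ (wt e f - E) ≤
        lam ^ E * (htn x : ℝ) ^ (wt e f) := by
      calc |LR (ρ j) x| ^ E * (htn x : ℝ) ^ (wt e f - E) ≤ CN * (FE α γ e f x : ℝ) := hj
        _ ≤ CN * (C0 * (y * X ^ rr e f)) := by
          have : (N x : ℝ) ^ rr e f ≤ X ^ rr e f :=
            Real.rpow_le_rpow (Nat.cast_nonneg _) hNX hr.le
          gcongr
          refine hFE.trans ?_
          gcongr
          exact hDy.trans (by gcongr)
        _ ≤ CN * (C0 * (y * ((htn x : ℝ) ^ (wt e f) * (κ ^ (wt e f))⁻¹))) := by gcongr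
        _ = lam ^ E * (htn x : ℝ) ^ (wt e f) := by rw [hlamE]; ring
    have h6 : (htn x : ℝ) ^ (wt e f) = (htn x : ℝ) ^ E * (htn x : ℝ) ^ (wt e f - E) := by
      rw [← pow_add]
      congr 1
      omega
    rw [h6, ← mul_assoc, ← mul_pow] at h5
    have h7 : |LR (ρ j) x| ^ E ≤ (lam * htn x) ^ E :=
      le_of_mul_le_mul_right h5 (by positivity)
    have h8 : |LR (ρ j) x| ≤ lam * htn x :=
      (pow_le_pow_iff_left₀ (abs_nonneg _) (by positivity) (by omega)).1 h7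
    refine h8.trans ?_
    gcongr
  have hf1 : ({x | x ∈ Pt α γ N (1 / dg k m + 1) X ∧ K * Y < (htn x : ℝ)}).Finite :=
    (hL.1 _ X hX1).subset fun x hx => hx.1
  have hf3 : (⋃ j : Fin s, {x : ℤ × ℤ | (htn x : ℝ) ≤ K * Y ∧
      |LR (ρ j) x| ≤ lam * (K * Y)}).Finite :=
    Set.finite_iUnion fun j => (hsec j (K * Y) lam hKY hlam0.le).1
  have h7 := (Set.ncard_le_ncard hsub ((hf1.union (GDF.box_fin _)).union hf3)).trans
    ((Set.ncard_union_le _ _).trans (Nat.add_le_add_right (Set.ncard_union_le _ _) _))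
  have h8 : cn α γ e f N D y X ≤
      (({x | x ∈ Pt α γ N (1 / dg k m + 1) X ∧ K * Y < (htn x : ℝ)} :
        Set (ℤ × ℤ)).ncard : ℝ) + (({x : ℤ × ℤ | (htn x : ℝ) ≤ κ * Y} : Set (ℤ × ℤ)).ncard : ℝ) +
      ((⋃ j : Fin s, {x : ℤ × ℤ | (htn x : ℝ) ≤ K * Y ∧
        |LR (ρ j) x| ≤ lam * (K * Y)}).ncard : ℝ) := by
    unfold cn
    exact_mod_cast h7
  have h9 := GDF.box_card (κ * Y) hκY
  have h10 : ((⋃ j : Fin s, {x : ℤ × ℤ | (htn x : ℝ) ≤ K * Y ∧
      |LR (ρ j) x| ≤ lam * (K * Y)}).ncard : ℝ) ≤ (∑ j, Cs j) * (2 * (lam * (K * Y) ^ 2)) := by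
    have h11 : (⋃ j : Fin s, {x : ℤ × ℤ | (htn x : ℝ) ≤ K * Y ∧
        |LR (ρ j) x| ≤ lam * (K * Y)}).ncard ≤ ∑ j : Fin s, ({x : ℤ × ℤ | (htn x : ℝ) ≤ K * Y ∧
        |LR (ρ j) x| ≤ lam * (K * Y)}).ncard := by
      classical
      have key : ∀ F : Finset (Fin s), (⋃ j ∈ F, {x : ℤ × ℤ | (htn x : ℝ) ≤ K * Y ∧
          |LR (ρ j) x| ≤ lam * (K * Y)}).ncard ≤ ∑ j ∈ F, ({x : ℤ × ℤ | (htn x : ℝ) ≤ K * Y ∧
          |LR (ρ j) x| ≤ lam * (K * Y)}).ncard := by
        intro F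
        induction F using Finset.induction_on with
        | empty => simp
        | insert a F ha ih =>
          rw [Finset.set_biUnion_insert, Finset.sum_insert ha]
          exact (Set.ncard_union_le _ _).trans (Nat.add_le_add_left ih _)
      have := key Finset.univ
      simpa using this
    have h12 : ∀ j, (({x : ℤ × ℤ | (htn x : ℝ) ≤ K * Y ∧
        |LR (ρ j) x| ≤ lam * (K * Y)} : Set (ℤ × ℤ)).ncard : ℝ) ≤
        Cs j * (2 * (lam * (K * Y) ^ 2)) := by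
      intro j
      refine (hsec j (K * Y) lam hKY hlam0.le).2.trans ?_
      refine mul_le_mul_of_nonneg_left ?_ (hCs j).le
      have h13 : K * Y ≤ lam * (K * Y) ^ 2 := by
        calc K * Y = 1 * (K * Y) := by ring
          _ ≤ (lam * K * Y) * (K * Y) := by gcongr
          _ = lam * (K * Y) ^ 2 := by ring
      linarith
    calc ((⋃ j : Fin s, {x : ℤ × ℤ | (htn x : ℝ) ≤ K * Y ∧
          |LR (ρ j) x| ≤ lam * (K * Y)}).ncard : ℝ) ≤
        ∑ j : Fin s, (({x : ℤ × ℤ | (htn x : ℝ) ≤ K * Y ∧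
          |LR (ρ j) x| ≤ lam * (K * Y)} : Set (ℤ × ℤ)).ncard : ℝ) := by exact_mod_cast h11
      _ ≤ ∑ j : Fin s, Cs j * (2 * (lam * (K * Y) ^ 2)) := Finset.sum_le_sum fun j _ => h12 j
      _ = (∑ j, Cs j) * (2 * (lam * (K * Y) ^ 2)) := by rw [Finset.sum_mul]
  have hYY : Y ^ 2 = X ^ (2 / dg k m) := pow_sq hX0.le
  have hXp : 0 < X ^ (2 / dg k m) := Real.rpow_pos_of_pos hX0 _
  rw [div_le_iff₀ hXp]
  rw [← hYY] at h1 ⊢
  have h14 : 0 ≤ lam * K ^ 2 * Y ^ 2 := by positivity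
  calc cn α γ e f N D y X ≤ C * K ^ (-c) * Y ^ 2 + 9 * (κ * Y) ^ 2 +
        (∑ j, Cs j) * (2 * (lam * (K * Y) ^ 2)) := by linarith
    _ ≤ (C * K ^ (-c) + 9 * κ ^ 2 + (2 * (∑ j, Cs j) + 1) * (lam * K ^ 2)) * Y ^ 2 := by
      nlinarith

end

theorem main (hS : S_SEC) (hN : S_NR) (hK : S_TLK) (hB : S_TLB)
    (hG : Pool.Agent.L0h46.TQ.S_GD) : S_LM2 := by
  intro k m α γ e f hs N D haf Φ hL
  have hd := dg3 hs
  have hr := rr_pos hs
  have hrpow0 : ∀ p : ℝ, 0 < p → Tendsto (fun z : ℝ => z ^ p) (𝓝 0) (𝓝 0) := by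
    intro p hp
    have h1 := (Real.continuousAt_rpow_const 0 p (Or.inr hp.le)).tendsto
    rwa [Real.zero_rpow hp.ne'] at h1
  have htK : ∀ C c : ℝ, 0 < c → Tendsto (fun K : ℝ => C * K ^ (-c)) atTop (𝓝 0) := by
    intro C c hc
    have h1 := (tendsto_rpow_neg_atTop hc).const_mul C
    rwa [mul_zero] at h1
  refine ⟨phi_zero_pos hG hs haf hL, ?_, ?_, ?_⟩
  · intro y hy y' hy' hyy
    refine phi_le hL fun x hx => Or.inr ?_
    have h1 := hx.resolve_left (not_le.2 hy)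
    exact h1.trans (mul_le_mul_of_nonneg_right hyy (Real.rpow_nonneg (Nat.cast_nonneg _) _))
  · obtain ⟨C, c, C', C'', E, hC, hc, hC', hC'', hE, hbound⟩ := zero_bound hS hN hK hB hs haf hL
    have hE0 : (0 : ℝ) < E := by exact_mod_cast hE
    refine tendsto_order.2 ⟨fun a ha => Eventually.of_forall fun y => ha.trans_le (phi_nonneg hL y),
      fun a ha => ?_⟩
    obtain ⟨K, hK1, hK2⟩ := (((htK C c hc).eventually_lt_const (by linarith : (0 : ℝ) < a / 3)).and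
      (eventually_ge_atTop (1 : ℝ))).exists
    obtain ⟨κ, hκ0, hκ⟩ : ∃ κ : ℝ, 0 < κ ∧ 9 * κ ^ 2 < a / 3 := by
      refine ⟨Real.sqrt (a / 28), Real.sqrt_pos.2 (by positivity), ?_⟩
      rw [Real.sq_sqrt (by positivity)]
      linarith
    have ht : Tendsto (fun y : ℝ => C' * ((C'' * (κ ^ (wt e f))⁻¹ * y) ^ (1 / (E : ℝ)) * K ^ 2))
        (𝓝 0) (𝓝 0) := by
      have h1 : Tendsto (fun y : ℝ => C'' * (κ ^ (wt e f))⁻¹ * y) (𝓝 0) (𝓝 0) := by
        have := (tendsto_id (x := 𝓝 (0 : ℝ))).const_mul (C'' * (κ ^ (wt e f))⁻¹)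
        simpa using this
      have h2 := ((hrpow0 (1 / (E : ℝ)) (by positivity)).comp h1).mul_const (K ^ 2)
      have h3 := h2.const_mul C'
      simpa using h3
    have ht' := ht.mono_left (nhdsWithin_le_nhds (s := Set.Ioi (0 : ℝ)))
    filter_upwards [ht'.eventually_lt_const (by linarith : (0 : ℝ) < a / 3),
      self_mem_nhdsWithin] with y hy hy0
    have := hbound K κ y hK2 hκ0 hy0
    linarith
  · obtain ⟨C, c, C', hC, hc, hC', hbound⟩ := top_bound hK hB hs haf hL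
    have hle : ∀ y, Φ y ≤ Φ 0 := fun y => phi_le hL fun x _ => Or.inl le_rfl
    refine tendsto_order.2 ⟨fun a ha => ?_, fun a ha => Eventually.of_forall fun y =>
      (hle y).trans_lt ha⟩
    obtain ⟨K, hK1, hK2⟩ := (((htK C c hc).eventually_lt_const
      (by linarith : (0 : ℝ) < (Φ 0 - a) / 2)).and (eventually_ge_atTop (1 : ℝ))).exists
    have ht : Tendsto (fun y : ℝ => Φ 0 *
        ((C' * K ^ (wt e f) / y) ^ (1 / rr e f)) ^ (2 / dg k m)) atTop (𝓝 0) := by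
      have h1 : Tendsto (fun y : ℝ => C' * K ^ (wt e f) / y) atTop (𝓝 0) :=
        tendsto_const_nhds.div_atTop tendsto_id
      have h2 := (hrpow0 (2 / dg k m) (by positivity)).comp
        ((hrpow0 (1 / rr e f) (by positivity)).comp h1)
      have h3 := h2.const_mul (Φ 0)
      simpa using h3
    filter_upwards [ht.eventually_lt_const (by linarith : (0 : ℝ) < (Φ 0 - a) / 2),
      eventually_gt_atTop (0 : ℝ)] with y hy hy0
    have := hbound K y hK2 hy0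
    linarith

end Pool.Agent.L0h46.TS.LM2
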