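import Mathlib
import Pool.Agent.L0h46.TS.Defs
import Pool.Agent.L0h81.TS.Kit

/-!
# Project TS, module MAS: the inequality of Mason and Stothers
-/

set_option autoImplicit false

namespace Pool.Agent.L0h46.TS.MAS

open Finset Polynomial
open Pool.Agent.L0h46.TS Pool.Agent.L0h81.TS
open Pool.Agent.L0h46.TQ (Lf)

lemma irr_ne {g : ℤ × ℤ × ℤ} (h : IrrQ g) : g.1 ≠ 0 := by
  intro h0
  exact h ⟨g.2.1, by rw [h0]; ring⟩

lemma lpol_nd {a : ℤ × ℤ} (h : a.2 ≠ 0) :
    ((lpol a).map (Int.castRingHom ℚ)).natDegree = 1 := by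
  have h' : ((a.2 : ℤ) : ℚ) ≠ 0 := by exact_mod_cast h
  have e1 : (lpol a).map (Int.castRingHom ℚ) = C (a.2 : ℚ) * X + C (-(a.1 : ℚ)) := by
    unfold lpol
    simp [sub_eq_add_neg]
  rw [e1]
  exact natDegree_linear h'

lemma qpol_nd {g : ℤ × ℤ × ℤ} (h : g.1 ≠ 0) :
    ((qpol g).map (Int.castRingHom ℚ)).natDegree = 2 := by
  have h' : ((g.1 : ℤ) : ℚ) ≠ 0 := by exact_mod_cast h
  have e1 : (qpol g).map (Int.castRingHom ℚ) =
      C (g.1 : ℚ) * X ^ 2 + C (g.2.1 : ℚ) * X + C (g.2.2 : ℚ) := by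
    unfold qpol
    simp [Polynomial.map_add]
  rw [e1]
  exact natDegree_quadratic h'

theorem main : S_MAS := by
  classical
  intro k m n A B α γ e f c hS
  set φ := Int.castRingHom ℚ with hφ
  have hφi : Function.Injective φ := Int.cast_injective
  set a := A.map φ with ha
  set b := B.map φ with hb
  set P1 := ∏ i, (lpol (α i)).map φ with hP1
  set P2 := ∏ j, (qpol (γ j)).map φ with hP2
  set D := C (c : ℚ) * (∏ i, (lpol (α i)).map φ ^ e i) * ∏ j, (qpol (γ j)).map φ ^ f j with hD
  have hl : ∀ i, ((lpol (α i)).map φ).natDegree = 1 := fun i => lpol_nd (hS.inf i)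
  have hq : ∀ j, ((qpol (γ j)).map φ).natDegree = 2 := fun j => qpol_nd (irr_ne (hS.sys.irr j))
  have hl0 : ∀ i, (lpol (α i)).map φ ≠ 0 := by
    intro i h
    have := hl i
    rw [h, natDegree_zero] at this
    omega
  have hq0 : ∀ i, (qpol (γ i)).map φ ≠ 0 := by
    intro i h
    have := hq i
    rw [h, natDegree_zero] at this
    omega
  have hc0 : (c : ℚ) ≠ 0 := by exact_mod_cast hS.c0
  have hfac : a ^ 3 - b ^ 2 = D := by
    have := congrArg (Polynomial.map φ) hS.fac
    simp only [Polynomial.map_sub, Polynomial.map_mul, Polynomial.map_pow, Polynomial.map_prod,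
      Polynomial.map_C] at this
    exact this
  have p1 : (∏ i, (lpol (α i)).map φ ^ e i) ≠ 0 :=
    prod_ne_zero_iff.2 fun i _ => pow_ne_zero _ (hl0 i)
  have p2 : (∏ j, (qpol (γ j)).map φ ^ f j) ≠ 0 :=
    prod_ne_zero_iff.2 fun i _ => pow_ne_zero _ (hq0 i)
  have hCc : (C (c : ℚ) : ℚ[X]) ≠ 0 := C_ne_zero.2 hc0
  have hD0 : D ≠ 0 := mul_ne_zero (mul_ne_zero hCc p1) p2
  have hDd : D.natDegree = 12 * n := by
    rw [hD, natDegree_mul (mul_ne_zero hCc p1) p2, natDegree_mul hCc p1, natDegree_C,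
      natDegree_prod _ _ (fun i _ => pow_ne_zero _ (hl0 i)),
      natDegree_prod _ _ (fun i _ => pow_ne_zero _ (hq0 i)), ← hS.deg, wt, mul_sum, zero_add]
    congr 1
    · exact sum_congr rfl fun i _ => by rw [natDegree_pow, hl, mul_one]
    · exact sum_congr rfl fun i _ => by rw [natDegree_pow, hq, mul_comm]
  have hn := hS.n1
  have hcop : IsCoprime a b := hS.cop
  have ha0 : a ≠ 0 := by
    intro h
    rw [h] at hcop hfac
    have hu : IsUnit b := isCoprime_zero_left.1 hcop
    have h1 := natDegree_eq_zero_of_isUnit hu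
    have h2 : D.natDegree = 0 := by
      rw [← hfac]
      apply Nat.le_zero.1
      calc ((0 : ℚ[X]) ^ 3 - b ^ 2).natDegree = (b ^ 2).natDegree := by
            rw [zero_pow (by norm_num), zero_sub, natDegree_neg]
        _ ≤ 2 * b.natDegree := natDegree_pow_le
        _ = 0 := by rw [h1]
        _ ≤ 0 := le_rfl
    omega
  have hb0 : b ≠ 0 := by
    intro h
    rw [h] at hcop hfac
    have hu : IsUnit a := isCoprime_zero_right.1 hcop
    have h1 := natDegree_eq_zero_of_isUnit hu
    have h2 : D.natDegree = 0 := by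
      rw [← hfac]
      apply Nat.le_zero.1
      calc (a ^ 3 - (0 : ℚ[X]) ^ 2).natDegree = (a ^ 3).natDegree := by
            rw [zero_pow (by norm_num), sub_zero]
        _ ≤ 3 * a.natDegree := natDegree_pow_le
        _ = 0 := by rw [h1]
        _ ≤ 0 := le_rfl
    omega
  -- Mason-Stothers
  have hms := Polynomial.abc (k := ℚ) (a := a ^ 3) (b := -b ^ 2) (c := -D) (pow_ne_zero _ ha0)
    (neg_ne_zero.2 (pow_ne_zero _ hb0)) (neg_ne_zero.2 hD0)
    (by
      rw [IsCoprime.neg_right_iff]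
      exact hcop.pow)
    (by rw [← hfac]; ring)
  have hkey : 2 * n + 1 ≤ k + 2 * m := by
    rcases hms with ⟨-, -, h3⟩ | ⟨-, -, h3⟩
    · rw [natDegree_neg, hDd] at h3
      have hP10 : P1 ≠ 0 := prod_ne_zero_iff.2 fun i _ => hl0 i
      have hP20 : P2 ≠ 0 := prod_ne_zero_iff.2 fun i _ => hq0 i
      have hdiv : UniqueFactorizationMonoid.radical (a ^ 3 * -b ^ 2 * -D) ∣ a * b * (P1 * P2) := by
        rw [← UniqueFactorizationMonoid.exists_dvd_pow_iff_radical_dvd
          (mul_ne_zero (mul_ne_zero (pow_ne_zero _ ha0) (neg_ne_zero.2 (pow_ne_zero _ hb0)))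
            (neg_ne_zero.2 hD0))]
        refine ⟨wt e f + 3, ?_⟩
        have h4 : D ∣ (P1 * P2) ^ (wt e f + 3) := by
          have h5 : (∏ i, (lpol (α i)).map φ ^ e i) ∣ P1 ^ (wt e f + 3) := by
            rw [hP1, ← prod_pow]
            refine prod_dvd_prod_of_dvd _ _ fun i _ => pow_dvd_pow _ ?_
            have := single_le_sum (f := e) (fun _ _ => Nat.zero_le _) (mem_univ i)
            unfold wt
            omega
          have h6 : (∏ i, (qpol (γ i)).map φ ^ f i) ∣ P2 ^ (wt e f + 3) := by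
            rw [hP2, ← prod_pow]
            refine prod_dvd_prod_of_dvd _ _ fun i _ => pow_dvd_pow _ ?_
            have := single_le_sum (f := f) (fun _ _ => Nat.zero_le _) (mem_univ i)
            unfold wt
            omega
          have h7 : C (c : ℚ) * (∏ i, (lpol (α i)).map φ ^ e i) ∣ P1 ^ (wt e f + 3) := by
            rw [(isUnit_C.2 (isUnit_iff_ne_zero.2 hc0)).mul_left_dvd]
            exact h5
          rw [hD, mul_pow]
          exact mul_dvd_mul h7 h6
        have e1 : a ^ 3 * -b ^ 2 * -D = a ^ 3 * b ^ 2 * D := by ring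
        rw [e1, mul_pow, mul_pow]
        exact mul_dvd_mul (mul_dvd_mul (pow_dvd_pow _ (by omega)) (pow_dvd_pow _ (by omega))) h4
      have h8 := natDegree_le_of_dvd hdiv
        (mul_ne_zero (mul_ne_zero ha0 hb0) (mul_ne_zero hP10 hP20))
      have h9 : (a * b * (P1 * P2)).natDegree ≤ 4 * n + 6 * n + (k + 2 * m) := by
        refine natDegree_mul_le_of_le (natDegree_mul_le_of_le
          ((natDegree_map_le).trans hS.dA) ((natDegree_map_le).trans hS.dB)) ?_
        have h10 : P1.natDegree = k := by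
          rw [hP1, natDegree_prod _ _ (fun i _ => hl0 i)]
          simp [hl]
        have h11 : P2.natDegree = 2 * m := by
          rw [hP2, natDegree_prod _ _ (fun i _ => hq0 i)]
          simp [hq, mul_comm]
        exact natDegree_mul_le_of_le h10.le h11.le
      omega
    · exfalso
      rw [derivative_neg, neg_eq_zero] at h3
      have := Polynomial.derivative_eq_zero.1 h3
      omega
  unfold rr dg
  have hk : (3 : ℝ) ≤ k := by exact_mod_cast hS.sys.three
  have hm : (0 : ℝ) ≤ m := Nat.cast_nonneg m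
  rw [div_lt_iff₀ (by linarith), hS.deg]
  have h12 : (2 * n + 1 : ℝ) ≤ k + 2 * m := by exact_mod_cast hkey
  push_cast
  linarith

end Pool.Agent.L0h46.TS.MAS
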