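import Mathlib
import Pool.Agent.L0h46.TS.Defs

/-!
# Project TS, part NR: one of the real linear factors is small if the forms are small
-/

set_option autoImplicit false

namespace Pool.Agent.L0h46.TS.NR

open Finset
open Pool.Agent.L0h46.TS
open Pool.Agent.L0h46.TQ (Nrm Lf htn Indep)

/-- a complex linear form -/
noncomputable def LC (l : ℂ × ℂ) (x : ℤ × ℤ) : ℂ := x.1 * l.2 - x.2 * l.1

theorem htn_abs1 (x : ℤ × ℤ) : ‖(x.1 : ℂ)‖ ≤ (htn x : ℝ) := by
  have : (x.1.natAbs : ℝ) ≤ (htn x : ℝ) := by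
    exact_mod_cast le_max_left _ _
  rwa [Nat.cast_natAbs, Int.cast_abs, ← Complex.norm_intCast] at this

theorem htn_abs2 (x : ℤ × ℤ) : ‖(x.2 : ℂ)‖ ≤ (htn x : ℝ) := by
  have : (x.2.natAbs : ℝ) ≤ (htn x : ℝ) := by
    exact_mod_cast le_max_right _ _
  rwa [Nat.cast_natAbs, Int.cast_abs, ← Complex.norm_intCast] at this

theorem htn_le (x : ℤ × ℤ) (M : ℝ) (h1 : ‖(x.1 : ℂ)‖ ≤ M) (h2 : ‖(x.2 : ℂ)‖ ≤ M) :
    (htn x : ℝ) ≤ M := by
  rw [Complex.norm_intCast] at h1 h2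
  unfold htn
  rw [Nat.cast_max, Nat.cast_natAbs, Nat.cast_natAbs, Int.cast_abs, Int.cast_abs]
  exact max_le h1 h2

/-- upper bound for the forms -/
theorem LC_le (l : ℂ × ℂ) (x : ℤ × ℤ) : ‖LC l x‖ ≤ (‖l.1‖ + ‖l.2‖) * (htn x : ℝ) := by
  unfold LC
  calc ‖(x.1 : ℂ) * l.2 - x.2 * l.1‖ ≤ ‖(x.1 : ℂ) * l.2‖ + ‖(x.2 : ℂ) * l.1‖ := norm_sub_le _ _
    _ = ‖(x.1 : ℂ)‖ * ‖l.2‖ + ‖(x.2 : ℂ)‖ * ‖l.1‖ := by rw [norm_mul, norm_mul]
    _ ≤ (htn x : ℝ) * ‖l.2‖ + (htn x : ℝ) * ‖l.1‖ := by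
        have h1 := htn_abs1 x
        have h2 := htn_abs2 x
        gcongr
    _ = _ := by ring

/-- two independent forms are not both small -/
theorem two (l l' : ℂ × ℂ) (h : l.1 * l'.2 ≠ l'.1 * l.2) : ∃ c : ℝ, 0 < c ∧ ∀ x : ℤ × ℤ,
    ‖LC l x‖ ≤ ‖LC l' x‖ → (htn x : ℝ) ≤ c * ‖LC l' x‖ := by
  set d : ℂ := l.1 * l'.2 - l'.1 * l.2 with hd
  have hd0 : d ≠ 0 := sub_ne_zero.2 h
  have hdn : 0 < ‖d‖ := norm_pos_iff.2 hd0
  refine ⟨(‖l.1‖ + ‖l.2‖ + ‖l'.1‖ + ‖l'.2‖ + 1) / ‖d‖, by positivity, ?_⟩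
  intro x hx
  have k1 : d * x.1 = l.1 * LC l' x - l'.1 * LC l x := by
    unfold LC; rw [hd]; ring
  have k2 : d * x.2 = l.2 * LC l' x - l'.2 * LC l x := by
    unfold LC; rw [hd]; ring
  have hn := norm_nonneg (LC l' x)
  apply htn_le
  · rw [div_mul_eq_mul_div, le_div_iff₀ hdn, mul_comm ‖(x.1 : ℂ)‖, ← norm_mul, k1]
    calc ‖l.1 * LC l' x - l'.1 * LC l x‖ ≤ ‖l.1 * LC l' x‖ + ‖l'.1 * LC l x‖ := norm_sub_le _ _
      _ = ‖l.1‖ * ‖LC l' x‖ + ‖l'.1‖ * ‖LC l x‖ := by rw [norm_mul, norm_mul]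
      _ ≤ ‖l.1‖ * ‖LC l' x‖ + ‖l'.1‖ * ‖LC l' x‖ := by gcongr
      _ ≤ _ := by
        have := norm_nonneg l.2
        have := norm_nonneg l'.2
        nlinarith
  · rw [div_mul_eq_mul_div, le_div_iff₀ hdn, mul_comm ‖(x.2 : ℂ)‖, ← norm_mul, k2]
    calc ‖l.2 * LC l' x - l'.2 * LC l x‖ ≤ ‖l.2 * LC l' x‖ + ‖l'.2 * LC l x‖ := norm_sub_le _ _
      _ = ‖l.2‖ * ‖LC l' x‖ + ‖l'.2‖ * ‖LC l x‖ := by rw [norm_mul, norm_mul]
      _ ≤ ‖l.2‖ * ‖LC l' x‖ + ‖l'.2‖ * ‖LC l' x‖ := by gcongr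
      _ ≤ _ := by
        have := norm_nonneg l.1
        have := norm_nonneg l'.1
        nlinarith

/-- the form which is least in absolute value -/
theorem gen {J : Type*} [Fintype J] [DecidableEq J] (l : J → ℂ × ℂ)
    (hl : ∀ i j, i ≠ j → (l i).1 * (l j).2 ≠ (l j).1 * (l i).2) (a : J → ℕ) (E : ℕ)
    (hE : ∀ j, a j ≤ E) (hE2 : E ≤ ∑ j, a j) : ∃ C : ℝ, 0 < C ∧ ∀ (x : ℤ × ℤ) (j0 : J),
    (∀ j, ‖LC (l j0) x‖ ≤ ‖LC (l j) x‖) →
    ‖LC (l j0) x‖ ^ E * (htn x : ℝ) ^ (∑ j, a j - E) ≤ C * ∏ j, ‖LC (l j) x‖ ^ a j := by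
  classical
  -- a common constant
  obtain ⟨c, hc1, hc⟩ : ∃ c : ℝ, 1 ≤ c ∧ ∀ i j, i ≠ j → ∀ x : ℤ × ℤ,
      ‖LC (l i) x‖ ≤ ‖LC (l j) x‖ → (htn x : ℝ) ≤ c * ‖LC (l j) x‖ := by
    have : ∀ p : J × J, ∃ c : ℝ, 0 < c ∧ (p.1 ≠ p.2 → ∀ x : ℤ × ℤ,
      ‖LC (l p.1) x‖ ≤ ‖LC (l p.2) x‖ → (htn x : ℝ) ≤ c * ‖LC (l p.2) x‖) := by
      intro p
      by_cases h : p.1 = p.2
      · exact ⟨1, one_pos, fun h' => absurd h h'⟩
      · obtain ⟨c, hc, hx⟩ := two _ _ (hl _ _ h)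
        exact ⟨c, hc, fun _ => hx⟩
    choose c hc0 hcx using this
    refine ⟨1 + ∑ p, c p, ?_, ?_⟩
    · have : 0 ≤ ∑ p, c p := Finset.sum_nonneg fun p _ => (hc0 p).le
      linarith
    · intro i j hij x hx
      have h1 := hcx (i, j) hij x hx
      have h2 : c (i, j) ≤ 1 + ∑ p, c p := by
        have := Finset.single_le_sum (f := c) (fun p _ => (hc0 p).le) (Finset.mem_univ (i, j))
        linarith
      exact h1.trans (mul_le_mul_of_nonneg_right h2 (norm_nonneg _))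
  obtain ⟨B, hB1, hB⟩ : ∃ B : ℝ, 1 ≤ B ∧ ∀ j, ∀ x : ℤ × ℤ, ‖LC (l j) x‖ ≤ B * (htn x : ℝ) := by
    refine ⟨1 + ∑ j, (‖(l j).1‖ + ‖(l j).2‖), ?_, ?_⟩
    · have : 0 ≤ ∑ j, (‖(l j).1‖ + ‖(l j).2‖) := Finset.sum_nonneg fun p _ => by positivity
      linarith
    · intro j x
      have h2 : (‖(l j).1‖ + ‖(l j).2‖) ≤ 1 + ∑ j, (‖(l j).1‖ + ‖(l j).2‖) := by
        have := Finset.single_le_sum (f := fun j => ‖(l j).1‖ + ‖(l j).2‖)
          (fun p _ => by positivity) (Finset.mem_univ j)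
        linarith
      exact (LC_le _ _).trans (mul_le_mul_of_nonneg_right h2 (Nat.cast_nonneg _))
  refine ⟨B ^ E * c ^ (∑ j, a j), by positivity, ?_⟩
  intro x j0 hmin
  set h : ℝ := (htn x : ℝ) with hh
  have hh0 : 0 ≤ h := Nat.cast_nonneg _
  set u : ℝ := ‖LC (l j0) x‖ with hu
  have hu0 : 0 ≤ u := norm_nonneg _
  -- the product
  have hprod : ∏ j, ‖LC (l j) x‖ ^ a j = u ^ a j0 * ∏ j ∈ univ.erase j0, ‖LC (l j) x‖ ^ a j := by
    rw [← Finset.mul_prod_erase univ _ (Finset.mem_univ j0)]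
  have hsum : ∑ j, a j = a j0 + ∑ j ∈ univ.erase j0, a j := by
    rw [← Finset.add_sum_erase univ _ (Finset.mem_univ j0)]
  have hlow : h ^ (∑ j ∈ univ.erase j0, a j) ≤
      c ^ (∑ j ∈ univ.erase j0, a j) * ∏ j ∈ univ.erase j0, ‖LC (l j) x‖ ^ a j := by
    rw [← Finset.prod_pow_eq_pow_sum, ← Finset.prod_pow_eq_pow_sum, ← Finset.prod_mul_distrib]
    apply Finset.prod_le_prod
    · intro j _; positivity
    · intro j hj
      rw [← mul_pow]
      apply pow_le_pow_left₀ hh0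
      exact hc j0 j (Finset.ne_of_mem_erase hj).symm x (hmin j)
  have hea := hE j0
  calc u ^ E * h ^ (∑ j, a j - E)
      = u ^ a j0 * u ^ (E - a j0) * h ^ (∑ j, a j - E) := by
        rw [← pow_add, Nat.add_sub_cancel' hea]
    _ ≤ u ^ a j0 * (B * h) ^ (E - a j0) * h ^ (∑ j, a j - E) := by
        have := hB j0 x
        gcongr
    _ = u ^ a j0 * B ^ (E - a j0) * h ^ (∑ j ∈ univ.erase j0, a j) := by
        rw [mul_pow]
        have : h ^ (∑ j ∈ univ.erase j0, a j) = h ^ (E - a j0) * h ^ (∑ j, a j - E) := by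
          rw [← pow_add]
          congr 1
          omega
        rw [this]
        ring
    _ ≤ u ^ a j0 * B ^ (E - a j0) *
        (c ^ (∑ j ∈ univ.erase j0, a j) * ∏ j ∈ univ.erase j0, ‖LC (l j) x‖ ^ a j) := by
        gcongr
    _ = B ^ (E - a j0) * c ^ (∑ j ∈ univ.erase j0, a j) * ∏ j, ‖LC (l j) x‖ ^ a j := by
        rw [hprod]; ring
    _ ≤ B ^ E * c ^ (∑ j, a j) * ∏ j, ‖LC (l j) x‖ ^ a j := by
        have h1 : B ^ (E - a j0) ≤ B ^ E := pow_le_pow_right₀ hB1 (Nat.sub_le _ _)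
        have h2 : c ^ (∑ j ∈ univ.erase j0, a j) ≤ c ^ (∑ j, a j) :=
          pow_le_pow_right₀ hc1 (by omega)
        have h3 : 0 ≤ ∏ j, ‖LC (l j) x‖ ^ a j := Finset.prod_nonneg fun j _ => by positivity
        gcongr

/-! ### Quadratic forms -/

theorem sq_of (D q t : ℤ) (hq : q ≠ 0) (h : D * q ^ 2 = t ^ 2) : IsSquare D := by
  have hdvd : q ^ 2 ∣ t ^ 2 := ⟨D, by rw [← h]; ring⟩
  rw [Int.pow_dvd_pow_iff (by norm_num)] at hdvd
  obtain ⟨s, rfl⟩ := hdvd
  refine ⟨s, ?_⟩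
  have : q ^ 2 * (D - s * s) = 0 := by linarith [h, mul_pow q s 2]
  rcases mul_eq_zero.1 this with h0 | h0
  · exact absurd (pow_eq_zero_iff (by norm_num) |>.1 h0) hq
  · linarith

theorem root_irr (g : ℤ × ℤ × ℤ) (hg : IrrQ g) (r : ℂ)
    (hr : (g.1 : ℂ) * r ^ 2 + g.2.1 * r + g.2.2 = 0) (p q : ℤ) (hq : q ≠ 0) :
    (q : ℂ) * r ≠ p := by
  intro h
  apply hg
  apply sq_of _ q (2 * g.1 * p + g.2.1 * q) hq
  have : (((g.2.1 ^ 2 - 4 * g.1 * g.2.2) * q ^ 2 : ℤ) : ℂ) =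
      (((2 * g.1 * p + g.2.1 * q) ^ 2 : ℤ) : ℂ) := by
    push_cast
    rw [← h]
    have e : (g.2.2 : ℂ) = - ((g.1 : ℂ) * r ^ 2 + g.2.1 * r) := by linear_combination hr
    rw [e]
    ring
  exact_mod_cast this

theorem g1_ne (g : ℤ × ℤ × ℤ) (hg : IrrQ g) : g.1 ≠ 0 := by
  intro h
  apply hg
  rw [h]
  exact ⟨g.2.1, by ring⟩

theorem roots (g : ℤ × ℤ × ℤ) (hg : IrrQ g) : ∃ r : Bool → ℂ, r false ≠ r true ∧
    (∀ b, (g.1 : ℂ) * r b ^ 2 + g.2.1 * r b + g.2.2 = 0) ∧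
    ∀ x : ℤ × ℤ, (Qg g x : ℂ) = g.1 * (LC (r false, 1) x * LC (r true, 1) x) := by
  have h1 : (g.1 : ℂ) ≠ 0 := by exact_mod_cast g1_ne g hg
  obtain ⟨d, hd⟩ := IsAlgClosed.exists_pow_nat_eq (((g.2.1 ^ 2 - 4 * g.1 * g.2.2 : ℤ) : ℂ))
    (n := 2) (by norm_num)
  have hd0 : d ≠ 0 := by
    intro h
    rw [h] at hd
    have : (g.2.1 ^ 2 - 4 * g.1 * g.2.2 : ℤ) = 0 := by
      have : (((g.2.1 ^ 2 - 4 * g.1 * g.2.2 : ℤ) : ℂ)) = 0 := by rw [← hd]; norm_num
      exact_mod_cast this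
    apply hg
    rw [this]
    exact ⟨0, by norm_num⟩
  push_cast at hd
  refine ⟨fun b => (-(g.2.1 : ℂ) + (if b then d else -d)) / (2 * g.1), ?_, ?_, ?_⟩
  · simp only [Bool.false_eq_true, if_false, if_true]
    intro h
    rw [div_left_inj' (by simpa using h1)] at h
    apply hd0
    linear_combination (-1 / 2) * h
  · intro b
    cases b
    · simp only [Bool.false_eq_true, if_false]
      field_simp
      linear_combination hd
    · simp only [if_true]
      field_simp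
      linear_combination hd
  · intro x
    simp only [Bool.false_eq_true, if_false, if_true]
    unfold LC Qg
    push_cast
    field_simp
    linear_combination ((x.2 : ℂ) ^ 2) * hd

/-- the exponents -/
def ex {k m : ℕ} (e : Fin k → ℕ) (f : Fin m → ℕ) : Fin k ⊕ (Fin m × Bool) → ℕ
  | Sum.inl i => e i
  | Sum.inr j => f j.1

theorem sum_ex {k m : ℕ} (e : Fin k → ℕ) (f : Fin m → ℕ) : ∑ j, ex e f j = wt e f := by
  rw [Fintype.sum_sum_type, Fintype.sum_prod_type]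
  unfold wt ex
  simp only [Fintype.sum_bool]
  rw [Finset.sum_add_distrib]
  ring

theorem abs_int_one (n : ℤ) (h : n ≠ 0) : (1 : ℝ) ≤ ‖(n : ℂ)‖ := by
  rw [Complex.norm_intCast]
  exact_mod_cast Int.one_le_abs h

theorem main : S_NR := by
  classical
  intro k m α γ e f hS
  have hr : ∀ j, ∃ r : Bool → ℂ, r false ≠ r true ∧
    (∀ b, ((γ j).1 : ℂ) * r b ^ 2 + (γ j).2.1 * r b + (γ j).2.2 = 0) ∧
    ∀ x : ℤ × ℤ, (Qg (γ j) x : ℂ) = (γ j).1 * (LC (r false, 1) x * LC (r true, 1) x) :=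
    fun j => roots _ (hS.irr j)
  choose r hr1 hr2 hr3 using hr
  let l : Fin k ⊕ (Fin m × Bool) → ℂ × ℂ := fun s =>
    Sum.elim (fun i => (((α i).1 : ℂ), ((α i).2 : ℂ))) (fun j => (r j.1 j.2, 1)) s
  -- no `α i` is zero
  have hk : 3 ≤ k := hS.three
  have hα : ∀ i, (α i).2 = 0 → (α i).1 ≠ 0 := by
    intro i h2 h1
    have : ∃ j : Fin k, i ≠ j := by
      by_contra hcon
      push Not at hcon
      have a1 := hcon ⟨0, by omega⟩
      have a2 := hcon ⟨1, by omega⟩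
      rw [a1] at a2
      simp at a2
    obtain ⟨j, hj⟩ := this
    apply hS.ind i j hj
    rw [h1, h2]; ring
  have hmix : ∀ i j b, ((α i).1 : ℂ) ≠ r j b * (α i).2 := by
    intro i j b h
    by_cases h2 : (α i).2 = 0
    · have h1 := hα i h2
      rw [h2] at h
      apply h1
      have : ((α i).1 : ℂ) = 0 := by rw [h]; simp
      exact_mod_cast this
    · apply root_irr _ (hS.irr j) (r j b) (hr2 j b) (α i).1 (α i).2 h2
      rw [h]; ring
  have hquad : ∀ j b j' b', (j, b) ≠ (j', b') → r j b ≠ r j' b' := by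
    intro j b j' b' hne h
    by_cases hj : j = j'
    · subst hj
      have hb : b ≠ b' := fun hb => hne (by rw [hb])
      cases b <;> cases b'
      · exact hb rfl
      · exact hr1 j h
      · exact hr1 j h.symm
      · exact hb rfl
    · have e1 := hr2 j b
      have e2 := hr2 j' b'
      rw [← h] at e2
      set g := γ j with hg
      set g' := γ j' with hg'
      set z := r j b with hz
      have e3 : ((g'.1 * g.2.1 - g.1 * g'.2.1 : ℤ) : ℂ) * z =
          ((g.1 * g'.2.2 - g'.1 * g.2.2 : ℤ) : ℂ) := by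
        push_cast
        linear_combination (g'.1 : ℂ) * e1 - (g.1 : ℂ) * e2
      by_cases hA : g'.1 * g.2.1 - g.1 * g'.2.1 = 0
      · rw [hA] at e3
        have hB : g.1 * g'.2.2 - g'.1 * g.2.2 = 0 := by
          have : ((g.1 * g'.2.2 - g'.1 * g.2.2 : ℤ) : ℂ) = 0 := by rw [← e3]; simp
          exact_mod_cast this
        rcases hS.npr j j' hj with h' | h'
        · apply h'
          rw [← hg, ← hg']
          linarith
        · apply h'
          rw [← hg, ← hg']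
          linarith
      · exact root_irr _ (hS.irr j) z (hr2 j b) _ _ hA e3
  have hl : ∀ i j, i ≠ j → (l i).1 * (l j).2 ≠ (l j).1 * (l i).2 := by
    rintro (i | ⟨j, b⟩) (i' | ⟨j', b'⟩) hne
    · have := hS.ind i i' (fun h => hne (by rw [h]))
      simp only [l, Sum.elim_inl]
      exact_mod_cast this
    · simp only [l, Sum.elim_inl, Sum.elim_inr, mul_one]
      exact hmix i j' b'
    · simp only [l, Sum.elim_inl, Sum.elim_inr, mul_one]
      exact fun h => hmix i' j b h.symm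
    · simp only [l, Sum.elim_inr, mul_one]
      exact hquad j b j' b' (fun h => hne (by rw [h]))
  -- the exponent
  have hne : (Finset.univ : Finset (Fin k ⊕ (Fin m × Bool))).Nonempty :=
    ⟨Sum.inl ⟨0, by omega⟩, Finset.mem_univ _⟩
  set E : ℕ := Finset.univ.sup' hne (ex e f) with hEdef
  have hE : ∀ j, ex e f j ≤ E := fun j => Finset.le_sup' _ (Finset.mem_univ j)
  have hE2 : E ≤ ∑ j, ex e f j := by
    apply Finset.sup'_le
    intro j _
    exact Finset.single_le_sum (f := ex e f) (fun _ _ => Nat.zero_le _) (Finset.mem_univ j)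
  have hE1 : 1 ≤ E := (hS.e1 ⟨0, by omega⟩).trans (hE (Sum.inl ⟨0, by omega⟩))
  obtain ⟨C1, hC1, hG1⟩ := gen l hl (fun _ => 1) 1 (fun _ => le_rfl) (by
    simp only [Finset.sum_const, Finset.card_univ, smul_eq_mul, mul_one]
    rw [Fintype.card_sum, Fintype.card_fin]; omega)
  obtain ⟨C2, hC2, hG2⟩ := gen l hl (ex e f) E hE hE2
  -- real forms
  have hreal : ∀ s, ∃ ρ : ℝ × ℝ, ρ ≠ 0 ∧ ∀ x : ℤ × ℤ, |LR ρ x| ≤ ‖LC (l s) x‖ := by
    intro s
    by_cases h : (((l s).1.re, (l s).2.re) : ℝ × ℝ) = 0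
    · refine ⟨((l s).1.im, (l s).2.im), ?_, ?_⟩
      · intro h'
        have h1 : (l s).1 = 0 := Complex.ext (by simpa using congrArg Prod.fst h)
          (by simpa using congrArg Prod.fst h')
        have h2 : (l s).2 = 0 := Complex.ext (by simpa using congrArg Prod.snd h)
          (by simpa using congrArg Prod.snd h')
        obtain ⟨s', hs'⟩ : ∃ s', s ≠ s' := by
          by_contra hcon
          push Not at hcon
          have a1 := hcon (Sum.inl ⟨0, by omega⟩)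
          have a2 := hcon (Sum.inl ⟨1, by omega⟩)
          rw [a1] at a2
          simp at a2
        apply hl s s' hs'
        rw [h1, h2]; ring
      · intro x
        refine le_trans (le_of_eq ?_) (Complex.abs_im_le_norm (LC (l s) x))
        congr 1
        unfold LR LC
        simp
    · refine ⟨_, h, ?_⟩
      intro x
      refine le_trans (le_of_eq ?_) (Complex.abs_re_le_norm (LC (l s) x))
      congr 1
      unfold LR LC
      simp
  choose ρ hρ0 hρ using hreal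
  have hfe : ∀ x : ℤ × ℤ, ∏ j, ‖LC (l j) x‖ ^ (ex e f j) ≤ (FE α γ e f x : ℝ) := by
    intro x
    rw [Fintype.prod_sum_type, Fintype.prod_prod_type]
    unfold FE
    push_cast
    apply mul_le_mul
    · apply le_of_eq
      apply Finset.prod_congr rfl
      intro i _
      simp only [l, Sum.elim_inl, ex]
      congr 1
      rw [Nat.cast_natAbs, Int.cast_abs, ← Complex.norm_intCast]
      congr 1
      unfold LC Lf
      push_cast
      rfl
    · apply Finset.prod_le_prod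
      · intro j _
        exact Finset.prod_nonneg fun b _ => by positivity
      · intro j _
        simp only [Fintype.prod_bool, l, Sum.elim_inr, ex]
        rw [← mul_pow]
        apply pow_le_pow_left₀ (by positivity)
        rw [Nat.cast_natAbs, Int.cast_abs, ← Complex.norm_intCast, hr3 j x, norm_mul, norm_mul]
        have h1 := abs_int_one _ (g1_ne _ (hS.irr j))
        have h2 : 0 ≤ ‖LC (r j true, 1) x‖ * ‖LC (r j false, 1) x‖ := by positivity
        nlinarith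
    · apply Finset.prod_nonneg; intro j _
      exact Finset.prod_nonneg fun b _ => by positivity
    · positivity
  have hfp : ∀ x : ℤ × ℤ, ∏ j, ‖LC (l j) x‖ ^ 1 ≤ |(FP α γ x : ℝ)| := by
    intro x
    have e1 := hfe x
    rw [Fintype.prod_sum_type, Fintype.prod_prod_type]
    unfold FP
    push_cast
    rw [abs_mul, Finset.abs_prod, Finset.abs_prod]
    apply mul_le_mul
    · apply le_of_eq
      apply Finset.prod_congr rfl
      intro i _
      simp only [l, Sum.elim_inl, pow_one]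
      rw [← Complex.norm_intCast]
      congr 1
      unfold LC Lf
      push_cast
      rfl
    · apply Finset.prod_le_prod
      · intro j _
        exact Finset.prod_nonneg fun b _ => by positivity
      · intro j _
        simp only [Fintype.prod_bool, l, Sum.elim_inr, pow_one]
        rw [← Complex.norm_intCast, hr3 j x, norm_mul, norm_mul]
        have h1 := abs_int_one _ (g1_ne _ (hS.irr j))
        have h2 : 0 ≤ ‖LC (r j true, 1) x‖ * ‖LC (r j false, 1) x‖ := by positivity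
        nlinarith
    · apply Finset.prod_nonneg; intro j _
      exact Finset.prod_nonneg fun b _ => by positivity
    · exact Finset.prod_nonneg fun b _ => by positivity
  let φ := Fintype.equivFin (Fin k ⊕ (Fin m × Bool))
  refine ⟨Fintype.card (Fin k ⊕ (Fin m × Bool)), fun s => ρ (φ.symm s), max C1 C2, E,
    lt_max_of_lt_left hC1, hE1, by rw [← sum_ex]; exact hE2, fun s => hρ0 _, ?_⟩
  intro x
  obtain ⟨j0, -, hj0⟩ := Finset.exists_min_image Finset.univ (fun j => ‖LC (l j) x‖) hne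
  have hmin : ∀ j, ‖LC (l j0) x‖ ≤ ‖LC (l j) x‖ := fun j => hj0 j (Finset.mem_univ j)
  refine ⟨φ j0, ?_, ?_⟩
  · have h1 := hG1 x j0 hmin
    have hcard : ∑ _j : Fin k ⊕ (Fin m × Bool), 1 = k + 2 * m := by
      simp only [Finset.sum_const, Finset.card_univ, smul_eq_mul, mul_one]
      rw [Fintype.card_sum, Fintype.card_fin, Fintype.card_prod, Fintype.card_fin,
        Fintype.card_bool]
      ring
    rw [hcard, pow_one] at h1
    simp only [Equiv.symm_apply_apply]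
    calc |LR (ρ j0) x| * (htn x : ℝ) ^ (k + 2 * m - 1)
        ≤ ‖LC (l j0) x‖ * (htn x : ℝ) ^ (k + 2 * m - 1) := by
          have := hρ j0 x
          gcongr
      _ ≤ C1 * ∏ j, ‖LC (l j) x‖ ^ 1 := h1
      _ ≤ max C1 C2 * |(FP α γ x : ℝ)| := by
          have h3 : 0 ≤ ∏ j, ‖LC (l j) x‖ ^ 1 := Finset.prod_nonneg fun j _ => by positivity
          exact mul_le_mul (le_max_left _ _) (hfp x) h3 (hC1.le.trans (le_max_left _ _))
  · have h1 := hG2 x j0 hmin
    rw [sum_ex] at h1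
    simp only [Equiv.symm_apply_apply]
    calc |LR (ρ j0) x| ^ E * (htn x : ℝ) ^ (wt e f - E)
        ≤ ‖LC (l j0) x‖ ^ E * (htn x : ℝ) ^ (wt e f - E) := by
          have := hρ j0 x
          gcongr
      _ ≤ C2 * ∏ j, ‖LC (l j) x‖ ^ (ex e f j) := h1
      _ ≤ max C1 C2 * (FE α γ e f x : ℝ) := by
          have h3 : 0 ≤ ∏ j, ‖LC (l j) x‖ ^ (ex e f j) :=
            Finset.prod_nonneg fun j _ => by positivity
          exact mul_le_mul (le_max_right _ _) (hfe x) h3 (hC1.le.trans (le_max_left _ _))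

end Pool.Agent.L0h46.TS.NR
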