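import Pool.Agent.L0h46.TS.COL

/-!
# Project TS, module POW: the points with a large powerful part
-/

set_option autoImplicit false

namespace Pool.Agent.L0h46.TS.POW

open Finset
open Pool.Agent.L0h46.TS
open Pool.Agent.L0h46.TQ (Lf Indep htn)

/-! ### Powerful numbers -/

/-- the radical of a natural number -/
def rd (n : ℕ) : ℕ := ∏ p ∈ n.primeFactors, p

theorem exc_eq (z : ℤ) : exc z = z.natAbs / rd z.natAbs := rfl

theorem rd_pos (n : ℕ) : 0 < rd n :=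
  Finset.prod_pos fun _ hp => (Nat.prime_of_mem_primeFactors hp).pos

theorem rd_dvd (n : ℕ) : rd n ∣ n := Nat.prod_primeFactors_dvd n

theorem rd_mul {a b : ℕ} (h : a.Coprime b) : rd (a * b) = rd a * rd b := by
  unfold rd
  rw [h.primeFactors_mul, Finset.prod_union h.disjoint_primeFactors]

theorem split_powerful (n : ℕ) (hn : 0 < n) :
    ∃ Q s : ℕ, n = Q * s ∧ Q.Coprime s ∧ Squarefree s ∧ Pwf Q := by
  induction n using Nat.recOnPosPrimePosCoprime with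
  | zero => omega
  | one => exact ⟨1, 1, rfl, Nat.coprime_one_left 1, squarefree_one, one_pos,
      fun p hp h => absurd (Nat.dvd_one.1 h) hp.one_lt.ne'⟩
  | prime_pow p k hp hk =>
    rcases Nat.lt_or_ge k 2 with h | h
    · have : k = 1 := by omega
      subst this
      refine ⟨1, p, by simp, Nat.coprime_one_left p, ?_, one_pos,
        fun p hp h => absurd (Nat.dvd_one.1 h) hp.one_lt.ne'⟩
      exact hp.squarefree
    · refine ⟨p ^ k, 1, by simp, Nat.coprime_one_right _, squarefree_one, pow_pos hp.pos k, ?_⟩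
      intro q hq hqd
      have h1 := (Nat.prime_dvd_prime_iff_eq hq hp).1 (hq.dvd_of_dvd_pow hqd)
      rw [h1]
      exact pow_dvd_pow p h
  | coprime a b ha hb hab iha ihb =>
    obtain ⟨Q, s, e1, c1, s1, p1⟩ := iha (by omega)
    obtain ⟨Q', s', e2, c2, s2, p2⟩ := ihb (by omega)
    rw [e1, e2] at hab
    have hQs' : Q.Coprime s' := (hab.coprime_mul_right).coprime_mul_left_right
    have hQ's : s.Coprime Q' := (hab.coprime_mul_left).coprime_mul_right_right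
    have hss' : s.Coprime s' := (hab.coprime_mul_left).coprime_mul_left_right
    refine ⟨Q * Q', s * s', by rw [e1, e2]; ring, ?_, ?_, Nat.mul_pos p1.1 p2.1, ?_⟩
    · exact Nat.Coprime.mul_left (c1.mul_right hQs') (hQ's.symm.mul_right c2)
    · exact (Nat.squarefree_mul hss').2 ⟨s1, s2⟩
    · intro p hp hd
      rcases (hp.dvd_mul).1 hd with h | h
      · exact (p1.2 p hp h).mul_right _
      · exact (p2.2 p hp h).mul_left _

theorem rd_sq_dvd {q : ℕ} (hq : Pwf q) : rd q ^ 2 ∣ q := by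
  unfold rd
  rw [← Finset.prod_pow]
  refine Finset.prod_dvd_of_isRelPrime ?_ ?_
  · intro p hp r hr hpr
    have hp' := Nat.prime_of_mem_primeFactors (Finset.mem_coe.1 hp)
    have hr' := Nat.prime_of_mem_primeFactors (Finset.mem_coe.1 hr)
    exact Nat.coprime_iff_isRelPrime.1 (Nat.Coprime.pow 2 2 ((Nat.coprime_primes hp' hr').2 hpr))
  · intro p hp
    exact hq.2 p (Nat.prime_of_mem_primeFactors hp) (Nat.dvd_of_mem_primeFactors hp)

theorem le_exc_sq {q : ℕ} (hq : Pwf q) : q ≤ (q / rd q) ^ 2 := by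
  have h1 : q / rd q * rd q = q := Nat.div_mul_cancel (rd_dvd q)
  have h2 : rd q ^ 2 ≤ q := Nat.le_of_dvd hq.1 (rd_sq_dvd hq)
  have h3 : q * rd q ^ 2 ≤ (q / rd q) ^ 2 * rd q ^ 2 := by
    calc q * rd q ^ 2 ≤ q * q := Nat.mul_le_mul_left q h2
      _ = (q / rd q * rd q) * (q / rd q * rd q) := by rw [h1]
      _ = _ := by ring
  exact Nat.le_of_mul_le_mul_right h3 (pow_pos (rd_pos q) 2)

theorem exc_split {n Q s : ℕ} (hn : n = Q * s) (hc : Q.Coprime s) (hs : Squarefree s) : n / rd n = Q / rd Q := by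
  have hs0 : 0 < s := Nat.pos_of_ne_zero hs.ne_zero
  have h1 : rd s = s := Nat.prod_primeFactors_of_squarefree hs
  rw [hn, rd_mul hc, h1]
  exact Nat.mul_div_mul_right _ _ hs0

/-- powerful divisors of moderate size -/
theorem exists_moderate {y : ℝ} (hy0 : 1 ≤ y) (Q : ℕ) (hQ : Pwf Q)
    (hp : ∀ p : ℕ, p.Prime → p ∣ Q → (p : ℝ) ^ 2 ≤ y) (hQy : y < Q) :
    ∃ q : ℕ, Pwf q ∧ q ∣ Q ∧ y < q ∧ (q : ℝ) ≤ y ^ 2 := by
  have hy : 0 ≤ y := by linarith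
  induction Q using Nat.strong_induction_on with
  | _ Q ih =>
    rcases le_or_gt (Q : ℝ) (y ^ 2) with h | h
    · exact ⟨Q, hQ, dvd_rfl, hQy, h⟩
    have hQ1 : Q ≠ 1 := by
      rintro rfl
      push_cast at hQy
      linarith
    obtain ⟨p, hpp, hpQ⟩ := Nat.exists_prime_and_dvd hQ1
    have hpy := hp p hpp hpQ
    have hp1 : (1 : ℝ) < p := by exact_mod_cast hpp.one_lt
    have hy1 : 0 < y := by nlinarith
    by_cases h3 : p ^ 3 ∣ Q
    · obtain ⟨R, hR⟩ := hpQ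
      have hR0 : 0 < R := by
        rcases Nat.eq_zero_or_pos R with h0 | h0
        · rw [h0, mul_zero] at hR
          have := hQ.1
          omega
        · exact h0
      have hp2R : p ^ 2 ∣ R := by
        rw [hR, pow_succ, mul_comm (p ^ 2) p] at h3
        exact Nat.dvd_of_mul_dvd_mul_left hpp.pos h3
      have hRQ : R < Q := by
        rw [hR]
        nlinarith [hpp.two_le]
      have hRP : Pwf R := by
        refine ⟨hR0, ?_⟩
        intro r hr hrR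
        by_cases hrp : r = p
        · rw [hrp]
          exact hp2R
        · have h4 := hQ.2 r hr (by rw [hR]; exact hrR.mul_left _)
          rw [hR] at h4
          exact (Nat.Coprime.pow_left 2 ((Nat.coprime_primes hr hpp).2 hrp)).dvd_of_dvd_mul_left h4
      have hQR : (Q : ℝ) = p * R := by exact_mod_cast hR
      have hyR : y < R := by
        by_contra hcon
        push Not at hcon
        have h5 : (p : ℝ) ≤ y := by nlinarith
        have : (Q : ℝ) ≤ y * y := by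
          rw [hQR]
          exact mul_le_mul h5 hcon (by positivity) hy
        nlinarith
      obtain ⟨q, h6, h7, h8, h9⟩ := ih R hRQ hRP
        (fun r hr hrR => hp r hr (by rw [hR]; exact hrR.mul_left _)) hyR
      exact ⟨q, h6, by rw [hR]; exact h7.mul_left _, h8, h9⟩
    · obtain ⟨R, hR⟩ := hQ.2 p hpp hpQ
      have hR0 : 0 < R := by
        rcases Nat.eq_zero_or_pos R with h0 | h0
        · rw [h0, mul_zero] at hR
          have := hQ.1
          omega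
        · exact h0
      have hpR : ¬ p ∣ R := by
        rintro ⟨S, hS⟩
        exact h3 ⟨S, by rw [hR, hS]; ring⟩
      have hRQ : R < Q := by
        rw [hR]
        exact lt_mul_left hR0 (Nat.one_lt_pow two_ne_zero hpp.one_lt)
      have hRP : Pwf R := by
        refine ⟨hR0, ?_⟩
        intro r hr hrR
        have hrp : r ≠ p := by
          rintro rfl
          exact hpR hrR
        have h4 := hQ.2 r hr (by rw [hR]; exact hrR.mul_left _)
        rw [hR] at h4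
        exact (Nat.Coprime.pow 2 2 ((Nat.coprime_primes hr hpp).2 hrp)).dvd_of_dvd_mul_left h4
      have hQR : (Q : ℝ) = (p : ℝ) ^ 2 * R := by exact_mod_cast hR
      have hyR : y < R := by
        by_contra hcon
        push Not at hcon
        have : (Q : ℝ) ≤ y * y := by
          rw [hQR]
          exact mul_le_mul hpy hcon (by positivity) hy
        nlinarith
      obtain ⟨q, h6, h7, h8, h9⟩ := ih R hRQ hRP
        (fun r hr hrR => hp r hr (by rw [hR]; exact hrR.mul_left _)) hyR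
      exact ⟨q, h6, by rw [hR]; exact h7.mul_left _, h8, h9⟩

/-- the three cases -/
theorem three_cases {n : ℕ} (hn : 0 < n) {H T : ℝ} (hH : 1 ≤ H) (hT : T ≤ (n / rd n : ℕ)) :
    (∃ q : ℕ, Pwf q ∧ (q : ℝ) ≤ H ∧ T ≤ (q / rd q : ℕ) ∧ q ∣ n) ∨
    (∃ q : ℕ, Pwf q ∧ (q : ℝ) ≤ H ∧ H ^ ((1 : ℝ) / 4) ≤ (q / rd q : ℕ) ∧ q ∣ n) ∨
    ∃ p : ℕ, p.Prime ∧ H ^ ((1 : ℝ) / 4) < p ∧ p ^ 2 ∣ n := by
  obtain ⟨Q, s, h1, h2, h3, h4⟩ := split_powerful n hn
  have h5 := exc_split h1 h2 h3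
  have hQn : Q ∣ n := ⟨s, h1⟩
  have hH0 : (0 : ℝ) ≤ H := by linarith
  by_cases hQH : (Q : ℝ) ≤ H
  · left
    exact ⟨Q, h4, hQH, by rw [← h5]; exact hT, hQn⟩
  push Not at hQH
  right
  by_cases hbig : ∃ p : ℕ, p.Prime ∧ H ^ ((1 : ℝ) / 4) < p ∧ p ∣ Q
  · right
    obtain ⟨p, hp, hp1, hp2⟩ := hbig
    exact ⟨p, hp, hp1, (h4.2 p hp hp2).trans hQn⟩
  · left
    push Not at hbig
    have e1 : (H ^ ((1 : ℝ) / 4)) ^ 2 = H ^ ((1 : ℝ) / 2) := by
      rw [← Real.rpow_natCast, ← Real.rpow_mul hH0]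
      norm_num
    have e2 : (H ^ ((1 : ℝ) / 2)) ^ 2 = H := by
      rw [← Real.rpow_natCast, ← Real.rpow_mul hH0]
      norm_num
    have hy1 : H ^ ((1 : ℝ) / 2) ≤ H := by
      nth_rewrite 2 [← Real.rpow_one H]
      exact Real.rpow_le_rpow_of_exponent_le hH (by norm_num)
    obtain ⟨q, g1, g2, g3, g4⟩ := exists_moderate (y := H ^ ((1 : ℝ) / 2))
      (Real.one_le_rpow hH (by norm_num)) Q h4 (fun p hp hpQ => by
        rw [← e1]
        by_contra hcon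
        push Not at hcon
        have h6 : H ^ ((1 : ℝ) / 4) < p :=
          lt_of_pow_lt_pow_left₀ 2 (Nat.cast_nonneg p) hcon
        exact hbig p hp h6 hpQ) (lt_of_le_of_lt hy1 hQH)
    rw [e2] at g4
    refine ⟨q, g1, g4, ?_, g2.trans hQn⟩
    have h7 : (q : ℝ) ≤ ((q / rd q : ℕ) : ℝ) ^ 2 := by exact_mod_cast le_exc_sq g1
    have h8 : (H ^ ((1 : ℝ) / 4)) ^ 2 ≤ ((q / rd q : ℕ) : ℝ) ^ 2 := by
      rw [e1]
      linarith
    exact (pow_le_pow_iff_left₀ (Real.rpow_nonneg hH0 _) (Nat.cast_nonneg _) two_ne_zero).1 h8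

/-! ### All points of bounded height -/

theorem htn_pos {x : ℤ × ℤ} (hx : IsCoprime x.1 x.2) : 1 ≤ htn x := by
  unfold htn
  by_contra h
  have h1 : x.1 = 0 := by omega
  have h2 : x.2 = 0 := by omega
  rw [h1, h2] at hx
  exact not_isCoprime_zero_zero hx

/-- dyadic summation -/
theorem cnt_all (hC : S_CNT) {k m : ℕ} {α : Fin k → ℤ × ℤ} {γ : Fin m → ℤ × ℤ × ℤ}
    {e : Fin k → ℕ} {f : Fin m → ℕ} (hS : Sys α γ e f) : ∃ C : ℝ, 0 < C ∧ ∀ H : ℝ, 1 ≤ H →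
      ∀ q : ℕ, 0 < q → ∀ E : Finset (ℤ × ℤ), (∀ x ∈ E, IsCoprime x.1 x.2 ∧ (htn x : ℝ) ≤ H ∧
        (q : ℤ) ∣ FP α γ x) →
      (E.card : ℝ) ≤ C * (q : ℝ) ^ ((1 : ℝ) / 20) * (H ^ ((1 : ℝ) / 20) + H ^ 2 / q) := by
  obtain ⟨C, hC0, hC⟩ := hC k m α γ e f hS (1, 0) (by simp)
  refine ⟨81 * C, by positivity, ?_⟩
  intro H hH q hq E hE
  have hH0 : (0 : ℝ) < H := by linarith
  have hq0 : (0 : ℝ) < q := by exact_mod_cast hq
  set N : ℕ := ⌊H⌋₊ with hN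
  have hN1 : 1 ≤ N := Nat.le_floor (by simpa using hH)
  have hNH : (N : ℝ) ≤ H := Nat.floor_le hH0.le
  set J : ℕ := Nat.clog 2 N with hJ
  have hJ1 : (2 : ℝ) ^ J ≤ 2 * H := by
    rcases Nat.lt_or_ge 1 N with h | h
    · have h1 := Nat.pow_pred_clog_lt_self (b := 2) (by norm_num) h
      have hJpos : 0 < J := Nat.clog_pos (by norm_num) h
      have h2 : (2 : ℕ) ^ J = 2 * 2 ^ (J - 1) := by
        rw [← pow_succ']
        congr 1
        omega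
      have h3 : 2 ^ J ≤ 2 * N := by
        rw [h2]
        exact Nat.mul_le_mul_left 2 h1.le
      have h4 : (2 : ℝ) ^ J ≤ 2 * N := by exact_mod_cast h3
      linarith
    · have : N = 1 := by omega
      have hJ0 : J = 0 := by rw [hJ, this]; simp
      rw [hJ0]
      simp
      linarith
  have hH1 : 1 ≤ H ^ ((1 : ℝ) / 20) := Real.one_le_rpow hH (by norm_num)
  have hJ2 : (J : ℝ) + 1 ≤ 81 * H ^ ((1 : ℝ) / 20) := by
    have h1 : (J : ℝ) * Real.log 2 ≤ Real.log (2 * H) := by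
      rw [← Real.log_pow]
      exact Real.log_le_log (by positivity) hJ1
    have h2 := Real.log_le_rpow_div (x := 2 * H) (by positivity) (ε := 1 / 20) (by norm_num)
    have h3 : (2 * H) ^ ((1 : ℝ) / 20) ≤ 2 * H ^ ((1 : ℝ) / 20) := by
      rw [Real.mul_rpow (by norm_num) hH0.le]
      refine mul_le_mul_of_nonneg_right ?_ (by positivity)
      nth_rewrite 2 [← Real.rpow_one 2]
      exact Real.rpow_le_rpow_of_exponent_le (by norm_num) (by norm_num)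
    have h4 := Real.log_two_gt_d9
    have h5 : (J : ℝ) * (1 / 2) ≤ (J : ℝ) * Real.log 2 :=
      mul_le_mul_of_nonneg_left (by linarith) (Nat.cast_nonneg J)
    have h6 : (2 * H) ^ ((1 : ℝ) / 20) / (1 / 20) = 20 * (2 * H) ^ ((1 : ℝ) / 20) := by ring
    rw [h6] at h2
    linarith
  have hsub : E ⊆ (Finset.range (J + 1)).biUnion fun j => E.filter fun x =>
      Nat.clog 2 (htn x) = j := by
    intro x hx
    obtain ⟨-, h2, -⟩ := hE x hx
    have h3 : htn x ≤ N := Nat.le_floor h2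
    refine Finset.mem_biUnion.2 ⟨Nat.clog 2 (htn x), ?_, Finset.mem_filter.2 ⟨hx, rfl⟩⟩
    exact Finset.mem_range.2 (Nat.lt_succ_of_le (Nat.clog_mono_right 2 h3))
  have h1 : (E.card : ℝ) ≤ ∑ j ∈ Finset.range (J + 1),
      ((E.filter fun x => Nat.clog 2 (htn x) = j).card : ℝ) := by
    have := (Finset.card_le_card hsub).trans Finset.card_biUnion_le
    exact_mod_cast this
  have h2 : ∀ j ∈ Finset.range (J + 1), ((E.filter fun x => Nat.clog 2 (htn x) = j).card : ℝ) ≤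
      C * (q : ℝ) ^ ((1 : ℝ) / 20) * (1 + (4 : ℝ) ^ j / (2 * q)) := by
    intro j _
    have h3 := hC ((2 : ℝ) ^ j / 2) 2 (by
      have : (1 : ℝ) ≤ 2 ^ j := one_le_pow₀ (by norm_num)
      linarith) (by norm_num) q hq (E.filter fun x => Nat.clog 2 (htn x) = j) (by
      intro x hx
      obtain ⟨hxE, hxj⟩ := Finset.mem_filter.1 hx
      obtain ⟨g1, g2, g3⟩ := hE x hxE
      have g4 := htn_pos g1
      have g5 : (htn x : ℝ) ≤ 2 ^ j := by
        have := Nat.le_pow_clog (b := 2) (by norm_num) (htn x)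
        rw [hxj] at this
        exact_mod_cast this
      refine ⟨g1, ?_, by linarith, ?_, g3⟩
      · rcases Nat.lt_or_ge 1 (htn x) with h | h
        · have h1 := Nat.pow_pred_clog_lt_self (b := 2) (by norm_num) h
          rw [hxj] at h1
          have hjpos : 0 < j := by
            rw [← hxj]
            exact Nat.clog_pos (by norm_num) h
          have h2 : (2 : ℝ) ^ j = 2 * 2 ^ (j - 1) := by
            rw [← pow_succ']
            congr 1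
            omega
          have h3 : (2 : ℝ) ^ (j - 1) < htn x := by exact_mod_cast h1
          rw [h2]
          linarith
        · have h1 : htn x = 1 := by omega
          have hj0 : j = 0 := by rw [← hxj, h1]; simp
          rw [hj0, h1]
          norm_num
      · have h1 : |LR (1, 0) x| = |(x.2 : ℝ)| := by
          unfold LR
          simp
        rw [h1]
        have h2 : |(x.2 : ℝ)| ≤ htn x := by
          have h4 : x.2.natAbs ≤ htn x := le_max_right _ _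
          have h5 : ((x.2.natAbs : ℕ) : ℝ) ≤ htn x := by exact_mod_cast h4
          rwa [Nat.cast_natAbs, Int.cast_abs] at h5
        linarith)
    refine h3.trans (le_of_eq ?_)
    have h4 : (4 : ℝ) ^ j = (2 ^ j) ^ 2 := by
      rw [← pow_mul, mul_comm, pow_mul]
      norm_num
    rw [h4]
    field_simp
  have h3 : (∑ j ∈ Finset.range (J + 1), (4 : ℝ) ^ j) ≤ 16 * H ^ 2 := by
    have h4 : (∑ j ∈ Finset.range (J + 1), (4 : ℝ) ^ j) ≤ 4 ^ (J + 1) := by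
      rw [geom_sum_eq (by norm_num)]
      have : (0 : ℝ) ≤ 4 ^ (J + 1) := by positivity
      linarith
    have h5 : (4 : ℝ) ^ (J + 1) = 4 * (2 ^ J) ^ 2 := by
      rw [pow_succ, ← pow_mul, mul_comm J 2, pow_mul]
      norm_num
      ring
    have h6 : ((2 : ℝ) ^ J) ^ 2 ≤ (2 * H) ^ 2 := pow_le_pow_left₀ (by positivity) hJ1 2
    rw [h5] at h4
    nlinarith
  have hA : 0 ≤ C * (q : ℝ) ^ ((1 : ℝ) / 20) := by positivity
  calc (E.card : ℝ) ≤ ∑ j ∈ Finset.range (J + 1),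
        (C * (q : ℝ) ^ ((1 : ℝ) / 20) * (1 + (4 : ℝ) ^ j / (2 * q))) :=
        h1.trans (Finset.sum_le_sum h2)
    _ = C * (q : ℝ) ^ ((1 : ℝ) / 20) * ((J : ℝ) + 1 +
          (∑ j ∈ Finset.range (J + 1), (4 : ℝ) ^ j) / (2 * q)) := by
        rw [← Finset.mul_sum, Finset.sum_add_distrib, Finset.sum_div]
        simp
    _ ≤ C * (q : ℝ) ^ ((1 : ℝ) / 20) * (81 * H ^ ((1 : ℝ) / 20) + 81 * (H ^ 2 / q)) := by
        refine mul_le_mul_of_nonneg_left ?_ hA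
        have h7 : (∑ j ∈ Finset.range (J + 1), (4 : ℝ) ^ j) / (2 * q) ≤ 16 * H ^ 2 / (2 * q) :=
          div_le_div_of_nonneg_right h3 (by positivity)
        have h8 : 16 * H ^ 2 / (2 * (q : ℝ)) = 8 * (H ^ 2 / q) := by
          field_simp
          norm_num
        have h9 : 0 ≤ H ^ 2 / (q : ℝ) := by positivity
        linarith
    _ = _ := by ring

/-- the union bound -/
theorem union_bound (hC : S_CNT) {k m : ℕ} {α : Fin k → ℤ × ℤ} {γ : Fin m → ℤ × ℤ × ℤ}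
    {e : Fin k → ℕ} {f : Fin m → ℕ} (hS : Sys α γ e f) : ∃ C : ℝ, 0 < C ∧ ∀ H : ℝ, 1 ≤ H →
      ∀ E : Finset (ℤ × ℤ), ∀ Qs : Finset ℕ, (∀ q ∈ Qs, 0 < q) →
      (∀ x ∈ E, IsCoprime x.1 x.2 ∧ (htn x : ℝ) ≤ H ∧ ∃ q ∈ Qs, (q : ℤ) ∣ FP α γ x) →
      (E.card : ℝ) ≤ C * (H ^ ((1 : ℝ) / 20) * (∑ q ∈ Qs, (q : ℝ) ^ ((1 : ℝ) / 20)) +
        H ^ 2 * ∑ q ∈ Qs, (q : ℝ) ^ (-(19 / 20) : ℝ)) := by
  classical
  obtain ⟨C, hC0, hC⟩ := cnt_all hC hS
  refine ⟨C, hC0, ?_⟩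
  intro H hH E Qs hQs hE
  have hsub : E ⊆ Qs.biUnion fun q => E.filter fun x => (q : ℤ) ∣ FP α γ x := by
    intro x hx
    obtain ⟨-, -, q, hq, hqx⟩ := hE x hx
    exact Finset.mem_biUnion.2 ⟨q, hq, Finset.mem_filter.2 ⟨hx, hqx⟩⟩
  have h1 : (E.card : ℝ) ≤ ∑ q ∈ Qs, ((E.filter fun x => (q : ℤ) ∣ FP α γ x).card : ℝ) := by
    have := (Finset.card_le_card hsub).trans Finset.card_biUnion_le
    exact_mod_cast this
  have h2 : ∀ q ∈ Qs, ((E.filter fun x => (q : ℤ) ∣ FP α γ x).card : ℝ) ≤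
      C * (H ^ ((1 : ℝ) / 20) * (q : ℝ) ^ ((1 : ℝ) / 20) +
        H ^ 2 * (q : ℝ) ^ (-(19 / 20) : ℝ)) := by
    intro q hq
    have hq0 : (0 : ℝ) < q := by exact_mod_cast hQs q hq
    refine (hC H hH q (hQs q hq) _ ?_).trans (le_of_eq ?_)
    · intro x hx
      obtain ⟨hxE, hxq⟩ := Finset.mem_filter.1 hx
      exact ⟨(hE x hxE).1, (hE x hxE).2.1, hxq⟩
    · have e1 : (q : ℝ) ^ (-(19 / 20) : ℝ) = (q : ℝ) ^ ((1 : ℝ) / 20) / q := by
        rw [← Real.rpow_sub_one hq0.ne']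
        norm_num
      rw [e1]
      ring
  refine (h1.trans (Finset.sum_le_sum h2)).trans (le_of_eq ?_)
  rw [← Finset.mul_sum, Finset.sum_add_distrib, ← Finset.mul_sum, ← Finset.mul_sum]

/-- the points with a large powerful divisor `q ≤ H` -/
theorem powerful_bound (hC : S_CNT) (hQ : S_SMQ) {k m : ℕ} {α : Fin k → ℤ × ℤ}
    {γ : Fin m → ℤ × ℤ × ℤ} {e : Fin k → ℕ} {f : Fin m → ℕ} (hS : Sys α γ e f) :
    ∃ C : ℝ, 0 < C ∧ ∀ H T : ℝ, 1 ≤ H → 1 ≤ T → ∀ E : Finset (ℤ × ℤ),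
      (∀ x ∈ E, IsCoprime x.1 x.2 ∧ (htn x : ℝ) ≤ H ∧ ∃ q : ℕ, Pwf q ∧ (q : ℝ) ≤ H ∧
        T ≤ (q / rd q : ℕ) ∧ (q : ℤ) ∣ FP α γ x) →
      (E.card : ℝ) ≤ C * (H ^ 2 * T ^ (-(4 / 5) : ℝ) + H ^ ((9 : ℝ) / 5)) := by
  classical
  obtain ⟨C1, hC1, hU⟩ := union_bound hC hS
  obtain ⟨C2, hC2, hQ1, hQ2⟩ := hQ
  refine ⟨C1 * C2, by positivity, ?_⟩
  intro H T hH hT E hE
  have hH0 : (0 : ℝ) < H := by linarith
  set Qs : Finset ℕ := (Finset.Icc 1 ⌊H⌋₊).filter fun q => Pwf q ∧ T ≤ (q / rd q : ℕ) with hQs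
  have hQs' : ∀ q ∈ Qs, Pwf q ∧ T ≤ (q / rd q : ℕ) ∧ (q : ℝ) ≤ H := by
    intro q hq
    obtain ⟨h1, h2, h3⟩ := Finset.mem_filter.1 hq
    exact ⟨h2, h3, (Nat.le_floor_iff hH0.le).1 (Finset.mem_Icc.1 h1).2⟩
  have h1 := hU H hH E Qs (fun q hq => (hQs' q hq).1.1) (by
    intro x hx
    obtain ⟨g1, g2, q, g3, g4, g5, g6⟩ := hE x hx
    refine ⟨g1, g2, q, Finset.mem_filter.2 ⟨Finset.mem_Icc.2 ⟨g3.1, Nat.le_floor g4⟩, g3, g5⟩, g6⟩)
  have h2 : ∑ q ∈ Qs, (q : ℝ) ^ (-(19 / 20) : ℝ) ≤ C2 * T ^ (-(4 / 5) : ℝ) :=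
    hQ1 T hT Qs fun q hq => ⟨(hQs' q hq).1, (hQs' q hq).2.1⟩
  have h3 : (Qs.card : ℝ) ≤ C2 * H ^ ((1 : ℝ) / 2) :=
    hQ2 H hH Qs fun q hq => ⟨(hQs' q hq).1, (hQs' q hq).2.2⟩
  have h4 : ∑ q ∈ Qs, (q : ℝ) ^ ((1 : ℝ) / 20) ≤ C2 * H ^ ((1 : ℝ) / 2) * H ^ ((1 : ℝ) / 20) := by
    calc ∑ q ∈ Qs, (q : ℝ) ^ ((1 : ℝ) / 20) ≤ ∑ _q ∈ Qs, H ^ ((1 : ℝ) / 20) :=
          Finset.sum_le_sum fun q hq => Real.rpow_le_rpow (Nat.cast_nonneg q) (hQs' q hq).2.2
            (by norm_num)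
      _ = (Qs.card : ℝ) * H ^ ((1 : ℝ) / 20) := by rw [Finset.sum_const, nsmul_eq_mul]
      _ ≤ _ := mul_le_mul_of_nonneg_right h3 (by positivity)
  have h5 : H ^ ((1 : ℝ) / 20) * (H ^ ((1 : ℝ) / 2) * H ^ ((1 : ℝ) / 20)) ≤ H ^ ((9 : ℝ) / 5) := by
    rw [← Real.rpow_add hH0, ← Real.rpow_add hH0]
    exact Real.rpow_le_rpow_of_exponent_le hH (by norm_num)
  calc (E.card : ℝ) ≤ C1 * (H ^ ((1 : ℝ) / 20) * (C2 * H ^ ((1 : ℝ) / 2) * H ^ ((1 : ℝ) / 20)) +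
        H ^ 2 * (C2 * T ^ (-(4 / 5) : ℝ))) := by
        refine h1.trans (mul_le_mul_of_nonneg_left ?_ hC1.le)
        exact add_le_add (mul_le_mul_of_nonneg_left h4 (by positivity))
          (mul_le_mul_of_nonneg_left h2 (by positivity))
    _ = C1 * C2 * (H ^ 2 * T ^ (-(4 / 5) : ℝ) +
        H ^ ((1 : ℝ) / 20) * (H ^ ((1 : ℝ) / 2) * H ^ ((1 : ℝ) / 20))) := by ring
    _ ≤ _ := mul_le_mul_of_nonneg_left (by linarith) (by positivity)

/-! ### Squares of large primes -/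

theorem abs_Fm_le {k m : ℕ} (α : Fin k → ℤ × ℤ) (γ : Fin m → ℤ × ℤ × ℤ) :
    ∃ C : ℕ, 0 < C ∧ ∀ s, ∀ x : ℤ × ℤ, 1 ≤ htn x → (COL.Fm α γ s x).natAbs ≤ C * htn x ^ 2 := by
  have h1 : ∀ s : Fin k ⊕ Fin m, ∃ C : ℕ, ∀ x : ℤ × ℤ, 1 ≤ htn x →
      (COL.Fm α γ s x).natAbs ≤ C * htn x ^ 2 := by
    rintro (i | j)
    · refine ⟨(α i).2.natAbs + (α i).1.natAbs, ?_⟩
      intro x hx
      change (Lf (α i) x).natAbs ≤ _
      unfold Lf
      have h1 : x.1.natAbs ≤ htn x := le_max_left _ _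
      have h2 : x.2.natAbs ≤ htn x := le_max_right _ _
      have h3 : htn x ≤ htn x ^ 2 := by nlinarith
      calc (x.1 * (α i).2 - x.2 * (α i).1).natAbs
          ≤ (x.1 * (α i).2).natAbs + (x.2 * (α i).1).natAbs := Int.natAbs_sub_le _ _
        _ = x.1.natAbs * (α i).2.natAbs + x.2.natAbs * (α i).1.natAbs := by
            rw [Int.natAbs_mul, Int.natAbs_mul]
        _ ≤ htn x ^ 2 * (α i).2.natAbs + htn x ^ 2 * (α i).1.natAbs :=
            Nat.add_le_add (Nat.mul_le_mul_right _ (h1.trans h3))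
              (Nat.mul_le_mul_right _ (h2.trans h3))
        _ = _ := by ring
    · refine ⟨(γ j).1.natAbs + (γ j).2.1.natAbs + (γ j).2.2.natAbs, ?_⟩
      intro x hx
      change (Qg (γ j) x).natAbs ≤ _
      unfold Qg
      have h1 : x.1.natAbs ≤ htn x := le_max_left _ _
      have h2 : x.2.natAbs ≤ htn x := le_max_right _ _
      calc ((γ j).1 * x.1 ^ 2 + (γ j).2.1 * x.1 * x.2 + (γ j).2.2 * x.2 ^ 2).natAbs
          ≤ ((γ j).1 * x.1 ^ 2).natAbs + ((γ j).2.1 * x.1 * x.2).natAbs +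
              ((γ j).2.2 * x.2 ^ 2).natAbs :=
            (Int.natAbs_add_le _ _).trans (Nat.add_le_add_right (Int.natAbs_add_le _ _) _)
        _ = (γ j).1.natAbs * x.1.natAbs ^ 2 + (γ j).2.1.natAbs * (x.1.natAbs * x.2.natAbs) +
              (γ j).2.2.natAbs * x.2.natAbs ^ 2 := by
            simp only [Int.natAbs_mul, Int.natAbs_pow]
            ring
        _ ≤ (γ j).1.natAbs * htn x ^ 2 + (γ j).2.1.natAbs * (htn x * htn x) +
              (γ j).2.2.natAbs * htn x ^ 2 :=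
            Nat.add_le_add (Nat.add_le_add
              (Nat.mul_le_mul_left _ (Nat.pow_le_pow_left h1 2))
              (Nat.mul_le_mul_left _ (Nat.mul_le_mul h1 h2)))
              (Nat.mul_le_mul_left _ (Nat.pow_le_pow_left h2 2))
        _ = _ := by ring
  choose C hC using h1
  refine ⟨∑ s, C s + 1, Nat.succ_pos _, ?_⟩
  intro s x hx
  refine (hC s x hx).trans (Nat.mul_le_mul_right _ ?_)
  exact (Finset.single_le_sum (fun _ _ => Nat.zero_le _) (Finset.mem_univ s)).trans (Nat.le_succ _)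

/-- large primes whose square divides `F` are small -/
theorem prime_sq_bound {k m : ℕ} {α : Fin k → ℤ × ℤ} {γ : Fin m → ℤ × ℤ × ℤ}
    {e : Fin k → ℕ} {f : Fin m → ℕ} (hS : Sys α γ e f) : ∃ P C : ℕ, 0 < C ∧
      ∀ p : ℕ, p.Prime → P < p → ∀ x : ℤ × ℤ, Gd α γ x → ((p ^ 2 : ℕ) : ℤ) ∣ FP α γ x →
        p ≤ C * htn x := by
  obtain ⟨R, hR, hR'⟩ := COL.exists_R hS
  obtain ⟨C, hC, hCb⟩ := abs_Fm_le α γ
  have hk : 0 < k := lt_of_lt_of_le (by norm_num) hS.three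
  have hne : Nonempty (Fin k ⊕ Fin m) := ⟨Sum.inl ⟨0, hk⟩⟩
  refine ⟨R.natAbs, C, hC, ?_⟩
  intro p hp hPp x hx hd
  have hpp : Prime (p : ℤ) := Nat.prime_iff_prime_int.1 hp
  have hd' : (p : ℤ) ^ 2 ∣ ∏ s, COL.Fm α γ s x := by
    rw [← COL.FP_eq]
    exact_mod_cast hd
  rcases COL.one_factor hR hp 2 (fun s => COL.Fm α γ s x)
    (fun i j hij N => hR' x hx.1 i j hij N) hd' with ⟨s, hs⟩ | h
  · have hcop : IsCoprime ((p : ℤ) ^ 2) (R ^ Fintype.card (Fin k ⊕ Fin m)) := by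
      apply IsCoprime.pow
      rw [Prime.coprime_iff_not_dvd hpp]
      intro h
      have h1 : p ∣ R.natAbs := by
        have := Int.natAbs_dvd_natAbs.2 h
        rwa [Int.natAbs_natCast] at this
      have h2 := Nat.le_of_dvd (Int.natAbs_pos.2 hR) h1
      omega
    have h1 : (p : ℤ) ^ 2 ∣ COL.Fm α γ s x := hcop.dvd_of_dvd_mul_left hs
    have h2 : COL.Fm α γ s x ≠ 0 := by
      have h3 := hx.2
      rw [COL.FP_eq, Finset.prod_ne_zero_iff] at h3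
      exact h3 s (Finset.mem_univ s)
    have h3 : p ^ 2 ≤ (COL.Fm α γ s x).natAbs := by
      have h4 := Int.natAbs_dvd_natAbs.2 h1
      rw [Int.natAbs_pow, Int.natAbs_natCast] at h4
      exact Nat.le_of_dvd (Int.natAbs_pos.2 h2) h4
    have h4 := h3.trans (hCb s x (htn_pos hx.1))
    have h5 : p ^ 2 ≤ (C * htn x) ^ 2 := by
      refine h4.trans ?_
      rw [mul_pow]
      refine Nat.mul_le_mul_right _ ?_
      nlinarith
    exact (Nat.pow_le_pow_iff_left two_ne_zero).1 h5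
  · exact absurd h (not_isEmpty_of_nonempty _)

/-- the points at which the square of a large prime divides `F` -/
theorem prime_bound (hC : S_CNT) {k m : ℕ} {α : Fin k → ℤ × ℤ} {γ : Fin m → ℤ × ℤ × ℤ}
    {e : Fin k → ℕ} {f : Fin m → ℕ} (hS : Sys α γ e f) : ∃ P : ℕ, ∃ C : ℝ, 0 < C ∧
      ∀ H : ℝ, 1 ≤ H → (P : ℝ) ≤ H ^ ((1 : ℝ) / 4) → ∀ E : Finset (ℤ × ℤ),
      (∀ x ∈ E, Gd α γ x ∧ (htn x : ℝ) ≤ H ∧ ∃ p : ℕ, p.Prime ∧ H ^ ((1 : ℝ) / 4) < p ∧
        ((p ^ 2 : ℕ) : ℤ) ∣ FP α γ x) →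
      (E.card : ℝ) ≤ C * H ^ ((9 : ℝ) / 5) := by
  classical
  obtain ⟨C1, hC1, hU⟩ := union_bound hC hS
  obtain ⟨P, C2, hC2, hP⟩ := prime_sq_bound hS
  have hsum : Summable fun n : ℕ => 1 / (n : ℝ) ^ ((11 : ℝ) / 10) :=
    Real.summable_one_div_nat_rpow.2 (by norm_num)
  set Z : ℝ := ∑' n : ℕ, 1 / (n : ℝ) ^ ((11 : ℝ) / 10) with hZ
  have hZ0 : 0 ≤ Z := tsum_nonneg fun n => by positivity
  have hC2' : (1 : ℝ) ≤ C2 := by exact_mod_cast hC2
  refine ⟨P, C1 * ((C2 : ℝ) ^ 2 + Z), by positivity, ?_⟩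
  intro H hH hPH E hE
  have hH0 : (0 : ℝ) < H := by linarith
  set M : ℕ := ⌊(C2 : ℝ) * H⌋₊ with hM
  have hMH : (M : ℝ) ≤ C2 * H := Nat.floor_le (by positivity)
  set Ns : Finset ℕ := (Finset.Icc 1 M).filter fun n => H ^ ((1 : ℝ) / 4) < n with hNs
  have hinj : Set.InjOn (fun n : ℕ => n ^ 2) (Ns : Set ℕ) := fun a _ b _ h =>
    Nat.pow_left_injective (by norm_num) h
  have hNs' : ∀ n ∈ Ns, 1 ≤ n ∧ (n : ℝ) ≤ C2 * H ∧ H ^ ((1 : ℝ) / 4) < n := by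
    intro n hn
    obtain ⟨h1, h2⟩ := Finset.mem_filter.1 hn
    obtain ⟨h3, h4⟩ := Finset.mem_Icc.1 h1
    have h5 : (n : ℝ) ≤ M := by exact_mod_cast h4
    exact ⟨h3, h5.trans hMH, h2⟩
  have h1 := hU H hH E (Ns.image fun n => n ^ 2) (by
    intro q hq
    obtain ⟨n, hn, rfl⟩ := Finset.mem_image.1 hq
    exact pow_pos (hNs' n hn).1 2) (by
    intro x hx
    obtain ⟨g1, g2, p, hp, g3, g4⟩ := hE x hx
    have hPp : P < p := by exact_mod_cast lt_of_le_of_lt hPH g3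
    have g5 := hP p hp hPp x g1 g4
    refine ⟨g1.1, g2, p ^ 2, Finset.mem_image.2 ⟨p, Finset.mem_filter.2
      ⟨Finset.mem_Icc.2 ⟨hp.one_le, Nat.le_floor ?_⟩, g3⟩, rfl⟩, g4⟩
    have g6 : (p : ℝ) ≤ C2 * htn x := by exact_mod_cast g5
    exact g6.trans (mul_le_mul_of_nonneg_left g2 (by positivity)))
  rw [Finset.sum_image hinj, Finset.sum_image hinj] at h1
  have hcard : (Ns.card : ℝ) ≤ C2 * H := by
    have h2 : Ns.card ≤ M := by
      calc Ns.card ≤ (Finset.Icc 1 M).card := Finset.card_filter_le _ _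
        _ = M := by simp
    have h3 : (Ns.card : ℝ) ≤ M := by exact_mod_cast h2
    exact h3.trans hMH
  have h2 : H ^ ((1 : ℝ) / 20) * (∑ n ∈ Ns, ((n ^ 2 : ℕ) : ℝ) ^ ((1 : ℝ) / 20)) ≤
      (C2 : ℝ) ^ 2 * H ^ ((9 : ℝ) / 5) := by
    have h3 : ∀ n ∈ Ns, ((n ^ 2 : ℕ) : ℝ) ^ ((1 : ℝ) / 20) ≤ C2 * H ^ ((1 : ℝ) / 10) := by
      intro n hn
      have e1 : ((n ^ 2 : ℕ) : ℝ) ^ ((1 : ℝ) / 20) = (n : ℝ) ^ ((1 : ℝ) / 10) := by
        push_cast
        rw [← Real.rpow_natCast, ← Real.rpow_mul (Nat.cast_nonneg n)]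
        norm_num
      rw [e1]
      calc (n : ℝ) ^ ((1 : ℝ) / 10) ≤ (C2 * H) ^ ((1 : ℝ) / 10) :=
            Real.rpow_le_rpow (Nat.cast_nonneg n) (hNs' n hn).2.1 (by norm_num)
        _ = (C2 : ℝ) ^ ((1 : ℝ) / 10) * H ^ ((1 : ℝ) / 10) :=
            Real.mul_rpow (by positivity) hH0.le
        _ ≤ C2 * H ^ ((1 : ℝ) / 10) := by
            refine mul_le_mul_of_nonneg_right ?_ (by positivity)
            nth_rewrite 2 [← Real.rpow_one (C2 : ℝ)]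
            exact Real.rpow_le_rpow_of_exponent_le hC2' (by norm_num)
    have h4 : ∑ n ∈ Ns, ((n ^ 2 : ℕ) : ℝ) ^ ((1 : ℝ) / 20) ≤
        (C2 * H) * (C2 * H ^ ((1 : ℝ) / 10)) := by
      refine (Finset.sum_le_sum h3).trans ?_
      rw [Finset.sum_const, nsmul_eq_mul]
      exact mul_le_mul_of_nonneg_right hcard (by positivity)
    have h5 : H ^ ((1 : ℝ) / 20) * (H * H ^ ((1 : ℝ) / 10)) ≤ H ^ ((9 : ℝ) / 5) := by
      nth_rewrite 2 [← Real.rpow_one H]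
      rw [← Real.rpow_add hH0, ← Real.rpow_add hH0]
      exact Real.rpow_le_rpow_of_exponent_le hH (by norm_num)
    calc H ^ ((1 : ℝ) / 20) * (∑ n ∈ Ns, ((n ^ 2 : ℕ) : ℝ) ^ ((1 : ℝ) / 20))
        ≤ H ^ ((1 : ℝ) / 20) * ((C2 * H) * (C2 * H ^ ((1 : ℝ) / 10))) :=
          mul_le_mul_of_nonneg_left h4 (by positivity)
      _ = (C2 : ℝ) ^ 2 * (H ^ ((1 : ℝ) / 20) * (H * H ^ ((1 : ℝ) / 10))) := by ring
      _ ≤ _ := mul_le_mul_of_nonneg_left h5 (by positivity)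
  have h3 : H ^ 2 * (∑ n ∈ Ns, ((n ^ 2 : ℕ) : ℝ) ^ (-(19 / 20) : ℝ)) ≤
      Z * H ^ ((9 : ℝ) / 5) := by
    have h4 : ∀ n ∈ Ns, ((n ^ 2 : ℕ) : ℝ) ^ (-(19 / 20) : ℝ) ≤
        H ^ (-(1 / 5) : ℝ) * (1 / (n : ℝ) ^ ((11 : ℝ) / 10)) := by
      intro n hn
      obtain ⟨g1, g2, g3⟩ := hNs' n hn
      have hn0 : (0 : ℝ) < n := by exact_mod_cast g1
      have e1 : ((n ^ 2 : ℕ) : ℝ) ^ (-(19 / 20) : ℝ) =
          (n : ℝ) ^ (-(4 / 5) : ℝ) * (1 / (n : ℝ) ^ ((11 : ℝ) / 10)) := by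
        push_cast
        rw [← Real.rpow_natCast, ← Real.rpow_mul (Nat.cast_nonneg n), one_div,
          ← Real.rpow_neg (Nat.cast_nonneg n), ← Real.rpow_add hn0]
        norm_num
      have e2 : H ^ (-(1 / 5) : ℝ) = (H ^ ((1 : ℝ) / 4)) ^ (-(4 / 5) : ℝ) := by
        rw [← Real.rpow_mul hH0.le]
        norm_num
      rw [e1, e2]
      refine mul_le_mul_of_nonneg_right ?_ (by positivity)
      exact Real.rpow_le_rpow_of_nonpos (by positivity) g3.le (by norm_num)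
    have h5 : ∑ n ∈ Ns, ((n ^ 2 : ℕ) : ℝ) ^ (-(19 / 20) : ℝ) ≤ H ^ (-(1 / 5) : ℝ) * Z := by
      refine (Finset.sum_le_sum h4).trans ?_
      rw [← Finset.mul_sum]
      refine mul_le_mul_of_nonneg_left ?_ (by positivity)
      exact hsum.sum_le_tsum Ns fun n _ => by positivity
    have h6 : H ^ 2 * H ^ (-(1 / 5) : ℝ) = H ^ ((9 : ℝ) / 5) := by
      rw [← Real.rpow_natCast, ← Real.rpow_add hH0]
      norm_num
    calc H ^ 2 * (∑ n ∈ Ns, ((n ^ 2 : ℕ) : ℝ) ^ (-(19 / 20) : ℝ))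
        ≤ H ^ 2 * (H ^ (-(1 / 5) : ℝ) * Z) := mul_le_mul_of_nonneg_left h5 (by positivity)
      _ = Z * (H ^ 2 * H ^ (-(1 / 5) : ℝ)) := by ring
      _ = _ := by rw [h6]
  calc (E.card : ℝ) ≤ _ := h1
    _ ≤ C1 * ((C2 : ℝ) ^ 2 * H ^ ((9 : ℝ) / 5) + Z * H ^ ((9 : ℝ) / 5)) :=
        mul_le_mul_of_nonneg_left (add_le_add h2 h3) hC1.le
    _ = _ := by ring

theorem trivial_bound (H : ℝ) (hH : 1 ≤ H) (E : Finset (ℤ × ℤ)) (hE : ∀ x ∈ E, (htn x : ℝ) ≤ H) :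
    (E.card : ℝ) ≤ 9 * H ^ 2 := by
  have hH0 : (0 : ℝ) ≤ H := by linarith
  set N : ℕ := ⌊H⌋₊ with hN
  have hNH : (N : ℝ) ≤ H := Nat.floor_le hH0
  have hsub : E ⊆ (Finset.Icc (-(N : ℤ)) N) ×ˢ (Finset.Icc (-(N : ℤ)) N) := by
    intro x hx
    have h1 : htn x ≤ N := Nat.le_floor (hE x hx)
    have h2 : x.1.natAbs ≤ htn x := le_max_left _ _
    have h3 : x.2.natAbs ≤ htn x := le_max_right _ _
    rw [Finset.mem_product, Finset.mem_Icc, Finset.mem_Icc]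
    omega
  have h1 := Finset.card_le_card hsub
  rw [Finset.card_product, Int.card_Icc] at h1
  have h2 : ((N : ℤ) + 1 - -(N : ℤ)).toNat = 2 * N + 1 := by omega
  rw [h2] at h1
  have h3 : (E.card : ℝ) ≤ (2 * N + 1) * (2 * N + 1) := by exact_mod_cast h1
  nlinarith [Nat.cast_nonneg (α := ℝ) N]

theorem main (hC : S_CNT) (hQ : S_SMQ) : S_POW := by
  classical
  intro k m α γ e f hS
  obtain ⟨C1, hC1, hPow⟩ := powerful_bound hC hQ hS
  obtain ⟨P, C2, hC2, hPr⟩ := prime_bound hC hS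
  refine ⟨3 * C1 + C2 + 9 * ((P : ℝ) ^ 4) ^ 2, by positivity, ?_⟩
  intro H T hH hT E hE
  have hH0 : (0 : ℝ) < H := by linarith
  have hX : 0 ≤ H ^ 2 * T ^ (-(4 / 5) : ℝ) := by positivity
  have hY : 1 ≤ H ^ ((9 : ℝ) / 5) := Real.one_le_rpow hH (by norm_num)
  rcases lt_or_ge (H ^ ((1 : ℝ) / 4)) (P : ℝ) with hlt | hge
  · have h1 := trivial_bound H hH E fun x hx => (hE x hx).2.1
    have h2 : H ≤ (P : ℝ) ^ 4 := by
      have h3 : (H ^ ((1 : ℝ) / 4)) ^ 4 = H := by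
        rw [← Real.rpow_natCast, ← Real.rpow_mul hH0.le]
        norm_num
      rw [← h3]
      exact pow_le_pow_left₀ (by positivity) hlt.le 4
    have h3 : H ^ 2 ≤ ((P : ℝ) ^ 4) ^ 2 := pow_le_pow_left₀ hH0.le h2 2
    have h4 : 9 * ((P : ℝ) ^ 4) ^ 2 ≤ (3 * C1 + C2 + 9 * ((P : ℝ) ^ 4) ^ 2) *
        (H ^ 2 * T ^ (-(4 / 5) : ℝ) + H ^ ((9 : ℝ) / 5)) := by
      calc 9 * ((P : ℝ) ^ 4) ^ 2 ≤ (3 * C1 + C2 + 9 * ((P : ℝ) ^ 4) ^ 2) * 1 := by linarith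
        _ ≤ _ := mul_le_mul_of_nonneg_left (by linarith) (by positivity)
    linarith
  · set E1 := E.filter fun x => ∃ q : ℕ, Pwf q ∧ (q : ℝ) ≤ H ∧ T ≤ (q / rd q : ℕ) ∧
      (q : ℤ) ∣ FP α γ x with hE1
    set E2 := E.filter fun x => ∃ q : ℕ, Pwf q ∧ (q : ℝ) ≤ H ∧
      H ^ ((1 : ℝ) / 4) ≤ (q / rd q : ℕ) ∧ (q : ℤ) ∣ FP α γ x with hE2
    set E3 := E.filter fun x => ∃ p : ℕ, p.Prime ∧ H ^ ((1 : ℝ) / 4) < p ∧
      ((p ^ 2 : ℕ) : ℤ) ∣ FP α γ x with hE3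
    have hsub : E ⊆ E1 ∪ (E2 ∪ E3) := by
      intro x hx
      obtain ⟨g1, g2, g3⟩ := hE x hx
      have hn : 0 < (FP α γ x).natAbs := Int.natAbs_pos.2 g1.2
      rw [exc_eq] at g3
      rcases three_cases hn hH g3 with ⟨q, k1, k2, k3, k4⟩ | ⟨q, k1, k2, k3, k4⟩ | ⟨p, k1, k2, k3⟩
      · exact Finset.mem_union_left _ (Finset.mem_filter.2
          ⟨hx, q, k1, k2, k3, Int.natCast_dvd.2 k4⟩)
      · exact Finset.mem_union_right _ (Finset.mem_union_left _ (Finset.mem_filter.2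
          ⟨hx, q, k1, k2, k3, Int.natCast_dvd.2 k4⟩))
      · exact Finset.mem_union_right _ (Finset.mem_union_right _ (Finset.mem_filter.2
          ⟨hx, p, k1, k2, Int.natCast_dvd.2 k3⟩))
    have h0 : (E.card : ℝ) ≤ E1.card + (E2.card + E3.card) := by
      have h1 := (Finset.card_le_card hsub).trans (Finset.card_union_le _ _)
      have h2 := Finset.card_union_le E2 E3
      have h3 : E.card ≤ E1.card + (E2.card + E3.card) := by omega
      exact_mod_cast h3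
    have h1 := hPow H T hH hT E1 (by
      intro x hx
      obtain ⟨hxE, hx2⟩ := Finset.mem_filter.1 hx
      exact ⟨(hE x hxE).1.1, (hE x hxE).2.1, hx2⟩)
    have h2 := hPow H (H ^ ((1 : ℝ) / 4)) hH (Real.one_le_rpow hH (by norm_num)) E2 (by
      intro x hx
      obtain ⟨hxE, hx2⟩ := Finset.mem_filter.1 hx
      exact ⟨(hE x hxE).1.1, (hE x hxE).2.1, hx2⟩)
    have h3 := hPr H hH hge E3 (by
      intro x hx
      obtain ⟨hxE, hx2⟩ := Finset.mem_filter.1 hx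
      exact ⟨(hE x hxE).1, (hE x hxE).2.1, hx2⟩)
    have e1 : H ^ 2 * (H ^ ((1 : ℝ) / 4)) ^ (-(4 / 5) : ℝ) = H ^ ((9 : ℝ) / 5) := by
      rw [← Real.rpow_mul hH0.le, ← Real.rpow_natCast, ← Real.rpow_add hH0]
      norm_num
    rw [e1] at h2
    set X : ℝ := H ^ 2 * T ^ (-(4 / 5) : ℝ) with hXd
    set Y : ℝ := H ^ ((9 : ℝ) / 5) with hYd
    have h4 : 0 ≤ 9 * ((P : ℝ) ^ 4) ^ 2 * (X + Y) := by positivity
    have h5 : 0 ≤ C1 * X := by positivity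
    have h6 : 0 ≤ C2 * X := by positivity
    calc (E.card : ℝ) ≤ C1 * (X + Y) + (C1 * (Y + Y) + C2 * Y) := by linarith
      _ ≤ (3 * C1 + C2) * (X + Y) := by nlinarith
      _ ≤ _ := by linarith

end Pool.Agent.L0h46.TS.POW
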