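import Pool.Agent.L0h46.TS.Defs

/-! Project TS, module PSI: `N ^ r / ψ(N) ≤ D ≤ ψ(N) N ^ r` for almost all points. -/

set_option autoImplicit false

namespace Pool.Agent.L0h46.TS.PSI

open Finset Filter Topology MeasureTheory
open Pool.Agent.L0h46.TQ (Nrm Lf htn Indep lg hh N1)

section
variable {k m : ℕ} {α : Fin k → ℤ × ℤ} {γ : Fin m → ℤ × ℤ × ℤ} {e : Fin k → ℕ} {f : Fin m → ℕ}

theorem radN_pos (n : ℤ) : 0 < radN n := by
  unfold radN
  exact Finset.prod_pos fun p hp => (Nat.prime_of_mem_primeFactors hp).pos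

/-- the radical of one of the linear forms is at most the radical of the product -/
theorem N1_le (x : ℤ × ℤ) (h : FP α γ x ≠ 0) :
    N1 α ∅ x ≤ k * Real.log (radN (FP α γ x)) := by
  unfold N1
  have h1 : ∀ i : Fin k, ∑ p ∈ (x.1 * (α i).2 - x.2 * (α i).1).natAbs.primeFactors \ ∅,
      Real.log p ≤ Real.log (radN (FP α γ x)) := by
    intro i
    rw [Finset.sdiff_empty]
    unfold radN
    rw [Nat.cast_prod, Real.log_prod (fun p hp => by
      exact_mod_cast (Nat.prime_of_mem_primeFactors hp).ne_zero)]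
    refine Finset.sum_le_sum_of_subset_of_nonneg ?_ ?_
    · apply Nat.primeFactors_mono
      · rw [Int.natAbs_dvd_natAbs]
        unfold FP
        exact Dvd.dvd.mul_right (Finset.dvd_prod_of_mem (fun i => Lf (α i) x)
          (Finset.mem_univ i)) _
      · exact Int.natAbs_ne_zero.2 h
    · intro p hp _
      exact Real.log_nonneg (by exact_mod_cast (Nat.prime_of_mem_primeFactors hp).one_lt.le)
  calc _ ≤ ∑ _i : Fin k, Real.log (radN (FP α γ x)) := Finset.sum_le_sum fun i _ => h1 i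
    _ = _ := by rw [Finset.sum_const, Finset.card_univ, Fintype.card_fin, nsmul_eq_mul]

/-- finitely many points of bounded `N` -/
theorem fin_low (hL : Pool.Agent.L0h46.TQ.S_LIN) (hS : Sys α γ e f) {N D : ℤ × ℤ → ℕ}
    (hAF : AF α γ e f N D) (N0 : ℕ) :
    ({x | Nrm x ∧ FP α γ x ≠ 0 ∧ N x ≤ N0} : Set (ℤ × ℤ)).Finite := by
  obtain ⟨C, hC, hC'⟩ := hAF.bd
  obtain ⟨⟨C1, hC1, h1⟩, _⟩ := hL k hS.three α hS.ind ∅
  have h2 := (h1 (((C * N0 + 1 : ℕ) : ℝ) ^ k) (one_le_pow₀ (by push_cast; nlinarith [Nat.cast_nonneg (α := ℝ) (C * N0)]))).1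
  refine h2.subset ?_
  rintro x ⟨hx1, hx2, hx3⟩
  have hg : Gd α γ x := ⟨hx1.1, hx2⟩
  refine ⟨hx1, ?_, ?_⟩
  · intro i h0
    apply hx2
    unfold FP
    rw [Finset.prod_eq_zero (Finset.mem_univ i) (show Lf (α i) x = 0 from h0), zero_mul]
  · refine (N1_le x hx2).trans ?_
    rw [Real.log_pow]
    gcongr
    · exact_mod_cast radN_pos _
    · have h3 := (hC' x hg).1
      have h4 : C * N x ≤ C * N0 := Nat.mul_le_mul_left _ hx3
      omega

end

theorem main (h : S_LM2) (hL : Pool.Agent.L0h46.TQ.S_LIN) : S_PSI := by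
  intro k m α γ e f hS N D hAF Φ hΦ ψ hψ A hA
  obtain ⟨hΦ0, hmono, hlow, hhigh⟩ := h k m α γ e f hS N D hAF Φ hΦ
  have hd : 0 < dg k m := by
    unfold dg
    have : (3 : ℝ) ≤ k := by exact_mod_cast hS.three
    positivity
  obtain ⟨hfin, hlim⟩ := hΦ
  rw [Metric.tendsto_atTop]
  intro ε hε
  -- choice of `y`
  have e1 : ∀ᶠ y : ℝ in atTop, Φ 0 - ε / 8 < Φ y := by
    exact hhigh.eventually (lt_mem_nhds (by linarith))
  have e2 : ∀ᶠ y : ℝ in atTop, Φ (y⁻¹) < ε / 8 := by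
    have h1 : Tendsto (fun y : ℝ => Φ y⁻¹) atTop (𝓝 0) :=
      hlow.comp tendsto_inv_atTop_nhdsGT_zero
    exact h1.eventually (gt_mem_nhds (by linarith))
  obtain ⟨y, hy1, hy2, hy3⟩ := (e1.and (e2.and (eventually_gt_atTop 1))).exists
  have hy0 : 0 < y := by linarith
  -- choice of `N0`
  obtain ⟨N0, hN0⟩ := (hψ.eventually_ge_atTop y).exists_forall_of_atTop
  have hfl := fin_low hL hS hAF N0
  set U : Set (ℤ × ℤ) := {x | Nrm x ∧ FP α γ x ≠ 0 ∧ N x ≤ N0} with hU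
  -- limits
  have l0 := hlim 0 A hA
  have l1 := hlim y A hA
  have l2 := hlim y⁻¹ A hA
  have l3 : Tendsto (fun X : ℝ => (U.ncard : ℝ) / X ^ (2 / dg k m)) atTop (𝓝 0) :=
    tendsto_const_nhds.div_atTop (tendsto_rpow_atTop (by positivity))
  have ev0 := l0.eventually (gt_mem_nhds (show Φ 0 < Φ 0 + ε / 8 by linarith))
  have ev1 := l1.eventually (lt_mem_nhds (show Φ y - ε / 8 < Φ y by linarith))
  have ev2 := l2.eventually (gt_mem_nhds (show Φ y⁻¹ < Φ y⁻¹ + ε / 8 by linarith))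
  have ev3 := l3.eventually (gt_mem_nhds (show (0 : ℝ) < ε / 8 by linarith))
  obtain ⟨X0, hX0⟩ := (ev0.and (ev1.and (ev2.and (ev3.and
    (eventually_ge_atTop 1))))).exists_forall_of_atTop
  refine ⟨X0, fun X hX => ?_⟩
  obtain ⟨a0, a1, a2, a3, a4⟩ := hX0 X hX
  have hXp : 0 < X ^ (2 / dg k m) := Real.rpow_pos_of_pos (by linarith) _
  rw [Real.dist_eq, sub_zero, abs_of_nonneg (by positivity), div_lt_iff₀ hXp]
  rw [div_lt_iff₀ hXp] at a0 a2 a3
  rw [lt_div_iff₀ hXp] at a1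
  have hF : (Pt α γ N A X).Finite := hfin A X a4
  -- the sets
  set P : Set (ℤ × ℤ) := Pt α γ N A X with hP
  have hP0 : ({x | x ∈ P ∧ Cy N D (rr e f) 0 x} : Set (ℤ × ℤ)) = P := by
    ext x
    constructor
    · rintro ⟨h1, _⟩
      exact h1
    · intro h1
      exact ⟨h1, Or.inl le_rfl⟩
  rw [hP0] at a0
  have hsub1 : ({x | x ∈ P ∧ Cy N D (rr e f) y x} : Set (ℤ × ℤ)) ⊆ P := fun x hx => hx.1
  have hdiff : ((P \ {x | x ∈ P ∧ Cy N D (rr e f) y x}).ncard : ℝ) =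
      P.ncard - ({x | x ∈ P ∧ Cy N D (rr e f) y x} : Set (ℤ × ℤ)).ncard := by
    rw [Set.ncard_sdiff hsub1 (hF.subset hsub1), Nat.cast_sub (Set.ncard_le_ncard hsub1 hF)]
  have hcover : ({x | x ∈ P ∧ ¬((N x : ℝ) ^ rr e f ≤ ψ (N x) * D x ∧
      (D x : ℝ) ≤ ψ (N x) * (N x : ℝ) ^ rr e f)} : Set (ℤ × ℤ)) ⊆
      (U ∪ (P \ {x | x ∈ P ∧ Cy N D (rr e f) y x})) ∪
        {x | x ∈ P ∧ Cy N D (rr e f) y⁻¹ x} := by
    rintro x ⟨hx1, hx2⟩
    by_cases hNx : N x ≤ N0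
    · exact Or.inl (Or.inl ⟨hx1.1, hx1.2.1, hNx⟩)
    · push Not at hNx
      have hψx := hN0 (N x) hNx.le
      by_cases hc : Cy N D (rr e f) y x
      · right
        refine ⟨hx1, Or.inr ?_⟩
        have hc' : (D x : ℝ) ≤ y * (N x : ℝ) ^ rr e f := hc.resolve_left (by linarith)
        have hNr : 0 ≤ (N x : ℝ) ^ rr e f := by positivity
        have h2 : (D x : ℝ) ≤ ψ (N x) * (N x : ℝ) ^ rr e f :=
          hc'.trans (mul_le_mul_of_nonneg_right hψx hNr)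
        have h3 : ¬ ((N x : ℝ) ^ rr e f ≤ ψ (N x) * D x) := fun h => hx2 ⟨h, h2⟩
        push Not at h3
        have h4 : y * (D x : ℝ) ≤ ψ (N x) * D x :=
          mul_le_mul_of_nonneg_right hψx (Nat.cast_nonneg _)
        rw [inv_mul_eq_div, le_div_iff₀ hy0]
        linarith
      · left
        right
        exact ⟨hx1, fun h => hc h.2⟩
  have hfin2 : ({x | x ∈ P ∧ Cy N D (rr e f) y⁻¹ x} : Set (ℤ × ℤ)).Finite :=
    hF.subset fun x hx => hx.1
  have hcard := Set.ncard_le_ncard hcover ((hfl.union (hF.subset Set.sdiff_subset)).union hfin2)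
  have h5 := Set.ncard_union_le (U ∪ (P \ {x | x ∈ P ∧ Cy N D (rr e f) y x}))
    {x | x ∈ P ∧ Cy N D (rr e f) y⁻¹ x}
  have h6 := Set.ncard_union_le U (P \ {x | x ∈ P ∧ Cy N D (rr e f) y x})
  have h7 : ((({x | x ∈ P ∧ ¬((N x : ℝ) ^ rr e f ≤ ψ (N x) * D x ∧
      (D x : ℝ) ≤ ψ (N x) * (N x : ℝ) ^ rr e f)} : Set (ℤ × ℤ)).ncard : ℕ) : ℝ) ≤
      U.ncard + (P \ {x | x ∈ P ∧ Cy N D (rr e f) y x}).ncard +
        ({x | x ∈ P ∧ Cy N D (rr e f) y⁻¹ x} : Set (ℤ × ℤ)).ncard := by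
    exact_mod_cast hcard.trans (h5.trans (Nat.add_le_add_right h6 _))
  rw [hdiff] at h7
  refine lt_of_le_of_lt h7 ?_
  nlinarith
end Pool.Agent.L0h46.TS.PSI
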