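import Pool.Agent.L0h46.TS.Defs

/-! Project TS, module PSV: the power saving. -/

set_option autoImplicit false

namespace Pool.Agent.L0h46.TS.PSV

open Finset Filter Topology MeasureTheory
open Pool.Agent.L0h46.TQ (Nrm Lf htn Indep lg hh N1)

/-- power saving -/
def PSv (κ : ℝ) (Q : ℝ → Set (ℤ × ℤ)) : Prop := ∃ η C : ℝ, 0 < η ∧ 0 < C ∧ ∀ X : ℝ, 1 ≤ X →
  (Q X).Finite ∧ ((Q X).ncard : ℝ) ≤ C * X ^ (κ - η)

theorem PSv.mono {κ : ℝ} {Q Q' : ℝ → Set (ℤ × ℤ)} (h : PSv κ Q')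
    (hs : ∀ X, 1 ≤ X → Q X ⊆ Q' X) : PSv κ Q := by
  obtain ⟨η, C, hη, hC, h⟩ := h
  refine ⟨η, C, hη, hC, fun X hX => ?_⟩
  obtain ⟨h1, h2⟩ := h X hX
  refine ⟨h1.subset (hs X hX), le_trans ?_ h2⟩
  exact_mod_cast Set.ncard_le_ncard (hs X hX) h1

theorem PSv.union {κ : ℝ} {Q Q' : ℝ → Set (ℤ × ℤ)} (h : PSv κ Q) (h' : PSv κ Q') :
    PSv κ (fun X => Q X ∪ Q' X) := by
  obtain ⟨η, C, hη, hC, h⟩ := h
  obtain ⟨η', C', hη', hC', h'⟩ := h'
  refine ⟨min η η', C + C', lt_min hη hη', by positivity, fun X hX => ?_⟩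
  obtain ⟨h1, h2⟩ := h X hX
  obtain ⟨h1', h2'⟩ := h' X hX
  refine ⟨h1.union h1', ?_⟩
  have h3 : (((Q X ∪ Q' X).ncard : ℕ) : ℝ) ≤ (Q X).ncard + (Q' X).ncard := by
    exact_mod_cast Set.ncard_union_le _ _
  have h4 : X ^ (κ - η) ≤ X ^ (κ - min η η') :=
    Real.rpow_le_rpow_of_exponent_le hX (by linarith [min_le_left η η'])
  have h5 : X ^ (κ - η') ≤ X ^ (κ - min η η') :=
    Real.rpow_le_rpow_of_exponent_le hX (by linarith [min_le_right η η'])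
  calc (((Q X ∪ Q' X).ncard : ℕ) : ℝ) ≤ C * X ^ (κ - η) + C' * X ^ (κ - η') := by linarith
    _ ≤ C * X ^ (κ - min η η') + C' * X ^ (κ - min η η') := by gcongr
    _ = _ := by ring

theorem PSv.empty {κ : ℝ} : PSv κ (fun _ => ∅) :=
  ⟨1, 1, one_pos, one_pos, fun X hX => ⟨Set.finite_empty, by
    rw [Set.ncard_empty]
    have : 0 < X ^ (κ - 1) := Real.rpow_pos_of_pos (by linarith) _
    simp
    linarith⟩⟩

theorem PSv.iUnion {κ : ℝ} {s : ℕ} {Q : Fin s → ℝ → Set (ℤ × ℤ)} (h : ∀ j, PSv κ (Q j)) :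
    PSv κ (fun X => ⋃ j, Q j X) := by
  classical
  have key : ∀ F : Finset (Fin s), PSv κ (fun X => ⋃ j ∈ F, Q j X) := by
    intro F
    induction F using Finset.induction_on with
    | empty =>
      refine PSv.empty.mono fun X _ => ?_
      simp
    | insert a F _ ih =>
      refine ((h a).union ih).mono fun X _ => ?_
      rw [Finset.set_biUnion_insert]
  refine (key Finset.univ).mono fun X _ => ?_
  simp

theorem PSv.ev {κ : ℝ} {Q Q' : ℝ → Set (ℤ × ℤ)} (hκ : 0 < κ) (h : PSv κ Q') (X0 : ℝ)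
    (U : Set (ℤ × ℤ)) (hU : U.Finite) (h1 : ∀ X, 1 ≤ X → X0 ≤ X → Q X ⊆ Q' X)
    (h2 : ∀ X, 1 ≤ X → X ≤ X0 → Q X ⊆ U) : PSv κ Q := by
  obtain ⟨η, C, hη, hC, h⟩ := h
  refine ⟨min η κ, C + U.ncard, lt_min hη hκ, by positivity, fun X hX => ?_⟩
  have h5 : (1 : ℝ) ≤ X ^ (κ - min η κ) :=
    Real.one_le_rpow hX (by linarith [min_le_right η κ])
  rcases le_total X0 X with hXX | hXX
  · obtain ⟨a1, a2⟩ := h X hX
    refine ⟨a1.subset (h1 X hX hXX), ?_⟩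
    have h3 : ((Q X).ncard : ℝ) ≤ (Q' X).ncard := by
      exact_mod_cast Set.ncard_le_ncard (h1 X hX hXX) a1
    have h4 : X ^ (κ - η) ≤ X ^ (κ - min η κ) :=
      Real.rpow_le_rpow_of_exponent_le hX (by linarith [min_le_left η κ])
    calc ((Q X).ncard : ℝ) ≤ C * X ^ (κ - η) := h3.trans a2
      _ ≤ C * X ^ (κ - min η κ) := by gcongr
      _ ≤ (C + U.ncard) * X ^ (κ - min η κ) := by
        gcongr
        linarith [Nat.cast_nonneg (α := ℝ) U.ncard]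
  · refine ⟨hU.subset (h2 X hX hXX), ?_⟩
    have h3 : ((Q X).ncard : ℝ) ≤ U.ncard := by
      exact_mod_cast Set.ncard_le_ncard (h2 X hX hXX) hU
    calc ((Q X).ncard : ℝ) ≤ U.ncard * 1 := by rw [mul_one]; exact h3
      _ ≤ (C + U.ncard) * X ^ (κ - min η κ) := by
        gcongr
        linarith

theorem evl (C : ℝ) {a : ℝ} (ha : 0 < a) : ∃ X0 : ℝ, ∀ X, X0 ≤ X → C < X ^ a :=
  ((tendsto_rpow_atTop ha).eventually_gt_atTop C).exists_forall_of_atTop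

theorem finite_box {B : ℝ} : {x : ℤ × ℤ | (htn x : ℝ) ≤ B}.Finite := by
  refine (Set.finite_Icc ((-⌈B⌉, -⌈B⌉) : ℤ × ℤ) ((⌈B⌉, ⌈B⌉) : ℤ × ℤ)).subset ?_
  intro x hx
  have h0 : (htn x : ℝ) ≤ B := hx
  have h1 : (htn x : ℝ) ≤ ⌈B⌉ := h0.trans (Int.le_ceil B)
  have h2 : (htn x : ℤ) ≤ ⌈B⌉ := by exact_mod_cast h1
  unfold htn at h2
  refine ⟨⟨?_, ?_⟩, ⟨?_, ?_⟩⟩
  · change -⌈B⌉ ≤ x.1
    omega
  · change -⌈B⌉ ≤ x.2
    omega
  · change x.1 ≤ ⌈B⌉
    omega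
  · change x.2 ≤ ⌈B⌉
    omega

theorem htn_pos {x : ℤ × ℤ} (h : IsCoprime x.1 x.2) : 1 ≤ htn x := by
  unfold htn
  by_contra hc
  push Not at hc
  have h1 : x.1 = 0 := by omega
  have h2 : x.2 = 0 := by omega
  rw [h1, h2] at h
  obtain ⟨a, b, hab⟩ := h
  simp at hab

theorem abs1 (x : ℤ × ℤ) : |(x.1 : ℝ)| ≤ htn x := by
  rw [← Int.cast_abs, ← Nat.cast_natAbs]
  exact Nat.cast_le.2 (le_max_left _ _)

theorem abs2 (x : ℤ × ℤ) : |(x.2 : ℝ)| ≤ htn x := by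
  rw [← Int.cast_abs, ← Nat.cast_natAbs]
  exact Nat.cast_le.2 (le_max_right _ _)

theorem Lf_bound (a x : ℤ × ℤ) : |(Lf a x : ℝ)| ≤ (|(a.1 : ℝ)| + |(a.2 : ℝ)|) * htn x := by
  unfold Lf
  push_cast
  calc |(x.1 : ℝ) * a.2 - x.2 * a.1| ≤ |(x.1 : ℝ) * a.2| + |(x.2 : ℝ) * a.1| := abs_sub _ _
    _ = |(x.1 : ℝ)| * |(a.2 : ℝ)| + |(x.2 : ℝ)| * |(a.1 : ℝ)| := by rw [abs_mul, abs_mul]
    _ ≤ htn x * |(a.2 : ℝ)| + htn x * |(a.1 : ℝ)| := by
      have := abs1 x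
      have := abs2 x
      gcongr
    _ = _ := by ring

theorem Qg_bound (g : ℤ × ℤ × ℤ) (x : ℤ × ℤ) :
    |(Qg g x : ℝ)| ≤ (|(g.1 : ℝ)| + |(g.2.1 : ℝ)| + |(g.2.2 : ℝ)|) * (htn x : ℝ) ^ 2 := by
  unfold Qg
  push_cast
  have h1 := abs1 x
  have h2 := abs2 x
  calc |(g.1 : ℝ) * x.1 ^ 2 + g.2.1 * x.1 * x.2 + g.2.2 * x.2 ^ 2| ≤
      |(g.1 : ℝ) * x.1 ^ 2| + |(g.2.1 : ℝ) * x.1 * x.2| + |(g.2.2 : ℝ) * x.2 ^ 2| := abs_add_three _ _ _
    _ = |(g.1 : ℝ)| * |(x.1 : ℝ)| ^ 2 + |(g.2.1 : ℝ)| * |(x.1 : ℝ)| * |(x.2 : ℝ)| +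
        |(g.2.2 : ℝ)| * |(x.2 : ℝ)| ^ 2 := by
      simp only [abs_mul, abs_pow]
    _ ≤ |(g.1 : ℝ)| * (htn x) ^ 2 + |(g.2.1 : ℝ)| * (htn x) * (htn x) +
        |(g.2.2 : ℝ)| * (htn x) ^ 2 := by gcongr
    _ = _ := by ring

section
variable {k m : ℕ} {α : Fin k → ℤ × ℤ} {γ : Fin m → ℤ × ℤ × ℤ} {e : Fin k → ℕ} {f : Fin m → ℕ}

theorem FE_cast (x : ℤ × ℤ) : (FE α γ e f x : ℝ) =
    (∏ i, |(Lf (α i) x : ℝ)| ^ e i) * ∏ j, |(Qg (γ j) x : ℝ)| ^ f j := by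
  unfold FE
  push_cast
  simp only [Nat.cast_natAbs, Int.cast_abs]

theorem form_bound : ∃ C : ℝ, 1 ≤ C ∧ ∀ x : ℤ × ℤ,
    |(FP α γ x : ℝ)| ≤ C * (htn x : ℝ) ^ (k + 2 * m) ∧
    (FE α γ e f x : ℝ) ≤ C * (htn x : ℝ) ^ (wt e f) := by
  set A1 : ℝ := (∏ i, (|((α i).1 : ℝ)| + |((α i).2 : ℝ)|)) *
    ∏ j, (|((γ j).1 : ℝ)| + |((γ j).2.1 : ℝ)| + |((γ j).2.2 : ℝ)|) with hA1
  set A2 : ℝ := (∏ i, (|((α i).1 : ℝ)| + |((α i).2 : ℝ)|) ^ e i) *
    ∏ j, (|((γ j).1 : ℝ)| + |((γ j).2.1 : ℝ)| + |((γ j).2.2 : ℝ)|) ^ f j with hA2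
  have hA1' : 0 ≤ A1 := by positivity
  have hA2' : 0 ≤ A2 := by positivity
  refine ⟨1 + A1 + A2, by linarith, fun x => ⟨?_, ?_⟩⟩
  · have h1 : |(FP α γ x : ℝ)| ≤ A1 * (htn x : ℝ) ^ (k + 2 * m) := by
      unfold FP
      push_cast
      rw [abs_mul, Finset.abs_prod, Finset.abs_prod]
      calc _ ≤ (∏ i, ((|((α i).1 : ℝ)| + |((α i).2 : ℝ)|) * htn x)) *
            ∏ j, ((|((γ j).1 : ℝ)| + |((γ j).2.1 : ℝ)| + |((γ j).2.2 : ℝ)|) *
              (htn x : ℝ) ^ 2) := by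
            refine mul_le_mul ?_ ?_ (by positivity) (by positivity)
            · exact Finset.prod_le_prod (fun i _ => abs_nonneg _) fun i _ => Lf_bound _ _
            · exact Finset.prod_le_prod (fun i _ => abs_nonneg _) fun i _ => Qg_bound _ _
        _ = _ := by
            rw [Finset.prod_mul_distrib, Finset.prod_mul_distrib, Finset.prod_const,
              Finset.prod_const, Finset.card_univ, Finset.card_univ, Fintype.card_fin,
              Fintype.card_fin, hA1]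
            ring
    refine h1.trans ?_
    gcongr
    linarith
  · have h1 : (FE α γ e f x : ℝ) ≤ A2 * (htn x : ℝ) ^ (wt e f) := by
      rw [FE_cast]
      calc _ ≤ (∏ i, ((|((α i).1 : ℝ)| + |((α i).2 : ℝ)|) * htn x) ^ e i) *
            ∏ j, ((|((γ j).1 : ℝ)| + |((γ j).2.1 : ℝ)| + |((γ j).2.2 : ℝ)|) *
              (htn x : ℝ) ^ 2) ^ f j := by
            refine mul_le_mul ?_ ?_ (by positivity) (by positivity)
            · exact Finset.prod_le_prod (fun i _ => by positivity) fun i _ =>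
                pow_le_pow_left₀ (abs_nonneg _) (Lf_bound _ _) _
            · exact Finset.prod_le_prod (fun i _ => by positivity) fun i _ =>
                pow_le_pow_left₀ (abs_nonneg _) (Qg_bound _ _) _
        _ = _ := by
            simp only [mul_pow]
            rw [Finset.prod_mul_distrib, Finset.prod_mul_distrib, Finset.prod_pow_eq_pow_sum,
              Finset.prod_pow_eq_pow_sum, hA2]
            unfold wt
            ring
    refine h1.trans ?_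
    gcongr
    linarith

theorem radN_le {n : ℤ} (h : n ≠ 0) : (radN n : ℝ) ≤ |(n : ℝ)| := by
  rw [← Int.cast_abs, Int.abs_eq_natAbs]
  unfold radN
  exact_mod_cast Nat.le_of_dvd (Int.natAbs_pos.2 h) (Nat.prod_primeFactors_dvd _)

theorem dg_pos (h : 3 ≤ k) : 0 < dg k m := by
  unfold dg
  have : (3 : ℝ) ≤ k := by exact_mod_cast h
  positivity

/-- `Pt` is contained in `PtR`. -/
theorem pt_sub {N D : ℤ × ℤ → ℕ} {B : ℝ} (hB1 : 1 ≤ B)
    (hB : ∀ x, Gd α γ x → (radN (FP α γ x) : ℝ) ≤ B * N x) (A X : ℝ) (hX : 1 ≤ X) :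
    Pt α γ N A X ⊆ PtR α γ (max A 0) (B * X) := by
  rintro x ⟨h1, h2, h3, h4⟩
  refine ⟨h1, h2, ?_, ?_⟩
  · rcases h3 with h3 | h3
    · exact Or.inl h3
    · refine Or.inr (h3.trans ?_)
      calc X ^ A ≤ X ^ (max A 0) := Real.rpow_le_rpow_of_exponent_le hX (le_max_left _ _)
        _ ≤ (B * X) ^ (max A 0) := Real.rpow_le_rpow (by linarith) (by nlinarith)
            (le_max_right _ _)
  · exact (hB x ⟨h1.1, h2⟩).trans (mul_le_mul_of_nonneg_left h4 (by linarith))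

theorem ptR_mono {A X X' : ℝ} (hA : 0 ≤ A) (hX : 1 ≤ X) (hXX : X ≤ X') :
    PtR α γ A X ⊆ PtR α γ A X' := by
  rintro x ⟨h1, h2, h3, h4⟩
  refine ⟨h1, h2, ?_, h4.trans hXX⟩
  rcases h3 with h3 | h3
  · exact Or.inl h3
  · exact Or.inr (h3.trans (Real.rpow_le_rpow (by linarith) hXX hA))

/-- the points of large height -/
theorem tl (hB : S_TLB) (hS : Sys α γ e f) {B : ℝ} (hB1 : 1 ≤ B) {A δ : ℝ} (hA : 0 ≤ A)
    (hδ : 0 < δ) : PSv (2 / dg k m) (fun X => {x | x ∈ PtR α γ A (B * X) ∧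
      X ^ (1 / dg k m + δ) ≤ (htn x : ℝ)}) := by
  have hd := dg_pos (m := m) hS.three
  obtain ⟨η, C, hη, hC, h⟩ := hB k m α γ e f hS A (δ / 2) (by positivity)
  have hbase : PSv (2 / dg k m) (fun X => {x | x ∈ PtR α γ A (B * X) ∧
      (B * X) ^ (1 / dg k m + δ / 2) ≤ (htn x : ℝ)}) := by
    refine ⟨η, C * B ^ (2 / dg k m - η), hη, by positivity, fun X hX => ?_⟩
    have hBX : 1 ≤ B * X := by nlinarith
    obtain ⟨h1, h2⟩ := h (B * X) hBX
    refine ⟨h1.subset fun x hx => hx.1, h2.trans_eq ?_⟩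
    rw [Real.mul_rpow (by linarith) (by linarith)]
    ring
  obtain ⟨X0, hX0⟩ := evl (B ^ (1 / dg k m + δ / 2)) (a := δ / 2) (by positivity)
  refine hbase.ev (by positivity) (max X0 1) (PtR α γ A (B * max X0 1))
    (h (B * max X0 1) (by nlinarith [le_max_right X0 1])).1 ?_ ?_
  · rintro X hX hX1 x ⟨hx1, hx2⟩
    refine ⟨hx1, le_trans ?_ hx2⟩
    have h3 := (hX0 X ((le_max_left _ _).trans hX1)).le
    rw [Real.mul_rpow (by linarith) (by linarith)]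
    calc B ^ (1 / dg k m + δ / 2) * X ^ (1 / dg k m + δ / 2) ≤
        X ^ (δ / 2) * X ^ (1 / dg k m + δ / 2) := by gcongr
      _ = X ^ (1 / dg k m + δ) := by
        rw [← Real.rpow_add (by linarith)]
        congr 1
        ring
  · rintro X hX hX1 x ⟨hx1, hx2⟩
    exact ptR_mono hA (by nlinarith) (by gcongr) hx1

theorem sec (hSec : S_SEC) (ρ : ℝ × ℝ) (hρ : ρ ≠ 0) : ∃ C : ℝ, 0 < C ∧ ∀ H lam : ℝ, 1 ≤ H →
    0 ≤ lam → ({x : ℤ × ℤ | (htn x : ℝ) ≤ H ∧ |LR ρ x| ≤ lam * H}).Finite ∧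
    (({x : ℤ × ℤ | (htn x : ℝ) ≤ H ∧ |LR ρ x| ≤ lam * H}).ncard : ℝ) ≤
      C * (lam * H ^ 2 + H) := by
  obtain ⟨C, hC, h⟩ := hSec ρ hρ
  refine ⟨C, hC, fun H lam hH hlam => ?_⟩
  have hfin : ({x : ℤ × ℤ | (htn x : ℝ) ≤ H ∧ |LR ρ x| ≤ lam * H}).Finite :=
    finite_box.subset fun x hx => hx.1
  refine ⟨hfin, ?_⟩
  rw [Set.ncard_eq_toFinset_card _ hfin]
  apply h H lam hH hlam
  intro x hx
  rwa [Set.Finite.mem_toFinset] at hx

/-- the number of all points -/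
theorem cnt (hB : S_TLB) (hSec : S_SEC) (hS : Sys α γ e f) {N : ℤ × ℤ → ℕ} {B : ℝ}
    (hB1 : 1 ≤ B) (hBr : ∀ x, Gd α γ x → (radN (FP α γ x) : ℝ) ≤ B * N x) (A : ℝ) {δ : ℝ}
    (hδ : 0 < δ) : ∃ C : ℝ, 0 < C ∧ ∀ X : ℝ, 1 ≤ X → (Pt α γ N A X).Finite ∧
      ((Pt α γ N A X).ncard : ℝ) ≤ C * X ^ (2 / dg k m + 2 * δ) := by
  have hd := dg_pos (m := m) hS.three
  obtain ⟨η, C, hη, hC, h⟩ := tl hB hS hB1 (le_max_right A 0) hδ
  obtain ⟨C', hC', h'⟩ := sec hSec ((0 : ℝ), (1 : ℝ)) (by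
    intro h0
    have := congrArg Prod.snd h0
    simp at this)
  refine ⟨C + 2 * C', by positivity, fun X hX => ?_⟩
  obtain ⟨h1, h2⟩ := h X hX
  have hH : 1 ≤ X ^ (1 / dg k m + δ) := Real.one_le_rpow hX (by positivity)
  obtain ⟨h3, h4⟩ := h' (X ^ (1 / dg k m + δ)) 1 hH zero_le_one
  have hsub : Pt α γ N A X ⊆ {x | x ∈ PtR α γ (max A 0) (B * X) ∧
      X ^ (1 / dg k m + δ) ≤ (htn x : ℝ)} ∪
      {x : ℤ × ℤ | (htn x : ℝ) ≤ X ^ (1 / dg k m + δ) ∧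
        |LR ((0 : ℝ), (1 : ℝ)) x| ≤ 1 * X ^ (1 / dg k m + δ)} := by
    intro x hx
    rcases le_total (X ^ (1 / dg k m + δ)) (htn x : ℝ) with hc | hc
    · exact Or.inl ⟨pt_sub (D := N) hB1 hBr A X hX hx, hc⟩
    · refine Or.inr ⟨hc, ?_⟩
      unfold LR
      simp only [mul_one, mul_zero, sub_zero, one_mul]
      exact (abs1 x).trans hc
  refine ⟨(h1.union h3).subset hsub, ?_⟩
  have h5 : ((Pt α γ N A X).ncard : ℝ) ≤ ({x | x ∈ PtR α γ (max A 0) (B * X) ∧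
      X ^ (1 / dg k m + δ) ≤ (htn x : ℝ)} : Set (ℤ × ℤ)).ncard +
      ({x : ℤ × ℤ | (htn x : ℝ) ≤ X ^ (1 / dg k m + δ) ∧
        |LR ((0 : ℝ), (1 : ℝ)) x| ≤ 1 * X ^ (1 / dg k m + δ)}).ncard := by
    exact_mod_cast (Set.ncard_le_ncard hsub (h1.union h3)).trans (Set.ncard_union_le _ _)
  have h6 : X ^ (2 / dg k m - η) ≤ X ^ (2 / dg k m + 2 * δ) :=
    Real.rpow_le_rpow_of_exponent_le hX (by linarith)
  have h7 : (X ^ (1 / dg k m + δ)) ^ 2 = X ^ (2 / dg k m + 2 * δ) := by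
    rw [← Real.rpow_natCast, ← Real.rpow_mul (by linarith)]
    congr 1
    push_cast
    ring
  have h8 : X ^ (1 / dg k m + δ) ≤ (X ^ (1 / dg k m + δ)) ^ 2 := by nlinarith
  calc ((Pt α γ N A X).ncard : ℝ) ≤ C * X ^ (2 / dg k m - η) +
        C' * (1 * (X ^ (1 / dg k m + δ)) ^ 2 + X ^ (1 / dg k m + δ)) := by linarith
    _ ≤ C * X ^ (2 / dg k m + 2 * δ) +
        C' * (1 * (X ^ (1 / dg k m + δ)) ^ 2 + (X ^ (1 / dg k m + δ)) ^ 2) := by gcongr
    _ = _ := by rw [h7]; ring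

end

set_option maxHeartbeats 2000000 in
theorem main (hB : S_TLB) (hN : S_NR) (hSec : S_SEC) : S_PSV := by
  intro k m α γ e f hS N D hAF A δ hδ
  have hd := dg_pos (m := m) hS.three
  obtain ⟨Cn, hCn, hbd⟩ := hAF.bd
  set B : ℝ := (Cn : ℝ) with hBdef
  have hB1 : (1 : ℝ) ≤ B := by rw [hBdef]; exact_mod_cast hCn
  obtain ⟨CF, hCF1, hCF⟩ := form_bound (α := α) (γ := γ) (e := e) (f := f)
  have hBr : ∀ x, Gd α γ x → (radN (FP α γ x) : ℝ) ≤ B * N x := by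
    intro x hx
    rw [hBdef]
    exact_mod_cast (hbd x hx).1
  have fN : ∀ x, Gd α γ x → (N x : ℝ) ≤ B * CF * (htn x : ℝ) ^ (k + 2 * m) := by
    intro x hx
    have h1 : (N x : ℝ) ≤ B * radN (FP α γ x) := by
      rw [hBdef]
      exact_mod_cast (hbd x hx).2.1
    have h2 := radN_le hx.2
    have h3 := (hCF x).1
    calc (N x : ℝ) ≤ B * |(FP α γ x : ℝ)| := h1.trans (by gcongr)
      _ ≤ B * (CF * (htn x : ℝ) ^ (k + 2 * m)) := by gcongr
      _ = _ := by ring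
  have fD : ∀ x, Gd α γ x → (D x : ℝ) ≤ B * CF * (htn x : ℝ) ^ (wt e f) := by
    intro x hx
    have h1 : (D x : ℝ) ≤ B * FE α γ e f x := by
      rw [hBdef]
      exact_mod_cast (hbd x hx).2.2.1
    calc (D x : ℝ) ≤ B * (CF * (htn x : ℝ) ^ (wt e f)) := h1.trans (by
          have := (hCF x).2
          gcongr)
      _ = _ := by ring
  have fE : ∀ x, Gd α γ x → (FE α γ e f x : ℝ) ≤ B * D x := by
    intro x hx
    rw [hBdef]
    exact_mod_cast (hbd x hx).2.2.2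
  have hBC : (1 : ℝ) ≤ B * CF := by nlinarith
  obtain ⟨s, ρ, CN, E, hCN, hE1, hEw, hρ, hNR⟩ := hN k m α γ e f hS
  have hw1 : 1 ≤ wt e f := hE1.trans hEw
  have hw0 : (0 : ℝ) < wt e f := by exact_mod_cast hw1
  set r : ℝ := rr e f with hr
  have hr0 : 0 < r := by
    rw [hr]
    unfold rr
    positivity
  have hrd : r * dg k m = wt e f := by
    rw [hr]
    unfold rr
    field_simp
  have hE0 : (0 : ℝ) < E := by exact_mod_cast hE1
  set κ : ℝ := 2 / dg k m with hκ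
  have hκ0 : 0 < κ := by positivity
  have hκ2 : 1 / dg k m = κ / 2 := by rw [hκ]; ring
  -- parameters
  set δ1 : ℝ := min (1 / 2) (δ / (2 * (r + δ))) with hδ1
  have hδ1p : 0 < δ1 := lt_min (by norm_num) (by positivity)
  have hδ1h : δ1 ≤ 1 / 2 := min_le_left _ _
  have hδ1r : δ1 * (r + δ) ≤ δ / 2 := by
    have h1 : δ1 ≤ δ / (2 * (r + δ)) := min_le_right _ _
    have h2 : 0 < r + δ := by positivity
    calc δ1 * (r + δ) ≤ δ / (2 * (r + δ)) * (r + δ) := by gcongr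
      _ = δ / 2 := by field_simp
  have hδ1r' : δ1 * r ≤ δ / 2 := by
    have h1 : δ1 * (r + δ) = δ1 * r + δ1 * δ := by ring
    have h2 : 0 < δ1 * δ := mul_pos hδ1p hδ
    linarith
  set δ' : ℝ := min (δ / (8 * E)) (κ / 4) with hδ'
  have hδ'p : 0 < δ' := lt_min (by positivity) (by positivity)
  have hδ'1 : δ' ≤ δ / (8 * E) := min_le_left _ _
  have hδ'2 : δ' ≤ κ / 4 := min_le_right _ _
  -- Q1
  have hQ1 : PSv κ (fun X => {x | x ∈ Pt α γ N A X ∧ (N x : ℝ) < X ^ (1 - δ1)}) := by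
    obtain ⟨C, hC, h⟩ := cnt hB hSec hS hB1 hBr (max A 0 / (1 - δ1)) (δ := κ * δ1 / 2)
      (by positivity)
    refine ⟨κ * δ1 ^ 2, C, by positivity, hC, fun X hX => ?_⟩
    have hX1 : 1 ≤ X ^ (1 - δ1) := Real.one_le_rpow hX (by linarith)
    obtain ⟨h1, h2⟩ := h (X ^ (1 - δ1)) hX1
    have hsub : {x | x ∈ Pt α γ N A X ∧ (N x : ℝ) < X ^ (1 - δ1)} ⊆
        Pt α γ N (max A 0 / (1 - δ1)) (X ^ (1 - δ1)) := by
      rintro x ⟨⟨a1, a2, a3, a4⟩, a5⟩
      refine ⟨a1, a2, ?_, a5.le⟩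
      rcases a3 with a3 | a3
      · exact Or.inl a3
      · refine Or.inr (a3.trans ?_)
        rw [← Real.rpow_mul (by linarith), mul_div_cancel₀ _ (by linarith : (1 - δ1) ≠ 0)]
        exact Real.rpow_le_rpow_of_exponent_le hX (le_max_left _ _)
    refine ⟨h1.subset hsub, ?_⟩
    have h3 : (({x | x ∈ Pt α γ N A X ∧ (N x : ℝ) < X ^ (1 - δ1)} : Set (ℤ × ℤ)).ncard : ℝ) ≤
        (Pt α γ N (max A 0 / (1 - δ1)) (X ^ (1 - δ1))).ncard := by
      exact_mod_cast Set.ncard_le_ncard hsub h1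
    refine (h3.trans h2).trans_eq ?_
    rw [← Real.rpow_mul (by linarith)]
    congr 2
    ring
  -- bounded ranges
  have hbdd : ∀ X0 : ℝ, ∃ U : Set (ℤ × ℤ), U.Finite ∧ ∀ X, 1 ≤ X → X ≤ X0 →
      Pt α γ N A X ⊆ U := by
    intro X0
    obtain ⟨_, _, _, _, h⟩ := hB k m α γ e f hS (max A 0) 1 one_pos
    refine ⟨PtR α γ (max A 0) (B * max X0 1), (h (B * max X0 1) (by
      nlinarith [le_max_right X0 1])).1, fun X hX hX0 => ?_⟩
    refine (pt_sub (D := D) hB1 hBr A X hX).trans (ptR_mono (le_max_right _ _) (by nlinarith) ?_)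
    have : X ≤ max X0 1 := hX0.trans (le_max_left _ _)
    gcongr
  -- Q4
  have hQ4 : PSv κ (fun X => {x | x ∈ Pt α γ N A X ∧ X ^ (1 / dg k m + δ') ≤ (htn x : ℝ)}) := by
    refine (tl hB hS hB1 (le_max_right A 0) hδ'p).mono fun X hX x hx => ?_
    exact ⟨pt_sub (D := D) hB1 hBr A X hX hx.1, hx.2⟩
  -- Q2
  have hQ2 : PSv κ (fun X => {x | x ∈ Pt α γ N A X ∧ X ^ (1 - δ1) ≤ (N x : ℝ) ∧
      (N x : ℝ) ^ (r + δ) < D x}) := by
    have hδ2 : 0 < δ / (4 * wt e f) := by positivity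
    obtain ⟨X0, hX0⟩ := evl (B * CF) (a := δ / 4) (by positivity)
    obtain ⟨U, hU, hU'⟩ := hbdd X0
    refine (tl hB hS hB1 (le_max_right A 0) hδ2).ev hκ0 X0 U hU ?_ ?_
    · rintro X hX hX1 x ⟨hx1, hx2, hx3⟩
      refine ⟨pt_sub (D := D) hB1 hBr A X hX hx1, ?_⟩
      by_contra hc
      push Not at hc
      have hg : Gd α γ x := ⟨hx1.1.1, hx1.2.1⟩
      have hXp : 0 < X := by linarith
      have h1 : (htn x : ℝ) ^ (wt e f) ≤ X ^ (r + δ / 4) := by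
        calc (htn x : ℝ) ^ (wt e f) ≤ (X ^ (1 / dg k m + δ / (4 * wt e f))) ^ (wt e f) :=
              pow_le_pow_left₀ (Nat.cast_nonneg _) hc.le _
          _ = X ^ (r + δ / 4) := by
              rw [← Real.rpow_natCast, ← Real.rpow_mul hXp.le]
              congr 1
              rw [hr]
              unfold rr
              field_simp
      have h2 : X ^ (r + δ / 2) ≤ (N x : ℝ) ^ (r + δ) := by
        calc X ^ (r + δ / 2) ≤ X ^ ((1 - δ1) * (r + δ)) :=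
              Real.rpow_le_rpow_of_exponent_le hX (by linarith)
          _ = (X ^ (1 - δ1)) ^ (r + δ) := by rw [← Real.rpow_mul hXp.le]
          _ ≤ (N x : ℝ) ^ (r + δ) := Real.rpow_le_rpow (by positivity) hx2 (by positivity)
      have h3 : X ^ (r + δ / 2) < B * CF * X ^ (r + δ / 4) := by
        calc X ^ (r + δ / 2) < D x := h2.trans_lt hx3
          _ ≤ B * CF * (htn x : ℝ) ^ (wt e f) := fD x hg
          _ ≤ B * CF * X ^ (r + δ / 4) := by gcongr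
      have h4 : X ^ (r + δ / 2) = X ^ (δ / 4) * X ^ (r + δ / 4) := by
        rw [← Real.rpow_add hXp]
        congr 1
        ring
      rw [h4] at h3
      have h5 := lt_of_mul_lt_mul_right h3 (by positivity)
      exact absurd (hX0 X hX1) (not_lt.2 h5.le)
    · rintro X hX hX1 x ⟨hx1, _⟩
      exact hU' X hX hX1 hx1
  -- Q3
  set C4 : ℝ := (B * CF) ^ r * (CN * B) with hC4
  have hC4p : 0 < C4 := by positivity
  have hQ3 : PSv κ (fun X => ⋃ j : Fin s, {x : ℤ × ℤ | (htn x : ℝ) ≤ X ^ (1 / dg k m + δ') ∧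
      |LR (ρ j) x| ≤ (C4 * X ^ (-(δ / 2))) ^ ((E : ℝ)⁻¹) * X ^ (1 / dg k m + δ')}) := by
    refine PSv.iUnion fun j => ?_
    obtain ⟨C, hC, h⟩ := sec hSec (ρ j) (hρ j)
    refine ⟨min (δ / (4 * E)) (κ / 4), C * (C4 ^ ((E : ℝ)⁻¹) + 1), lt_min (by positivity)
      (by positivity), by positivity, fun X hX => ?_⟩
    have hXp : 0 < X := by linarith
    have hH : 1 ≤ X ^ (1 / dg k m + δ') := Real.one_le_rpow hX (by positivity)
    obtain ⟨h1, h2⟩ := h (X ^ (1 / dg k m + δ')) ((C4 * X ^ (-(δ / 2))) ^ ((E : ℝ)⁻¹)) hH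
      (by positivity)
    refine ⟨h1, h2.trans ?_⟩
    have h3 : (C4 * X ^ (-(δ / 2))) ^ ((E : ℝ)⁻¹) * (X ^ (1 / dg k m + δ')) ^ 2 =
        C4 ^ ((E : ℝ)⁻¹) * X ^ (κ + 2 * δ' - δ / (2 * E)) := by
      rw [Real.mul_rpow hC4p.le (by positivity), ← Real.rpow_natCast (X ^ (1 / dg k m + δ')) 2,
        ← Real.rpow_mul hXp.le, ← Real.rpow_mul hXp.le, mul_assoc, ← Real.rpow_add hXp, hκ2]
      congr 2
      push_cast
      field_simp
      ring
    have h4 : X ^ (κ + 2 * δ' - δ / (2 * E)) ≤ X ^ (κ - min (δ / (4 * E)) (κ / 4)) := by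
      refine Real.rpow_le_rpow_of_exponent_le hX ?_
      have h5 := min_le_left (δ / (4 * E)) (κ / 4)
      have h6 : δ / (8 * E) = δ / E / 8 := by field_simp
      have h7 : δ / (2 * E) = δ / E / 2 := by field_simp
      have h8 : δ / (4 * E) = δ / E / 4 := by field_simp
      rw [h6] at hδ'1
      rw [h7]
      rw [h8] at h5 ⊢
      linarith
    have h5 : X ^ (1 / dg k m + δ') ≤ X ^ (κ - min (δ / (4 * E)) (κ / 4)) := by
      refine Real.rpow_le_rpow_of_exponent_le hX ?_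
      have h6 := min_le_right (δ / (4 * E)) (κ / 4)
      rw [hκ2]
      linarith
    rw [h3]
    calc C * (C4 ^ ((E : ℝ)⁻¹) * X ^ (κ + 2 * δ' - δ / (2 * E)) + X ^ (1 / dg k m + δ')) ≤
        C * (C4 ^ ((E : ℝ)⁻¹) * X ^ (κ - min (δ / (4 * E)) (κ / 4)) +
          X ^ (κ - min (δ / (4 * E)) (κ / 4))) := by gcongr
      _ = _ := by ring
  obtain ⟨η, C, hη, hC, h⟩ := ((hQ1.union hQ2).union (hQ3.union hQ4))
  refine ⟨η, C, hη, hC, fun X hX => ?_⟩
  obtain ⟨h1, h2⟩ := h X hX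
  refine le_trans ?_ h2
  have hXp : 0 < X := by linarith
  refine Nat.cast_le.2 (Set.ncard_le_ncard ?_ h1)
  rintro x ⟨hx1, hx2⟩
  have hg : Gd α γ x := ⟨hx1.1.1, hx1.2.1⟩
  have hN1 : (1 : ℝ) ≤ N x := by exact_mod_cast (hAF.pos x hg).1
  have hD1 : (1 : ℝ) ≤ D x := by exact_mod_cast (hAF.pos x hg).2
  by_cases hc1 : (N x : ℝ) < X ^ (1 - δ1)
  · exact Or.inl (Or.inl ⟨hx1, hc1⟩)
  · push Not at hc1
    by_cases hc4 : X ^ (1 / dg k m + δ') ≤ (htn x : ℝ)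
    · exact Or.inr (Or.inr ⟨hx1, hc4⟩)
    · push Not at hc4
      by_cases hc2 : (N x : ℝ) ^ (r + δ) < D x
      · exact Or.inl (Or.inr ⟨hx1, hc1, hc2⟩)
      · push Not at hc2
        have hc3 : (D x : ℝ) < (N x : ℝ) ^ (r - δ) := by
          by_contra hc
          push Not at hc
          exact hx2 ⟨hc, hc2⟩
        right
        left
        rw [Set.mem_iUnion]
        obtain ⟨j, _, hj⟩ := hNR x
        refine ⟨j, hc4.le, ?_⟩
        have hht : (1 : ℝ) ≤ htn x := by exact_mod_cast htn_pos hx1.1.1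
        have hrδ : 0 < r - δ := by
          by_contra hc
          push Not at hc
          have := Real.rpow_le_one_of_one_le_of_nonpos hN1 hc
          linarith
        have k1 : (N x : ℝ) ^ (r - δ) ≤ X ^ (r - δ) :=
          Real.rpow_le_rpow (by linarith) hx1.2.2.2 hrδ.le
        have k2 : |LR (ρ j) x| ^ E * (htn x : ℝ) ^ (wt e f - E) ≤ CN * B * X ^ (r - δ) := by
          calc _ ≤ CN * (FE α γ e f x : ℝ) := hj
            _ ≤ CN * (B * D x) := by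
              have := fE x hg
              gcongr
            _ ≤ CN * (B * X ^ (r - δ)) := by
              have : (D x : ℝ) ≤ X ^ (r - δ) := hc3.le.trans k1
              gcongr
            _ = _ := by ring
        have k3 : X ^ ((1 - δ1) * r) ≤ (B * CF) ^ r * (htn x : ℝ) ^ (wt e f) := by
          calc X ^ ((1 - δ1) * r) = (X ^ (1 - δ1)) ^ r := by rw [← Real.rpow_mul hXp.le]
            _ ≤ (N x : ℝ) ^ r := Real.rpow_le_rpow (by positivity) hc1 hr0.le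
            _ ≤ (B * CF * (htn x : ℝ) ^ (k + 2 * m)) ^ r :=
              Real.rpow_le_rpow (by linarith) (fN x hg) hr0.le
            _ = (B * CF) ^ r * (htn x : ℝ) ^ (wt e f) := by
              rw [Real.mul_rpow (by positivity) (by positivity), ← Real.rpow_natCast,
                ← Real.rpow_mul (by positivity), ← Real.rpow_natCast]
              congr 2
              rw [← hrd]
              unfold dg
              push_cast
              ring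
        have k4 : |LR (ρ j) x| ^ E * X ^ ((1 - δ1) * r) ≤
            C4 * X ^ (r - δ) * (htn x : ℝ) ^ E := by
          calc |LR (ρ j) x| ^ E * X ^ ((1 - δ1) * r) ≤
              |LR (ρ j) x| ^ E * ((B * CF) ^ r * (htn x : ℝ) ^ (wt e f)) := by gcongr
            _ = (B * CF) ^ r * (|LR (ρ j) x| ^ E * (htn x : ℝ) ^ (wt e f - E)) *
                (htn x : ℝ) ^ E := by
              rw [show (htn x : ℝ) ^ (wt e f) = (htn x : ℝ) ^ (wt e f - E) * (htn x : ℝ) ^ E by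
                rw [← pow_add, Nat.sub_add_cancel hEw]]
              ring
            _ ≤ (B * CF) ^ r * (CN * B * X ^ (r - δ)) * (htn x : ℝ) ^ E := by gcongr
            _ = _ := by rw [hC4]; ring
        have k5 : |LR (ρ j) x| ^ E ≤ C4 * X ^ (-(δ / 2)) * (htn x : ℝ) ^ E := by
          have hXr : 0 < X ^ ((1 - δ1) * r) := by positivity
          refine le_of_mul_le_mul_right ?_ hXr
          refine k4.trans ?_
          have k6 : X ^ (r - δ) ≤ X ^ (-(δ / 2)) * X ^ ((1 - δ1) * r) := by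
            rw [← Real.rpow_add hXp]
            refine Real.rpow_le_rpow_of_exponent_le hX ?_
            have e9 : (1 - δ1) * r = r - δ1 * r := by ring
            rw [e9]
            linarith
          calc C4 * X ^ (r - δ) * (htn x : ℝ) ^ E ≤
              C4 * (X ^ (-(δ / 2)) * X ^ ((1 - δ1) * r)) * (htn x : ℝ) ^ E := by gcongr
            _ = _ := by ring
        have k7 : |LR (ρ j) x| ≤ (C4 * X ^ (-(δ / 2))) ^ ((E : ℝ)⁻¹) * htn x := by
          rw [← pow_le_pow_iff_left₀ (abs_nonneg _) (by positivity) (by omega : E ≠ 0), mul_pow,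
            Real.rpow_inv_natCast_pow (by positivity) (by omega)]
          exact k5
        refine k7.trans ?_
        gcongr

end Pool.Agent.L0h46.TS.PSV
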