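import Mathlib
import Pool.Agent.L0h46.TS.Defs

/-!
# Project TS, part RED: arbitrary quadratic forms instead of monic ones
-/

set_option autoImplicit false

namespace Pool.Agent.L0h46.TS.RED

open Finset Filter Topology
open Pool.Agent.L0h46.TQ (Nrm Lf htn Indep lg hh N1 Qf Irr NQ PtsQ)
open Pool.Agent.L0h46.TS

/-- the gcd divided out -/
def gg (a : ℕ) (x : ℤ × ℤ) : ℕ := Int.gcd ((a : ℤ) * x.1) x.2

/-- the new point -/
def tr (a : ℕ) (x : ℤ × ℤ) : ℤ × ℤ := ((a : ℤ) * x.1 / (gg a x : ℤ), x.2 / (gg a x : ℤ))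

theorem nrm_ne {x : ℤ × ℤ} (hx : Nrm x) : x.1 ≠ 0 ∨ x.2 ≠ 0 := by
  rcases hx.2 with h | h
  · exact Or.inr h.ne'
  · exact Or.inl h.2.ne'

theorem gg_pos {a : ℕ} (ha : 0 < a) {x : ℤ × ℤ} (hx : Nrm x) : 0 < gg a x := by
  unfold gg
  rw [Int.gcd_pos_iff]
  rcases nrm_ne hx with h | h
  · left
    exact mul_ne_zero (by exact_mod_cast ha.ne') h
  · right
    exact h

theorem tr1 (a : ℕ) (x : ℤ × ℤ) : (a : ℤ) * x.1 = gg a x * (tr a x).1 := by
  unfold tr
  exact (Int.mul_ediv_cancel' (Int.gcd_dvd_left ..)).symm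

theorem tr2 (a : ℕ) (x : ℤ × ℤ) : x.2 = gg a x * (tr a x).2 := by
  unfold tr
  exact (Int.mul_ediv_cancel' (Int.gcd_dvd_right ..)).symm

theorem gg_dvd {a : ℕ} {x : ℤ × ℤ} (hx : Nrm x) : gg a x ∣ a := by
  have h1 : ((gg a x : ℕ) : ℤ) ∣ (a : ℤ) * x.1 := Int.gcd_dvd_left ..
  have h2 : ((gg a x : ℕ) : ℤ) ∣ x.2 := Int.gcd_dvd_right ..
  have h3 : IsCoprime ((gg a x : ℕ) : ℤ) x.1 := by
    have := hx.1.symm
    exact IsCoprime.of_isCoprime_of_dvd_left this h2
  have h4 := h3.dvd_of_dvd_mul_right h1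
  exact_mod_cast h4

theorem tr_nrm {a : ℕ} (ha : 0 < a) {x : ℤ × ℤ} (hx : Nrm x) : Nrm (tr a x) := by
  have hg := gg_pos ha hx
  have hg' : (0 : ℤ) < gg a x := by exact_mod_cast hg
  refine ⟨?_, ?_⟩
  · rw [Int.isCoprime_iff_gcd_eq_one]
    unfold tr
    exact Int.gcd_ediv_gcd_ediv_gcd hg
  · have e1 := tr1 a x
    have e2 := tr2 a x
    rcases hx.2 with h | h
    · left
      by_contra hc
      push Not at hc
      have : (gg a x : ℤ) * (tr a x).2 ≤ 0 := mul_nonpos_of_nonneg_of_nonpos hg'.le hc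
      omega
    · right
      refine ⟨?_, ?_⟩
      · have : (gg a x : ℤ) * (tr a x).2 = 0 := by rw [← e2]; exact h.1
        rcases mul_eq_zero.mp this with h5 | h5
        · omega
        · exact h5
      · by_contra hc
        push Not at hc
        have h6 : (gg a x : ℤ) * (tr a x).1 ≤ 0 := mul_nonpos_of_nonneg_of_nonpos hg'.le hc
        have h7 : 0 < (a : ℤ) * x.1 := mul_pos (by exact_mod_cast ha) h.2
        omega

theorem tr_inj {a : ℕ} (ha : 0 < a) {x y : ℤ × ℤ} (hx : Nrm x) (hy : Nrm y)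
    (h : tr a x = tr a y) : x = y := by
  have e1 := tr1 a x
  have e2 := tr2 a x
  have f1 := tr1 a y
  have f2 := tr2 a y
  rw [h] at e1 e2
  have ha' : (a : ℤ) ≠ 0 := by exact_mod_cast ha.ne'
  have k1 : (gg a y : ℤ) * x.1 = gg a x * y.1 := by
    apply mul_left_cancel₀ ha'
    linear_combination (gg a y : ℤ) * e1 - (gg a x : ℤ) * f1
  have k2 : (gg a y : ℤ) * x.2 = gg a x * y.2 := by
    linear_combination (gg a y : ℤ) * e2 - (gg a x : ℤ) * f2
  have k3 : gg a x = gg a y := by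
    have l1 : Int.gcd ((gg a y : ℤ) * x.1) ((gg a y : ℤ) * x.2) = gg a y := by
      rw [Int.gcd_mul_left, Int.isCoprime_iff_gcd_eq_one.mp hx.1]
      simp
    have l2 : Int.gcd ((gg a x : ℤ) * y.1) ((gg a x : ℤ) * y.2) = gg a x := by
      rw [Int.gcd_mul_left, Int.isCoprime_iff_gcd_eq_one.mp hy.1]
      simp
    rw [k1, k2] at l1
    rw [← l1, l2]
  have hg' : (gg a y : ℤ) ≠ 0 := by exact_mod_cast (gg_pos ha hy).ne'
  rw [k3] at k1 k2
  exact Prod.ext (mul_left_cancel₀ hg' k1) (mul_left_cancel₀ hg' k2)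

theorem ht_le {a : ℕ} (ha : 0 < a) {x : ℤ × ℤ} (hx : Nrm x) : htn (tr a x) ≤ a * htn x := by
  have hg := gg_pos ha hx
  have e1 : a * x.1.natAbs = gg a x * (tr a x).1.natAbs := by
    have := congrArg Int.natAbs (tr1 a x)
    rwa [Int.natAbs_mul, Int.natAbs_mul, Int.natAbs_natCast, Int.natAbs_natCast] at this
  have e2 : x.2.natAbs = gg a x * (tr a x).2.natAbs := by
    have := congrArg Int.natAbs (tr2 a x)
    rwa [Int.natAbs_mul, Int.natAbs_natCast] at this
  unfold htn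
  have h1 : (tr a x).1.natAbs ≤ a * x.1.natAbs := by
    rw [e1]; exact Nat.le_mul_of_pos_left _ hg
  have h2 : (tr a x).2.natAbs ≤ x.2.natAbs := by
    rw [e2]; exact Nat.le_mul_of_pos_left _ hg
  refine max_le (h1.trans (Nat.mul_le_mul_left _ (le_max_left _ _))) ?_
  calc (tr a x).2.natAbs ≤ x.2.natAbs := h2
    _ ≤ max x.1.natAbs x.2.natAbs := le_max_right _ _
    _ ≤ a * max x.1.natAbs x.2.natAbs := Nat.le_mul_of_pos_left _ ha

theorem le_ht {a : ℕ} (ha : 0 < a) {x : ℤ × ℤ} (hx : Nrm x) : htn x ≤ a * htn (tr a x) := by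
  have hg := gg_pos ha hx
  have hga := Nat.le_of_dvd ha (gg_dvd (a := a) hx)
  have e1 : a * x.1.natAbs = gg a x * (tr a x).1.natAbs := by
    have := congrArg Int.natAbs (tr1 a x)
    rwa [Int.natAbs_mul, Int.natAbs_mul, Int.natAbs_natCast, Int.natAbs_natCast] at this
  have e2 : x.2.natAbs = gg a x * (tr a x).2.natAbs := by
    have := congrArg Int.natAbs (tr2 a x)
    rwa [Int.natAbs_mul, Int.natAbs_natCast] at this
  unfold htn
  refine max_le ?_ ?_
  · have h1 : a * x.1.natAbs ≤ a * (tr a x).1.natAbs := by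
      rw [e1]; exact Nat.mul_le_mul_right _ hga
    have h2 := Nat.le_of_mul_le_mul_left h1 ha
    calc x.1.natAbs ≤ (tr a x).1.natAbs := h2
      _ ≤ max (tr a x).1.natAbs (tr a x).2.natAbs := le_max_left _ _
      _ ≤ a * _ := Nat.le_mul_of_pos_left _ ha
  · calc x.2.natAbs = gg a x * (tr a x).2.natAbs := e2
      _ ≤ a * (tr a x).2.natAbs := Nat.mul_le_mul_right _ hga
      _ ≤ a * _ := Nat.mul_le_mul_left _ (le_max_right _ _)

theorem ht_pos {x : ℤ × ℤ} (hx : Nrm x) : 0 < htn x := by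
  unfold htn
  rcases nrm_ne hx with h | h
  · exact lt_max_of_lt_left (Int.natAbs_pos.mpr h)
  · exact lt_max_of_lt_right (Int.natAbs_pos.mpr h)

theorem lg_le {S S' : Finset ℕ} {a : ℕ} (hS : S ∪ a.primeFactors ⊆ S') (ha : 0 < a)
    {n n' : ℤ} {c : ℤ} {g : ℤ} (h : n' * g = c * n) (hg : g ≠ 0)
    (hc : ∀ p : ℕ, p.Prime → (p : ℤ) ∣ c → p ∣ a) : lg S' n' ≤ lg S n := by
  unfold lg
  apply Finset.sum_le_sum_of_subset_of_nonneg
  · intro p hp
    rw [Finset.mem_sdiff, Nat.mem_primeFactors] at hp ⊢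
    obtain ⟨⟨hp1, hp2, hp3⟩, hp4⟩ := hp
    have hn' : n' ≠ 0 := by
      intro h0
      exact hp3 (by simp [h0])
    have hn : n ≠ 0 := by
      intro h0
      rw [h0, mul_zero] at h
      rcases mul_eq_zero.mp h with h1 | h1
      · exact hn' h1
      · exact hg h1
    refine ⟨⟨hp1, ?_, Int.natAbs_ne_zero.mpr hn⟩, fun hs => hp4 (hS (mem_union_left _ hs))⟩
    have h1 : (p : ℤ) ∣ c * n := by
      rw [← h]
      exact Dvd.dvd.mul_right (Int.natCast_dvd.mpr hp2) _
    rcases (Nat.prime_iff_prime_int.mp hp1).dvd_or_dvd h1 with h2 | h2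
    · exfalso
      apply hp4
      apply hS
      apply mem_union_right
      rw [Nat.mem_primeFactors]
      exact ⟨hp1, hc p hp1 h2, ha.ne'⟩
    · exact Int.natCast_dvd.mp h2
  · intro p _ _
    exact Real.log_natCast_nonneg p

theorem lg_nonneg (S : Finset ℕ) (n : ℤ) : 0 ≤ lg S n :=
  Finset.sum_nonneg fun p _ => Real.log_natCast_nonneg p

theorem N1_eq {q : ℕ} (α : Fin q → ℤ × ℤ) (S : Finset ℕ) (x : ℤ × ℤ) :
    N1 α S x = ∑ i, lg S (Lf (α i) x) := rfl

theorem main : S_RED := by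
  intro hCE k m hk α γ S hα hγ B A δ hδ
  have hγ1 : ∀ j, (γ j).1 ≠ 0 := by
    intro j h0
    apply hγ j
    rw [h0]
    exact ⟨(γ j).2.1, by ring⟩
  set a : ℕ := ∏ j, (γ j).1.natAbs with ha_def
  have ha : 0 < a := Finset.prod_pos fun j _ => Int.natAbs_pos.mpr (hγ1 j)
  have haZ : (a : ℤ) ≠ 0 := by exact_mod_cast ha.ne'
  have hb : ∀ j, ∃ b : ℤ, (a : ℤ) = (γ j).1 * b := by
    intro j
    have : (γ j).1.natAbs ∣ a := Finset.dvd_prod_of_mem _ (Finset.mem_univ j)
    have h2 : ((γ j).1 : ℤ) ∣ (a : ℤ) := by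
      rw [← Int.natAbs_dvd_natAbs, Int.natAbs_natCast]
      exact this
    obtain ⟨b, hb⟩ := h2
    exact ⟨b, hb⟩
  choose b hb using hb
  have hb0 : ∀ j, b j ≠ 0 := by
    intro j h0
    have := hb j
    rw [h0, mul_zero] at this
    exact haZ this
  set α' : Fin k → ℤ × ℤ := fun i => ((a : ℤ) * (α i).1, (α i).2) with hα'
  set β : Fin m → ℤ × ℤ := fun j => ((γ j).2.1 * b j, (γ j).2.2 * a * b j) with hβ
  set S' : Finset ℕ := S ∪ a.primeFactors with hS'
  have hI' : Indep α' := by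
    intro i j hij h
    apply hα i j hij
    simp only [hα'] at h
    apply mul_left_cancel₀ haZ
    linear_combination h
  have hIrr : ∀ j, Irr (β j) := by
    intro j hsq
    apply hγ j
    obtain ⟨r, hr⟩ := hsq
    have h1 : b j ^ 2 * ((γ j).2.1 ^ 2 - 4 * (γ j).1 * (γ j).2.2) = r ^ 2 := by
      simp only [hβ] at hr
      rw [pow_two r, ← hr, hb j]
      ring
    have h2 : b j ^ 2 ∣ r ^ 2 := ⟨_, h1.symm⟩
    have h3 : b j ∣ r := (Int.pow_dvd_pow_iff two_ne_zero).mp h2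
    obtain ⟨s, hs⟩ := h3
    refine ⟨s, ?_⟩
    have h4 : b j ^ 2 ≠ 0 := pow_ne_zero _ (hb0 j)
    apply mul_left_cancel₀ h4
    rw [h1, hs]
    ring
  obtain ⟨η, hη, C, hC, hmain⟩ := hCE k m hk α' β S' hI' hIrr ((a : ℝ) * B) A (δ / 2) (by linarith)
  set d : ℝ := (k : ℝ) + 2 * m with hd
  have hdpos : 0 < d := by
    have : (3 : ℝ) ≤ k := by exact_mod_cast hk
    have h2 : (0 : ℝ) ≤ m := Nat.cast_nonneg m
    rw [hd]; linarith
  -- the comparison of the counting functions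
  have hNG : ∀ x, Nrm x → NQ α' β S' (tr a x) ≤ NG α γ S x := by
    intro x hx
    have hg0 : (gg a x : ℤ) ≠ 0 := by exact_mod_cast (gg_pos ha hx).ne'
    unfold NQ NG
    rw [N1_eq, N1_eq]
    apply add_le_add
    · apply Finset.sum_le_sum
      intro i _
      refine lg_le (a := a) (subset_refl _) ha (c := a) (g := gg a x) ?_ hg0 ?_
      · unfold Lf
        simp only [hα']
        have e1 := tr1 a x
        have e2 := tr2 a x
        linear_combination (-(α i).2) * e1 + ((a : ℤ) * (α i).1) * e2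
      · intro p _ hp
        exact_mod_cast hp
    · apply Finset.sum_le_sum
      intro j _
      refine lg_le (a := a) (subset_refl _) ha (c := a * b j) (g := (gg a x : ℤ) ^ 2) ?_
        (pow_ne_zero _ hg0) ?_
      · unfold Qf Qg
        simp only [hβ]
        have e1 := tr1 a x
        have e2 := tr2 a x
        have e3 := hb j
        have e4 : ((tr a x).1 ^ 2 + (γ j).2.1 * b j * (tr a x).1 * (tr a x).2 +
            (γ j).2.2 * a * b j * (tr a x).2 ^ 2) * (gg a x : ℤ) ^ 2 =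
            (gg a x * (tr a x).1) ^ 2 + (γ j).2.1 * b j * (gg a x * (tr a x).1) *
            (gg a x * (tr a x).2) + (γ j).2.2 * a * b j * (gg a x * (tr a x).2) ^ 2 := by ring
        rw [e4, ← e1, ← e2]
        linear_combination ((a : ℤ) * x.1 ^ 2) * e3
      · intro p hp hpd
        have hba : b j ∣ (a : ℤ) := ⟨(γ j).1, by rw [hb j]; ring⟩
        rcases (Nat.prime_iff_prime_int.mp hp).dvd_or_dvd hpd with h2 | h2
        · exact_mod_cast h2
        · exact_mod_cast h2.trans hba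
  have hNG0 : ∀ x, 0 ≤ NG α γ S x := by
    intro x
    unfold NG
    rw [N1_eq]
    exact add_nonneg (Finset.sum_nonneg fun i _ => lg_nonneg _ _)
      (Finset.sum_nonneg fun i _ => lg_nonneg _ _)
  have hhh : ∀ x, hh x = Real.log (htn x : ℕ) := fun x => rfl
  have hhh0 : ∀ x, 0 ≤ hh x := fun x => Real.log_natCast_nonneg _
  have hhle : ∀ x, Nrm x → hh x ≤ hh (tr a x) + Real.log a := by
    intro x hx
    rw [hhh, hhh]
    have h1 : (0 : ℝ) < htn x := by exact_mod_cast ht_pos hx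
    have h2 : (0 : ℝ) < htn (tr a x) := by exact_mod_cast ht_pos (tr_nrm ha hx)
    have h3 : (0 : ℝ) < a := by exact_mod_cast ha
    rw [← Real.log_mul h2.ne' h3.ne']
    apply Real.log_le_log h1
    rw [mul_comm]
    exact_mod_cast le_ht ha hx
  -- the points of small height
  set H0 : ℝ := 2 * (d - δ) * Real.log a / δ with hH0
  set R : ℝ := a * Real.exp H0 with hR
  have hfinbox : ∀ R : ℝ, ({x : ℤ × ℤ | (htn x : ℝ) ≤ R} : Set (ℤ × ℤ)).Finite := by
    intro R
    apply Set.Finite.subset (Set.finite_Icc ((-⌈R⌉, -⌈R⌉) : ℤ × ℤ) (⌈R⌉, ⌈R⌉))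
    intro x hx
    have hx' : (htn x : ℝ) ≤ R := hx
    have h1 : (x.1.natAbs : ℝ) ≤ ⌈R⌉ := by
      have : (x.1.natAbs : ℝ) ≤ htn x := by exact_mod_cast le_max_left _ _
      linarith [Int.le_ceil R]
    have h2 : (x.2.natAbs : ℝ) ≤ ⌈R⌉ := by
      have : (x.2.natAbs : ℝ) ≤ htn x := by exact_mod_cast le_max_right _ _
      linarith [Int.le_ceil R]
    have h1' : |x.1| ≤ ⌈R⌉ := by
      have h3 : ((|x.1| : ℤ) : ℝ) ≤ ((⌈R⌉ : ℤ) : ℝ) := by
        rw [← Nat.cast_natAbs]; exact h1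
      exact_mod_cast h3
    have h2' : |x.2| ≤ ⌈R⌉ := by
      have h3 : ((|x.2| : ℤ) : ℝ) ≤ ((⌈R⌉ : ℤ) : ℝ) := by
        rw [← Nat.cast_natAbs]; exact h2
      exact_mod_cast h3
    rw [Set.mem_Icc, Prod.le_def, Prod.le_def]
    exact ⟨⟨(abs_le.mp h1').1, (abs_le.mp h2').1⟩, ⟨(abs_le.mp h1').2, (abs_le.mp h2').2⟩⟩
  set C1 : ℝ := (({x : ℤ × ℤ | (htn x : ℝ) ≤ R} : Set (ℤ × ℤ)).ncard : ℝ) with hC1
  have hC10 : 0 ≤ C1 := Nat.cast_nonneg _
  refine ⟨min η (2 / d), lt_min hη (by positivity), C1 + C, by linarith, ?_⟩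
  intro X hX
  have hXpos : 0 < X := by linarith
  set W : Set (ℤ × ℤ) := {x | Nrm x ∧ (∀ i, Lf (α i) x ≠ 0) ∧ (htn x : ℝ) ≤ B * X ^ A ∧
    NG α γ S x ≤ Real.log X ∧ NG α γ S x < (dg k m - δ) * hh x} with hW
  set T : Set (ℤ × ℤ) := {x | x ∈ PtsQ α' β S' ((a : ℝ) * B) A X ∧
    NQ α' β S' x < ((k : ℝ) + 2 * m - δ / 2) * hh x} with hT
  have hTfin : T.Finite := by
    apply (hfinbox ((a : ℝ) * B * X ^ A)).subset
    intro x hx
    exact hx.1.2.2.1
  have hsub : W ⊆ {x : ℤ × ℤ | (htn x : ℝ) ≤ R} ∪ (W ∩ {x | tr a x ∈ T}) := by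
    intro x hx
    obtain ⟨hx1, hx2, hx3, hx4, hx5⟩ := hx
    by_cases hsm : hh (tr a x) ≤ H0
    · left
      show (htn x : ℝ) ≤ R
      have h1 : (0 : ℝ) < htn (tr a x) := by exact_mod_cast ht_pos (tr_nrm ha hx1)
      have h2 : (htn (tr a x) : ℝ) ≤ Real.exp H0 := by
        rw [hhh] at hsm
        exact (Real.log_le_iff_le_exp h1).mp hsm
      calc (htn x : ℝ) ≤ a * htn (tr a x) := by exact_mod_cast le_ht ha hx1
        _ ≤ a * Real.exp H0 := by gcongr
    · right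
      push Not at hsm
      refine ⟨⟨hx1, hx2, hx3, hx4, hx5⟩, ?_⟩
      have hg0 : (gg a x : ℤ) ≠ 0 := by exact_mod_cast (gg_pos ha hx1).ne'
      have hle := hNG x hx1
      refine ⟨⟨tr_nrm ha hx1, ?_, ?_, hle.trans hx4⟩, ?_⟩
      · intro i h0
        have h1 : Lf (α' i) (tr a x) * gg a x = a * Lf (α i) x := by
          unfold Lf
          simp only [hα']
          have e1 := tr1 a x
          have e2 := tr2 a x
          linear_combination (-(α i).2) * e1 + ((a : ℤ) * (α i).1) * e2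
        rw [h0, zero_mul] at h1
        rcases mul_eq_zero.mp h1.symm with h2 | h2
        · exact haZ h2
        · exact hx2 i h2
      · calc (htn (tr a x) : ℝ) ≤ a * htn x := by exact_mod_cast ht_le ha hx1
          _ ≤ a * (B * X ^ A) := by gcongr
          _ = a * B * X ^ A := by ring
      · have hdd : dg k m = d := rfl
        rw [hdd] at hx5
        have hpos : 0 ≤ d - δ := by
          by_contra hneg
          push Not at hneg
          have h1 : (d - δ) * hh x ≤ 0 := mul_nonpos_of_nonpos_of_nonneg hneg.le (hhh0 x)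
          linarith [hNG0 x]
        have h2 : (d - δ) * hh x ≤ (d - δ) * (hh (tr a x) + Real.log a) :=
          mul_le_mul_of_nonneg_left (hhle x hx1) hpos
        have h3 : 2 * (d - δ) * Real.log a ≤ δ * hh (tr a x) := by
          rw [hH0, div_lt_iff₀ hδ] at hsm
          linarith
        calc NQ α' β S' (tr a x) ≤ NG α γ S x := hle
          _ < (d - δ) * hh x := hx5
          _ ≤ (d - δ) * (hh (tr a x) + Real.log a) := h2
          _ ≤ (d - δ / 2) * hh (tr a x) := by nlinarith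
  have hcard : (W ∩ {x | tr a x ∈ T}).ncard ≤ T.ncard := by
    refine Set.ncard_le_ncard_of_injOn (tr a) (fun x hx => hx.2) ?_ hTfin
    intro x hx y hy h
    exact tr_inj ha hx.1.1 hy.1.1 h
  have hfinW : W.Finite := by
    apply (hfinbox (B * X ^ A)).subset
    intro x hx
    exact hx.2.2.1
  have h1 : W.ncard ≤ ({x : ℤ × ℤ | (htn x : ℝ) ≤ R} : Set (ℤ × ℤ)).ncard + T.ncard := by
    calc W.ncard ≤ ({x : ℤ × ℤ | (htn x : ℝ) ≤ R} ∪ (W ∩ {x | tr a x ∈ T})).ncard :=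
          Set.ncard_le_ncard hsub ((hfinbox R).union (hfinW.subset Set.inter_subset_left))
      _ ≤ _ := Set.ncard_union_le _ _
      _ ≤ _ := by gcongr
  have h2 : (T.ncard : ℝ) ≤ C * X ^ (2 / d - η) := hmain X hX
  have h3 : (1 : ℝ) ≤ X ^ (2 / d - min η (2 / d)) :=
    Real.one_le_rpow hX (by linarith [min_le_right η (2 / d)])
  have h4 : X ^ (2 / d - η) ≤ X ^ (2 / d - min η (2 / d)) :=
    Real.rpow_le_rpow_of_exponent_le hX (by linarith [min_le_left η (2 / d)])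
  have h5 : dg k m = d := rfl
  rw [h5]
  calc (W.ncard : ℝ) ≤ C1 + T.ncard := by rw [hC1]; exact_mod_cast h1
    _ ≤ C1 * X ^ (2 / d - min η (2 / d)) + C * X ^ (2 / d - min η (2 / d)) := by
        have h6 : C1 ≤ C1 * X ^ (2 / d - min η (2 / d)) := le_mul_of_one_le_right hC10 h3
        have h7 : C * X ^ (2 / d - η) ≤ C * X ^ (2 / d - min η (2 / d)) := by gcongr
        linarith
    _ = (C1 + C) * X ^ (2 / d - min η (2 / d)) := by ring

end Pool.Agent.L0h46.TS.RED
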