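import Mathlib
import Pool.Agent.L0h46.TS.Defs

/-!
# Project TS, part SEC: points near a line
-/

set_option autoImplicit false

namespace Pool.Agent.L0h46.TS.SEC

open Finset
open Pool.Agent.L0h46.TS

theorem int_interval (a r : ℝ) (hr : 0 ≤ r) (F : Finset ℤ) (h : ∀ n ∈ F, |(n : ℝ) - a| ≤ r) :
    (F.card : ℝ) ≤ 2 * r + 1 := by
  have hsub : F ⊆ Finset.Icc ⌈a - r⌉ ⌊a + r⌋ := by
    intro n hn
    have := abs_le.1 (h n hn)
    rw [Finset.mem_Icc]
    constructor
    · exact Int.ceil_le.2 (by linarith)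
    · exact Int.le_floor.2 (by linarith)
  have hc := Finset.card_le_card hsub
  rw [Int.card_Icc] at hc
  have h1 : (F.card : ℝ) ≤ ((⌊a + r⌋ + 1 - ⌈a - r⌉).toNat : ℝ) := by exact_mod_cast hc
  refine h1.trans ?_
  have h2 : ((⌊a + r⌋ + 1 - ⌈a - r⌉).toNat : ℝ) = (((⌊a + r⌋ + 1 - ⌈a - r⌉).toNat : ℤ) : ℝ) := by
    push_cast; rfl
  rw [h2, Int.toNat_eq_max]
  push_cast
  have h3 := Int.floor_le (a + r)
  have h4 := Int.le_ceil (a - r)
  apply max_le
  · linarith
  · linarith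

theorem cnt (E : Finset (ℤ × ℤ)) (H r c : ℝ) (hH : 0 ≤ H) (hr : 0 ≤ r)
    (h2 : ∀ x ∈ E, |(x.2 : ℝ)| ≤ H) (h1 : ∀ x ∈ E, |(x.1 : ℝ) - c * x.2| ≤ r) :
    (E.card : ℝ) ≤ (2 * H + 1) * (2 * r + 1) := by
  classical
  have hI : ((E.image Prod.snd).card : ℝ) ≤ 2 * H + 1 := by
    apply int_interval 0 H hH
    intro n hn
    obtain ⟨x, hx, rfl⟩ := Finset.mem_image.1 hn
    simpa using h2 x hx
  have hsum : E.card = ∑ y ∈ E.image Prod.snd, (E.filter (fun x => x.2 = y)).card :=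
    Finset.card_eq_sum_card_image Prod.snd E
  rw [hsum]
  push_cast
  have hf : ∀ y ∈ E.image Prod.snd, ((E.filter (fun x => x.2 = y)).card : ℝ) ≤ 2 * r + 1 := by
    intro y _
    have hinj : Set.InjOn Prod.fst (E.filter (fun x => x.2 = y) : Set (ℤ × ℤ)) := by
      intro a ha b hb hab
      simp only [Finset.coe_filter, Set.mem_setOf_eq] at ha hb
      exact Prod.ext hab (ha.2.trans hb.2.symm)
    rw [← Finset.card_image_of_injOn hinj]
    apply int_interval (c * y) r hr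
    intro n hn
    obtain ⟨x, hx, rfl⟩ := Finset.mem_image.1 hn
    rw [Finset.mem_filter] at hx
    have := h1 x hx.1
    rw [hx.2] at this
    exact this
  calc ∑ y ∈ E.image Prod.snd, ((E.filter (fun x => x.2 = y)).card : ℝ)
      ≤ ∑ y ∈ E.image Prod.snd, (2 * r + 1) := Finset.sum_le_sum hf
    _ = ((E.image Prod.snd).card : ℝ) * (2 * r + 1) := by rw [Finset.sum_const, nsmul_eq_mul]
    _ ≤ _ := mul_le_mul_of_nonneg_right hI (by linarith)

theorem htn_abs1 (x : ℤ × ℤ) : |(x.1 : ℝ)| ≤ (Pool.Agent.L0h46.TQ.htn x : ℝ) := by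
  have : (x.1.natAbs : ℝ) ≤ (Pool.Agent.L0h46.TQ.htn x : ℝ) := by
    exact_mod_cast le_max_left _ _
  rwa [Nat.cast_natAbs, Int.cast_abs] at this

theorem htn_abs2 (x : ℤ × ℤ) : |(x.2 : ℝ)| ≤ (Pool.Agent.L0h46.TQ.htn x : ℝ) := by
  have : (x.2.natAbs : ℝ) ≤ (Pool.Agent.L0h46.TQ.htn x : ℝ) := by
    exact_mod_cast le_max_right _ _
  rwa [Nat.cast_natAbs, Int.cast_abs] at this

theorem fin (a H lam : ℝ) (ha : 0 < a) (hH : 1 ≤ H) (hl : 0 ≤ lam) :
    (2 * H + 1) * (2 * (lam * H / a) + 1) ≤ (6 / a + 3) * (lam * H ^ 2 + H) := by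
  have e : (6 / a + 3) * (lam * H ^ 2 + H) - (2 * H + 1) * (2 * (lam * H / a) + 1) =
    (2 * (lam * H / a)) * (H - 1) + 3 * (lam * H ^ 2) + 6 * H / a + (H - 1) := by
    field_simp
    ring
  have : 0 ≤ (2 * (lam * H / a)) * (H - 1) + 3 * (lam * H ^ 2) + 6 * H / a + (H - 1) := by
    have := sub_nonneg.2 hH
    positivity
  linarith

theorem main : S_SEC := by
  intro ρ hρ
  by_cases h2 : ρ.2 = 0
  · have h1 : ρ.1 ≠ 0 := fun h => hρ (Prod.ext h h2)
    have ha : 0 < |ρ.1| := abs_pos.2 h1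
    refine ⟨6 / |ρ.1| + 3, by positivity, ?_⟩
    intro H lam hH hl E hE
    have hc : (E.card : ℝ) ≤ (2 * H + 1) * (2 * (lam * H / |ρ.1|) + 1) := by
      classical
      rw [← Finset.card_image_of_injective E Prod.swap_injective]
      apply cnt _ H _ (ρ.2 / ρ.1) (by linarith) (by positivity)
      · intro x hx
        obtain ⟨y, hy, rfl⟩ := Finset.mem_image.1 hx
        exact (htn_abs1 y).trans (hE y hy).1
      · intro x hx
        obtain ⟨y, hy, rfl⟩ := Finset.mem_image.1 hx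
        have := (hE y hy).2
        simp only [Prod.fst_swap, Prod.snd_swap]
        rw [le_div_iff₀ ha, ← abs_mul]
        have e : ((y.2 : ℝ) - ρ.2 / ρ.1 * y.1) * ρ.1 = - LR ρ y := by
          unfold LR
          field_simp
          ring
        rw [e, abs_neg]
        exact this
    exact hc.trans (fin _ _ _ ha hH hl)
  · have ha : 0 < |ρ.2| := abs_pos.2 h2
    refine ⟨6 / |ρ.2| + 3, by positivity, ?_⟩
    intro H lam hH hl E hE
    have hc : (E.card : ℝ) ≤ (2 * H + 1) * (2 * (lam * H / |ρ.2|) + 1) := by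
      apply cnt _ H _ (ρ.1 / ρ.2) (by linarith) (by positivity)
      · intro x hx
        exact (htn_abs2 x).trans (hE x hx).1
      · intro x hx
        have := (hE x hx).2
        rw [le_div_iff₀ ha, ← abs_mul]
        have e : ((x.1 : ℝ) - ρ.1 / ρ.2 * x.2) * ρ.2 = LR ρ x := by
          unfold LR
          field_simp
        rw [e]
        exact this
    exact hc.trans (fin _ _ _ ha hH hl)

end Pool.Agent.L0h46.TS.SEC
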