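import Pool.Agent.L0h46.TS.Defs

/-!
# Project TS, module TLA: the points of height slightly larger than `X ^ (1 / d)`
-/

set_option autoImplicit false

namespace Pool.Agent.L0h46.TS.TLA

open Finset
open Pool.Agent.L0h46.TS
open Pool.Agent.L0h46.TQ (Nrm Lf htn Indep lg hh N1)

/-! ### The powerful part -/

theorem radN_pos (n : ℤ) : 0 < radN n :=
  Finset.prod_pos fun _ hp => (Nat.prime_of_mem_primeFactors hp).pos

theorem radN_mul_exc (n : ℤ) : radN n * exc n = n.natAbs :=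
  Nat.mul_div_cancel' (Nat.prod_primeFactors_dvd _)

theorem exc_eq {n : ℤ} (hn : n ≠ 0) :
    exc n = ∏ p ∈ n.natAbs.primeFactors, p ^ (n.natAbs.factorization p - 1) := by
  have h0 : n.natAbs ≠ 0 := Int.natAbs_ne_zero.2 hn
  have h : n.natAbs = radN n * ∏ p ∈ n.natAbs.primeFactors, p ^ (n.natAbs.factorization p - 1) := by
    unfold radN
    rw [← Finset.prod_mul_distrib]
    conv_lhs => rw [← Nat.prod_factorization_pow_eq_self h0]
    rw [Finsupp.prod, Nat.support_factorization]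
    refine Finset.prod_congr rfl fun p hp => ?_
    rw [← pow_succ']
    congr 1
    have h1 : n.natAbs.factorization p ≠ 0 := by
      rw [← Finsupp.mem_support_iff, Nat.support_factorization]
      exact hp
    omega
  exact Nat.div_eq_of_eq_mul_right (radN_pos n) h

/-- the powerful part -/
noncomputable def pw (n : ℕ) : ℕ :=
  (n.factorization.filter fun p => 2 ≤ n.factorization p).prod (· ^ ·)

theorem pw_factorization (n : ℕ) :
    (pw n).factorization = n.factorization.filter fun p => 2 ≤ n.factorization p := by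
  refine Nat.prod_pow_factorization_eq_self fun p hp => ?_
  rw [Finsupp.support_filter] at hp
  have h := (mem_filter.1 hp).1
  rw [Nat.support_factorization] at h
  exact Nat.prime_of_mem_primeFactors h

theorem pw_ne_zero (n : ℕ) : pw n ≠ 0 := by
  have h0 : 0 < pw n := by
    unfold pw Finsupp.prod
    refine Finset.prod_pos fun p hp => ?_
    rw [Finsupp.support_filter] at hp
    have h := (mem_filter.1 hp).1
    rw [Nat.support_factorization] at h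
    exact pow_pos (Nat.prime_of_mem_primeFactors h).pos _
  exact h0.ne'

theorem pw_primeFactors (n : ℕ) :
    (pw n).primeFactors = n.primeFactors.filter fun p => 2 ≤ n.factorization p := by
  rw [← Nat.support_factorization, pw_factorization, Finsupp.support_filter,
    Nat.support_factorization]

theorem pw_fac_apply {n p : ℕ} (hp : p ∈ (pw n).primeFactors) :
    (pw n).factorization p = n.factorization p ∧ 2 ≤ n.factorization p := by
  rw [pw_primeFactors] at hp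
  have h := (mem_filter.1 hp).2
  rw [pw_factorization, Finsupp.filter_apply, if_pos h]
  exact ⟨rfl, h⟩

theorem pw_dvd {n : ℕ} (hn : n ≠ 0) : pw n ∣ n := by
  rw [← Nat.factorization_le_iff_dvd (pw_ne_zero n) hn]
  intro p
  rw [pw_factorization, Finsupp.filter_apply]
  split_ifs
  · exact le_rfl
  · exact Nat.zero_le _

theorem pwf_pw (n : ℕ) : Pwf (pw n) := by
  refine ⟨Nat.pos_of_ne_zero (pw_ne_zero n), fun p hp h => ?_⟩
  have h1 : p ∈ (pw n).primeFactors := Nat.mem_primeFactors.2 ⟨hp, h, pw_ne_zero n⟩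
  obtain ⟨h2, h3⟩ := pw_fac_apply h1
  rw [hp.pow_dvd_iff_le_factorization (pw_ne_zero n), h2]
  exact h3

theorem exc_pw {n : ℕ} (hn : n ≠ 0) : exc ((pw n : ℕ) : ℤ) = exc ((n : ℕ) : ℤ) := by
  rw [exc_eq (by exact_mod_cast pw_ne_zero n), exc_eq (by exact_mod_cast hn)]
  simp only [Int.natAbs_natCast]
  rw [pw_primeFactors, Finset.prod_filter]
  refine Finset.prod_congr rfl fun p hp => ?_
  by_cases h : 2 ≤ n.factorization p
  · rw [if_pos h, pw_factorization, Finsupp.filter_apply, if_pos h]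
  · rw [if_neg h]
    have : n.factorization p - 1 = 0 := by omega
    rw [this, pow_zero]

theorem pw_le (n : ℕ) : pw n ≤ exc ((pw n : ℕ) : ℤ) ^ 2 := by
  rw [exc_eq (by exact_mod_cast pw_ne_zero n)]
  simp only [Int.natAbs_natCast]
  conv_lhs => rw [← Nat.prod_factorization_pow_eq_self (pw_ne_zero n)]
  rw [Finsupp.prod, Nat.support_factorization, ← Finset.prod_pow]
  refine Finset.prod_le_prod' fun p hp => ?_
  rw [← pow_mul]
  obtain ⟨h1, h2⟩ := pw_fac_apply hp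
  refine Nat.pow_le_pow_right (Nat.prime_of_mem_primeFactors hp).pos ?_
  rw [h1]
  omega

theorem exc_natAbs (n : ℤ) : exc ((n.natAbs : ℕ) : ℤ) = exc n := by
  unfold exc radN
  rw [Int.natAbs_natCast]

theorem exc_pos {n : ℤ} (hn : n ≠ 0) : 0 < exc n := by
  have h := radN_mul_exc n
  have h0 : n.natAbs ≠ 0 := Int.natAbs_ne_zero.2 hn
  rcases Nat.eq_zero_or_pos (exc n) with h1 | h1
  · rw [h1, mul_zero] at h
    exact absurd h.symm h0
  · exact h1

/-! ### Sums over powerful numbers -/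

theorem sum_exc {C : ℝ} (hC : 0 < C) (h : ∀ T : ℝ, 1 ≤ T → ∀ E : Finset ℕ,
    (∀ q ∈ E, Pwf q ∧ T ≤ (exc q : ℝ)) → ∑ q ∈ E, (q : ℝ) ^ (-(19 / 20) : ℝ) ≤ C * T ^ (-(4 / 5) : ℝ)) :
    ∃ B : ℝ, 0 < B ∧ ∀ K : ℝ, 1 ≤ K → ∀ Q : Finset ℕ, (∀ q ∈ Q, Pwf q ∧ (exc q : ℝ) < K) →
      ∑ q ∈ Q, (exc q : ℝ) * (q : ℝ) ^ (-(19 / 20) : ℝ) ≤ B * K ^ ((1 : ℝ) / 5) := by
  have hr : (1 : ℝ) < 2 ^ ((1 : ℝ) / 5) := Real.one_lt_rpow (by norm_num) (by norm_num)
  set r : ℝ := 2 ^ ((1 : ℝ) / 5) with hr0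
  refine ⟨2 * C * (r / (r - 1)), by have := sub_pos.2 hr; positivity, ?_⟩
  intro K hK Q hQ
  have hM : ⌊K⌋₊ ≠ 0 := by
    have : 1 ≤ ⌊K⌋₊ := Nat.le_floor (by exact_mod_cast hK)
    omega
  have hexc : ∀ q ∈ Q, exc (q : ℤ) ≠ 0 ∧ Nat.log 2 (exc (q : ℤ)) ∈ range (Nat.log 2 ⌊K⌋₊ + 1) := by
    intro q hq
    have h1 : (q : ℤ) ≠ 0 := by exact_mod_cast (hQ q hq).1.1.ne'
    have h2 : exc (q : ℤ) ≤ ⌊K⌋₊ := Nat.le_floor (hQ q hq).2.le
    exact ⟨(exc_pos h1).ne', mem_range.2 (Nat.lt_succ_of_le (Nat.log_mono_right h2))⟩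
  rw [← Finset.sum_fiberwise_of_maps_to (g := fun q : ℕ => Nat.log 2 (exc (q : ℤ)))
    (fun q hq => (hexc q hq).2)]
  have h1 : ∀ i ∈ range (Nat.log 2 ⌊K⌋₊ + 1),
      ∑ q ∈ Q.filter (fun q : ℕ => Nat.log 2 (exc (q : ℤ)) = i),
        (exc q : ℝ) * (q : ℝ) ^ (-(19 / 20) : ℝ) ≤ 2 * C * r ^ i := by
    intro i _
    have h2 := h ((2 : ℝ) ^ i) (one_le_pow₀ (by norm_num))
      (Q.filter (fun q : ℕ => Nat.log 2 (exc (q : ℤ)) = i)) (by
        intro q hq
        obtain ⟨hq1, hq2⟩ := mem_filter.1 hq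
        refine ⟨(hQ q hq1).1, ?_⟩
        have h3 := Nat.pow_log_le_self 2 (hexc q hq1).1
        rw [hq2] at h3
        exact_mod_cast h3)
    have h3 : ∑ q ∈ Q.filter (fun q : ℕ => Nat.log 2 (exc (q : ℤ)) = i),
        (exc q : ℝ) * (q : ℝ) ^ (-(19 / 20) : ℝ) ≤
        ∑ q ∈ Q.filter (fun q : ℕ => Nat.log 2 (exc (q : ℤ)) = i),
          (2 * (2 : ℝ) ^ i) * (q : ℝ) ^ (-(19 / 20) : ℝ) := by
      refine Finset.sum_le_sum fun q hq => ?_
      obtain ⟨hq1, hq2⟩ := mem_filter.1 hq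
      refine mul_le_mul_of_nonneg_right ?_ (Real.rpow_nonneg (Nat.cast_nonneg _) _)
      have h4 := Nat.lt_pow_succ_log_self (b := 2) (by norm_num) (exc (q : ℤ))
      rw [hq2] at h4
      have h5 : (exc (q : ℤ) : ℝ) ≤ ((2 ^ (i + 1) : ℕ) : ℝ) := by exact_mod_cast h4.le
      rw [pow_succ] at h5
      push_cast at h5
      linarith
    rw [← Finset.mul_sum] at h3
    refine h3.trans ((mul_le_mul_of_nonneg_left h2 (by positivity)).trans (le_of_eq ?_))
    have h6 : r ^ i = (2 : ℝ) ^ i * ((2 : ℝ) ^ i) ^ (-(4 / 5) : ℝ) := by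
      have h7 : r ^ i = ((2 : ℝ) ^ i) ^ ((1 : ℝ) / 5) := by
        rw [hr0, ← Real.rpow_natCast, ← Real.rpow_mul (by norm_num), mul_comm, Real.rpow_mul (by norm_num),
          Real.rpow_natCast]
      rw [h7]
      nth_rewrite 2 [← Real.rpow_one ((2 : ℝ) ^ i)]
      rw [← Real.rpow_add (by positivity)]
      norm_num
    rw [h6]
    ring
  refine (Finset.sum_le_sum h1).trans ?_
  rw [← Finset.mul_sum, geom_sum_eq hr.ne']
  have h2 : r ^ (Nat.log 2 ⌊K⌋₊) ≤ K ^ ((1 : ℝ) / 5) := by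
    have h3 : r ^ (Nat.log 2 ⌊K⌋₊) = ((2 : ℝ) ^ (Nat.log 2 ⌊K⌋₊)) ^ ((1 : ℝ) / 5) := by
      rw [hr0, ← Real.rpow_natCast, ← Real.rpow_mul (by norm_num), mul_comm, Real.rpow_mul (by norm_num),
        Real.rpow_natCast]
    rw [h3]
    refine Real.rpow_le_rpow (by positivity) ?_ (by norm_num)
    have h4 := Nat.pow_log_le_self 2 hM
    have h5 : ((2 ^ (Nat.log 2 ⌊K⌋₊) : ℕ) : ℝ) ≤ (⌊K⌋₊ : ℝ) := by exact_mod_cast h4
    push_cast at h5
    exact h5.trans (Nat.floor_le (by linarith))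
  have h3 : (r ^ (Nat.log 2 ⌊K⌋₊ + 1) - 1) / (r - 1) ≤ r / (r - 1) * K ^ ((1 : ℝ) / 5) := by
    rw [div_mul_eq_mul_div]
    refine div_le_div_of_nonneg_right ?_ (sub_pos.2 hr).le
    rw [pow_succ]
    have : (0 : ℝ) < r := by linarith
    nlinarith
  calc 2 * C * ((r ^ (Nat.log 2 ⌊K⌋₊ + 1) - 1) / (r - 1))
      ≤ 2 * C * (r / (r - 1) * K ^ ((1 : ℝ) / 5)) := mul_le_mul_of_nonneg_left h3 (by positivity)
    _ = 2 * C * (r / (r - 1)) * K ^ ((1 : ℝ) / 5) := by ring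

/-! ### The bound -/

theorem core (hC : S_CNT) (hQ : S_SMQ) (hN : S_NR) (hP : S_POW) {k m : ℕ} {α : Fin k → ℤ × ℤ}
    {γ : Fin m → ℤ × ℤ × ℤ} {e : Fin k → ℕ} {f : Fin m → ℕ} (hs : Sys α γ e f) :
    ∃ C : ℝ, 0 < C ∧ ∀ X H K : ℝ, 1 ≤ X → 1 ≤ H → 1 ≤ K → K * X = H ^ (k + 2 * m) →
      ∀ E : Finset (ℤ × ℤ), (∀ x ∈ E, Gd α γ x ∧ H < (htn x : ℝ) ∧ (htn x : ℝ) ≤ 2 * H ∧
        (radN (FP α γ x) : ℝ) ≤ X) →
      (E.card : ℝ) ≤ C * (H ^ 2 * K ^ (-(4 / 5) : ℝ) + K ^ ((11 : ℝ) / 10) +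
        H ^ ((9 : ℝ) / 5)) := by
  classical
  obtain ⟨s, ρ, CN, E0, hCN, _, _, hρ, hnr⟩ := hN k m α γ e f hs
  choose J hJ using hnr
  choose Cc hCc0 hCc using fun j => hC k m α γ e f hs (ρ j) (hρ j)
  obtain ⟨Cp, hCp, hp⟩ := hP k m α γ e f hs
  obtain ⟨Cs, hCs, hs1, hs2⟩ := hQ
  obtain ⟨B, hB, hb⟩ := sum_exc hCs hs1
  have hS0 : 0 ≤ ∑ j, Cc j := Finset.sum_nonneg fun j _ => (hCc0 j).le
  refine ⟨4 * Cp + (∑ j, Cc j) * (Cs + CN * B), by positivity, ?_⟩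
  intro X H K hX hH hK hKX E hE
  have hK0 : 0 < K := by linarith
  have hH0 : 0 < H := by linarith
  have hX0 : 0 < X := by linarith
  have hn1 : k + 2 * m - 1 + 1 = k + 2 * m := by have := hs.three; omega
  have hcard : (E.card : ℝ) = ((E.filter fun x => K ≤ (exc (FP α γ x) : ℝ)).card : ℝ) +
      ((E.filter fun x => ¬ K ≤ (exc (FP α γ x) : ℝ)).card : ℝ) := by
    rw [← Nat.cast_add, Finset.card_filter_add_card_filter_not]
  -- the points with a large powerful part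
  have hbig : ((E.filter fun x => K ≤ (exc (FP α γ x) : ℝ)).card : ℝ) ≤
      4 * Cp * (H ^ 2 * K ^ (-(4 / 5) : ℝ) + H ^ ((9 : ℝ) / 5)) := by
    have h1 := hp (2 * H) K (by linarith) hK (E.filter fun x => K ≤ (exc (FP α γ x) : ℝ)) (by
      intro x hx
      obtain ⟨hx1, hx2⟩ := mem_filter.1 hx
      obtain ⟨h2, _, h3, _⟩ := hE x hx1
      exact ⟨h2, h3, hx2⟩)
    refine h1.trans ?_
    rw [mul_pow, Real.mul_rpow (by norm_num) hH0.le]
    have h2 : (2 : ℝ) ^ ((9 : ℝ) / 5) ≤ 4 := by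
      have h3 : (2 : ℝ) ^ ((9 : ℝ) / 5) ≤ (2 : ℝ) ^ (2 : ℝ) :=
        Real.rpow_le_rpow_of_exponent_le (by norm_num) (by norm_num)
      refine h3.trans (le_of_eq ?_)
      norm_num
    have h4 : 0 ≤ H ^ ((9 : ℝ) / 5) := Real.rpow_nonneg hH0.le _
    have h5 : (2 : ℝ) ^ ((9 : ℝ) / 5) * H ^ ((9 : ℝ) / 5) ≤ 4 * H ^ ((9 : ℝ) / 5) :=
      mul_le_mul_of_nonneg_right h2 h4
    calc Cp * (2 ^ 2 * H ^ 2 * K ^ (-(4 / 5) : ℝ) + 2 ^ ((9 : ℝ) / 5) * H ^ ((9 : ℝ) / 5))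
        ≤ Cp * (2 ^ 2 * H ^ 2 * K ^ (-(4 / 5) : ℝ) + 4 * H ^ ((9 : ℝ) / 5)) :=
          mul_le_mul_of_nonneg_left (by linarith) hCp.le
      _ = 4 * Cp * (H ^ 2 * K ^ (-(4 / 5) : ℝ) + H ^ ((9 : ℝ) / 5)) := by ring
  -- the other points
  set Es := E.filter fun x => ¬ K ≤ (exc (FP α γ x) : ℝ) with hEs
  set Q := Es.image fun x => pw (FP α γ x).natAbs with hQd
  have hx0 : ∀ x ∈ Es, FP α γ x ≠ 0 := fun x hx => (hE x (mem_filter.1 hx).1).1.2
  have hpx : ∀ x ∈ Es, exc ((pw (FP α γ x).natAbs : ℕ) : ℤ) = exc (FP α γ x) := by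
    intro x hx
    rw [exc_pw (Int.natAbs_ne_zero.2 (hx0 x hx)), exc_natAbs]
  have hQ1 : ∀ q ∈ Q, Pwf q ∧ (exc (q : ℤ) : ℝ) < K := by
    intro q hq
    obtain ⟨x, hx, rfl⟩ := mem_image.1 hq
    refine ⟨pwf_pw _, ?_⟩
    rw [hpx x hx]
    exact not_le.1 (mem_filter.1 hx).2
  have hQ2 : ∀ q ∈ Q, (q : ℝ) ≤ K ^ (2 : ℕ) := by
    intro q hq
    have h1 := (hQ1 q hq).2
    obtain ⟨x, hx, rfl⟩ := mem_image.1 hq
    have h2 := pw_le (FP α γ x).natAbs
    have h3 : ((pw (FP α γ x).natAbs : ℕ) : ℝ) ≤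
        (exc ((pw (FP α γ x).natAbs : ℕ) : ℤ) : ℝ) ^ 2 := by exact_mod_cast h2
    exact h3.trans (pow_le_pow_left₀ (Nat.cast_nonneg _) h1.le 2)
  have hfib : ∀ j : Fin s, ∀ q ∈ Q,
      ((Es.filter fun x => (J x, pw (FP α γ x).natAbs) = (j, q)).card : ℝ) ≤
      Cc j * ((q : ℝ) ^ ((1 : ℝ) / 20) + CN * H ^ 2 / K *
        ((exc (q : ℤ) : ℝ) * (q : ℝ) ^ (-(19 / 20) : ℝ))) := by
    intro j q hq
    have hq0 : 0 < q := (hQ1 q hq).1.1
    have hq0' : (0 : ℝ) < q := by exact_mod_cast hq0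
    have he0 : (0 : ℝ) < (exc (q : ℤ) : ℝ) := by
      exact_mod_cast exc_pos (n := (q : ℤ)) (by exact_mod_cast hq0.ne')
    have h1 := hCc j H (CN * (exc (q : ℤ) : ℝ) / K) (by linarith) (by positivity) q hq0
      (Es.filter fun x => (J x, pw (FP α γ x).natAbs) = (j, q)) (by
        intro x hx
        obtain ⟨hx1, hx2⟩ := mem_filter.1 hx
        have hx3 : J x = j := (Prod.ext_iff.1 hx2).1
        have hx4 : pw (FP α γ x).natAbs = q := (Prod.ext_iff.1 hx2).2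
        obtain ⟨h2, h3, h4, h5⟩ := hE x (mem_filter.1 hx1).1
        refine ⟨h2.1, h3, h4, ?_, ?_⟩
        · have h6 := (hJ x).1
          rw [hx3] at h6
          have h7 : |(FP α γ x : ℝ)| ≤ X * (exc (q : ℤ) : ℝ) := by
            have h8 : |(FP α γ x : ℝ)| = (radN (FP α γ x) : ℝ) * (exc (FP α γ x) : ℝ) := by
              rw [← Nat.cast_mul, radN_mul_exc, Nat.cast_natAbs, Int.cast_abs]
            rw [h8, ← hx4, hpx x hx1]
            exact mul_le_mul_of_nonneg_right h5 (Nat.cast_nonneg _)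
          have h9 : |LR (ρ j) x| * H ^ (k + 2 * m - 1) ≤
              (CN * (exc (q : ℤ) : ℝ) / K * H) * H ^ (k + 2 * m - 1) := by
            have h10 : (CN * (exc (q : ℤ) : ℝ) / K * H) * H ^ (k + 2 * m - 1) =
                CN * (X * (exc (q : ℤ) : ℝ)) := by
              have h11 : H * H ^ (k + 2 * m - 1) = K * X := by
                rw [hKX, ← pow_succ', hn1]
              rw [mul_assoc, h11]
              field_simp
            rw [h10]
            calc |LR (ρ j) x| * H ^ (k + 2 * m - 1)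
                ≤ |LR (ρ j) x| * (htn x : ℝ) ^ (k + 2 * m - 1) :=
                  mul_le_mul_of_nonneg_left (pow_le_pow_left₀ hH0.le h3.le _) (abs_nonneg _)
              _ ≤ CN * |(FP α γ x : ℝ)| := h6
              _ ≤ CN * (X * (exc (q : ℤ) : ℝ)) := mul_le_mul_of_nonneg_left h7 hCN.le
          exact le_of_mul_le_mul_right h9 (pow_pos hH0 _)
        · rw [← hx4]
          have h6 := pw_dvd (Int.natAbs_ne_zero.2 (hx0 x hx1))
          exact Int.natCast_dvd.2 h6)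
    refine h1.trans (le_of_eq ?_)
    have h12 : (q : ℝ) ^ (-(19 / 20) : ℝ) = (q : ℝ) ^ ((1 : ℝ) / 20) / q := by
      rw [show (-(19 / 20) : ℝ) = 1 / 20 - 1 by norm_num, Real.rpow_sub hq0', Real.rpow_one]
    rw [h12]
    field_simp
  have hsmall : (Es.card : ℝ) ≤ (∑ j, Cc j) * (Cs * K ^ ((11 : ℝ) / 10) +
      CN * B * (H ^ 2 * K ^ (-(4 / 5) : ℝ))) := by
    have h1 : Es.card = ∑ z ∈ (univ : Finset (Fin s)) ×ˢ Q,
        (Es.filter fun x => (J x, pw (FP α γ x).natAbs) = z).card :=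
      Finset.card_eq_sum_card_fiberwise fun x hx => by
        simp only [coe_product, coe_univ, Set.mem_prod, Set.mem_univ, true_and]
        exact mem_image_of_mem _ hx
    rw [h1, Nat.cast_sum, Finset.sum_product, Finset.sum_mul]
    refine Finset.sum_le_sum fun j _ => ?_
    refine (Finset.sum_le_sum fun q hq => hfib j q hq).trans ?_
    rw [← Finset.mul_sum, Finset.sum_add_distrib, ← Finset.mul_sum]
    refine mul_le_mul_of_nonneg_left (add_le_add ?_ ?_) (hCc0 j).le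
    · have h2 : ∀ q ∈ Q, (q : ℝ) ^ ((1 : ℝ) / 20) ≤ K ^ ((1 : ℝ) / 10) := by
        intro q hq
        have h3 : K ^ ((1 : ℝ) / 10) = (K ^ (2 : ℕ)) ^ ((1 : ℝ) / 20) := by
          rw [← Real.rpow_natCast, ← Real.rpow_mul hK0.le]
          norm_num
        rw [h3]
        exact Real.rpow_le_rpow (Nat.cast_nonneg _) (hQ2 q hq) (by norm_num)
      refine (Finset.sum_le_sum h2).trans ?_
      rw [Finset.sum_const, nsmul_eq_mul]
      have h3 := hs2 (K ^ (2 : ℕ)) (one_le_pow₀ hK) Q fun q hq => ⟨(hQ1 q hq).1, hQ2 q hq⟩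
      have h4 : (K ^ (2 : ℕ)) ^ ((1 : ℝ) / 2) = K := by
        rw [← Real.rpow_natCast, ← Real.rpow_mul hK0.le]
        norm_num
      rw [h4] at h3
      refine (mul_le_mul_of_nonneg_right h3 (Real.rpow_nonneg hK0.le _)).trans (le_of_eq ?_)
      rw [mul_assoc]
      congr 1
      nth_rewrite 1 [← Real.rpow_one K]
      rw [← Real.rpow_add hK0]
      norm_num
    · have h2 := hb K hK Q hQ1
      refine (mul_le_mul_of_nonneg_left h2 (by positivity)).trans (le_of_eq ?_)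
      have h3 : K ^ (-(4 / 5) : ℝ) = K ^ ((1 : ℝ) / 5) / K := by
        rw [show (-(4 / 5) : ℝ) = 1 / 5 - 1 by norm_num, Real.rpow_sub hK0, Real.rpow_one]
      rw [h3]
      field_simp
  have h5 : 0 ≤ H ^ 2 * K ^ (-(4 / 5) : ℝ) := by positivity
  have h6 : 0 ≤ K ^ ((11 : ℝ) / 10) := by positivity
  have h7 : 0 ≤ H ^ ((9 : ℝ) / 5) := by positivity
  rw [hcard]
  calc _ ≤ 4 * Cp * (H ^ 2 * K ^ (-(4 / 5) : ℝ) + H ^ ((9 : ℝ) / 5)) +
        (∑ j, Cc j) * (Cs * K ^ ((11 : ℝ) / 10) + CN * B * (H ^ 2 * K ^ (-(4 / 5) : ℝ))) :=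
        add_le_add hbig hsmall
    _ ≤ _ := by
      have h8 : 0 ≤ (∑ j, Cc j) * Cs * (H ^ 2 * K ^ (-(4 / 5) : ℝ)) := by positivity
      have h9 : 0 ≤ (∑ j, Cc j) * (CN * B) * K ^ ((11 : ℝ) / 10) := by positivity
      have h10 : 0 ≤ (∑ j, Cc j) * (Cs + CN * B) * H ^ ((9 : ℝ) / 5) := by positivity
      have h11 : 0 ≤ 4 * Cp * K ^ ((11 : ℝ) / 10) := by positivity
      nlinarith

/-- **TLA** -/
theorem main (hC : S_CNT) (hQ : S_SMQ) (hN : S_NR) (hP : S_POW) : S_TLA := by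
  intro k m α γ e f hs
  obtain ⟨C, hC0, hc⟩ := core hC hQ hN hP hs
  have hd3 : 3 ≤ dg k m := by
    have h1 : (3 : ℝ) ≤ k := by exact_mod_cast hs.three
    have h2 : (0 : ℝ) ≤ m := Nat.cast_nonneg m
    unfold dg
    linarith
  have hdn : dg k m = ((k + 2 * m : ℕ) : ℝ) := by unfold dg; push_cast; ring
  set d := dg k m with hd
  have hd0 : 0 < d := by linarith
  refine ⟨1 / (10 * d ^ 2), 1 / (50 * d), 2 * C, by positivity, by positivity, by positivity, ?_⟩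
  intro X H hX hH1 hH2 E hE
  have hX0 : 0 < X := by linarith
  set Y := X ^ (1 / d) with hY
  have hY1 : 1 ≤ Y := Real.one_le_rpow hX (by positivity)
  have hY0 : 0 < Y := by linarith
  have hH0 : 0 < H := by linarith
  set κ := H / Y with hκ
  have hκ1 : 1 ≤ κ := (one_le_div hY0).2 hH1
  have hκ0 : 0 < κ := by linarith
  have hHκ : H = κ * Y := by rw [hκ, div_mul_cancel₀ _ hY0.ne']
  have hκX : κ ≤ X ^ (1 / (10 * d ^ 2)) := by
    rw [hκ, div_le_iff₀ hY0, hY, ← Real.rpow_add hX0, add_comm]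
    exact hH2
  have hYd : Y ^ d = X := by
    rw [hY, ← Real.rpow_mul hX0.le, one_div_mul_cancel hd0.ne', Real.rpow_one]
  have hKX : κ ^ d * X = H ^ (k + 2 * m) := by
    rw [← Real.rpow_natCast, ← hdn, hHκ, Real.mul_rpow hκ0.le hY0.le, hYd]
  have h1 := hc X H (κ ^ d) hX (by linarith) (Real.one_le_rpow hκ1 hd0.le) hKX E hE
  have hA : H ^ 2 * (κ ^ d) ^ (-(4 / 5) : ℝ) ≤ X ^ (2 / d) * κ ^ (-(1 / (50 * d))) := by
    have h2 : H ^ 2 * (κ ^ d) ^ (-(4 / 5) : ℝ) = X ^ (2 / d) * κ ^ (2 + d * (-(4 / 5))) := by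
      rw [← Real.rpow_mul hκ0.le, Real.rpow_add hκ0, hHκ, mul_pow]
      have h3 : Y ^ 2 = X ^ (2 / d) := by
        rw [hY, ← Real.rpow_natCast, ← Real.rpow_mul hX0.le]
        congr 1
        push_cast
        ring
      have h4 : κ ^ (2 : ℝ) = κ ^ 2 := by exact_mod_cast Real.rpow_natCast κ 2
      rw [h3, h4]
      ring
    rw [h2]
    refine mul_le_mul_of_nonneg_left (Real.rpow_le_rpow_of_exponent_le hκ1 ?_) (by positivity)
    have h5 : 1 / (50 * d) ≤ 1 / 5 := by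
      rw [div_le_div_iff₀ (by positivity) (by norm_num)]
      linarith
    linarith
  have hB : (κ ^ d) ^ ((11 : ℝ) / 10) ≤ X ^ (2 / d - 1 / (50 * d)) := by
    rw [← Real.rpow_mul hκ0.le]
    refine (Real.rpow_le_rpow hκ0.le hκX (by positivity)).trans ?_
    rw [← Real.rpow_mul hX0.le]
    refine Real.rpow_le_rpow_of_exponent_le hX ?_
    have h5 : 1 / (10 * d ^ 2) * (d * (11 / 10)) = 11 / 100 * (1 / d) := by
      field_simp
      norm_num
    have h6 : 2 / d - 1 / (50 * d) = 99 / 50 * (1 / d) := by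
      field_simp
      norm_num
    rw [h5, h6]
    have h7 : 0 < 1 / d := by positivity
    linarith
  have hD : H ^ ((9 : ℝ) / 5) ≤ X ^ (2 / d - 1 / (50 * d)) := by
    refine (Real.rpow_le_rpow hH0.le hH2 (by norm_num)).trans ?_
    rw [← Real.rpow_mul hX0.le]
    refine Real.rpow_le_rpow_of_exponent_le hX ?_
    have h6 : 2 / d - 1 / (50 * d) = 99 / 50 * (1 / d) := by
      field_simp
      norm_num
    have h7 : 0 < 1 / d := by positivity
    have h8 : 1 / d ≤ 1 / 3 := one_div_le_one_div_of_le (by norm_num) hd3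
    have h9 : 1 / (10 * d ^ 2) = 1 / 10 * (1 / d) * (1 / d) := by
      field_simp
    rw [h6, h9]
    nlinarith
  have h2 : 0 ≤ X ^ (2 / d) * κ ^ (-(1 / (50 * d))) := by positivity
  calc (E.card : ℝ) ≤ _ := h1
    _ ≤ C * (X ^ (2 / d) * κ ^ (-(1 / (50 * d))) + X ^ (2 / d - 1 / (50 * d)) +
        X ^ (2 / d - 1 / (50 * d))) := by
      refine mul_le_mul_of_nonneg_left ?_ hC0.le
      linarith
    _ ≤ 2 * C * (X ^ (2 / d) * κ ^ (-(1 / (50 * d))) + X ^ (2 / d - 1 / (50 * d))) := by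
      nlinarith

end Pool.Agent.L0h46.TS.TLA
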