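import Mathlib
import Pool.Agent.L0h46.TS.Defs

/-! Project TS, module TLB: the points of height much larger than `X ^ (1 / d)`. -/

set_option autoImplicit false

namespace Pool.Agent.L0h46.TS.TLB

open Finset
open Pool.Agent.L0h46.TQ (Nrm Lf htn Indep lg hh N1)

/-! ### Common prime factors -/

theorem dvd_of_coprime {p : ℕ} (hp : p.Prime) {x : ℤ × ℤ} (hx : IsCoprime x.1 x.2) {R : ℤ} {n : ℕ}
    (h1 : (p : ℤ) ∣ R * x.1 ^ n) (h2 : (p : ℤ) ∣ R * x.2 ^ n) : (p : ℤ) ∣ R := by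
  have hp' : Prime (p : ℤ) := Nat.prime_iff_prime_int.1 hp
  by_contra hR
  have h3 : (p : ℤ) ∣ x.1 := hp'.dvd_of_dvd_pow ((hp'.dvd_or_dvd h1).resolve_left hR)
  have h4 : (p : ℤ) ∣ x.2 := hp'.dvd_of_dvd_pow ((hp'.dvd_or_dvd h2).resolve_left hR)
  exact hp'.not_isUnit (hx.isUnit_of_dvd' h3 h4)

theorem lin_lin {p : ℕ} (hp : p.Prime) {x a b : ℤ × ℤ} (hx : IsCoprime x.1 x.2)
    (h1 : (p : ℤ) ∣ Lf a x) (h2 : (p : ℤ) ∣ Lf b x) : (p : ℤ) ∣ a.1 * b.2 - b.1 * a.2 := by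
  refine dvd_of_coprime hp hx (n := 1) ?_ ?_
  · have e : (a.1 * b.2 - b.1 * a.2) * x.1 ^ 1 = a.1 * Lf b x - b.1 * Lf a x := by
      unfold Lf; ring
    rw [e]
    exact dvd_sub (Dvd.dvd.mul_left h2 _) (Dvd.dvd.mul_left h1 _)
  · have e : (a.1 * b.2 - b.1 * a.2) * x.2 ^ 1 = a.2 * Lf b x - b.2 * Lf a x := by
      unfold Lf; ring
    rw [e]
    exact dvd_sub (Dvd.dvd.mul_left h2 _) (Dvd.dvd.mul_left h1 _)

theorem lin_quad {p : ℕ} (hp : p.Prime) {x a : ℤ × ℤ} {g : ℤ × ℤ × ℤ} (hx : IsCoprime x.1 x.2)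
    (h1 : (p : ℤ) ∣ Lf a x) (h2 : (p : ℤ) ∣ Qg g x) : (p : ℤ) ∣ Qg g a := by
  refine dvd_of_coprime hp hx (n := 2) ?_ ?_
  · have e : Qg g a * x.1 ^ 2 = a.1 ^ 2 * Qg g x +
        (g.2.1 * x.1 * a.1 + g.2.2 * (a.1 * x.2 + x.1 * a.2)) * Lf a x := by
      unfold Lf Qg; ring
    rw [e]
    exact dvd_add (Dvd.dvd.mul_left h2 _) (Dvd.dvd.mul_left h1 _)
  · have e : Qg g a * x.2 ^ 2 = a.2 ^ 2 * Qg g x -
        (g.2.1 * x.2 * a.2 + g.1 * (a.1 * x.2 + x.1 * a.2)) * Lf a x := by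
      unfold Lf Qg; ring
    rw [e]
    exact dvd_sub (Dvd.dvd.mul_left h2 _) (Dvd.dvd.mul_left h1 _)

/-- the resultant -/
def Rs (g h : ℤ × ℤ × ℤ) : ℤ := (g.1 * h.2.2 - h.1 * g.2.2) ^ 2 -
  (g.1 * h.2.1 - h.1 * g.2.1) * (g.2.1 * h.2.2 - h.2.1 * g.2.2)

theorem quad_quad {p : ℕ} (hp : p.Prime) {x : ℤ × ℤ} {g h : ℤ × ℤ × ℤ} (hx : IsCoprime x.1 x.2)
    (h1 : (p : ℤ) ∣ Qg g x) (h2 : (p : ℤ) ∣ Qg h x) : (p : ℤ) ∣ Rs g h := by
  obtain ⟨a, b, c⟩ := g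
  obtain ⟨a', b', c'⟩ := h
  obtain ⟨u, v⟩ := x
  simp only [Qg] at h1 h2
  refine dvd_of_coprime hp hx (n := 3) ?_ ?_
  · have e : Rs (a, b, c) (a', b', c') * (u, v).1 ^ 3 =
        ((a * c' - a' * c) * c' * u - (b * c' - b' * c) * (b' * u + c' * v)) *
          (a * u ^ 2 + b * u * v + c * v ^ 2) -
        ((a * c' - a' * c) * c * u - (b * c' - b' * c) * (b * u + c * v)) *
          (a' * u ^ 2 + b' * u * v + c' * v ^ 2) := by
      simp only [Rs]; ring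
    rw [e]
    exact dvd_sub (Dvd.dvd.mul_left h1 _) (Dvd.dvd.mul_left h2 _)
  · have e : Rs (a, b, c) (a', b', c') * (u, v).2 ^ 3 =
        (-(a * c' - a' * c) * a' * v - (a * b' - a' * b) * (-(b' * v) - a' * u)) *
          (a * u ^ 2 + b * u * v + c * v ^ 2) -
        (-(a * c' - a' * c) * a * v - (a * b' - a' * b) * (-(b * v) - a * u)) *
          (a' * u ^ 2 + b' * u * v + c' * v ^ 2) := by
      simp only [Rs]; ring
    rw [e]
    exact dvd_sub (Dvd.dvd.mul_left h1 _) (Dvd.dvd.mul_left h2 _)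

theorem sq_of_mul_sq {A D s : ℤ} (hA : A ≠ 0) (h : A ^ 2 * D = s ^ 2) : IsSquare D := by
  have h1 : A ^ 2 ∣ s ^ 2 := ⟨D, h.symm⟩
  rw [Int.pow_dvd_pow_iff (by norm_num)] at h1
  obtain ⟨t, rfl⟩ := h1
  refine ⟨t, ?_⟩
  have h2 : A ^ 2 * D = A ^ 2 * (t * t) := by rw [h]; ring
  exact mul_left_cancel₀ (pow_ne_zero 2 hA) h2

theorem Rs_ne {g h : ℤ × ℤ × ℤ} (hi : IrrQ g) (hn : Npr g h) : Rs g h ≠ 0 := by
  obtain ⟨a, b, c⟩ := g
  obtain ⟨a', b', c'⟩ := h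
  intro h0
  simp only [Rs] at h0
  unfold IrrQ at hi
  unfold Npr at hn
  simp only at hi hn
  by_cases hA : a * b' - a' * b = 0
  · have h1 : (a * c' - a' * c) ^ 2 = 0 := by rw [hA] at h0; linarith
    have h2 : a * c' - a' * c = 0 := by simpa using h1
    rcases hn with hn | hn
    · exact hn (by linarith)
    · exact hn (by linarith)
  · apply hi
    refine sq_of_mul_sq (s := 2 * a * (a * c' - a' * c) - b * (a * b' - a' * b)) hA ?_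
    have e : (a * b' - a' * b) * (b * c' - b' * c) = (a * c' - a' * c) ^ 2 := by linarith
    have key : a * (b * c' - b' * c) - b * (a * c' - a' * c) + c * (a * b' - a' * b) = 0 := by ring
    linear_combination (-4 * a * (a * b' - a' * b)) * key + 4 * a ^ 2 * e

theorem Qg_ne {g : ℤ × ℤ × ℤ} (hi : IrrQ g) {a : ℤ × ℤ} (ha : a ≠ 0) : Qg g a ≠ 0 := by
  intro h0
  unfold Qg at h0
  unfold IrrQ at hi
  by_cases h2 : a.2 = 0
  · rw [h2] at h0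
    have h1 : a.1 ≠ 0 := fun h1 => ha (Prod.ext h1 h2)
    have h3 : g.1 * a.1 ^ 2 = 0 := by linarith
    have h4 : g.1 = 0 := (mul_eq_zero.1 h3).resolve_right (pow_ne_zero 2 h1)
    apply hi
    rw [h4]
    exact ⟨g.2.1, by ring⟩
  · apply hi
    refine sq_of_mul_sq (s := 2 * g.1 * a.1 + g.2.1 * a.2) h2 ?_
    linear_combination (-4 * g.1) * h0

variable {k m : ℕ} {α : Fin k → ℤ × ℤ} {γ : Fin m → ℤ × ℤ × ℤ} {e : Fin k → ℕ} {f : Fin m → ℕ}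

theorem α_ne (hs : Sys α γ e f) (i : Fin k) : α i ≠ 0 := by
  have h3 := hs.three
  obtain ⟨j, hj⟩ : ∃ j : Fin k, j ≠ i := by
    by_cases h : i = ⟨0, by omega⟩
    · refine ⟨⟨1, by omega⟩, ?_⟩
      rw [h]; simp
    · exact ⟨⟨0, by omega⟩, fun h' => h h'.symm⟩
  intro h0
  have := hs.ind j i hj
  rw [h0] at this
  simp at this

/-- the value of the form with the index `i` -/
def G (α : Fin k → ℤ × ℤ) (γ : Fin m → ℤ × ℤ × ℤ) (i : Fin k ⊕ Fin m) (x : ℤ × ℤ) : ℤ :=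
  match i with
  | Sum.inl i => Lf (α i) x
  | Sum.inr j => Qg (γ j) x

theorem exists_S (hs : Sys α γ e f) : ∃ S : Finset ℕ, ∀ x : ℤ × ℤ, IsCoprime x.1 x.2 →
    ∀ p : ℕ, p.Prime → p ∉ S → ∀ i j, i ≠ j → (p : ℤ) ∣ G α γ i x → (p : ℤ) ∣ G α γ j x →
      False := by
  classical
  set R : Fin k ⊕ Fin m → Fin k ⊕ Fin m → ℤ := fun i j => match i, j with
    | Sum.inl i, Sum.inl j => (α i).1 * (α j).2 - (α j).1 * (α i).2
    | Sum.inl i, Sum.inr j => Qg (γ j) (α i)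
    | Sum.inr i, Sum.inl j => Qg (γ i) (α j)
    | Sum.inr i, Sum.inr j => Rs (γ i) (γ j) with hR
  have hne : ∀ i j, i ≠ j → R i j ≠ 0 := by
    rintro (i | i) (j | j) hij
    · have : i ≠ j := fun h => hij (by rw [h])
      exact sub_ne_zero.2 (hs.ind i j this)
    · exact Qg_ne (hs.irr j) (α_ne hs i)
    · exact Qg_ne (hs.irr i) (α_ne hs j)
    · have : i ≠ j := fun h => hij (by rw [h])
      exact Rs_ne (hs.irr i) (hs.npr i j this)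
  have hdv : ∀ x : ℤ × ℤ, IsCoprime x.1 x.2 → ∀ p : ℕ, p.Prime → ∀ i j,
      (p : ℤ) ∣ G α γ i x → (p : ℤ) ∣ G α γ j x → (p : ℤ) ∣ R i j := by
    rintro x hx p hp (i | i) (j | j) h1 h2
    · exact lin_lin hp hx h1 h2
    · exact lin_quad hp hx h1 h2
    · exact lin_quad hp hx h2 h1
    · exact quad_quad hp hx h1 h2
  refine ⟨(univ ×ˢ univ : Finset ((Fin k ⊕ Fin m) × (Fin k ⊕ Fin m))).biUnion
    (fun z => (R z.1 z.2).natAbs.primeFactors), fun x hx p hp hpS i j hij h1 h2 => hpS ?_⟩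
  rw [mem_biUnion]
  refine ⟨(i, j), mem_product.2 ⟨mem_univ _, mem_univ _⟩, ?_⟩
  rw [Nat.mem_primeFactors]
  exact ⟨hp, Int.natCast_dvd.1 (hdv x hx p hp i j h1 h2), Int.natAbs_ne_zero.2 (hne i j hij)⟩

theorem G_dvd (i : Fin k ⊕ Fin m) (x : ℤ × ℤ) : G α γ i x ∣ FP α γ x := by
  rcases i with i | i
  · exact Dvd.dvd.mul_right (dvd_prod_of_mem _ (mem_univ i)) _
  · exact Dvd.dvd.mul_left (dvd_prod_of_mem _ (mem_univ i)) _

theorem log_radN {n : ℤ} : Real.log (radN n) = ∑ p ∈ n.natAbs.primeFactors, Real.log p := by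
  unfold radN
  rw [Nat.cast_prod, Real.log_prod]
  intro p hp
  have := (Nat.prime_of_mem_primeFactors hp).pos
  positivity

theorem NG_eq (S : Finset ℕ) (x : ℤ × ℤ) : NG α γ S x =
    ∑ i : Fin k ⊕ Fin m, ∑ p ∈ (G α γ i x).natAbs.primeFactors \ S, Real.log p := by
  rw [Fintype.sum_sum_type]
  rfl

theorem NG_le (hs : Sys α γ e f) : ∃ S : Finset ℕ, ∀ x : ℤ × ℤ, IsCoprime x.1 x.2 →
    FP α γ x ≠ 0 → NG α γ S x ≤ Real.log (radN (FP α γ x)) := by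
  classical
  obtain ⟨S, hS⟩ := exists_S hs
  refine ⟨S, fun x hx h0 => ?_⟩
  rw [NG_eq, log_radN]
  have hdis : ∀ i ∈ (univ : Finset (Fin k ⊕ Fin m)), ∀ j ∈ (univ : Finset (Fin k ⊕ Fin m)),
      i ≠ j → Disjoint ((G α γ i x).natAbs.primeFactors \ S)
        ((G α γ j x).natAbs.primeFactors \ S) := by
    intro i _ j _ hij
    rw [disjoint_left]
    intro p hp hp'
    rw [mem_sdiff, Nat.mem_primeFactors] at hp hp'
    exact hS x hx p hp.1.1 hp.2 i j hij (Int.natCast_dvd.2 hp.1.2.1) (Int.natCast_dvd.2 hp'.1.2.1)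
  rw [← sum_biUnion hdis]
  apply sum_le_sum_of_subset_of_nonneg
  · intro p hp
    rw [mem_biUnion] at hp
    obtain ⟨i, -, hi⟩ := hp
    rw [mem_sdiff] at hi
    exact Nat.primeFactors_mono (Int.natAbs_dvd_natAbs.2 (G_dvd i x)) (Int.natAbs_ne_zero.2 h0) hi.1
  · intro p hp _
    exact Real.log_natCast_nonneg p

/-! ### Counting -/

theorem fin_ht (R : ℝ) : ({x : ℤ × ℤ | (htn x : ℝ) ≤ R} : Set (ℤ × ℤ)).Finite := by
  apply Set.Finite.subset (Set.finite_Icc ((-⌈|R|⌉ : ℤ), (-⌈|R|⌉ : ℤ)) (⌈|R|⌉, ⌈|R|⌉))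
  intro x hx
  have hx' : (htn x : ℝ) ≤ R := hx
  have h1 : (htn x : ℝ) ≤ (⌈|R|⌉ : ℤ) := (hx'.trans (le_abs_self R)).trans (Int.le_ceil _)
  have h2 : (htn x : ℤ) ≤ ⌈|R|⌉ := by exact_mod_cast h1
  unfold htn at h2
  rw [Nat.cast_max, max_le_iff] at h2
  obtain ⟨h3, h4⟩ := h2
  rw [Int.natCast_natAbs, abs_le] at h3 h4
  exact ⟨⟨h3.1, h4.1⟩, ⟨h3.2, h4.2⟩⟩

theorem hh_eq (x : ℤ × ℤ) : hh x = Real.log (htn x) := rfl

theorem Lf_ne {x : ℤ × ℤ} (h : FP α γ x ≠ 0) (i : Fin k) : Lf (α i) x ≠ 0 := by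
  unfold FP at h
  exact fun h0 => h (by rw [prod_eq_zero (mem_univ i) h0, zero_mul])

theorem N1_le_NG (S : Finset ℕ) (x : ℤ × ℤ) : N1 α S x ≤ NG α γ S x := by
  unfold NG
  have : 0 ≤ ∑ j, lg S (Qg (γ j) x) := sum_nonneg fun j _ => by
    unfold lg
    exact sum_nonneg fun p _ => Real.log_natCast_nonneg p
  linarith

theorem radN_pos (n : ℤ) : 0 < radN n := by
  unfold radN
  exact Finset.prod_pos fun p hp => (Nat.prime_of_mem_primeFactors hp).pos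

theorem log_le {x : ℤ × ℤ} {X : ℝ} (h : (radN (FP α γ x) : ℝ) ≤ X) :
    Real.log (radN (FP α γ x)) ≤ Real.log X :=
  Real.log_le_log (by exact_mod_cast radN_pos _) h

/-- the main statement without quadratic forms -/
theorem case0 (hL : Pool.Agent.L0h46.TQ.S_LIN) {α : Fin k → ℤ × ℤ} {γ : Fin 0 → ℤ × ℤ × ℤ}
    {f : Fin 0 → ℕ} (hs : Sys α γ e f) (A δ : ℝ) (hδ : 0 < δ) : ∃ η C : ℝ, 0 < η ∧ 0 < C ∧
    ∀ X : ℝ, 1 ≤ X → (PtR α γ A X).Finite ∧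
    (({x | x ∈ PtR α γ A X ∧ X ^ (1 / dg k 0 + δ) ≤ (htn x : ℝ)} : Set (ℤ × ℤ)).ncard : ℝ) ≤
      C * X ^ (2 / dg k 0 - η) := by
  obtain ⟨S, hS⟩ := NG_le hs
  have hk : (3 : ℝ) ≤ k := by exact_mod_cast hs.three
  have hd : dg k 0 = k := by unfold dg; simp
  obtain ⟨⟨C1, hC1, h1⟩, h2⟩ := hL k hs.three α hs.ind S
  obtain ⟨ν, hν, C2, hC2, X0, hX0, h3⟩ := h2 δ hδ
  have hsub : ∀ X : ℝ, PtR α γ A X ⊆ Pool.Agent.L0h46.TQ.Pts α S X := by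
    rintro X x ⟨g1, g2, -, g4⟩
    refine ⟨g1, fun i => Lf_ne g2 i, ?_⟩
    exact (N1_le_NG (γ := γ) S x).trans ((hS x g1.1 g2).trans (log_le g4))
  have hmono : ∀ X Y : ℝ, 1 ≤ X → X ≤ Y → Pool.Agent.L0h46.TQ.Pts α S X ⊆
      Pool.Agent.L0h46.TQ.Pts α S Y := by
    rintro X Y hX hXY x ⟨g1, g2, g3⟩
    exact ⟨g1, g2, g3.trans (Real.log_le_log (by linarith) hXY)⟩
  rw [hd]
  refine ⟨min ν (2 / k), C2 + C1 * X0 ^ (2 / (k : ℝ)), lt_min hν (by positivity), by positivity,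
    fun X hX => ?_⟩
  have hfin := (h1 X hX).1
  refine ⟨hfin.subset (hsub X), ?_⟩
  have hX1 : 0 < X := by linarith
  have hpow : (1 : ℝ) ≤ X ^ (2 / (k : ℝ) - min ν (2 / k)) :=
    Real.one_le_rpow hX (by have := min_le_right ν (2 / (k : ℝ)); linarith)
  have hsub' : ({x | x ∈ PtR α γ A X ∧ X ^ (1 / (k : ℝ) + δ) ≤ (htn x : ℝ)} : Set (ℤ × ℤ)) ⊆
      Pool.Agent.L0h46.TQ.Pts α S X := fun x hx => hsub X hx.1
  rcases le_or_gt X0 X with h | h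
  · have hfin' : ({x | x ∈ PtR α γ A X ∧ X ^ (1 / (k : ℝ) + δ) ≤ (htn x : ℝ)} :
        Set (ℤ × ℤ)).Finite := hfin.subset hsub'
    have h4 := h3 X h hfin'.toFinset (fun x hx => by
      rw [Set.Finite.mem_toFinset] at hx
      refine ⟨hsub X hx.1, ?_⟩
      rw [hh_eq, ← Real.log_rpow hX1]
      exact Real.log_le_log (Real.rpow_pos_of_pos hX1 _) hx.2)
    rw [← Set.ncard_eq_toFinset_card _ hfin'] at h4
    refine h4.trans ?_
    have h5 : X ^ (2 / (k : ℝ) - ν) ≤ X ^ (2 / (k : ℝ) - min ν (2 / k)) :=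
      Real.rpow_le_rpow_of_exponent_le hX (by have := min_le_left ν (2 / (k : ℝ)); linarith)
    have h6 : 0 ≤ C1 * X0 ^ (2 / (k : ℝ)) * X ^ (2 / (k : ℝ) - min ν (2 / k)) := by positivity
    nlinarith [mul_le_mul_of_nonneg_left h5 hC2.le]
  · have h4 : (({x | x ∈ PtR α γ A X ∧ X ^ (1 / (k : ℝ) + δ) ≤ (htn x : ℝ)} :
        Set (ℤ × ℤ)).ncard : ℝ) ≤ C1 * X0 ^ (2 / (k : ℝ)) := by
      refine le_trans ?_ (h1 X0 hX0).2
      exact_mod_cast Set.ncard_le_ncard (hsub'.trans (hmono X X0 hX h.le)) (h1 X0 hX0).1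
    have h5 : 0 < C1 * X0 ^ (2 / (k : ℝ)) := by positivity
    calc (({x | x ∈ PtR α γ A X ∧ X ^ (1 / (k : ℝ) + δ) ≤ (htn x : ℝ)} :
        Set (ℤ × ℤ)).ncard : ℝ) ≤ (C2 + C1 * X0 ^ (2 / (k : ℝ))) * 1 := by linarith
      _ ≤ (C2 + C1 * X0 ^ (2 / (k : ℝ))) * X ^ (2 / (k : ℝ) - min ν (2 / k)) :=
        mul_le_mul_of_nonneg_left hpow (by positivity)

/-- the main statement with quadratic forms -/
theorem case1 (hE : S_CEG) (hs : Sys α γ e f) (hm : 0 < m) (A δ : ℝ) (hδ : 0 < δ) :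
    ∃ η C : ℝ, 0 < η ∧ 0 < C ∧ ∀ X : ℝ, 1 ≤ X → (PtR α γ A X).Finite ∧
    (({x | x ∈ PtR α γ A X ∧ X ^ (1 / dg k m + δ) ≤ (htn x : ℝ)} : Set (ℤ × ℤ)).ncard : ℝ) ≤
      C * X ^ (2 / dg k m - η) := by
  obtain ⟨S, hS⟩ := NG_le hs
  have hk : (3 : ℝ) ≤ k := by exact_mod_cast hs.three
  have hd : 3 ≤ dg k m := by unfold dg; have : (0 : ℝ) ≤ m := Nat.cast_nonneg m; linarith
  obtain ⟨d, hdd⟩ : ∃ d, d = dg k m := ⟨_, rfl⟩
  rw [← hdd] at hd ⊢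
  obtain ⟨δ', hδ', hκ⟩ : ∃ δ' : ℝ, 0 < δ' ∧ 1 < (d - δ') * (1 / d + δ) := by
    refine ⟨d * δ / (2 * (1 / d + δ)), by positivity, ?_⟩
    have h1 : 0 < 1 / d + δ := by positivity
    have h2 : (d - d * δ / (2 * (1 / d + δ))) * (1 / d + δ) = 1 + d * δ / 2 := by
      field_simp
      ring
    rw [h2]
    have : 0 < d * δ := by positivity
    linarith
  obtain ⟨η, hη, C, hC, h3⟩ := hE k m hs.three α γ S hs.ind hs.irr 1 A δ' hδ'
  have hfin1 := fin_ht 1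
  refine ⟨min η (2 / d), C + (({x : ℤ × ℤ | (htn x : ℝ) ≤ 1} : Set (ℤ × ℤ)).ncard : ℝ),
    lt_min hη (by positivity), by positivity, fun X hX => ?_⟩
  have hX1 : 0 < X := by linarith
  have hlog : 0 ≤ Real.log X := Real.log_nonneg hX
  refine ⟨(fin_ht (X ^ A)).subset fun x hx => ?_, ?_⟩
  · rcases hx.2.2.1 with h | h
    · omega
    · exact h
  have hpow : (1 : ℝ) ≤ X ^ (2 / d - min η (2 / d)) :=
    Real.one_le_rpow hX (by have := min_le_right η (2 / d); linarith)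
  have h5 : X ^ (2 / d - η) ≤ X ^ (2 / d - min η (2 / d)) :=
    Real.rpow_le_rpow_of_exponent_le hX (by have := min_le_left η (2 / d); linarith)
  have h4 := h3 X hX
  rw [← hdd] at h4
  obtain ⟨W, hW⟩ : ∃ W : Set (ℤ × ℤ), W = {x | Nrm x ∧ (∀ i, Lf (α i) x ≠ 0) ∧
    (htn x : ℝ) ≤ 1 * X ^ A ∧ NG α γ S x ≤ Real.log X ∧ NG α γ S x < (d - δ') * hh x} := ⟨_, rfl⟩
  rw [← hW] at h4
  have hsub : ({x | x ∈ PtR α γ A X ∧ X ^ (1 / d + δ) ≤ (htn x : ℝ)} : Set (ℤ × ℤ)) ⊆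
      W ∪ {x : ℤ × ℤ | (htn x : ℝ) ≤ 1} := by
    rintro x ⟨⟨g1, g2, g3, g4⟩, g5⟩
    rcases le_or_gt (htn x : ℝ) 1 with h | h
    · exact Or.inr h
    left
    have hNG := (hS x g1.1 g2).trans (log_le g4)
    rw [hW]
    refine ⟨g1, fun i => Lf_ne g2 i, ?_, hNG, ?_⟩
    · rw [one_mul]
      rcases g3 with g3 | g3
      · omega
      · exact g3
    · have hh0 : 0 < hh x := by rw [hh_eq]; exact Real.log_pos h
      have hdδ : 0 < d - δ' := by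
        by_contra hcon
        push Not at hcon
        have : (d - δ') * (1 / d + δ) ≤ 0 := mul_nonpos_of_nonpos_of_nonneg hcon (by positivity)
        linarith
      rcases hlog.eq_or_lt with h0 | h0
      · rw [← h0] at hNG
        exact lt_of_le_of_lt hNG (mul_pos hdδ hh0)
      · have h6 : (1 / d + δ) * Real.log X ≤ hh x := by
          rw [hh_eq, ← Real.log_rpow hX1]
          exact Real.log_le_log (Real.rpow_pos_of_pos hX1 _) g5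
        calc NG α γ S x ≤ Real.log X := hNG
          _ < ((d - δ') * (1 / d + δ)) * Real.log X := by
            nlinarith
          _ = (d - δ') * ((1 / d + δ) * Real.log X) := by ring
          _ ≤ (d - δ') * hh x := mul_le_mul_of_nonneg_left h6 hdδ.le
  have hWfin : W.Finite := (fin_ht (1 * X ^ A)).subset fun x hx => by rw [hW] at hx; exact hx.2.2.1
  have h7 : (({x | x ∈ PtR α γ A X ∧ X ^ (1 / d + δ) ≤ (htn x : ℝ)} : Set (ℤ × ℤ)).ncard : ℝ) ≤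
      (W.ncard : ℝ) + (({x : ℤ × ℤ | (htn x : ℝ) ≤ 1} : Set (ℤ × ℤ)).ncard : ℝ) := by
    have h8 := Set.ncard_le_ncard hsub (hWfin.union hfin1)
    have h9 := Set.ncard_union_le W {x : ℤ × ℤ | (htn x : ℝ) ≤ 1}
    exact_mod_cast h8.trans h9
  have h10 : (0 : ℝ) ≤ (({x : ℤ × ℤ | (htn x : ℝ) ≤ 1} : Set (ℤ × ℤ)).ncard : ℝ) := by positivity
  nlinarith [mul_le_mul_of_nonneg_left h5 hC.le, mul_le_mul_of_nonneg_left hpow h10]

theorem main (hE : S_CEG) (hL : Pool.Agent.L0h46.TQ.S_LIN) : S_TLB := by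
  intro k m α γ e f hs A δ hδ
  rcases Nat.eq_zero_or_pos m with hm | hm
  · subst hm
    exact case0 hL hs A δ hδ
  · exact case1 hE hs hm A δ hδ

end Pool.Agent.L0h46.TS.TLB
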