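import Mathlib
import Pool.Agent.L0h46.TS.Defs

/-! Project TS, module TLK: all the points of height at least `K X ^ (1 / d)`. -/

set_option autoImplicit false

namespace Pool.Agent.L0h46.TS.TLK

open Finset Filter Topology
open Pool.Agent.L0h46.TQ (Nrm Lf htn Indep lg hh N1)

theorem geo {r : ℝ} (h0 : 0 ≤ r) (h1 : r < 1) (J : ℕ) : ∑ j ∈ range J, r ^ j ≤ (1 - r)⁻¹ := by
  rw [← tsum_geometric_of_lt_one h0 h1]
  exact (summable_geometric_of_lt_one h0 h1).sum_le_tsum _ fun j _ => pow_nonneg h0 j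

/-- the number of dyadic intervals -/
noncomputable def JJ (δ X : ℝ) : ℕ := ⌊δ * Real.log X / Real.log 2⌋₊ + 1

theorem ioc_pow {q : ℝ} (hq : 1 < q) : ∃ j : ℕ, (2 : ℝ) ^ j < q ∧ q ≤ 2 ^ (j + 1) := by
  classical
  have hex : ∃ n : ℕ, q ≤ 2 ^ n := by
    obtain ⟨n, hn⟩ := pow_unbounded_of_one_lt q (show (1 : ℝ) < 2 by norm_num)
    exact ⟨n, hn.le⟩
  have h1 := Nat.find_spec hex
  have h2 : Nat.find hex ≠ 0 := by
    intro h0
    rw [h0, pow_zero] at h1
    linarith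
  obtain ⟨j, hj⟩ := Nat.exists_eq_succ_of_ne_zero h2
  refine ⟨j, ?_, ?_⟩
  · have h3 := Nat.find_min hex (m := j) (by omega)
    exact lt_of_not_ge h3
  · rw [hj] at h1
    exact h1

theorem lim0 (δ c η C C' : ℝ) (hc : 0 < c) (hη : 0 < η) (hδ : 0 < δ) :
    Tendsto (fun X : ℝ => C * ((JJ δ X : ℝ) * X ^ (-c)) + C' * X ^ (-η)) atTop (𝓝 0) := by
  have h1 : Tendsto (fun X : ℝ => X ^ (-η)) atTop (𝓝 0) := tendsto_rpow_neg_atTop hη
  have h2 : Tendsto (fun X : ℝ => X ^ (-c)) atTop (𝓝 0) := tendsto_rpow_neg_atTop hc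
  have h3 : Tendsto (fun X : ℝ => Real.log X * X ^ (-c)) atTop (𝓝 0) := by
    have h4 := (isLittleO_log_rpow_atTop hc).tendsto_div_nhds_zero
    refine h4.congr' ?_
    filter_upwards [eventually_gt_atTop 0] with X hX
    rw [Real.rpow_neg hX.le, div_eq_mul_inv]
  have h4 : Tendsto (fun X : ℝ => (JJ δ X : ℝ) * X ^ (-c)) atTop (𝓝 0) := by
    have h5 : Tendsto (fun X : ℝ => (δ / Real.log 2) * (Real.log X * X ^ (-c)) + X ^ (-c)) atTop
        (𝓝 0) := by
      have := (h3.const_mul (δ / Real.log 2)).add h2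
      simpa using this
    refine squeeze_zero' ?_ ?_ h5
    · filter_upwards [eventually_ge_atTop 0] with X h
      positivity
    · filter_upwards [eventually_ge_atTop 1] with X hX
      have hl : 0 ≤ Real.log X := Real.log_nonneg hX
      have hl2 : 0 < Real.log 2 := Real.log_pos (by norm_num)
      have h6 : (JJ δ X : ℝ) ≤ δ / Real.log 2 * Real.log X + 1 := by
        unfold JJ
        push_cast
        have := Nat.floor_le (show 0 ≤ δ * Real.log X / Real.log 2 by positivity)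
        have e : δ * Real.log X / Real.log 2 = δ / Real.log 2 * Real.log X := by ring
        linarith
      have h7 : 0 ≤ X ^ (-c) := Real.rpow_nonneg (by linarith) _
      calc (JJ δ X : ℝ) * X ^ (-c) ≤ (δ / Real.log 2 * Real.log X + 1) * X ^ (-c) :=
            mul_le_mul_of_nonneg_right h6 h7
        _ = _ := by ring
  have := (h4.const_mul C).add (h1.const_mul C')
  simpa using this

theorem main (hA : S_TLA) (hB : S_TLB) : S_TLK := by
  classical
  intro k m α γ e f hs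
  obtain ⟨δ, c, C, hδ, hc, hC, h1⟩ := hA k m α γ e f hs
  have hd : 0 < dg k m := by
    unfold dg
    have h3 : (3 : ℝ) ≤ k := by exact_mod_cast hs.three
    have : (0 : ℝ) ≤ m := Nat.cast_nonneg m
    linarith
  have hr0 : (0 : ℝ) ≤ 2 ^ (-c) := by positivity
  have hr1 : (2 : ℝ) ^ (-c) < 1 := Real.rpow_lt_one_of_one_lt_of_neg (by norm_num) (by linarith)
  have hinv : 0 < (1 - (2 : ℝ) ^ (-c))⁻¹ := inv_pos.2 (by linarith)
  refine ⟨C * (1 - (2 : ℝ) ^ (-c))⁻¹ + 1, c, by positivity, hc, fun A K hK => ?_⟩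
  obtain ⟨η, C', hη, hC', h2⟩ := hB k m α γ e f hs A δ hδ
  have hK0 : 0 < K := by linarith
  have hKc : 0 < K ^ (-c) := Real.rpow_pos_of_pos hK0 _
  have hev := (lim0 δ c η C C' hc hη hδ).eventually (gt_mem_nhds hKc)
  filter_upwards [hev, eventually_ge_atTop 1] with X hX hX1
  have hX0 : 0 < X := by linarith
  obtain ⟨hfin, hcnt⟩ := h2 X hX1
  obtain ⟨Y, hY⟩ : ∃ Y, Y = X ^ (1 / dg k m) := ⟨_, rfl⟩
  have hY1 : 1 ≤ Y := by rw [hY]; exact Real.one_le_rpow hX1 (by positivity)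
  have hY0 : 0 < Y := by linarith
  have hYδ : X ^ (1 / dg k m + δ) = Y * X ^ δ := by rw [hY, Real.rpow_add hX0]
  -- the dyadic pieces
  obtain ⟨P, hP⟩ : ∃ P : ℕ → Finset (ℤ × ℤ), P = fun j => hfin.toFinset.filter (fun x =>
    2 ^ j * K * Y ≤ Y * X ^ δ ∧ 2 ^ j * K * Y < (htn x : ℝ) ∧ (htn x : ℝ) ≤ 2 * (2 ^ j * K * Y)) :=
    ⟨_, rfl⟩
  have hPcard : ∀ j, ((P j).card : ℝ) ≤ C * (X ^ (2 / dg k m) * (K ^ (-c) * ((2 : ℝ) ^ (-c)) ^ j) +
      X ^ (2 / dg k m - c)) := by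
    intro j
    by_cases hj : 2 ^ j * K * Y ≤ Y * X ^ δ
    · have h3 := h1 X (2 ^ j * K * Y) hX1 (by
        rw [← hY]
        have : (1 : ℝ) ≤ 2 ^ j := one_le_pow₀ (by norm_num)
        have h4 : 1 ≤ 2 ^ j * K := by nlinarith
        nlinarith) (by rw [hYδ]; exact hj) (P j) (by
        intro x hx
        rw [hP] at hx
        simp only [mem_filter, Set.Finite.mem_toFinset] at hx
        obtain ⟨⟨g1, g2, g3, g4⟩, g5, g6, g7⟩ := hx
        exact ⟨⟨g1.1, g2⟩, g6, g7, g4⟩)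
      refine h3.trans (le_of_eq ?_)
      rw [← hY]
      have e1 : 2 ^ j * K * Y / Y = 2 ^ j * K := by field_simp
      rw [e1, Real.mul_rpow (by positivity) hK0.le, ← Real.rpow_natCast 2 j,
        ← Real.rpow_mul (by norm_num), ← Real.rpow_natCast ((2 : ℝ) ^ (-c)) j,
        ← Real.rpow_mul (by norm_num)]
      ring_nf
    · have : P j = ∅ := by
        rw [hP]
        apply filter_false_of_mem
        rintro x - ⟨h3, -⟩
        exact hj h3
      rw [this, card_empty, Nat.cast_zero]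
      positivity
  have hlarge : ({x | x ∈ PtR α γ A X ∧ X ^ (1 / dg k m + δ) ≤ (htn x : ℝ)} :
      Set (ℤ × ℤ)).Finite := hfin.subset fun x hx => hx.1
  have hsub : ({x | x ∈ PtR α γ A X ∧ K * X ^ (1 / dg k m) < (htn x : ℝ)} : Set (ℤ × ℤ)) ⊆
      ((range (JJ δ X)).biUnion P : Finset (ℤ × ℤ)) ∪
        {x | x ∈ PtR α γ A X ∧ X ^ (1 / dg k m + δ) ≤ (htn x : ℝ)} := by
    rintro x ⟨hx, hxK⟩
    rw [← hY] at hxK
    rcases le_or_gt (X ^ (1 / dg k m + δ)) (htn x : ℝ) with h | h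
    · exact Or.inr ⟨hx, h⟩
    left
    rw [hYδ] at h
    -- the dyadic interval
    have hq : 1 < (htn x : ℝ) / (K * Y) := by rw [lt_div_iff₀ (by positivity)]; linarith
    obtain ⟨j, hj1, hj2⟩ : ∃ j : ℕ, (2 : ℝ) ^ j < (htn x : ℝ) / (K * Y) ∧
        (htn x : ℝ) / (K * Y) ≤ 2 ^ (j + 1) := by
      exact ioc_pow hq
    rw [lt_div_iff₀ (by positivity)] at hj1
    rw [div_le_iff₀ (by positivity)] at hj2
    have h3 : 2 ^ j * K * Y ≤ Y * X ^ δ := by
      have : (2 : ℝ) ^ j * (K * Y) = 2 ^ j * K * Y := by ring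
      linarith
    have hjJ : j < JJ δ X := by
      unfold JJ
      rw [Nat.lt_add_one_iff]
      apply Nat.le_floor
      have hl2 : 0 < Real.log 2 := Real.log_pos (by norm_num)
      rw [le_div_iff₀ hl2]
      have h4 : (2 : ℝ) ^ j ≤ X ^ δ := by
        have h5 : 2 ^ j * Y ≤ 2 ^ j * K * Y := by
          have : 2 ^ j * K * Y = 2 ^ j * Y * K := by ring
          rw [this]
          exact le_mul_of_one_le_right (by positivity) hK
        have h6 : 2 ^ j * Y ≤ X ^ δ * Y := by linarith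
        exact le_of_mul_le_mul_right h6 hY0
      have h5 := Real.log_le_log (by positivity) h4
      rwa [Real.log_pow, Real.log_rpow hX0] at h5
    rw [mem_coe, mem_biUnion]
    refine ⟨j, mem_range.2 hjJ, ?_⟩
    rw [hP]
    simp only [mem_filter, Set.Finite.mem_toFinset]
    refine ⟨hx, h3, by linarith, ?_⟩
    rw [pow_succ] at hj2
    linarith
  have hcard : (({x | x ∈ PtR α γ A X ∧ K * X ^ (1 / dg k m) < (htn x : ℝ)} :
      Set (ℤ × ℤ)).ncard : ℝ) ≤ ∑ j ∈ range (JJ δ X), ((P j).card : ℝ) +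
      (({x | x ∈ PtR α γ A X ∧ X ^ (1 / dg k m + δ) ≤ (htn x : ℝ)} : Set (ℤ × ℤ)).ncard : ℝ) := by
    have g1 := Set.ncard_le_ncard hsub ((finite_toSet _).union hlarge)
    have g2 := Set.ncard_union_le (((range (JJ δ X)).biUnion P : Finset (ℤ × ℤ)) : Set (ℤ × ℤ))
      {x | x ∈ PtR α γ A X ∧ X ^ (1 / dg k m + δ) ≤ (htn x : ℝ)}
    rw [Set.ncard_coe_finset] at g2
    have g3 : ((range (JJ δ X)).biUnion P).card ≤ ∑ j ∈ range (JJ δ X), (P j).card :=
      card_biUnion_le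
    have g4 := g1.trans (g2.trans (Nat.add_le_add_right g3 _))
    exact_mod_cast g4
  have hsum : ∑ j ∈ range (JJ δ X), ((P j).card : ℝ) ≤
      C * (1 - (2 : ℝ) ^ (-c))⁻¹ * K ^ (-c) * X ^ (2 / dg k m) +
        C * ((JJ δ X : ℝ) * X ^ (-c)) * X ^ (2 / dg k m) := by
    calc ∑ j ∈ range (JJ δ X), ((P j).card : ℝ) ≤
        ∑ j ∈ range (JJ δ X), C * (X ^ (2 / dg k m) * (K ^ (-c) * ((2 : ℝ) ^ (-c)) ^ j) +
          X ^ (2 / dg k m - c)) := sum_le_sum fun j _ => hPcard j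
      _ = C * X ^ (2 / dg k m) * K ^ (-c) * ∑ j ∈ range (JJ δ X), ((2 : ℝ) ^ (-c)) ^ j +
          C * ((JJ δ X : ℝ) * X ^ (2 / dg k m - c)) := by
        rw [← mul_sum, sum_add_distrib, sum_const, card_range, nsmul_eq_mul, ← mul_sum, ← mul_sum]
        ring
      _ ≤ C * X ^ (2 / dg k m) * K ^ (-c) * (1 - (2 : ℝ) ^ (-c))⁻¹ +
          C * ((JJ δ X : ℝ) * X ^ (2 / dg k m - c)) := by
        have := mul_le_mul_of_nonneg_left (geo hr0 hr1 (JJ δ X))
          (show 0 ≤ C * X ^ (2 / dg k m) * K ^ (-c) by positivity)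
        linarith
      _ = _ := by
        have e6 : X ^ (2 / dg k m - c) = X ^ (-c) * X ^ (2 / dg k m) := by
          rw [sub_eq_add_neg, Real.rpow_add hX0]; ring
        rw [e6]
        ring
  have h6 : X ^ (2 / dg k m - η) = X ^ (-η) * X ^ (2 / dg k m) := by
    rw [sub_eq_add_neg, Real.rpow_add hX0]; ring
  rw [h6] at hcnt
  have hXd : 0 < X ^ (2 / dg k m) := Real.rpow_pos_of_pos hX0 _
  have h7 := mul_le_mul_of_nonneg_right hX.le hXd.le
  calc (({x | x ∈ PtR α γ A X ∧ K * X ^ (1 / dg k m) < (htn x : ℝ)} : Set (ℤ × ℤ)).ncard : ℝ) ≤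
      C * (1 - (2 : ℝ) ^ (-c))⁻¹ * K ^ (-c) * X ^ (2 / dg k m) +
        (C * ((JJ δ X : ℝ) * X ^ (-c)) + C' * X ^ (-η)) * X ^ (2 / dg k m) := by linarith
    _ ≤ C * (1 - (2 : ℝ) ^ (-c))⁻¹ * K ^ (-c) * X ^ (2 / dg k m) +
        K ^ (-c) * X ^ (2 / dg k m) := by linarith
    _ = _ := by ring

end Pool.Agent.L0h46.TS.TLK
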