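import Pool.Agent.L0h46.TQ.All
import Pool.Agent.L0h46.TS.FinS
import Pool.Agent.L0h46.TS.LC
import Pool.Agent.L0h28.TS.SMQ
import Pool.Agent.L0h46.TS.COL
import Pool.Agent.L0h46.TS.LAT
import Pool.Agent.L0h46.TS.CNT
import Pool.Agent.L0h46.TS.NR
import Pool.Agent.L0h46.TS.SEC
import Pool.Agent.L0h46.TS.POW
import Pool.Agent.L0h46.TS.TLA
import Pool.Agent.L0h46.TS.RED
import Pool.Agent.L0h46.TS.TLB
import Pool.Agent.L0h46.TS.TLK
import Pool.Agent.L0h46.TS.REG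
import Pool.Agent.L0h46.TS.GLM
import Pool.Agent.L0h46.TS.GDF
import Pool.Agent.L0h46.TS.LIM
import Pool.Agent.L0h46.TS.LM2
import Pool.Agent.L0h46.TS.PSI
import Pool.Agent.L0h46.TS.PSV
import Pool.Agent.L0h46.TS.HTD
import Pool.Agent.L0h46.TS.FBA
import Pool.Agent.L0h46.TS.FBB
import Pool.Agent.L0h46.TS.FBC
import Pool.Agent.L0h46.TS.ISO
import Pool.Agent.L0h46.TS.MAS

/-!
# Project TS: all the parts
-/

set_option autoImplicit false

namespace Pool.Agent.L0h46.TS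

theorem all {k m n : ℕ} {A B : Polynomial ℤ} {α : Fin k → ℤ × ℤ}
    {γ : Fin m → ℤ × ℤ × ℤ} {e : Fin k → ℕ} {f : Fin m → ℕ} {c : ℤ}
    (hS : Surf n A B α γ e f c) : rr e f < 6 ∧ SLaw A B m (2 / dg k m) (rr e f) := by
  have hLIN : Pool.Agent.L0h46.TQ.S_LIN := Pool.Agent.L0h46.TQ.LIN.main
  have hCE : Pool.Agent.L0h46.TQ.S_CE := Pool.Agent.L0h46.TQ.CE.main
    Pool.Agent.L0h46.TQ.QL.main hLIN
    (Pool.Agent.L0h46.TQ.CU.main Pool.Agent.L0h46.TQ.QL.main hLIN)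
  have hCEG : S_CEG := RED.main hCE
  have hCNT := CNT.main COL.main LAT.main
  have hPOW := POW.main hCNT SMQ.main
  have hTLA := TLA.main hCNT SMQ.main NR.main hPOW
  have hTLB := TLB.main hCEG hLIN
  have hTLK := TLK.main hTLA hTLB
  have hGLM := GLM.main LC.main REG.main
  have hGDF := GDF.main hPOW hTLK hTLB
  have hLIM := LIM.main hGLM hGDF hTLB
  have hLM2 := LM2.main SEC.main NR.main hTLK hTLB Pool.Agent.L0h46.TQ.GD.main
  have hPSI := PSI.main hLM2 hLIN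
  have hPSV := PSV.main hTLB NR.main SEC.main
  have hFBC := FBC.main FBA.main FBB.main
  exact ⟨MAS.main k m n A B α γ e f c hS, slaw hLIM hLM2 hPSI hPSV HTD.main hFBC ISO.main hS⟩

end Pool.Agent.L0h46.TS
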