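import Pool.Agent.L0h46.TS.Nt

/-!
# The cyclotomic character
-/

set_option autoImplicit false

namespace Pool.Agent.L0h46.TS

open NumberField Polynomial

variable {K : Type} [Field K] [CharZero K] {p : ℕ} [Fact p.Prime]

/-- the `p`-adic cyclotomic character -/
noncomputable def cyc (K : Type) [Field K] (p : ℕ) [Fact p.Prime] : GA K →* ℤ_[p]ˣ :=
  (cyclotomicCharacter (AlgebraicClosure K) p).comp
    (MulSemiringAction.toRingAut (GA K) (AlgebraicClosure K))

omit [CharZero K] in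
theorem cyc_cont : Continuous (cyc K p) := cyclotomicCharacter.continuous p K (AlgebraicClosure K)

instance enough (i : ℕ) : HasEnoughRootsOfUnity (AlgebraicClosure K) (p ^ i) := by
  have : NeZero ((p ^ i : ℕ) : AlgebraicClosure K) :=
    ⟨by push_cast; exact pow_ne_zero _ (by exact_mod_cast (Fact.out : p.Prime).ne_zero)⟩
  infer_instance

theorem cyc_spec (σ : GA K) {n : ℕ} {t : AlgebraicClosure K} (ht : t ^ p ^ n = 1) :
    σ t = t ^ (((cyc K p σ : ℤ_[p]ˣ) : ℤ_[p]).toZModPow n).val :=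
  cyclotomicCharacter.spec (L := AlgebraicClosure K) p (n := n)
    (MulSemiringAction.toRingAut (GA K) (AlgebraicClosure K) σ) t ht

theorem toZModPow_eq_one_iff {x : ℤ_[p]} {n : ℕ} : x.toZModPow n = 1 ↔ (p : ℤ_[p]) ^ n ∣ x - 1 := by
  rw [← Ideal.mem_span_singleton, ← PadicInt.ker_toZModPow, RingHom.mem_ker, map_sub, map_one,
    sub_eq_zero]

theorem cyc_dvd_iff (σ : GA K) (n : ℕ) :
    (p : ℤ_[p]) ^ n ∣ (cyc K p σ : ℤ_[p]) - 1 ↔
      ∀ t : AlgebraicClosure K, t ^ p ^ n = 1 → σ t = t := by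
  have hp := (Fact.out : p.Prime)
  constructor
  · intro h t ht
    rcases Nat.eq_zero_or_pos n with rfl | hn
    · rw [pow_zero, pow_one] at ht
      rw [ht, map_one]
    have h1 : 1 < p ^ n := Nat.one_lt_pow hn.ne' hp.one_lt
    have : Fact (1 < p ^ n) := ⟨h1⟩
    rw [cyc_spec σ ht, toZModPow_eq_one_iff.2 h, ZMod.val_one, pow_one]
  · intro h
    rcases Nat.eq_zero_or_pos n with rfl | hn
    · rw [pow_zero]
      exact one_dvd _
    have h1 : 1 < p ^ n := Nat.one_lt_pow hn.ne' hp.one_lt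
    have : Fact (1 < p ^ n) := ⟨h1⟩
    obtain ⟨ζ, hζ⟩ := HasEnoughRootsOfUnity.exists_primitiveRoot (AlgebraicClosure K) (p ^ n)
    have h2 := h ζ hζ.pow_eq_one
    rw [cyc_spec σ hζ.pow_eq_one] at h2
    have h3 : ζ ^ (((cyc K p σ : ℤ_[p]ˣ) : ℤ_[p]).toZModPow n).val = ζ ^ (1 : ZMod (p ^ n)).val := by
      rw [h2, ZMod.val_one, pow_one]
    have h4 := hζ.pow_inj (ZMod.val_lt _) (ZMod.val_lt _) h3
    rw [← toZModPow_eq_one_iff]
    exact ZMod.val_injective _ h4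

/-- the roots of unity are fixed by inertia groups outside `p` -/
theorem cyc_inertia {I : Ideal (OA K)} (hpI : (p : OA K) ∉ I) {σ : GA K}
    (hσ : ∀ x : OA K, σ • x - x ∈ I) : cyc K p σ = 1 := by
  have hp := (Fact.out : p.Prime)
  have key : ∀ n : ℕ, (p : ℤ_[p]) ^ n ∣ (cyc K p σ : ℤ_[p]) - 1 := by
    intro n
    rw [cyc_dvd_iff]
    intro t ht
    have hint : IsIntegral ℤ t := by
      refine ⟨X ^ (p ^ n) - 1, monic_X_pow_sub_C (R := ℤ) 1 (pow_ne_zero _ hp.ne_zero), ?_⟩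
      simp [ht]
    set T : OA K := ⟨t, hint⟩ with hT
    have hTn : T ^ p ^ n = 1 := RingOfIntegers.ext ht
    set ξ : OA K := (σ • T) * T ^ (p ^ n - 1) with hξ
    have hTT : T * T ^ (p ^ n - 1) = 1 := by
      rw [← pow_succ', Nat.sub_add_cancel (Nat.one_le_pow _ _ hp.pos), hTn]
    have hξI : ξ - 1 ∈ I := by
      have h1 : ξ - 1 = (σ • T - T) * T ^ (p ^ n - 1) := by
        rw [hξ, sub_mul, hTT]
      rw [h1]
      exact I.mul_mem_right _ (hσ T)
    have hξn : ξ ^ p ^ n = 1 := by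
      rw [hξ, mul_pow, ← smul_pow', hTn, smul_one, one_mul, ← pow_mul, mul_comm, pow_mul, hTn, one_pow]
    have hξ1 : ξ = 1 := by
      by_contra hne
      obtain ⟨j, hj, hjo⟩ := (Nat.dvd_prime_pow hp).1 (orderOf_dvd_of_pow_eq_one hξn)
      have hj0 : j ≠ 0 := by
        rintro rfl
        rw [pow_zero, orderOf_eq_one_iff] at hjo
        exact hne hjo
      obtain ⟨k, rfl⟩ := Nat.exists_eq_succ_of_ne_zero hj0
      have hprim : IsPrimitiveRoot ξ (p ^ (k + 1)) := by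
        have := IsPrimitiveRoot.orderOf ξ
        rwa [hjo] at this
      have h1 := eval_one_cyclotomic_prime_pow (R := OA K) (p := p) k
      rw [cyclotomic_eq_prod_X_sub_primitiveRoots hprim, eval_prod] at h1
      apply hpI
      rw [← h1]
      refine I.mem_of_dvd (Finset.dvd_prod_of_mem _ ((mem_primitiveRoots (pow_pos hp.pos _)).2 hprim)) ?_
      rw [eval_sub, eval_X, eval_C, ← neg_sub]
      exact I.neg_mem hξI
    have h2 : σ • T = T := by
      have h3 : σ • T = ξ * T := by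
        rw [hξ, mul_assoc, mul_comm (T ^ _) T, hTT, mul_one]
      rw [h3, hξ1, one_mul]
    exact congrArg (fun z : OA K => (z : AlgebraicClosure K)) h2
  refine Units.ext ?_
  rw [Units.val_one]
  refine PadicInt.ext_of_toZModPow.1 fun n => ?_
  rw [map_one]
  exact toZModPow_eq_one_iff.2 (key n)

theorem exists_move {n : ℕ} (h : ¬ ∃ ζ : K, IsPrimitiveRoot ζ (p ^ n)) :
    ∃ g : GA K, ¬ (p : ℤ_[p]) ^ n ∣ (cyc K p g : ℤ_[p]) - 1 := by
  by_contra hcon
  push Not at hcon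
  obtain ⟨ζ, hζ⟩ := HasEnoughRootsOfUnity.exists_primitiveRoot (AlgebraicClosure K) (p ^ n)
  obtain ⟨y, hy⟩ := mem_of_fixed (K := K) (x := ζ) fun g =>
    (cyc_dvd_iff g n).1 (hcon g) ζ hζ.pow_eq_one
  refine h ⟨y, ?_⟩
  rw [← hy] at hζ
  exact (IsPrimitiveRoot.map_iff_of_injective (algebraMap K (AlgebraicClosure K)).injective).1 hζ

theorem dvd_of_mem {n : ℕ} (h : ∃ ζ : K, IsPrimitiveRoot ζ (p ^ n)) (g : GA K) :
    (p : ℤ_[p]) ^ n ∣ (cyc K p g : ℤ_[p]) - 1 := by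
  rw [cyc_dvd_iff]
  intro t ht
  obtain ⟨ζ, hζ⟩ := h
  have h1 : IsPrimitiveRoot (algebraMap K (AlgebraicClosure K) ζ) (p ^ n) :=
    hζ.map_of_injective (algebraMap K (AlgebraicClosure K)).injective
  have : NeZero (p ^ n) := ⟨pow_ne_zero _ (Fact.out : p.Prime).ne_zero⟩
  obtain ⟨i, -, hi⟩ := h1.eq_pow_of_pow_eq_one ht
  rw [← hi, map_pow, AlgEquiv.commutes]

end Pool.Agent.L0h46.TS
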