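import Pool.Agent.L0h46.TS.Rel

/-!
# Cyclotomic fields
-/

set_option autoImplicit false

namespace Pool.Agent.L0h46.TS

open NumberField

variable {p : ℕ} [Fact p.Prime] {K : Type} [Field K] [NumberField K]

theorem cyclo_above {n : ℕ} (hn : 0 < n) [hK : IsCyclotomicExtension {p ^ n} ℚ K] :
    Nat.card (Above K p) = 1 := by
  have hp := (Fact.out : p.Prime)
  obtain ⟨k, rfl⟩ := Nat.exists_eq_succ_of_ne_zero hn.ne'
  rw [Nat.succ_eq_add_one] at hK
  have hne : NeZero (p ^ (k + 1)) := ⟨pow_ne_zero _ hp.ne_zero⟩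
  have hζ := IsCyclotomicExtension.zeta_spec (p ^ (k + 1)) ℚ K
  have hpr := hζ.zeta_sub_one_prime
  have hmax : (Ideal.span {hζ.toInteger - 1}).IsMaximal := by
    have h1 : (Ideal.span {hζ.toInteger - 1}).IsPrime :=
      (Ideal.span_singleton_prime hpr.ne_zero).2 hpr
    exact h1.isMaximal (by rw [Ne, Ideal.span_singleton_eq_bot]; exact hpr.ne_zero)
  have key : ∀ P : Above K p, P.1 = Ideal.span {hζ.toInteger - 1} := by
    intro P
    have hP := P.2.1
    have h1 : hζ.toInteger - 1 ∈ P.1 := by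
      have : CharP (𝓞 K ⧸ P.1) p := by
        have h2 : Nontrivial (𝓞 K ⧸ P.1) := Ideal.Quotient.nontrivial_iff.2 hP.ne_top
        refine (CharP.charP_iff_prime_eq_zero hp).2 ?_
        rw [← map_natCast (Ideal.Quotient.mk P.1), Ideal.Quotient.eq_zero_iff_mem]
        exact P.2.2
      have : IsDomain (𝓞 K ⧸ P.1) := inferInstance
      rw [← Ideal.Quotient.eq_zero_iff_mem, map_sub, map_one]
      apply pow_eq_zero_iff (n := p ^ (k + 1)) (pow_ne_zero _ hp.ne_zero) |>.1
      have : ExpChar (𝓞 K ⧸ P.1) p := ExpChar.prime hp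
      rw [sub_pow_expChar_pow, one_pow, ← map_pow]
      have h3 : hζ.toInteger ^ p ^ (k + 1) = 1 := by
        apply RingOfIntegers.ext
        have := hζ.pow_eq_one
        push_cast
        exact this
      rw [h3, map_one, sub_self]
    have h2 : Ideal.span {hζ.toInteger - 1} ≤ P.1 := by
      rw [Ideal.span_singleton_le_iff_mem]
      exact h1
    exact (hmax.eq_of_le hP.ne_top h2).symm
  have h1 := above_nonempty (K := K) hp
  have h2 : Subsingleton (Above K p) := ⟨fun P Q => Subtype.ext ((key P).trans (key Q).symm)⟩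
  exact Nat.card_unique

theorem cyclo_root {n : ℕ} [hK : IsCyclotomicExtension {p ^ n} ℚ K] :
    ∃ ζ : K, IsPrimitiveRoot ζ (p ^ n) :=
  have : NeZero (p ^ n) := ⟨pow_ne_zero _ (Fact.out : p.Prime).ne_zero⟩
  ⟨_, IsCyclotomicExtension.zeta_spec (p ^ n) ℚ K⟩

theorem cyclo_root' {n : ℕ} (hn : 0 < n) [hK : IsCyclotomicExtension {p ^ n} ℚ K] :
    ¬ ∃ ζ : K, IsPrimitiveRoot ζ (p ^ (n + 1)) := by
  rintro ⟨ξ, hξ⟩
  have hp := (Fact.out : p.Prime)
  have : NeZero (p ^ n) := ⟨pow_ne_zero _ hp.ne_zero⟩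
  have h1 : Module.finrank ℚ K = (p ^ n).totient :=
    IsCyclotomicExtension.finrank (n := p ^ n) K (Polynomial.cyclotomic.irreducible_rat (NeZero.pos _))
  have h2 := IsPrimitiveRoot.lcm_totient_le_finrank (K := ℚ) hξ hξ
    (by rw [Nat.lcm_self]; exact Polynomial.cyclotomic.irreducible_rat (pow_pos hp.pos _))
  rw [Nat.lcm_self, h1, Nat.totient_prime_pow_succ hp] at h2
  obtain ⟨k, rfl⟩ := Nat.exists_eq_succ_of_ne_zero hn.ne'
  rw [Nat.succ_eq_add_one, Nat.totient_prime_pow_succ hp] at h2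
  have h3 : 0 < p - 1 := Nat.sub_pos_of_lt hp.one_lt
  exact absurd (Nat.le_of_mul_le_mul_right h2 h3)
    (not_le.2 (Nat.pow_lt_pow_right hp.one_lt (Nat.lt_succ_self k)))

end Pool.Agent.L0h46.TS
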