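import Pool.Agent.L0h46.TS.Cy

/-!
# The theorems
-/

set_option autoImplicit false

namespace Pool.Agent.L0h46.TS

open NumberField

variable {p : ℕ} [Fact p.Prime] {K : Type} [Field K] [NumberField K]

/-- inertia -/
def InI {K : Type} [Field K] (I : Ideal (OA K)) (g : GA K) : Prop := ∀ x : OA K, g • x - x ∈ I

/-- decomposition -/
def InD {K : Type} [Field K] (I : Ideal (OA K)) (g : GA K) : Prop := ∀ x : OA K, g • x ∈ I ↔ x ∈ I

/-- the twist -/
noncomputable def tw (K : Type) [Field K] (p : ℕ) [Fact p.Prime] (r : ℤ) (g : GA K) : ℤ_[p] :=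
  ((cyc K p g ^ r : ℤ_[p]ˣ) : ℤ_[p])

/-- the cocycles of the elements of the Tate-Shafarevich groups -/
structure ShaC (r : ℤ) (c : GA K → ℤ_[p]) : Prop where
  cont : Continuous c
  mul : ∀ g h, c (g * h) = c g + tw K p r g * c h
  unr : ∀ q : ℕ, q.Prime → q ≠ p → ∀ I : Ideal (OA K), I.IsPrime → (q : OA K) ∈ I → ∀ g,
    InI I g → c g = 0
  loc : ∀ I : Ideal (OA K), I.IsPrime → (p : OA K) ∈ I → ∃ z, ∀ g, InD I g →
    c g = (tw K p r g - 1) * z

/-- linear independence of the classes -/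
def Indep (r : ℤ) {m : ℕ} (c : Fin m → GA K → ℤ_[p]) : Prop :=
  ∀ a : Fin m → ℤ_[p], (∃ z, ∀ g, ∑ j, a j * c j g = (tw K p r g - 1) * z) → a = 0

/-- an unramified extension in which the primes above `p` split completely -/
structure UnrSplit (p : ℕ) {A : Type} [AddCommGroup A] (φ : GA K →* Multiplicative A) : Prop where
  isOpen : IsOpen (φ.ker : Set (GA K))
  surj : Function.Surjective φ
  unr : ∀ q : ℕ, q.Prime → q ≠ p → ∀ I : Ideal (OA K), I.IsPrime → (q : OA K) ∈ I → ∀ g,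
    InI I g → φ g = 1
  split : ∀ I : Ideal (OA K), I.IsPrime → (p : OA K) ∈ I → ∀ g, InD I g → φ g = 1

theorem not_mem {q : ℕ} (hq : q.Prime) (hqp : q ≠ p) {I : Ideal (OA K)} (hI : I.IsPrime)
    (hqI : (q : OA K) ∈ I) : (p : OA K) ∉ I := by
  intro hpI
  apply hI.ne_top
  rw [Ideal.eq_top_iff_one]
  have h1 : IsCoprime (q : ℤ) (p : ℤ) :=
    Nat.isCoprime_iff_coprime.2 ((Nat.coprime_primes hq (Fact.out : p.Prime)).2 hqp)
  obtain ⟨a, b, hab⟩ := h1
  have h2 : (1 : OA K) = (a : OA K) * q + (b : OA K) * p := by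
    have h3 := congrArg (Int.cast (R := OA K)) hab
    push_cast at h3
    exact h3.symm
  rw [h2]
  exact I.add_mem (I.mul_mem_left _ hqI) (I.mul_mem_left _ hpI)

theorem tw_one (r : ℤ) : tw K p r 1 = 1 := by
  unfold tw
  rw [map_one, one_zpow, Units.val_one]

theorem tw_mul (r : ℤ) (g h : GA K) : tw K p r (g * h) = tw K p r g * tw K p r h := by
  unfold tw
  rw [map_mul, mul_zpow, Units.val_mul]

theorem tw_cont (r : ℤ) : Continuous (tw K p r) :=
  Units.continuous_val.comp (cyc_cont.zpow r)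

theorem tw_inertia {q : ℕ} (hq : q.Prime) (hqp : q ≠ p) {I : Ideal (OA K)} (hI : I.IsPrime)
    (hqI : (q : OA K) ∈ I) {g : GA K} (hg : InI I g) (r : ℤ) : tw K p r g = 1 := by
  unfold tw
  rw [cyc_inertia (not_mem hq hqp hI hqI) hg, one_zpow, Units.val_one]

/-- normalised cocycles -/
structure Nor (r : ℤ) (D : Above K p → Set (GA K)) (c : GA K → ℤ_[p]) : Prop where
  cont : Continuous c
  mul : ∀ g h, c (g * h) = c g + tw K p r g * c h
  unr : ∀ q : ℕ, q.Prime → q ≠ p → ∀ I : Ideal (OA K), I.IsPrime → (q : OA K) ∈ I → ∀ g,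
    InI I g → c g = 0
  loc : ∀ k, ∀ g ∈ D k, c g = 0

theorem exists_nor (r : ℤ) {m : ℕ} (c : Fin m → GA K → ℤ_[p]) (hc : ∀ j, ShaC r (c j))
    (hi : Indep r c) (J : Above K p → Ideal (OA K)) (hJ : ∀ P, (J P).IsPrime)
    (hJP : ∀ P, (J P).comap (algebraMap (𝓞 K) (OA K)) = P.1) :
    ∃ c' : Fin (m - (Nat.card (Above K p) - 1)) → GA K → ℤ_[p],
      (∀ l, Nor r (fun P => {g | InD (J P) g}) (c' l)) ∧
      ∀ b : Fin (m - (Nat.card (Above K p) - 1)) → ℤ_[p],
        (∀ g, ∑ l, b l * c' l g = 0) → b = 0 := by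
  classical
  have hfin : Finite (Above K p) := above_finite (Fact.out : p.Prime)
  have hft : Fintype (Above K p) := Fintype.ofFinite _
  obtain ⟨P₀⟩ := above_nonempty (K := K) (Fact.out : p.Prime)
  have hpJ : ∀ P, (p : OA K) ∈ J P := by
    intro P
    have h1 : (p : 𝓞 K) ∈ (J P).comap (algebraMap (𝓞 K) (OA K)) := by
      rw [hJP]
      exact P.2.2
    rw [Ideal.mem_comap, map_natCast] at h1
    exact h1
  have h0 := normalise P₀ c (tw K p r) (fun P => {g | InD (J P) g})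
    (fun j P => (hc j).loc (J P) (hJ P) (hpJ P)) hi
  rw [← Nat.card_eq_fintype_card] at h0
  obtain ⟨A, z, h1, h2⟩ := h0
  refine ⟨fun l g => ∑ j, A l j * c j g - (tw K p r g - 1) * z l, fun l => ⟨?_, ?_, ?_, ?_⟩, h2⟩
  · exact (continuous_finsetSum _ fun j _ => continuous_const.mul (hc j).cont).sub
      (((tw_cont r).sub continuous_const).mul continuous_const)
  · intro g h
    have h3 : ∑ j, A l j * c j (g * h) = ∑ j, A l j * c j g + tw K p r g * ∑ j, A l j * c j h := by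
      rw [Finset.mul_sum, ← Finset.sum_add_distrib]
      refine Finset.sum_congr rfl fun j _ => ?_
      rw [(hc j).mul]
      ring
    change ∑ j, A l j * c j (g * h) - (tw K p r (g * h) - 1) * z l =
      (∑ j, A l j * c j g - (tw K p r g - 1) * z l) +
        tw K p r g * (∑ j, A l j * c j h - (tw K p r h - 1) * z l)
    rw [h3, tw_mul]
    ring
  · intro q hq hqp I hI hqI g hg
    have h3 : ∑ j, A l j * c j g = 0 :=
      Finset.sum_eq_zero fun j _ => by rw [(hc j).unr q hq hqp I hI hqI g hg, mul_zero]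
    change ∑ j, A l j * c j g - (tw K p r g - 1) * z l = 0
    rw [h3, tw_inertia hq hqp hI hqI hg]
    ring
  · intro P g hg
    exact h1 l P g hg

/-- from the representatives to all places -/
theorem split_of {A : Type} [AddCommGroup A] (φ : GA K →* Multiplicative A)
    (J : Above K p → Ideal (OA K)) (hJ : ∀ P, (J P).IsPrime)
    (hJP : ∀ P, (J P).comap (algebraMap (𝓞 K) (OA K)) = P.1)
    (h : ∀ P g, InD (J P) g → φ g = 1) (I : Ideal (OA K)) (hI : I.IsPrime) (hpI : (p : OA K) ∈ I)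
    (g : GA K) (hg : InD I g) : φ g = 1 := by
  let P : Above K p := ⟨I.comap (algebraMap (𝓞 K) (OA K)), Ideal.comap_isPrime _ I, by
    rw [Ideal.mem_comap, map_natCast]
    exact hpI⟩
  obtain ⟨τ, hτ⟩ := transitive (hJ P) hI (hJP P)
  have h1 : InD (J P) (τ⁻¹ * g * τ) := by
    intro x
    rw [← hτ, ← hτ, mul_smul, mul_smul, smul_inv_smul]
    exact hg _
  have h2 := h P _ h1
  rw [map_mul, map_mul, map_inv] at h2
  have h3 : (φ τ)⁻¹ * φ g * φ τ = φ g := by
    rw [mul_comm, ← mul_assoc, mul_inv_cancel, one_mul]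
  rwa [h3] at h2

theorem one_twist (r : ℤ) (b : ℕ) (hb : ∀ g : GA K, (p : ℤ_[p]) ^ b ∣ tw K p r g - 1) {m : ℕ}
    (c : Fin m → GA K → ℤ_[p]) (hc : ∀ j, ShaC r (c j)) (hi : Indep r c) :
    ∃ φ : GA K →* Multiplicative (Fin (m - (Nat.card (Above K p) - 1)) → ZMod (p ^ b)),
      UnrSplit p φ := by
  choose J hJ hJP using exists_over (K := K) (p := p)
  obtain ⟨c', hc', hi'⟩ := exists_nor r c hc hi J hJ hJP
  obtain ⟨φ, h1, h2, h3⟩ := single (fun g l => c' l g) (continuous_pi fun l => (hc' l).cont)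
    (tw K p r) (tw_one r) b hb (fun g h => funext fun l => (hc' l).mul g h) hi'
  refine ⟨φ, h1, h2, ?_, ?_⟩
  · intro q hq hqp I hI hqI g hg
    exact h3 g (funext fun l => (hc' l).unr q hq hqp I hI hqI g hg)
  · exact split_of φ J hJ hJP fun P g hg => h3 g (funext fun l => (hc' l).loc P g hg)

theorem many_twists {n : ℕ} (hn : 0 < n) (hp2 : p ≠ 2 ∨ 2 ≤ n)
    (hroot : ∃ ζ : K, IsPrimitiveRoot ζ (p ^ n)) (hroot' : ¬ ∃ ζ : K, IsPrimitiveRoot ζ (p ^ (n + 1)))
    (R : Finset ℤ) (hR : (0 : ℤ) ∉ R) (m : ℤ → ℕ) (c : (r : ℤ) → Fin (m r) → GA K → ℤ_[p])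
    (hc : ∀ r ∈ R, ∀ j, ShaC r (c r j)) (hi : ∀ r ∈ R, Indep r (c r)) :
    ∃ (A : Type) (_ : AddCommGroup A) (φ : GA K →* Multiplicative A), UnrSplit p φ ∧
      Nat.card A = p ^ (∑ r ∈ R, (m r - (Nat.card (Above K p) - 1)) * (n + padicValInt p r)) := by
  classical
  choose J hJ hJP using exists_over (K := K) (p := p)
  have hex : ∀ r : R, ∃ c' : Fin (m r - (Nat.card (Above K p) - 1)) → GA K → ℤ_[p],
      (∀ l, Nor (r : ℤ) (fun P => {g | InD (J P) g}) (c' l)) ∧
      ∀ b : Fin (m r - (Nat.card (Above K p) - 1)) → ℤ_[p],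
        (∀ g, ∑ l, b l * c' l g = 0) → b = 0 :=
    fun r => exists_nor (r : ℤ) (c r) (hc r r.2) (hi r r.2) J hJ hJP
  choose c' hc' hi' using hex
  obtain ⟨γ, hγ⟩ := exists_move hroot'
  obtain ⟨A, hA, φ, h1, h2, h3, h4⟩ := multi
    (ι := Σ r : R, Fin (m r - (Nat.card (Above K p) - 1)))
    (fun g i => c' i.1 i.2 g) (continuous_pi fun i => (hc' i.1 i.2).cont) (cyc K p)
    (fun i => (i.1 : ℤ)) (fun i h => hR (by rw [← h]; exact i.1.2)) hn hp2 (dvd_of_mem hroot) γ hγ
    (fun g h => funext fun i => (hc' i.1 i.2).mul g h) (by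
      intro r a ha hsum
      by_cases hr : r ∈ R
      · have h5 : (fun l => a ⟨⟨r, hr⟩, l⟩) = 0 := by
          refine hi' ⟨r, hr⟩ _ fun g => ?_
          rw [← hsum g, Fintype.sum_sigma]
          rw [Finset.sum_eq_single (⟨r, hr⟩ : R)]
          · intro s _ hs
            refine Finset.sum_eq_zero fun l _ => ?_
            rw [ha ⟨s, l⟩ (fun h => hs (Subtype.ext h)), zero_mul]
          · intro h
            exact absurd (Finset.mem_univ _) h
        funext i
        by_cases hir : (i.1 : ℤ) = r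
        · obtain ⟨s, l⟩ := i
          have hs : s = ⟨r, hr⟩ := Subtype.ext hir
          subst hs
          exact congrFun h5 l
        · exact ha i hir
      · funext i
        exact ha i fun h => hr (by rw [← h]; exact i.1.2))
  refine ⟨A, hA, φ, ⟨h1, h2, ?_, ?_⟩, ?_⟩
  · intro q hq hqp I hI hqI g hg
    exact h3 g (funext fun i => (hc' i.1 i.2).unr q hq hqp I hI hqI g hg)
  · exact split_of φ J hJ hJP fun P g hg => h3 g (funext fun i => (hc' i.1 i.2).loc P g hg)
  · rw [h4]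
    congr 1
    rw [Fintype.sum_sigma, ← Finset.sum_coe_sort R]
    refine Finset.sum_congr rfl fun r _ => ?_
    change ∑ _l : Fin (m r - (Nat.card (Above K p) - 1)), (n + padicValInt p (r : ℤ)) = _
    rw [Finset.sum_const, Finset.card_univ, Fintype.card_fin, smul_eq_mul]

end Pool.Agent.L0h46.TS
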