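import Mathlib

/-!
# Principal units of `ℤ_p`
-/

set_option autoImplicit false

namespace Pool.Agent.L0h46.TS

variable {p : ℕ} [Fact p.Prime]

theorem isUnit_of {x : ℤ_[p]} (h : ¬ (p : ℤ_[p]) ∣ x) : IsUnit x := by
  by_contra hcon
  have h1 : x ∈ IsLocalRing.maximalIdeal ℤ_[p] := (IsLocalRing.mem_maximalIdeal x).2 hcon
  rw [PadicInt.maximalIdeal_eq_span_p, Ideal.mem_span_singleton] at h1
  exact h h1

theorem not_dvd_unit (u : ℤ_[p]ˣ) : ¬ (p : ℤ_[p]) ∣ u := by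
  intro h
  exact PadicInt.prime_p.not_isUnit (isUnit_of_dvd_unit h u.isUnit)

/-- `t - 1` has valuation exactly `n` -/
def Ex (n : ℕ) (t : ℤ_[p]) : Prop := ∃ u : ℤ_[p]ˣ, t = 1 + (p : ℤ_[p]) ^ n * u

theorem Ex.of {n : ℕ} {t : ℤ_[p]} (h1 : (p : ℤ_[p]) ^ n ∣ t - 1)
    (h2 : ¬ (p : ℤ_[p]) ^ (n + 1) ∣ t - 1) : Ex n t := by
  obtain ⟨v, hv⟩ := h1
  have h3 : ¬ (p : ℤ_[p]) ∣ v := by
    rintro ⟨w, hw⟩
    apply h2
    refine ⟨w, ?_⟩
    rw [hv, hw]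
    ring
  obtain ⟨u, hu⟩ := isUnit_of h3
  exact ⟨u, by rw [hu, ← hv]; ring⟩

theorem Ex.dvd {n : ℕ} {t : ℤ_[p]} (h : Ex n t) : (p : ℤ_[p]) ^ n ∣ t - 1 := by
  obtain ⟨u, hu⟩ := h
  exact ⟨u, by rw [hu]; ring⟩

theorem Ex.coprime {n : ℕ} (hn : 0 < n) {t : ℤ_[p]} (h : Ex n t) {k : ℕ} (hk : ¬ p ∣ k) :
    Ex n (t ^ k) := by
  have h1 := h.dvd
  obtain ⟨u, hu⟩ := h
  have hp1 : (p : ℤ_[p]) ∣ t - 1 := (dvd_pow_self _ hn.ne').trans h1
  have htp : ¬ (p : ℤ_[p]) ∣ t := by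
    intro h2
    have h3 := dvd_sub h2 hp1
    rw [sub_sub_cancel] at h3
    exact not_dvd_unit 1 (by simpa using h3)
  have hkp : ¬ (p : ℤ_[p]) ∣ (k : ℤ_[p]) := by
    intro h2
    apply hk
    have h3 := (PadicInt.norm_int_lt_one_iff_dvd (p := p) (k : ℤ)).1 (by
      rw [PadicInt.norm_lt_one_iff_dvd]
      exact_mod_cast h2)
    exact_mod_cast h3
  have h4 := not_dvd_geom_sum₂ (R := ℤ_[p]) PadicInt.prime_p (x := t) (y := 1) hp1 htp hkp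
  obtain ⟨v, hv⟩ := isUnit_of h4
  refine ⟨u * v, ?_⟩
  have h5 := geom_sum₂_mul t 1 k
  rw [one_pow, ← hv] at h5
  have h6 : t - 1 = (p : ℤ_[p]) ^ n * u := by rw [hu]; ring
  rw [h6] at h5
  push_cast
  linear_combination -h5

theorem Ex.pow_p {n : ℕ} (hn : 0 < n) (hp2 : p ≠ 2 ∨ 2 ≤ n) {t : ℤ_[p]} (h : Ex n t) :
    Ex (n + 1) (t ^ p) := by
  have h1 := h.dvd
  obtain ⟨u, hu⟩ := h
  have hp1 : (p : ℤ_[p]) ∣ t - 1 := (dvd_pow_self _ hn.ne').trans h1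
  have htp : ¬ (p : ℤ_[p]) ∣ t := by
    intro h2
    have h3 := dvd_sub h2 hp1
    rw [sub_sub_cancel] at h3
    exact not_dvd_unit 1 (by simpa using h3)
  obtain ⟨v, hv⟩ : ∃ v : ℤ_[p]ˣ, ∑ i ∈ Finset.range p, t ^ i * 1 ^ (p - 1 - i) = p * v := by
    by_cases h2 : p = 2
    · have hn2 : 2 ≤ n := hp2.resolve_left (fun h => h h2)
      subst h2
      have h3 : ¬ ((2 : ℕ) : ℤ_[2]) ∣ 1 + 2 ^ (n - 1) * (u : ℤ_[2]) := by
        intro h4
        have h5 : ((2 : ℕ) : ℤ_[2]) ∣ 2 ^ (n - 1) * (u : ℤ_[2]) :=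
          (dvd_pow_self _ (by omega)).mul_right _
        have h6 := (dvd_add_left h5).1 h4
        exact not_dvd_unit (p := 2) 1 (by rw [Units.val_one]; exact h6)
      obtain ⟨v, hv⟩ := isUnit_of h3
      refine ⟨v, ?_⟩
      rw [hv, Finset.sum_range_succ, Finset.sum_range_one, hu]
      have h7 : (2 : ℤ_[2]) ^ n = 2 * 2 ^ (n - 1) := by
        rw [← pow_succ']
        congr 1
        omega
      push_cast
      rw [h7]
      ring
    · have hodd : Odd p := (Fact.out : p.Prime).odd_of_ne_two h2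
      have h3 := (emultiplicity_eq_coe (n := 1)).1 (by
        simpa using emultiplicity_geom_sum₂_eq_one (R := ℤ_[p]) PadicInt.prime_p hodd hp1 htp)
      obtain ⟨v, hv⟩ := h3.1
      have h4 : ¬ (p : ℤ_[p]) ∣ v := by
        rintro ⟨w, hw⟩
        apply h3.2
        refine ⟨w, ?_⟩
        rw [hv, hw]
        ring
      obtain ⟨w, hw⟩ := isUnit_of h4
      exact ⟨w, by simp only [one_pow, mul_one]; rw [hv, hw, pow_one]⟩
  refine ⟨u * v, ?_⟩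
  have h5 := geom_sum₂_mul t 1 p
  rw [one_pow, hv] at h5
  have h6 : t - 1 = (p : ℤ_[p]) ^ n * u := by rw [hu]; ring
  rw [h6] at h5
  push_cast
  rw [pow_succ]
  linear_combination -h5

theorem Ex.pow_p_pow {n : ℕ} (hn : 0 < n) (hp2 : p ≠ 2 ∨ 2 ≤ n) {t : ℤ_[p]} (h : Ex n t) (a : ℕ) :
    Ex (n + a) (t ^ p ^ a) := by
  induction a with
  | zero => simpa using h
  | succ a ih =>
    have h1 := ih.pow_p (by omega) (by omega)
    rw [← pow_mul, ← pow_succ] at h1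
    exact h1

theorem Ex.pow {n : ℕ} (hn : 0 < n) (hp2 : p ≠ 2 ∨ 2 ≤ n) {t : ℤ_[p]} (h : Ex n t) {k : ℕ}
    (hk : k ≠ 0) : Ex (n + padicValNat p k) (t ^ k) := by
  obtain ⟨m, hm, hkm⟩ := Nat.exists_eq_pow_mul_and_not_dvd hk p (Fact.out : p.Prime).ne_one
  have h1 : padicValNat p k = m := by
    rw [hkm.2]
    rw [padicValNat.mul (pow_ne_zero _ (Fact.out : p.Prime).ne_zero) (by
      rintro rfl
      exact hkm.1 (dvd_zero _)), padicValNat.prime_pow, padicValNat.eq_zero_of_not_dvd hkm.1, add_zero]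
  rw [h1, hkm.2, pow_mul]
  exact (h.pow_p_pow hn hp2 m).coprime (by omega) hkm.1

theorem Ex.inv {n : ℕ} {t : ℤ_[p]ˣ} (h : Ex n (t : ℤ_[p])) : Ex n ((t⁻¹ : ℤ_[p]ˣ) : ℤ_[p]) := by
  obtain ⟨u, hu⟩ := h
  refine ⟨-(u * t⁻¹), ?_⟩
  have h1 : (t : ℤ_[p]) * ((t⁻¹ : ℤ_[p]ˣ) : ℤ_[p]) = 1 := t.mul_inv
  push_cast
  linear_combination h1 - ((t⁻¹ : ℤ_[p]ˣ) : ℤ_[p]) * hu

theorem Ex.zpow {n : ℕ} (hn : 0 < n) (hp2 : p ≠ 2 ∨ 2 ≤ n) {t : ℤ_[p]ˣ} (h : Ex n (t : ℤ_[p]))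
    {r : ℤ} (hr : r ≠ 0) : Ex (n + padicValInt p r) ((t ^ r : ℤ_[p]ˣ) : ℤ_[p]) := by
  have h1 : r.natAbs ≠ 0 := Int.natAbs_ne_zero.2 hr
  have h2 := h.pow hn hp2 h1
  unfold padicValInt
  rcases Int.natAbs_eq r with h3 | h3
  · have h4 : ((t ^ r : ℤ_[p]ˣ) : ℤ_[p]) = (t : ℤ_[p]) ^ r.natAbs := by
      conv_lhs => rw [h3]
      rw [zpow_natCast, Units.val_pow_eq_pow_val]
    rw [h4]
    exact h2
  · have h4 : t ^ r = (t ^ r.natAbs)⁻¹ := by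
      conv_lhs => rw [h3]
      rw [zpow_neg, zpow_natCast]
    rw [h4]
    apply Ex.inv
    rw [Units.val_pow_eq_pow_val]
    exact h2

theorem approx {n : ℕ} (hn : 0 < n) (hp2 : p ≠ 2 ∨ 2 ≤ n) {t₀ t : ℤ_[p]} (h₀ : Ex n t₀)
    (ht : (p : ℤ_[p]) ^ n ∣ t - 1) (k : ℕ) : ∃ j : ℕ, (p : ℤ_[p]) ^ k ∣ t - t₀ ^ j := by
  have key : ∀ a : ℕ, ∃ j : ℕ, (p : ℤ_[p]) ^ (n + a) ∣ t - t₀ ^ j := by
    intro a
    induction a with
    | zero => exact ⟨0, by simpa using ht⟩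
    | succ a ih =>
      obtain ⟨j, w, hw⟩ := ih
      obtain ⟨u, hu⟩ := h₀.pow_p_pow hn hp2 a
      have ht0 : IsUnit (t₀ ^ j) := by
        refine IsUnit.pow j (isUnit_of fun h2 => ?_)
        have h3 := dvd_sub h2 ((dvd_pow_self (p : ℤ_[p]) hn.ne').trans h₀.dvd)
        rw [sub_sub_cancel] at h3
        exact not_dvd_unit 1 (by simpa using h3)
      obtain ⟨v, hv⟩ := ht0
      set z : ℤ_[p] := w * ((u * v)⁻¹ : ℤ_[p]ˣ) with hz
      have h4 := PadicInt.appr_spec 1 z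
      rw [pow_one, Ideal.mem_span_singleton] at h4
      set i : ℕ := z.appr 1 with hi
      obtain ⟨y, hy⟩ := h4
      have hw' : w = (i : ℤ_[p]) * (u * v) + p * y * (u * v) := by
        have h5 : w = z * ((u * v : ℤ_[p]ˣ) : ℤ_[p]) := by
          rw [hz, mul_assoc, Units.inv_mul, mul_one]
        have h6 : z = i + p * y := by linear_combination hy
        rw [h5, h6]
        push_cast
        ring
      refine ⟨j + p ^ a * i, ?_⟩
      have h7 := sq_dvd_add_pow_sub_sub ((p : ℤ_[p]) ^ (n + a) * u) 1 i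
      rw [← hu, one_pow, one_pow, one_mul] at h7
      obtain ⟨x, hx⟩ := h7
      have h8 : (t₀ ^ p ^ a) ^ i = 1 + (p : ℤ_[p]) ^ (n + a) * u * i +
          ((p : ℤ_[p]) ^ (n + a) * u) ^ 2 * x := by linear_combination hx
      have h9 : t - t₀ ^ (j + p ^ a * i) =
          (p : ℤ_[p]) ^ (n + a) * (p * (y * (u * v)) - v * (p : ℤ_[p]) ^ (n + a) * u ^ 2 * x) := by
        rw [pow_add, pow_mul, h8, ← hv]
        rw [← hv] at hw
        have h10 : t = v + (p : ℤ_[p]) ^ (n + a) * w := by linear_combination hw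
        rw [h10, hw']
        ring
      rw [h9, ← add_assoc, pow_succ]
      refine mul_dvd_mul_left _ (dvd_sub (dvd_mul_right _ _) ?_)
      have h11 : (p : ℤ_[p]) ∣ (p : ℤ_[p]) ^ (n + a) := dvd_pow_self _ (by omega)
      exact ((h11.mul_left _).mul_right _).mul_right _
  obtain ⟨j, hj⟩ := key k
  exact ⟨j, (pow_dvd_pow _ (Nat.le_add_left _ _)).trans hj⟩

end Pool.Agent.L0h46.TS
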