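import Pool.Agent.L0h46.TS.Single
import Pool.Agent.L0h46.TS.Lte

/-!
# Cocycles of several twists
-/

set_option autoImplicit false

namespace Pool.Agent.L0h46.TS

variable {p : ℕ} [Fact p.Prime] {G : Type} [Group G] [TopologicalSpace G] [IsTopologicalGroup G]

theorem zpow_sub_dvd {u v : ℤ_[p]ˣ} {k : ℕ} (h : (p : ℤ_[p]) ^ k ∣ (u : ℤ_[p]) - v) (r : ℤ) :
    (p : ℤ_[p]) ^ k ∣ ((u ^ r : ℤ_[p]ˣ) : ℤ_[p]) - ((v ^ r : ℤ_[p]ˣ) : ℤ_[p]) := by
  have key : ∀ m : ℕ, (p : ℤ_[p]) ^ k ∣ ((u ^ m : ℤ_[p]ˣ) : ℤ_[p]) - ((v ^ m : ℤ_[p]ˣ) : ℤ_[p]) := by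
    intro m
    rw [Units.val_pow_eq_pow_val, Units.val_pow_eq_pow_val]
    exact h.trans (sub_dvd_pow_sub_pow _ _ m)
  rcases Int.natAbs_eq r with h1 | h1
  · rw [h1, zpow_natCast, zpow_natCast]
    exact key _
  · rw [h1, zpow_neg, zpow_natCast, zpow_neg, zpow_natCast]
    have h2 := key r.natAbs
    set a := u ^ r.natAbs
    set b := v ^ r.natAbs
    have h3 : ((a⁻¹ : ℤ_[p]ˣ) : ℤ_[p]) - ((b⁻¹ : ℤ_[p]ˣ) : ℤ_[p]) =
        ((a : ℤ_[p]) - b) * (-((a⁻¹ : ℤ_[p]ˣ) : ℤ_[p]) * ((b⁻¹ : ℤ_[p]ˣ) : ℤ_[p])) := by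
      have ha : (a : ℤ_[p]) * ((a⁻¹ : ℤ_[p]ˣ) : ℤ_[p]) = 1 := a.mul_inv
      have hb : (b : ℤ_[p]) * ((b⁻¹ : ℤ_[p]ˣ) : ℤ_[p]) = 1 := b.mul_inv
      linear_combination ((b⁻¹ : ℤ_[p]ˣ) : ℤ_[p]) * ha - ((a⁻¹ : ℤ_[p]ˣ) : ℤ_[p]) * hb
    rw [h3]
    exact h2.mul_right _

section

variable {ι : Type} [Fintype ι] (ρ : ι → ℤ)

/-- the action of a unit on the sum of the twists -/
noncomputable def act (u : ℤ_[p]ˣ) : (ι → ℤ_[p]) →ₗ[ℤ_[p]] (ι → ℤ_[p]) where
  toFun v i := ((u ^ ρ i : ℤ_[p]ˣ) : ℤ_[p]) * v i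
  map_add' v w := by
    ext i
    simp [mul_add]
  map_smul' r v := by
    ext i
    simp [mul_left_comm]

theorem act_apply (u : ℤ_[p]ˣ) (v : ι → ℤ_[p]) (i : ι) :
    act ρ u v i = ((u ^ ρ i : ℤ_[p]ˣ) : ℤ_[p]) * v i := rfl

theorem act_mul (u w : ℤ_[p]ˣ) (v : ι → ℤ_[p]) : act ρ (u * w) v = act ρ u (act ρ w v) := by
  ext i
  rw [act_apply, act_apply, act_apply, mul_zpow, Units.val_mul, mul_assoc]

end

theorem multi {ι : Type} [Fintype ι] (c : G → ι → ℤ_[p]) (hc : Continuous c) (χ : G →* ℤ_[p]ˣ)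
    (ρ : ι → ℤ) (hρ : ∀ i, ρ i ≠ 0) {n : ℕ} (hn : 0 < n) (hp2 : p ≠ 2 ∨ 2 ≤ n)
    (hχ : ∀ g, (p : ℤ_[p]) ^ n ∣ (χ g : ℤ_[p]) - 1) (γ : G)
    (hγ : ¬ (p : ℤ_[p]) ^ (n + 1) ∣ (χ γ : ℤ_[p]) - 1)
    (hmul : ∀ g h, c (g * h) = c g + act ρ (χ g) (c h))
    (hind : ∀ (r : ℤ) (a : ι → ℤ_[p]), (∀ i, ρ i ≠ r → a i = 0) →
      (∀ g, ∑ i, a i * c g i = 0) → a = 0) :
    ∃ (A : Type) (_ : AddCommGroup A) (φ : G →* Multiplicative A), IsOpen (φ.ker : Set G) ∧
      Function.Surjective φ ∧ (∀ g, c g = 0 → φ g = 1) ∧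
      Nat.card A = p ^ (∑ i, (n + padicValInt p (ρ i))) := by
  classical
  have hEx : Ex n (χ γ : ℤ_[p]) := Ex.of (hχ γ) hγ
  -- the module
  set M := spn c with hM
  have hMs : ∀ g, ∀ x ∈ M, act ρ (χ g) x ∈ M := by
    intro g x hx
    induction hx using Submodule.span_induction with
    | mem x hx =>
      obtain ⟨h, rfl⟩ := hx
      have h1 : act ρ (χ g) (c h) = c (g * h) - c g := by rw [hmul]; abel
      rw [h1]
      exact M.sub_mem (mem_spn c _) (mem_spn c _)
    | zero => rw [map_zero]; exact M.zero_mem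
    | add x y _ _ hx hy => rw [map_add]; exact M.add_mem hx hy
    | smul a x _ hx => rw [map_smul]; exact M.smul_mem a hx
  -- the differences
  have hne : ∀ r s : ℤ, r ≠ s → ((χ γ ^ r : ℤ_[p]ˣ) : ℤ_[p]) - ((χ γ ^ s : ℤ_[p]ˣ) : ℤ_[p]) ≠ 0 := by
    intro r s hrs h1
    rw [sub_eq_zero] at h1
    have h2 : χ γ ^ r = χ γ ^ s := Units.ext h1
    have h3 : χ γ ^ (r - s) = 1 := by rw [zpow_sub, h2, mul_inv_cancel]
    obtain ⟨u, hu⟩ := hEx.zpow hn hp2 (sub_ne_zero.2 hrs)
    rw [h3, Units.val_one] at hu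
    have h4 : (p : ℤ_[p]) ^ (n + padicValInt p (r - s)) * u = 0 := by linear_combination -hu
    rcases mul_eq_zero.1 h4 with h5 | h5
    · exact pow_ne_zero _ (by exact_mod_cast (Fact.out : p.Prime).ne_zero) h5
    · exact u.ne_zero h5
  -- products of differences
  have hprod : ∀ (S : Finset ℤ), ∀ x ∈ M, (fun i => (∏ r ∈ S,
      (((χ γ ^ ρ i : ℤ_[p]ˣ) : ℤ_[p]) - ((χ γ ^ r : ℤ_[p]ˣ) : ℤ_[p]))) * x i) ∈ M := by
    intro S
    induction S using Finset.induction_on with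
    | empty => intro x hx; simpa using hx
    | insert r S hr ih =>
      intro x hx
      have h1 := ih x hx
      set y : ι → ℤ_[p] := fun i => (∏ r ∈ S,
        (((χ γ ^ ρ i : ℤ_[p]ˣ) : ℤ_[p]) - ((χ γ ^ r : ℤ_[p]ˣ) : ℤ_[p]))) * x i with hy
      have h2 : (fun i => (∏ r ∈ insert r S,
          (((χ γ ^ ρ i : ℤ_[p]ˣ) : ℤ_[p]) - ((χ γ ^ r : ℤ_[p]ˣ) : ℤ_[p]))) * x i) =
          act ρ (χ γ) y - ((χ γ ^ r : ℤ_[p]ˣ) : ℤ_[p]) • y := by
        funext i
        rw [Finset.prod_insert hr, Pi.sub_apply, act_apply, Pi.smul_apply, smul_eq_mul, hy]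
        ring
      rw [h2]
      exact M.sub_mem (hMs γ y h1) (M.smul_mem _ h1)
  have hMr : Module.finrank ℤ_[p] M = Fintype.card ι := by
    refine finrank_eq _ fun a ha => ?_
    have key : ∀ r : ℤ, (fun i => if ρ i = r then a i else 0) = 0 := by
      intro r
      refine hind r _ (fun i hi => if_neg hi) fun g => ?_
      set R : Finset ℤ := Finset.univ.image ρ with hR
      have h1 := ha _ (hprod (R.erase r) (c g) (mem_spn c g))
      have h2 : ∑ i, a i * ((∏ s ∈ R.erase r,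
          (((χ γ ^ ρ i : ℤ_[p]ˣ) : ℤ_[p]) - ((χ γ ^ s : ℤ_[p]ˣ) : ℤ_[p]))) * c g i) =
          (∏ s ∈ R.erase r, (((χ γ ^ r : ℤ_[p]ˣ) : ℤ_[p]) - ((χ γ ^ s : ℤ_[p]ˣ) : ℤ_[p]))) *
            ∑ i, (if ρ i = r then a i else 0) * c g i := by
        rw [Finset.mul_sum]
        refine Finset.sum_congr rfl fun i _ => ?_
        by_cases hi : ρ i = r
        · rw [if_pos hi, hi]
          ring
        · have h3 : ∏ s ∈ R.erase r,
              (((χ γ ^ ρ i : ℤ_[p]ˣ) : ℤ_[p]) - ((χ γ ^ s : ℤ_[p]ˣ) : ℤ_[p])) = 0 :=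
            Finset.prod_eq_zero (Finset.mem_erase.2 ⟨hi, Finset.mem_image_of_mem ρ
              (Finset.mem_univ i)⟩) (sub_self _)
          rw [if_neg hi, h3]
          ring
      rw [h2] at h1
      refine (mul_eq_zero.1 h1).resolve_left ?_
      refine Finset.prod_ne_zero_iff.2 fun s hs => ?_
      exact hne r s (Ne.symm (Finset.mem_erase.1 hs).1)
    funext i
    have h1 := congrFun (key (ρ i)) i
    simpa using h1
  obtain ⟨K, hK⟩ := exists_pow_smul _ hMr
  -- the operator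
  set T : (ι → ℤ_[p]) →ₗ[ℤ_[p]] (ι → ℤ_[p]) := act ρ (χ γ) - LinearMap.id with hT
  have hex : ∀ i, ∃ u : ℤ_[p]ˣ, ((χ γ ^ ρ i : ℤ_[p]ˣ) : ℤ_[p]) - 1 =
      (p : ℤ_[p]) ^ (n + padicValInt p (ρ i)) * u := by
    intro i
    obtain ⟨u, hu⟩ := hEx.zpow hn hp2 (hρ i)
    exact ⟨u, by rw [hu]; ring⟩
  choose u hu using hex
  have hTi : ∀ v i, T v i = (p : ℤ_[p]) ^ (n + padicValInt p (ρ i)) * u i * v i := by
    intro v i
    rw [← hu i, hT, LinearMap.sub_apply, Pi.sub_apply, act_apply, LinearMap.id_apply]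
    ring
  have hp0 : (p : ℤ_[p]) ≠ 0 := by exact_mod_cast (Fact.out : p.Prime).ne_zero
  have hTinj : Function.Injective T := by
    rw [injective_iff_map_eq_zero]
    intro v hv
    funext i
    have h1 := congrFun hv i
    rw [hTi, Pi.zero_apply] at h1
    rcases mul_eq_zero.1 h1 with h2 | h2
    · rcases mul_eq_zero.1 h2 with h3 | h3
      · exact absurd h3 (pow_ne_zero _ hp0)
      · exact absurd h3 (u i).ne_zero
    · exact h2
  set N : Submodule ℤ_[p] (ι → ℤ_[p]) := M.map T with hN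
  have hNM : N ≤ M := by
    rintro _ ⟨x, hx, rfl⟩
    rw [hT, LinearMap.sub_apply, LinearMap.id_apply]
    exact M.sub_mem (hMs γ x hx) hx
  set K' : ℕ := K + ∑ i, (n + padicValInt p (ρ i)) with hK'
  have hNK : ∀ v, ((p : ℤ_[p]) ^ K') • v ∈ N := by
    intro v
    set y : ι → ℤ_[p] := fun i => (p : ℤ_[p]) ^ (∑ j ∈ Finset.univ.erase i,
      (n + padicValInt p (ρ j))) * (((u i)⁻¹ : ℤ_[p]ˣ) : ℤ_[p]) * v i with hy
    refine ⟨_, hK y, ?_⟩
    funext i
    rw [hTi, Pi.smul_apply, Pi.smul_apply, smul_eq_mul, smul_eq_mul, hy, hK',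
      ← Finset.sum_erase_add _ _ (Finset.mem_univ i), pow_add, pow_add]
    have h1 : (u i : ℤ_[p]) * (((u i)⁻¹ : ℤ_[p]ˣ) : ℤ_[p]) = 1 := (u i).mul_inv
    linear_combination ((p : ℤ_[p]) ^ (n + padicValInt p (ρ i)) * (p : ℤ_[p]) ^ K *
      (p : ℤ_[p]) ^ (∑ j ∈ Finset.univ.erase i, (n + padicValInt p (ρ j))) * v i) * h1
  -- the action on the quotient is trivial
  have hpow : ∀ j : ℕ, ∀ x ∈ M, act ρ (χ (γ ^ j)) x - x ∈ N := by
    intro j
    induction j with
    | zero =>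
      intro x hx
      have h1 : act ρ (χ (γ ^ 0)) x = x := by
        funext i
        rw [act_apply, pow_zero, map_one, one_zpow, Units.val_one, one_mul]
      rw [h1, sub_self]
      exact N.zero_mem
    | succ j ih =>
      intro x hx
      have h1 : act ρ (χ (γ ^ (j + 1))) x - x =
          T (act ρ (χ (γ ^ j)) x) + (act ρ (χ (γ ^ j)) x - x) := by
        rw [pow_succ', map_mul, act_mul, hT, LinearMap.sub_apply, LinearMap.id_apply]
        abel
      rw [h1]
      exact N.add_mem ⟨_, hMs _ x hx, rfl⟩ (ih x hx)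
  have htriv : ∀ g, ∀ x ∈ M, act ρ (χ g) x - x ∈ N := by
    intro g x hx
    obtain ⟨j, hj⟩ := approx hn hp2 hEx (hχ g) K'
    have h1 : (p : ℤ_[p]) ^ K' ∣ (χ g : ℤ_[p]) - (χ (γ ^ j) : ℤ_[p]) := by
      rw [map_pow, Units.val_pow_eq_pow_val]
      exact hj
    have h2 : ∀ i, ∃ w, ((χ g ^ ρ i : ℤ_[p]ˣ) : ℤ_[p]) - ((χ (γ ^ j) ^ ρ i : ℤ_[p]ˣ) : ℤ_[p]) =
        (p : ℤ_[p]) ^ K' * w := fun i => zpow_sub_dvd h1 (ρ i)
    choose w hw using h2
    have h3 : act ρ (χ g) x - x = (p : ℤ_[p]) ^ K' • (fun i => w i * x i) +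
        (act ρ (χ (γ ^ j)) x - x) := by
      funext i
      rw [Pi.sub_apply, Pi.add_apply, Pi.sub_apply, act_apply, act_apply, Pi.smul_apply, smul_eq_mul]
      linear_combination (x i) * hw i
    rw [h3]
    exact N.add_mem (hNK _) (hpow j x hx)
  -- the quotient
  set N' : AddSubgroup M.toAddSubgroup := N.toAddSubgroup.addSubgroupOf M.toAddSubgroup with hN'
  have hmk : ∀ x y : M.toAddSubgroup, ((x : M.toAddSubgroup ⧸ N') = y) ↔
      (x : ι → ℤ_[p]) - y ∈ N := by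
    intro x y
    rw [QuotientAddGroup.eq_iff_sub_mem]
    rfl
  have hc1 : c 1 = 0 := by
    have h1 := hmul 1 1
    have h2 : act ρ (χ 1) (c 1) = c 1 := by
      funext i
      rw [act_apply, map_one, one_zpow, Units.val_one, one_mul]
    rw [mul_one, h2, left_eq_add] at h1
    exact h1
  let cc : G → M.toAddSubgroup := fun g => ⟨c g, mem_spn c g⟩
  let φ : G →* Multiplicative (M.toAddSubgroup ⧸ N') :=
    { toFun := fun g => Multiplicative.ofAdd ((cc g : M.toAddSubgroup) : M.toAddSubgroup ⧸ N')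
      map_one' := by
        have h1 : cc 1 = 0 := Subtype.ext hc1
        rw [h1]
        rfl
      map_mul' := fun g h => by
        rw [← ofAdd_add, ← QuotientAddGroup.mk_add, Multiplicative.ofAdd.injective.eq_iff, hmk]
        have h1 : ((cc (g * h) : M.toAddSubgroup) : ι → ℤ_[p]) - ((cc g + cc h : M.toAddSubgroup) :
            ι → ℤ_[p]) = act ρ (χ g) (c h) - c h := by
          change c (g * h) - (c g + c h) = _
          rw [hmul]
          abel
        rw [h1]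
        exact htriv g _ (mem_spn c h) }
  have hφ : ∀ g, φ g = Multiplicative.ofAdd ((cc g : M.toAddSubgroup) : M.toAddSubgroup ⧸ N') :=
    fun g => rfl
  have hφ1 : ∀ g, φ g = 1 ↔ c g ∈ N := by
    intro g
    rw [hφ, ← ofAdd_zero, Multiplicative.ofAdd.injective.eq_iff, ← QuotientAddGroup.mk_zero, hmk]
    change c g - 0 ∈ N ↔ _
    rw [sub_zero]
  refine ⟨M.toAddSubgroup ⧸ N', inferInstance, φ, ?_, ?_, ?_, ?_⟩
  · have h1 : (φ.ker : Set G) = c ⁻¹' (N.toAddSubgroup : Set (ι → ℤ_[p])) := by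
      ext g
      rw [SetLike.mem_coe, MonoidHom.mem_ker, hφ1]
      rfl
    rw [h1]
    exact (isOpen_of_pow N.toAddSubgroup hNK).preimage hc
  · let S : Submodule ℤ_[p] (ι → ℤ_[p]) :=
      { carrier := {v | ∃ h : v ∈ M, Multiplicative.ofAdd
          (((⟨v, h⟩ : M.toAddSubgroup)) : M.toAddSubgroup ⧸ N') ∈ φ.range}
        zero_mem' := ⟨M.zero_mem, φ.range.one_mem⟩
        add_mem' := by
          rintro v w ⟨h1, h2⟩ ⟨h3, h4⟩
          exact ⟨M.add_mem h1 h3, φ.range.mul_mem h2 h4⟩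
        smul_mem' := by
          rintro r v ⟨h1, h2⟩
          refine ⟨M.smul_mem r h1, ?_⟩
          obtain ⟨w, hw⟩ := Ideal.mem_span_singleton.1 (PadicInt.appr_spec K' r)
          have h3 : (((⟨r • v, M.smul_mem r h1⟩ : M.toAddSubgroup)) : M.toAddSubgroup ⧸ N') =
              (((r.appr K') • (⟨v, h1⟩ : M.toAddSubgroup) : M.toAddSubgroup) :
                M.toAddSubgroup ⧸ N') := by
            rw [hmk]
            have h4 : (r • v : ι → ℤ_[p]) - (r.appr K') • v = (p : ℤ_[p]) ^ K' • (w • v) := by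
              funext i
              have h5 : ((r.appr K') • v) i = ((r.appr K' : ℕ) : ℤ_[p]) * v i := by
                rw [Pi.smul_apply, nsmul_eq_mul]
              rw [Pi.sub_apply, h5, Pi.smul_apply, Pi.smul_apply, Pi.smul_apply, smul_eq_mul,
                smul_eq_mul, smul_eq_mul]
              linear_combination (v i) * hw
            change (r • v : ι → ℤ_[p]) - (r.appr K') • v ∈ N
            rw [h4]
            exact hNK _
          rw [h3]
          exact φ.range.pow_mem h2 _ }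
    have hS : M ≤ S := by
      refine Submodule.span_le.2 ?_
      rintro _ ⟨g, rfl⟩
      exact ⟨mem_spn c g, g, rfl⟩
    intro y
    obtain ⟨x, hx⟩ := QuotientAddGroup.mk_surjective (Multiplicative.toAdd y)
    obtain ⟨h1, g, hg⟩ := hS x.2
    refine ⟨g, hg.trans ?_⟩
    exact congrArg Multiplicative.ofAdd hx
  · intro g hg
    rw [hφ1, hg]
    exact N.zero_mem
  · -- the order
    have hopen : IsOpen (M.toAddSubgroup : Set (ι → ℤ_[p])) := isOpen_of_pow M.toAddSubgroup hK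
    have hfin : Finite ((ι → ℤ_[p]) ⧸ M.toAddSubgroup) :=
      AddSubgroup.quotient_finite_of_isOpen _ hopen
    have hMi : M.toAddSubgroup.index ≠ 0 := Nat.card_pos.ne'
    have h1 : N.toAddSubgroup.relIndex M.toAddSubgroup * M.toAddSubgroup.index =
        N.toAddSubgroup.index := AddSubgroup.relIndex_mul_index hNM
    set TV : AddSubgroup (ι → ℤ_[p]) := (⊤ : AddSubgroup (ι → ℤ_[p])).map T.toAddMonoidHom with hTV
    have hN2 : N.toAddSubgroup = M.toAddSubgroup.map T.toAddMonoidHom := rfl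
    have h2 : N.toAddSubgroup.relIndex TV * TV.index = N.toAddSubgroup.index := by
      refine AddSubgroup.relIndex_mul_index ?_
      rw [hN2, hTV]
      exact AddSubgroup.map_mono le_top
    have h3 : N.toAddSubgroup.relIndex TV = M.toAddSubgroup.index := by
      rw [hN2, hTV, AddSubgroup.relIndex_map_map_of_injective _ _ hTinj, AddSubgroup.relIndex_top_right]
    have h4 : TV.index = p ^ (∑ i, (n + padicValInt p (ρ i))) := by
      let Θ : (ι → ℤ_[p]) →+ (∀ i, ZMod (p ^ (n + padicValInt p (ρ i)))) :=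
        { toFun := fun v i => PadicInt.toZModPow (n + padicValInt p (ρ i)) (v i)
          map_zero' := by
            funext i
            rw [Pi.zero_apply, map_zero]
            rfl
          map_add' := fun v w => by
            funext i
            rw [Pi.add_apply, map_add]
            rfl }
      have h5 : Θ.ker = TV := by
        ext v
        rw [AddMonoidHom.mem_ker]
        constructor
        · intro h6
          have h7 : ∀ i, ∃ w, v i = (p : ℤ_[p]) ^ (n + padicValInt p (ρ i)) * w := by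
            intro i
            have h8 := congrFun h6 i
            change PadicInt.toZModPow (n + padicValInt p (ρ i)) (v i) = 0 at h8
            rw [← RingHom.mem_ker, PadicInt.ker_toZModPow, Ideal.mem_span_singleton] at h8
            exact h8
          choose w hw using h7
          refine ⟨fun i => (((u i)⁻¹ : ℤ_[p]ˣ) : ℤ_[p]) * w i, AddSubgroup.mem_top _, ?_⟩
          funext i
          change T _ i = v i
          rw [hTi, hw i]
          have h9 : (u i : ℤ_[p]) * (((u i)⁻¹ : ℤ_[p]ˣ) : ℤ_[p]) = 1 := (u i).mul_inv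
          linear_combination ((p : ℤ_[p]) ^ (n + padicValInt p (ρ i)) * w i) * h9
        · rintro ⟨w, -, rfl⟩
          funext i
          change PadicInt.toZModPow (n + padicValInt p (ρ i)) (T w i) = 0
          rw [← RingHom.mem_ker, PadicInt.ker_toZModPow, Ideal.mem_span_singleton, hTi, mul_assoc]
          exact dvd_mul_right _ _
      have h6 : Function.Surjective Θ := by
        intro y
        have h7 : ∀ i, ∃ z : ℤ_[p], PadicInt.toZModPow (n + padicValInt p (ρ i)) z = y i :=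
          fun i => ZMod.ringHom_surjective _ _
        choose z hz using h7
        exact ⟨z, funext hz⟩
      rw [← h5, AddSubgroup.index_ker, AddMonoidHom.range_eq_top.2 h6]
      rw [Nat.card_congr (AddSubgroup.topEquiv (G := ∀ i, ZMod (p ^ (n + padicValInt p (ρ i))))).toEquiv,
        Nat.card_pi]
      rw [← Finset.prod_pow_eq_pow_sum]
      refine Finset.prod_congr rfl fun i _ => ?_
      rw [Nat.card_zmod]
    have h5 : Nat.card (M.toAddSubgroup ⧸ N') = N.toAddSubgroup.relIndex M.toAddSubgroup := rfl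
    rw [h5, ← h4]
    rw [h3] at h2
    have h6 : N.toAddSubgroup.relIndex M.toAddSubgroup * M.toAddSubgroup.index =
        TV.index * M.toAddSubgroup.index := by
      rw [h1, ← h2]
      ring
    exact Nat.eq_of_mul_eq_mul_right (Nat.pos_of_ne_zero hMi) h6

end Pool.Agent.L0h46.TS
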