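import Pool.Agent.L0h46.TS.Multi

/-!
# Normalisation of the cocycles at the places above `p`
-/

set_option autoImplicit false

namespace Pool.Agent.L0h46.TS

variable {p : ℕ} [Fact p.Prime] {G : Type}

theorem normalise {κ : Type} [Fintype κ] (k₀ : κ) {m : ℕ} (c : Fin m → G → ℤ_[p]) (t : G → ℤ_[p])
    (D : κ → Set G) (hloc : ∀ j k, ∃ z, ∀ g ∈ D k, c j g = (t g - 1) * z)
    (hind : ∀ a : Fin m → ℤ_[p], (∃ z, ∀ g, ∑ j, a j * c j g = (t g - 1) * z) → a = 0) :
    ∃ (A : Fin (m - (Fintype.card κ - 1)) → Fin m → ℤ_[p])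
      (z : Fin (m - (Fintype.card κ - 1)) → ℤ_[p]),
      (∀ l k, ∀ g ∈ D k, ∑ j, A l j * c j g - (t g - 1) * z l = 0) ∧
      ∀ b : Fin (m - (Fintype.card κ - 1)) → ℤ_[p],
        (∀ g, ∑ l, b l * (∑ j, A l j * c j g - (t g - 1) * z l) = 0) → b = 0 := by
  classical
  choose z hz using hloc
  let Φ : (Fin m → ℤ_[p]) →ₗ[ℤ_[p]] ({k : κ // k ≠ k₀} → ℤ_[p]) :=
    { toFun := fun a k => ∑ j, a j * (z j k - z j k₀)
      map_add' := fun a b => by
        funext k
        simp [add_mul, Finset.sum_add_distrib]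
      map_smul' := fun r a => by
        funext k
        simp [mul_assoc, Finset.mul_sum] }
  have hrank : m - (Fintype.card κ - 1) ≤ Module.finrank ℤ_[p] (LinearMap.ker Φ) := by
    have h1 := Submodule.finrank_quotient_add_finrank (LinearMap.ker Φ)
    rw [Module.finrank_fintype_fun_eq_card, Fintype.card_fin] at h1
    have h2 : Module.finrank ℤ_[p] ((Fin m → ℤ_[p]) ⧸ LinearMap.ker Φ) ≤ Fintype.card κ - 1 := by
      rw [(LinearMap.quotKerEquivRange Φ).finrank_eq]
      refine (Submodule.finrank_le _).trans ?_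
      rw [Module.finrank_fintype_fun_eq_card, Fintype.card_subtype_compl,
        Fintype.card_subtype_eq]
    omega
  let e := Module.finBasis ℤ_[p] (LinearMap.ker Φ)
  refine ⟨fun l => (e (Fin.castLE hrank l) : Fin m → ℤ_[p]),
    fun l => ∑ j, (e (Fin.castLE hrank l) : Fin m → ℤ_[p]) j * z j k₀, ?_, ?_⟩
  · intro l k g hg
    have h1 : ∑ j, (e (Fin.castLE hrank l) : Fin m → ℤ_[p]) j * c j g =
        (t g - 1) * ∑ j, (e (Fin.castLE hrank l) : Fin m → ℤ_[p]) j * z j k := by
      rw [Finset.mul_sum]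
      refine Finset.sum_congr rfl fun j _ => ?_
      rw [hz j k g hg]
      ring
    have h2 : ∑ j, (e (Fin.castLE hrank l) : Fin m → ℤ_[p]) j * z j k =
        ∑ j, (e (Fin.castLE hrank l) : Fin m → ℤ_[p]) j * z j k₀ := by
      by_cases hk : k = k₀
      · rw [hk]
      · have h3 := (e (Fin.castLE hrank l)).2
        rw [LinearMap.mem_ker] at h3
        have h4 := congrFun h3 ⟨k, hk⟩
        change ∑ j, (e (Fin.castLE hrank l) : Fin m → ℤ_[p]) j * (z j k - z j k₀) = 0 at h4
        have h5 : ∑ j, (e (Fin.castLE hrank l) : Fin m → ℤ_[p]) j * (z j k - z j k₀) =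
            ∑ j, (e (Fin.castLE hrank l) : Fin m → ℤ_[p]) j * z j k -
            ∑ j, (e (Fin.castLE hrank l) : Fin m → ℤ_[p]) j * z j k₀ := by
          rw [← Finset.sum_sub_distrib]
          exact Finset.sum_congr rfl fun j _ => by ring
        rw [h5, sub_eq_zero] at h4
        exact h4
    rw [h1, h2, sub_self]
  · intro b hb
    have h1 : (fun j => ∑ l, b l * (e (Fin.castLE hrank l) : Fin m → ℤ_[p]) j) = 0 := by
      refine hind _ ⟨∑ l, b l * ∑ j, (e (Fin.castLE hrank l) : Fin m → ℤ_[p]) j * z j k₀,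
        fun g => ?_⟩
      have h2 := hb g
      have h3 : ∑ l, b l * (∑ j, (e (Fin.castLE hrank l) : Fin m → ℤ_[p]) j * c j g -
          (t g - 1) * ∑ j, (e (Fin.castLE hrank l) : Fin m → ℤ_[p]) j * z j k₀) =
          ∑ j, (∑ l, b l * (e (Fin.castLE hrank l) : Fin m → ℤ_[p]) j) * c j g -
          (t g - 1) * ∑ l, b l * ∑ j, (e (Fin.castLE hrank l) : Fin m → ℤ_[p]) j * z j k₀ := by
        simp only [mul_sub, Finset.sum_sub_distrib, Finset.mul_sum, Finset.sum_mul]
        congr 1
        · rw [Finset.sum_comm]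
          exact Finset.sum_congr rfl fun j _ => Finset.sum_congr rfl fun l _ => by ring
        · exact Finset.sum_congr rfl fun l _ => Finset.sum_congr rfl fun j _ => by ring
      rw [h3, sub_eq_zero] at h2
      exact h2
    have h2 : ∑ l, b l • e (Fin.castLE hrank l) = 0 := by
      refine Subtype.ext ?_
      rw [Submodule.coe_sum]
      funext j
      rw [Finset.sum_apply]
      have h3 := congrFun h1 j
      exact h3
    have h3 : LinearIndependent ℤ_[p] fun l => e (Fin.castLE hrank l) :=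
      e.linearIndependent.comp _ (Fin.castLE_injective hrank)
    exact funext fun l => Fintype.linearIndependent_iff.1 h3 b h2 l

end Pool.Agent.L0h46.TS
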