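import Mathlib
import Pool.Agent.L0h46.TS.Defs

/-!
# Project TS, part REG: the region is bounded and measurable with a null boundary
-/

set_option autoImplicit false

namespace Pool.Agent.L0h46.TS.REG

open Finset MeasureTheory
open Pool.Agent.L0h46.TS
open Pool.Agent.L0h46.TQ (Nrm Lf htn Indep)

theorem null_of (Z : Set (ℝ × ℝ)) (hZ : MeasurableSet Z) (T : Set ℝ) (hT : T.Finite)
    (h : ∀ u, u ∉ T → {v : ℝ | (u, v) ∈ Z}.Finite) : volume Z = 0 := by
  rw [Measure.volume_eq_prod, Measure.measure_prod_null hZ]
  have h0 : volume T = 0 := hT.measure_zero _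
  have : ∀ᵐ u : ℝ, u ∉ T := by
    rw [ae_iff]
    simpa using h0
  filter_upwards [this] with u hu
  exact (h u hu).measure_zero _

section
variable {k m : ℕ} (α : Fin k → ℤ × ℤ) (γ : Fin m → ℤ × ℤ × ℤ) (e : Fin k → ℕ) (f : Fin m → ℕ)

/-- the product of the forms at `(1, X)` -/
noncomputable def P1 : Polynomial ℝ :=
  (∏ i, (Polynomial.C ((α i).2 : ℝ) - Polynomial.C ((α i).1 : ℝ) * Polynomial.X)) *
    ∏ j, (Polynomial.C ((γ j).1 : ℝ) + Polynomial.C ((γ j).2.1 : ℝ) * Polynomial.X +
      Polynomial.C ((γ j).2.2 : ℝ) * Polynomial.X ^ 2)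

/-- the product of the powers of the forms at `(1, X)` -/
noncomputable def PE1 : Polynomial ℝ :=
  (∏ i, (Polynomial.C ((α i).2 : ℝ) - Polynomial.C ((α i).1 : ℝ) * Polynomial.X) ^ e i) *
    ∏ j, (Polynomial.C ((γ j).1 : ℝ) + Polynomial.C ((γ j).2.1 : ℝ) * Polynomial.X +
      Polynomial.C ((γ j).2.2 : ℝ) * Polynomial.X ^ 2) ^ f j

theorem FR_hom (u v : ℝ) (hu : u ≠ 0) :
    FR α γ (u, v) = |u| ^ (k + 2 * m) * |(P1 α γ).eval (v / u)| := by
  unfold FR P1
  rw [← abs_pow, ← abs_mul]
  congr 1
  rw [Polynomial.eval_mul, Polynomial.eval_prod, Polynomial.eval_prod]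
  have h1 : ∏ i, (u * ((α i).2 : ℝ) - v * (α i).1) = u ^ k * ∏ i, Polynomial.eval (v / u)
      (Polynomial.C ((α i).2 : ℝ) - Polynomial.C ((α i).1 : ℝ) * Polynomial.X) := by
    have : u ^ k = ∏ _i : Fin k, u := by simp
    rw [this, ← Finset.prod_mul_distrib]
    apply Finset.prod_congr rfl
    intro i _
    simp only [Polynomial.eval_sub, Polynomial.eval_mul, Polynomial.eval_C, Polynomial.eval_X]
    field_simp
  have h2 : ∏ j, (((γ j).1 : ℝ) * u ^ 2 + (γ j).2.1 * u * v + (γ j).2.2 * v ^ 2) =
      (u ^ 2) ^ m * ∏ j, Polynomial.eval (v / u) (Polynomial.C ((γ j).1 : ℝ) +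
        Polynomial.C ((γ j).2.1 : ℝ) * Polynomial.X +
      Polynomial.C ((γ j).2.2 : ℝ) * Polynomial.X ^ 2) := by
    have : (u ^ 2) ^ m = ∏ _j : Fin m, u ^ 2 := by simp
    rw [this, ← Finset.prod_mul_distrib]
    apply Finset.prod_congr rfl
    intro j _
    simp only [Polynomial.eval_add, Polynomial.eval_mul, Polynomial.eval_C, Polynomial.eval_X,
      Polynomial.eval_pow]
    field_simp
  simp only at h1 h2 ⊢
  rw [h1, h2]
  ring

theorem FER_hom (u v : ℝ) (hu : u ≠ 0) :
    FER α γ e f (u, v) = |u| ^ (wt e f) * |(PE1 α γ e f).eval (v / u)| := by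
  unfold FER PE1 wt
  rw [Polynomial.eval_mul, Polynomial.eval_prod, Polynomial.eval_prod, abs_mul, Finset.abs_prod,
    Finset.abs_prod]
  have h1 : ∏ i, |u * ((α i).2 : ℝ) - v * (α i).1| ^ e i = |u| ^ (∑ i, e i) *
      ∏ i, |Polynomial.eval (v / u)
      ((Polynomial.C ((α i).2 : ℝ) - Polynomial.C ((α i).1 : ℝ) * Polynomial.X) ^ e i)| := by
    rw [← Finset.prod_pow_eq_pow_sum, ← Finset.prod_mul_distrib]
    apply Finset.prod_congr rfl
    intro i _
    simp only [Polynomial.eval_sub, Polynomial.eval_mul, Polynomial.eval_C, Polynomial.eval_X,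
      Polynomial.eval_pow]
    rw [abs_pow, ← mul_pow, ← abs_mul]
    congr 2
    field_simp
  have h2 : ∏ j, |((γ j).1 : ℝ) * u ^ 2 + (γ j).2.1 * u * v + (γ j).2.2 * v ^ 2| ^ f j =
      |u| ^ (2 * ∑ j, f j) * ∏ j, |Polynomial.eval (v / u) ((Polynomial.C ((γ j).1 : ℝ) +
        Polynomial.C ((γ j).2.1 : ℝ) * Polynomial.X +
      Polynomial.C ((γ j).2.2 : ℝ) * Polynomial.X ^ 2) ^ f j)| := by
    rw [pow_mul, ← Finset.prod_pow_eq_pow_sum, ← Finset.prod_mul_distrib]
    apply Finset.prod_congr rfl
    intro j _
    simp only [Polynomial.eval_add, Polynomial.eval_mul, Polynomial.eval_C, Polynomial.eval_X,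
      Polynomial.eval_pow]
    have e1 : ((γ j).1 : ℝ) * u ^ 2 + (γ j).2.1 * u * v + (γ j).2.2 * v ^ 2 =
        u ^ 2 * ((γ j).1 + (γ j).2.1 * (v / u) + (γ j).2.2 * (v / u) ^ 2) := by
      field_simp
    rw [e1, abs_mul, mul_pow, abs_pow u 2, abs_pow _ (f j)]
  simp only at h1 h2 ⊢
  rw [h1, h2, pow_add]
  ring

theorem FR_cont : Continuous (FR α γ) := by
  unfold FR
  fun_prop

theorem FER_cont : Continuous (FER α γ e f) := by
  unfold FER
  fun_prop

theorem FR_nonneg (z : ℝ × ℝ) : 0 ≤ FR α γ z := abs_nonneg _

end

theorem main : S_REG := by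
  intro k m α γ e f hS K a b y hK ha hb
  have hk : 3 ≤ k := hS.three
  have hD : 0 < k + 2 * m := by omega
  have hdg : dg k m = ((k + 2 * m : ℕ) : ℝ) := by unfold dg; push_cast; ring
  have hdg0 : 0 < dg k m := by rw [hdg]; exact_mod_cast hD
  have hr0 : 0 ≤ rr e f := by unfold rr; positivity
  have hc1 := FR_cont α γ
  have hc2 := FER_cont α γ e f
  have hc3 : Continuous fun z => (a * FR α γ z) ^ rr e f :=
    (continuous_const.mul hc1).rpow_const fun _ => Or.inr hr0
  -- the sets
  set A1 : Set (ℝ × ℝ) := {z | 0 < z.2} with hA1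
  set A2 : Set (ℝ × ℝ) := {z | |z.1| ≤ K} with hA2
  set A3 : Set (ℝ × ℝ) := {z | |z.2| ≤ K} with hA3
  set A4 : Set (ℝ × ℝ) := {z | a * FR α γ z ≤ 1} with hA4
  set A5 : Set (ℝ × ℝ) := {z | y ≤ 0 ∨ b * FER α γ e f z ≤ y * (a * FR α γ z) ^ rr e f} with hA5
  have hReg : Reg α γ e f K a b y = A1 ∩ (A2 ∩ (A3 ∩ (A4 ∩ A5))) := rfl
  refine ⟨?_, ?_, ?_⟩
  · apply (Metric.isBounded_closedBall (x := (0 : ℝ × ℝ)) (r := K)).subset
    intro z hz
    rw [mem_closedBall_zero_iff, Prod.norm_def, Real.norm_eq_abs, Real.norm_eq_abs]
    exact max_le hz.2.1 hz.2.2.1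
  · rw [hReg]
    refine MeasurableSet.inter ?_ (MeasurableSet.inter ?_ (MeasurableSet.inter ?_
      (MeasurableSet.inter ?_ ?_)))
    · exact measurableSet_lt measurable_const measurable_snd
    · exact measurableSet_le (continuous_abs.comp continuous_fst).measurable measurable_const
    · exact measurableSet_le (continuous_abs.comp continuous_snd).measurable measurable_const
    · exact measurableSet_le (continuous_const.mul hc1).measurable measurable_const
    · by_cases hy : y ≤ 0
      · have : A5 = Set.univ := by
          rw [hA5]; ext z; simp [hy]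
        rw [this]; exact MeasurableSet.univ
      · have : A5 = {z | b * FER α γ e f z ≤ y * (a * FR α γ z) ^ rr e f} := by
          rw [hA5]; ext z; simp [hy]
        rw [this]
        exact measurableSet_le (continuous_const.mul hc2).measurable
          (continuous_const.mul hc3).measurable
  · -- the frontiers
    have f1 : volume (frontier A1) = 0 := by
      apply measure_mono_null (frontier_lt_subset_eq continuous_const continuous_snd)
      apply null_of _ (isClosed_eq continuous_const continuous_snd).measurableSet ∅
        Set.finite_empty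
      intro u _
      apply (Set.finite_singleton (0 : ℝ)).subset
      intro v hv
      exact (Set.mem_singleton_iff.2 (Eq.symm hv))
    have f2 : volume (frontier A2) = 0 := by
      apply measure_mono_null (frontier_le_subset_eq (continuous_abs.comp continuous_fst)
        continuous_const)
      apply null_of _ (isClosed_eq (continuous_abs.comp continuous_fst)
        continuous_const).measurableSet {K, -K} (Set.toFinite _)
      intro u hu
      have : {v : ℝ | (u, v) ∈ {z : ℝ × ℝ | (abs ∘ Prod.fst) z = K}} = ∅ := by
        ext v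
        simp only [Set.mem_ofPred_eq, Function.comp_apply, Set.mem_empty_iff_false, iff_false]
        intro h
        apply hu
        rcases (abs_eq hK.le).1 h with h | h
        · exact Or.inl h
        · exact Or.inr h
      rw [this]
      exact Set.finite_empty
    have f3 : volume (frontier A3) = 0 := by
      apply measure_mono_null (frontier_le_subset_eq (continuous_abs.comp continuous_snd)
        continuous_const)
      apply null_of _ (isClosed_eq (continuous_abs.comp continuous_snd)
        continuous_const).measurableSet ∅ Set.finite_empty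
      intro u _
      apply (Set.toFinite ({K, -K} : Set ℝ)).subset
      intro v hv
      rcases (abs_eq hK.le).1 hv with h | h
      · exact Or.inl h
      · exact Or.inr h
    have f4 : volume (frontier A4) = 0 := by
      apply measure_mono_null (frontier_le_subset_eq (continuous_const.mul hc1)
        continuous_const)
      apply null_of _ (isClosed_eq (continuous_const.mul hc1)
        continuous_const).measurableSet {0} (Set.finite_singleton _)
      intro u hu
      have hu0 : u ≠ 0 := hu
      -- a root of `P1`
      obtain ⟨t0, ht0⟩ : ∃ t0, (P1 α γ).eval t0 = 0 := by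
        have : ∃ i, (α i).1 ≠ 0 := by
          by_contra hcon
          push Not at hcon
          apply hS.ind ⟨0, by omega⟩ ⟨1, by omega⟩ (by simp)
          rw [hcon, hcon]; ring
        obtain ⟨i, hi⟩ := this
        refine ⟨(α i).2 / (α i).1, ?_⟩
        unfold P1
        rw [Polynomial.eval_mul, Polynomial.eval_prod, Finset.prod_eq_zero (Finset.mem_univ i),
          zero_mul]
        have : ((α i).1 : ℝ) ≠ 0 := by exact_mod_cast hi
        simp only [Polynomial.eval_sub, Polynomial.eval_mul, Polynomial.eval_C,
          Polynomial.eval_X]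
        field_simp
        ring
      set c : ℝ := a * |u| ^ (k + 2 * m) with hc
      set q : Polynomial ℝ := Polynomial.C (c ^ 2) * P1 α γ ^ 2 - 1 with hq
      have hq0 : q ≠ 0 := by
        intro h
        have : q.eval t0 = 0 := by rw [h]; simp
        rw [hq] at this
        simp [ht0] at this
      have hfin : {t : ℝ | q.IsRoot t}.Finite := Polynomial.finite_setOfPred_isRoot hq0
      have hinj : Set.InjOn (fun v : ℝ => v / u) ((fun v : ℝ => v / u) ⁻¹' {t | q.IsRoot t}) := by
        intro v _ v' _ h
        simpa [div_left_inj' hu0] using h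
      apply (hfin.preimage hinj).subset
      intro v hv
      have hv' : a * FR α γ (u, v) = 1 := hv
      rw [FR_hom α γ u v hu0, ← mul_assoc, ← hc] at hv'
      simp only [Set.mem_preimage, Set.mem_ofPred_eq, Polynomial.IsRoot.def, hq,
        Polynomial.eval_sub, Polynomial.eval_mul, Polynomial.eval_C, Polynomial.eval_pow,
        Polynomial.eval_one]
      rw [← sq_abs ((P1 α γ).eval (v / u)), ← mul_pow, hv']
      norm_num
    have f5 : volume (frontier A5) = 0 := by
      by_cases hy : y ≤ 0
      · have : A5 = Set.univ := by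
          rw [hA5]; ext z; simp [hy]
        rw [this, frontier_univ, measure_empty]
      · have hy0 : 0 < y := not_le.1 hy
        have hA5' : A5 = {z | b * FER α γ e f z ≤ y * (a * FR α γ z) ^ rr e f} := by
          rw [hA5]; ext z; simp [hy]
        rw [hA5']
        set D : ℕ := k + 2 * m with hDdef
        set w : ℕ := wt e f with hw
        have hrD : rr e f * ((2 * D : ℕ) : ℝ) = ((2 * w : ℕ) : ℝ) := by
          unfold rr
          rw [hdg, ← hw]
          have : ((D : ℕ) : ℝ) ≠ 0 := by exact_mod_cast hD.ne'
          push_cast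
          field_simp
        have hrD' : ((D : ℕ) : ℝ) * rr e f = (w : ℝ) := by
          unfold rr
          rw [hdg, ← hw]
          have : ((D : ℕ) : ℝ) ≠ 0 := by exact_mod_cast hD.ne'
          field_simp
        have hpow : ∀ x : ℝ, 0 ≤ x → (x ^ rr e f) ^ (2 * D) = x ^ (2 * w) := by
          intro x hx
          rw [← Real.rpow_natCast (x ^ rr e f), ← Real.rpow_mul hx, hrD, Real.rpow_natCast]
        set q : Polynomial ℝ := Polynomial.C (b ^ (2 * D)) * PE1 α γ e f ^ (2 * D) -
          Polynomial.C (y ^ (2 * D) * a ^ (2 * w)) * P1 α γ ^ (2 * w) with hq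
        have heval : ∀ t, q.eval t = (b * |(PE1 α γ e f).eval t|) ^ (2 * D) -
            (y * (a * |(P1 α γ).eval t|) ^ rr e f) ^ (2 * D) := by
          intro t
          have e1 : (b * |(PE1 α γ e f).eval t|) ^ (2 * D) =
              b ^ (2 * D) * (PE1 α γ e f).eval t ^ (2 * D) := by
            rw [mul_pow, pow_mul |_|, sq_abs, ← pow_mul]
          have e2 : (y * (a * |(P1 α γ).eval t|) ^ rr e f) ^ (2 * D) =
              y ^ (2 * D) * a ^ (2 * w) * (P1 α γ).eval t ^ (2 * w) := by
            rw [mul_pow, hpow _ (by positivity), mul_pow, pow_mul |_|, sq_abs, ← pow_mul]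
            ring
          rw [e1, e2, hq]
          simp only [Polynomial.eval_sub, Polynomial.eval_mul, Polynomial.eval_C,
            Polynomial.eval_pow]
        have hright : ∀ u v : ℝ, u ≠ 0 → (a * FR α γ (u, v)) ^ rr e f =
            |u| ^ w * (a * |(P1 α γ).eval (v / u)|) ^ rr e f := by
          intro u v hu
          rw [FR_hom α γ u v hu, ← mul_assoc, mul_comm a, mul_assoc,
            Real.mul_rpow (by positivity) (by positivity), ← Real.rpow_natCast,
            ← Real.rpow_mul (abs_nonneg _), hrD', Real.rpow_natCast]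
        by_cases hq0 : q = 0
        · -- the condition always holds
          have huniv : {z | b * FER α γ e f z ≤ y * (a * FR α γ z) ^ rr e f} = Set.univ := by
            have hcl : IsClosed {z | b * FER α γ e f z ≤ y * (a * FR α γ z) ^ rr e f} :=
              isClosed_le (continuous_const.mul hc2) (continuous_const.mul hc3)
            have hdense : Dense {z : ℝ × ℝ | z.1 ≠ 0} := by
              have := (dense_compl_singleton (0 : ℝ)).preimage
                (isOpenMap_fst : IsOpenMap (Prod.fst : ℝ × ℝ → ℝ))
              exact this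
            apply Set.eq_univ_of_univ_subset
            rw [← hdense.closure_eq]
            apply hcl.closure_subset_iff.2
            rintro ⟨u, v⟩ hu
            have hu0 : u ≠ 0 := hu
            simp only [Set.mem_ofPred_eq]
            rw [hright u v hu0, FER_hom α γ e f u v hu0, ← hw]
            have h0 := heval (v / u)
            rw [hq0, Polynomial.eval_zero] at h0
            have h1 : b * |(PE1 α γ e f).eval (v / u)| =
                y * (a * |(P1 α γ).eval (v / u)|) ^ rr e f := by
              have := sub_eq_zero.1 h0.symm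
              exact (pow_left_inj₀ (by positivity) (by positivity) (by omega)).1 this
            have h2 : b * (|u| ^ w * |(PE1 α γ e f).eval (v / u)|) =
                y * (|u| ^ w * (a * |(P1 α γ).eval (v / u)|) ^ rr e f) := by
              linear_combination (|u| ^ w) * h1
            exact h2.le
          rw [huniv, frontier_univ, measure_empty]
        · apply measure_mono_null (frontier_le_subset_eq (continuous_const.mul hc2)
            (continuous_const.mul hc3))
          apply null_of _ (isClosed_eq (continuous_const.mul hc2)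
            (continuous_const.mul hc3)).measurableSet {0} (Set.finite_singleton _)
          intro u hu
          have hu0 : u ≠ 0 := hu
          have hfin : {t : ℝ | q.IsRoot t}.Finite := Polynomial.finite_setOfPred_isRoot hq0
          have hinj : Set.InjOn (fun v : ℝ => v / u)
              ((fun v : ℝ => v / u) ⁻¹' {t | q.IsRoot t}) := by
            intro v _ v' _ h
            simpa [div_left_inj' hu0] using h
          apply (hfin.preimage hinj).subset
          intro v hv
          have hv' : b * FER α γ e f (u, v) = y * (a * FR α γ (u, v)) ^ rr e f := hv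
          rw [hright u v hu0, FER_hom α γ e f u v hu0, ← hw] at hv'
          have h1 : b * |(PE1 α γ e f).eval (v / u)| =
                y * (a * |(P1 α γ).eval (v / u)|) ^ rr e f := by
            have hp : (|u| ^ w) ≠ 0 := pow_ne_zero _ (abs_ne_zero.2 hu0)
            apply mul_left_cancel₀ hp
            linear_combination hv'
          simp only [Set.mem_preimage, Set.mem_ofPred_eq, Polynomial.IsRoot.def]
          rw [heval, h1, sub_self]
    have hinter : ∀ s t : Set (ℝ × ℝ), volume (frontier s) = 0 → volume (frontier t) = 0 →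
        volume (frontier (s ∩ t)) = 0 := by
      intro s t hs ht
      apply measure_mono_null (frontier_inter_subset s t)
      rw [measure_union_null_iff]
      exact ⟨measure_mono_null Set.inter_subset_left hs,
        measure_mono_null Set.inter_subset_right ht⟩
    rw [hReg]
    exact hinter _ _ f1 (hinter _ _ f2 (hinter _ _ f3 (hinter _ _ f4 f5)))

end Pool.Agent.L0h46.TS.REG
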