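import Mathlib

/-!
# Lattices
-/

set_option autoImplicit false

namespace Pool.Agent.L0h46.TS

variable {p : ℕ} [Fact p.Prime]

theorem finrank_eq {ι : Type} [Fintype ι] (M : Submodule ℤ_[p] (ι → ℤ_[p]))
    (h : ∀ a : ι → ℤ_[p], (∀ x ∈ M, ∑ i, a i * x i = 0) → a = 0) :
    Module.finrank ℤ_[p] M = Fintype.card ι := by
  refine le_antisymm ?_ ?_
  · exact (Submodule.finrank_le M).trans (Module.finrank_fintype_fun_eq_card ℤ_[p]).le
  · let F : (ι → ℤ_[p]) →ₗ[ℤ_[p]] (M →ₗ[ℤ_[p]] ℤ_[p]) :=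
      { toFun := fun a =>
          { toFun := fun x => ∑ i, a i * (x : ι → ℤ_[p]) i
            map_add' := fun x y => by
              rw [← Finset.sum_add_distrib]
              exact Finset.sum_congr rfl fun i _ => by
                rw [Submodule.coe_add, Pi.add_apply, mul_add]
            map_smul' := fun r x => by
              rw [RingHom.id_apply, smul_eq_mul, Finset.mul_sum]
              exact Finset.sum_congr rfl fun i _ => by
                rw [Submodule.coe_smul, Pi.smul_apply, smul_eq_mul]; ring }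
        map_add' := fun a b => by
          ext x
          simp [add_mul, Finset.sum_add_distrib]
        map_smul' := fun r a => by
          ext x
          simp [mul_assoc, Finset.mul_sum] }
    have hF : Function.Injective F := by
      rw [injective_iff_map_eq_zero]
      intro a ha
      refine h a fun x hx => ?_
      have h1 := LinearMap.congr_fun ha (⟨x, hx⟩ : M)
      exact h1
    have h1 := LinearMap.finrank_le_finrank_of_injective hF
    rw [Module.finrank_fintype_fun_eq_card, Module.finrank_linearMap, Module.finrank_self,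
      mul_one] at h1
    exact h1

theorem exists_pow_smul {ι : Type} [Fintype ι] (M : Submodule ℤ_[p] (ι → ℤ_[p]))
    (h : Module.finrank ℤ_[p] M = Fintype.card ι) :
    ∃ K : ℕ, ∀ v : ι → ℤ_[p], ((p : ℤ_[p]) ^ K) • v ∈ M := by
  classical
  have h1 : Module.finrank ℤ_[p] ((ι → ℤ_[p]) ⧸ M) = 0 := by
    have h2 := Submodule.finrank_quotient_add_finrank M
    rw [h, Module.finrank_fintype_fun_eq_card] at h2
    omega
  rw [Module.finrank_eq_zero_iff_isTorsion] at h1
  have h2 : ∀ i : ι, ∃ k : ℕ, (p : ℤ_[p]) ^ k • (Pi.single i 1 : ι → ℤ_[p]) ∈ M := by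
    intro i
    obtain ⟨a, ha⟩ := h1 (x := Submodule.Quotient.mk (Pi.single i 1))
    have ha0 : (a : ℤ_[p]) ≠ 0 := nonZeroDivisors.ne_zero a.2
    refine ⟨(a : ℤ_[p]).valuation, ?_⟩
    have h3 := PadicInt.unitCoeff_spec ha0
    have h4 : (a : ℤ_[p]) • (Pi.single i 1 : ι → ℤ_[p]) ∈ M := by
      rw [← Submodule.Quotient.mk_eq_zero]
      exact ha
    have h5 : (p : ℤ_[p]) ^ (a : ℤ_[p]).valuation =
        (((PadicInt.unitCoeff ha0)⁻¹ : ℤ_[p]ˣ) : ℤ_[p]) * (a : ℤ_[p]) := by
      rw [Units.eq_inv_mul_iff_mul_eq]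
      exact h3.symm
    rw [h5, mul_smul]
    exact M.smul_mem _ h4
  choose k hk using h2
  refine ⟨∑ i, k i, fun v => ?_⟩
  have h3 : v = ∑ i, v i • (Pi.single i 1 : ι → ℤ_[p]) := by
    ext j
    simp [Finset.sum_apply, Pi.single_apply]
  rw [h3, Finset.smul_sum]
  refine M.sum_mem fun i _ => ?_
  have h4 : ∑ j, k j = (∑ j ∈ Finset.univ.erase i, k j) + k i :=
    (Finset.sum_erase_add _ _ (Finset.mem_univ i)).symm
  have h5 : (p : ℤ_[p]) ^ (∑ j, k j) • (v i • (Pi.single i 1 : ι → ℤ_[p])) =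
      ((p : ℤ_[p]) ^ (∑ j ∈ Finset.univ.erase i, k j) * v i) •
        ((p : ℤ_[p]) ^ (k i) • (Pi.single i 1 : ι → ℤ_[p])) := by
    rw [h4, pow_add, smul_smul, smul_smul]
    congr 1
    ring
  rw [h5]
  exact M.smul_mem _ (hk i)

/-- a set of vectors divisible by a power of `p` is open -/
theorem isOpen_of_pow {ι : Type} [Fintype ι] (N : AddSubgroup (ι → ℤ_[p])) {K : ℕ}
    (h : ∀ v : ι → ℤ_[p], ((p : ℤ_[p]) ^ K) • v ∈ N) : IsOpen (N : Set (ι → ℤ_[p])) := by
  have h1 : IsOpen {v : ι → ℤ_[p] | ∀ i, v i ∈ {x : ℤ_[p] | ‖x‖ < (p : ℝ) ^ (-K + 1 : ℤ)}} := by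
    have h2 : {v : ι → ℤ_[p] | ∀ i, v i ∈ {x : ℤ_[p] | ‖x‖ < (p : ℝ) ^ (-K + 1 : ℤ)}} =
        Set.pi Set.univ fun _ => {x : ℤ_[p] | ‖x‖ < (p : ℝ) ^ (-K + 1 : ℤ)} := by
      ext v
      simp [Set.mem_pi]
    rw [h2]
    exact isOpen_set_pi Set.finite_univ fun i _ => isOpen_lt continuous_norm continuous_const
  refine AddSubgroup.isOpen_of_mem_nhds N (g := 0) ?_
  refine Filter.mem_of_superset (h1.mem_nhds ?_) ?_
  · intro i
    simp only [Pi.zero_apply, Set.mem_ofPred_eq, norm_zero]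
    exact zpow_pos (by exact_mod_cast (Fact.out : p.Prime).pos) _
  · intro v hv
    have h3 : ∀ i, ∃ w, v i = (p : ℤ_[p]) ^ K * w := by
      intro i
      have h4 := hv i
      simp only [Set.mem_ofPred_eq] at h4
      rw [← PadicInt.norm_le_pow_iff_norm_lt_pow_add_one, PadicInt.norm_le_pow_iff_mem_span_pow,
        Ideal.mem_span_singleton] at h4
      exact h4
    choose w hw using h3
    have h5 : v = (p : ℤ_[p]) ^ K • w := by
      ext i
      rw [hw i]
      rfl
    rw [h5]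
    exact h w

end Pool.Agent.L0h46.TS
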