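import Pool.Agent.L0h46.TS.Fin

/-!
# Smaller base fields
-/

set_option autoImplicit false

namespace Pool.Agent.L0h46.TS

open NumberField Topology

section

variable {p : ℕ} [Fact p.Prime] {L K : Type} [Field L] [Field K] [Algebra L K]

/-- the absolute Galois group of `L` -/
abbrev GR (L K : Type) [Field L] [Field K] [Algebra L K] : Type := Gal(AlgebraicClosure K/L)

/-- restriction to `K` -/
noncomputable def res (L : Type) {K : Type} [Field L] [Field K] [Algebra L K] : GA K →* GR L K :=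
  AlgEquiv.restrictScalarsHom L

theorem res_cont : Continuous (res L : GA K → GR L K) := by
  refine continuous_of_continuousAt_one (res L : GA K →* GR L K) ?_
  rw [ContinuousAt, map_one]
  intro U hU
  rw [krullTopology_mem_nhds_one_iff] at hU
  obtain ⟨E, hE, hEU⟩ := hU
  rw [Filter.mem_map, krullTopology_mem_nhds_one_iff]
  have b := Module.finBasis L E
  refine ⟨IntermediateField.adjoin K (Set.range fun i => (b i : AlgebraicClosure K)), ?_, ?_⟩
  · exact IntermediateField.finiteDimensional_adjoin fun x _ =>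
      Algebra.IsIntegral.isIntegral x
  · intro g hg
    apply hEU
    rw [SetLike.mem_coe, IntermediateField.mem_fixingSubgroup_iff] at hg ⊢
    intro x hx
    have h1 : x = ∑ i, b.repr ⟨x, hx⟩ i • (b i : AlgebraicClosure K) := by
      have h2 := congrArg (fun y : E => (y : AlgebraicClosure K)) (b.sum_repr ⟨x, hx⟩)
      simp only [IntermediateField.coe_sum, IntermediateField.coe_smul] at h2
      exact h2.symm
    have h3 : ∀ i, res L g (b i : AlgebraicClosure K) = b i := fun i =>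
      hg _ (IntermediateField.subset_adjoin _ _ ⟨i, rfl⟩)
    rw [h1, map_sum]
    refine Finset.sum_congr rfl fun i _ => ?_
    rw [map_smul, h3]

/-- the cyclotomic character of `L` -/
noncomputable def cycR (L K : Type) [Field L] [Field K] [Algebra L K] (p : ℕ) [Fact p.Prime] :
    GR L K →* ℤ_[p]ˣ :=
  (cyclotomicCharacter (AlgebraicClosure K) p).comp
    (MulSemiringAction.toRingAut (GR L K) (AlgebraicClosure K))

/-- the twist -/
noncomputable def twR (L K : Type) [Field L] [Field K] [Algebra L K] (p : ℕ) [Fact p.Prime] (r : ℤ)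
    (g : GR L K) : ℤ_[p] :=
  ((cycR L K p g ^ r : ℤ_[p]ˣ) : ℤ_[p])

theorem cycR_res (g : GA K) : cycR L K p (res L g) = cyc K p g := rfl

theorem twR_res (r : ℤ) (g : GA K) : twR L K p r (res L g) = tw K p r g := rfl

theorem twR_mul (r : ℤ) (g h : GR L K) : twR L K p r (g * h) = twR L K p r g * twR L K p r h := by
  unfold twR
  rw [map_mul, mul_zpow, Units.val_mul]

/-- inertia -/
def InIR (I : Ideal (OA K)) (g : GR L K) : Prop := ∀ x : OA K, g • x - x ∈ I

/-- decomposition -/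
def InDR (I : Ideal (OA K)) (g : GR L K) : Prop := ∀ x : OA K, g • x ∈ I ↔ x ∈ I

/-- the cocycles of the elements of the Tate-Shafarevich groups -/
structure ShaR (r : ℤ) (c : GR L K → ℤ_[p]) : Prop where
  cont : Continuous c
  mul : ∀ g h, c (g * h) = c g + twR L K p r g * c h
  unr : ∀ q : ℕ, q.Prime → q ≠ p → ∀ I : Ideal (OA K), I.IsPrime → (q : OA K) ∈ I → ∀ g,
    InIR I g → c g = 0
  loc : ∀ I : Ideal (OA K), I.IsPrime → (p : OA K) ∈ I → ∃ z, ∀ g, InDR I g →
    c g = (twR L K p r g - 1) * z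

/-- linear independence of the classes -/
def IndepR (r : ℤ) {m : ℕ} (c : Fin m → GR L K → ℤ_[p]) : Prop :=
  ∀ a : Fin m → ℤ_[p], (∃ z, ∀ g, ∑ j, a j * c j g = (twR L K p r g - 1) * z) → a = 0

theorem ShaR.toC {r : ℤ} {c : GR L K → ℤ_[p]} (h : ShaR r c) :
    ShaC r (fun g : GA K => c (res L g)) where
  cont := h.cont.comp res_cont
  mul g k := by
    rw [map_mul, h.mul]
    rfl
  unr q hq hqp I hI hqI g hg := h.unr q hq hqp I hI hqI _ hg
  loc I hI hpI := by
    obtain ⟨z, hz⟩ := h.loc I hI hpI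
    exact ⟨z, fun g hg => hz _ hg⟩

theorem conj_mem [Normal L K] (σ : GR L K) (h : GA K) :
    ∃ h' : GA K, res L h * σ = σ * res L h' := by
  have h1 : ∀ x : K, (σ⁻¹ * res L h * σ) (algebraMap K (AlgebraicClosure K) x) =
      algebraMap K (AlgebraicClosure K) x := by
    intro x
    rw [AlgEquiv.mul_apply, AlgEquiv.mul_apply, ← AlgEquiv.restrictNormal_commutes σ K x]
    have h2 : res L h (algebraMap K (AlgebraicClosure K) (σ.restrictNormal K x)) =
        algebraMap K (AlgebraicClosure K) (σ.restrictNormal K x) := h.commutes _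
    rw [h2, AlgEquiv.restrictNormal_commutes σ K x]
    change (σ⁻¹ * σ) _ = _
    rw [inv_mul_cancel, AlgEquiv.one_apply]
  refine ⟨AlgEquiv.ofRingEquiv (f := (σ⁻¹ * res L h * σ : GR L K).toRingEquiv) h1, ?_⟩
  have h3 : res L (AlgEquiv.ofRingEquiv (f := (σ⁻¹ * res L h * σ : GR L K).toRingEquiv) h1) =
      σ⁻¹ * res L h * σ := by
    ext x
    rfl
  rw [h3]
  group

theorem IndepR.toC [Normal L K] {r : ℤ} (hmove : ∃ h : GA K, tw K p r h ≠ 1) {m : ℕ}
    {c : Fin m → GR L K → ℤ_[p]} (hmul : ∀ j g h, c j (g * h) = c j g + twR L K p r g * c j h)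
    (hi : IndepR r c) : Indep r (fun j (g : GA K) => c j (res L g)) := by
  intro a ha
  obtain ⟨z, hz⟩ := ha
  obtain ⟨h, hh⟩ := hmove
  refine hi a ⟨z, fun σ => ?_⟩
  obtain ⟨h', hh'⟩ := conj_mem σ h
  have hd : ∀ g k : GR L K, ∑ j, a j * c j (g * k) - (twR L K p r (g * k) - 1) * z =
      (∑ j, a j * c j g - (twR L K p r g - 1) * z) +
        twR L K p r g * (∑ j, a j * c j k - (twR L K p r k - 1) * z) := by
    intro g k
    have h1 : ∑ j, a j * c j (g * k) = ∑ j, a j * c j g + twR L K p r g * ∑ j, a j * c j k := by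
      rw [Finset.mul_sum, ← Finset.sum_add_distrib]
      refine Finset.sum_congr rfl fun j _ => ?_
      rw [hmul]
      ring
    rw [h1, twR_mul]
    ring
  have hzero : ∀ g : GA K, ∑ j, a j * c j (res L g) - (twR L K p r (res L g) - 1) * z = 0 := by
    intro g
    rw [sub_eq_zero]
    exact hz g
  have h1 := hd (res L h) σ
  have h2 := hd σ (res L h')
  rw [hh', h2, hzero, hzero, mul_zero, add_zero, zero_add, twR_res] at h1
  have h3 : (tw K p r h - 1) * (∑ j, a j * c j σ - (twR L K p r σ - 1) * z) = 0 := by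
    linear_combination -h1
  rcases mul_eq_zero.1 h3 with h4 | h4
  · exact absurd (sub_eq_zero.1 h4) hh
  · exact sub_eq_zero.1 h4

end

section

variable {p : ℕ} [Fact p.Prime] {L K : Type} [Field L] [Field K] [NumberField K] [Algebra L K]
  [Normal L K]

theorem exists_tw {n : ℕ} (hn : 0 < n) (hp2 : p ≠ 2 ∨ 2 ≤ n)
    (hroot : ∃ ζ : K, IsPrimitiveRoot ζ (p ^ n)) (hroot' : ¬ ∃ ζ : K, IsPrimitiveRoot ζ (p ^ (n + 1)))
    {r : ℤ} (hr : r ≠ 0) : ∃ h : GA K, tw K p r h ≠ 1 := by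
  obtain ⟨γ, hγ⟩ := exists_move hroot'
  refine ⟨γ, ?_⟩
  have h1 : Ex n (cyc K p γ : ℤ_[p]) := Ex.of (dvd_of_mem hroot γ) hγ
  obtain ⟨u, hu⟩ := h1.zpow hn hp2 hr
  unfold tw
  rw [hu]
  intro h2
  have h3 : (p : ℤ_[p]) ^ (n + padicValInt p r) * u = 0 := by linear_combination h2
  exact mul_ne_zero (pow_ne_zero _ PadicInt.prime_p.ne_zero) u.ne_zero h3

theorem many_twists_rel {n : ℕ} (hn : 0 < n) (hp2 : p ≠ 2 ∨ 2 ≤ n)
    (hroot : ∃ ζ : K, IsPrimitiveRoot ζ (p ^ n)) (hroot' : ¬ ∃ ζ : K, IsPrimitiveRoot ζ (p ^ (n + 1)))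
    (R : Finset ℤ) (hR : (0 : ℤ) ∉ R) (m : ℤ → ℕ) (c : (r : ℤ) → Fin (m r) → GR L K → ℤ_[p])
    (hc : ∀ r ∈ R, ∀ j, ShaR r (c r j)) (hi : ∀ r ∈ R, IndepR r (c r)) :
    ∃ (A : Type) (_ : AddCommGroup A) (φ : GA K →* Multiplicative A), UnrSplit p φ ∧
      Nat.card A = p ^ (∑ r ∈ R, (m r - (Nat.card (Above K p) - 1)) * (n + padicValInt p r)) :=
  many_twists hn hp2 hroot hroot' R hR m (fun r j g => c r j (res L g))
    (fun r hr j => (hc r hr j).toC)
    (fun r hr => (hi r hr).toC (exists_tw hn hp2 hroot hroot' fun h => hR (h ▸ hr))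
      fun j => (hc r hr j).mul)

omit [NumberField K] [Algebra L K] [Normal L K] [Field L] in
theorem tw_dvd [CharZero K] {n : ℕ} (hn : 0 < n) (hp2 : p ≠ 2 ∨ 2 ≤ n)
    (hroot : ∃ ζ : K, IsPrimitiveRoot ζ (p ^ n)) (hroot' : ¬ ∃ ζ : K, IsPrimitiveRoot ζ (p ^ (n + 1)))
    {r : ℤ} (hr : r ≠ 0) (g : GA K) : (p : ℤ_[p]) ^ (n + padicValInt p r) ∣ tw K p r g - 1 := by
  obtain ⟨γ, hγ⟩ := exists_move hroot'
  have h1 : Ex n (cyc K p γ : ℤ_[p]) := Ex.of (dvd_of_mem hroot γ) hγ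
  obtain ⟨j, hj⟩ := approx hn hp2 h1 (dvd_of_mem hroot g) (n + padicValInt p r)
  rw [← Units.val_pow_eq_pow_val] at hj
  have h2 := zpow_sub_dvd hj r
  have h3 : (p : ℤ_[p]) ^ (n + padicValInt p r) ∣
      (((cyc K p γ ^ j) ^ r : ℤ_[p]ˣ) : ℤ_[p]) - 1 := by
    have h4 : (cyc K p γ ^ j) ^ r = (cyc K p γ ^ r) ^ j := by
      rw [← zpow_natCast, ← zpow_natCast, ← zpow_mul, ← zpow_mul, mul_comm]
    rw [h4, Units.val_pow_eq_pow_val]
    exact (h1.zpow hn hp2 hr).dvd.trans (sub_one_dvd_pow_sub_one _ _)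
  have h5 := dvd_add h2 h3
  rw [sub_add_sub_cancel] at h5
  exact h5

theorem one_twist_rel {n : ℕ} (hn : 0 < n) (hp2 : p ≠ 2 ∨ 2 ≤ n)
    (hroot : ∃ ζ : K, IsPrimitiveRoot ζ (p ^ n)) (hroot' : ¬ ∃ ζ : K, IsPrimitiveRoot ζ (p ^ (n + 1)))
    {r : ℤ} (hr : r ≠ 0) {m : ℕ} (c : Fin m → GR L K → ℤ_[p]) (hc : ∀ j, ShaR r (c j))
    (hi : IndepR r c) :
    ∃ φ : GA K →* Multiplicative
      (Fin (m - (Nat.card (Above K p) - 1)) → ZMod (p ^ (n + padicValInt p r))),
      UnrSplit p φ :=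
  one_twist r (n + padicValInt p r) (tw_dvd hn hp2 hroot hroot' hr) (fun j g => c j (res L g))
    (fun j => (hc j).toC) (hi.toC (exists_tw hn hp2 hroot hroot' hr) fun j => (hc j).mul)

end

end Pool.Agent.L0h46.TS
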