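import Pool.Agent.L0h46.TS.Rank

/-!
# Cocycles of one twist
-/

set_option autoImplicit false

namespace Pool.Agent.L0h46.TS

variable {p : ℕ} [Fact p.Prime] {G : Type} [Group G] [TopologicalSpace G] [IsTopologicalGroup G]

/-- the span of the values -/
noncomputable def spn {ι : Type} [Fintype ι] (c : G → ι → ℤ_[p]) : Submodule ℤ_[p] (ι → ℤ_[p]) :=
  Submodule.span ℤ_[p] (Set.range c)

omit [Group G] [TopologicalSpace G] [IsTopologicalGroup G] in
theorem mem_spn {ι : Type} [Fintype ι] (c : G → ι → ℤ_[p]) (g : G) : c g ∈ spn c :=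
  Submodule.subset_span ⟨g, rfl⟩

theorem single {m : ℕ} (c : G → Fin m → ℤ_[p]) (hc : Continuous c) (t : G → ℤ_[p])
    (ht1 : t 1 = 1) (b : ℕ)
    (ht : ∀ g, (p : ℤ_[p]) ^ b ∣ t g - 1) (hmul : ∀ g h, c (g * h) = c g + t g • c h)
    (hind : ∀ a : Fin m → ℤ_[p], (∀ g, ∑ i, a i * c g i = 0) → a = 0) :
    ∃ φ : G →* Multiplicative (Fin m → ZMod (p ^ b)), IsOpen (φ.ker : Set G) ∧
      Function.Surjective φ ∧ ∀ g, c g = 0 → φ g = 1 := by
  classical
  have hM : Module.finrank ℤ_[p] (spn c) = Fintype.card (Fin m) :=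
    finrank_eq _ fun a ha => hind a fun g => ha _ (mem_spn c g)
  obtain ⟨K, hK⟩ := exists_pow_smul _ hM
  rw [Fintype.card_fin] at hM
  let e : Module.Basis (Fin m) ℤ_[p] (spn c) :=
    (Module.finBasis ℤ_[p] (spn c)).reindex (finCongr hM)
  let q : ℤ_[p] →+* ZMod (p ^ b) := PadicInt.toZModPow b
  have hq : ∀ g, q (t g) = 1 := by
    intro g
    have h1 : q (t g - 1) = 0 := by
      rw [← RingHom.mem_ker, PadicInt.ker_toZModPow, Ideal.mem_span_singleton]
      exact ht g
    rw [map_sub, map_one, sub_eq_zero] at h1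
    exact h1
  let F : spn c → (Fin m → ZMod (p ^ b)) := fun x k => q (e.repr x k)
  have hFadd : ∀ x y, F (x + y) = F x + F y := by
    intro x y
    funext k
    simp only [F, map_add, Finsupp.add_apply, Pi.add_apply]
  have hFsmul : ∀ (r : ℤ_[p]) x, F (r • x) = fun k => q r * F x k := by
    intro r x
    funext k
    simp only [F, map_smul, Finsupp.smul_apply, smul_eq_mul, map_mul]
  have hF0 : F 0 = 0 := by
    funext k
    simp only [F, map_zero, Finsupp.zero_apply, Pi.zero_apply]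
  have hcmul : ∀ g h, F ⟨c (g * h), mem_spn c _⟩ = F ⟨c g, mem_spn c g⟩ + F ⟨c h, mem_spn c h⟩ := by
    intro g h
    have h1 : (⟨c (g * h), mem_spn c _⟩ : spn c) = ⟨c g, mem_spn c g⟩ + t g • ⟨c h, mem_spn c h⟩ :=
      Subtype.ext (hmul g h)
    rw [h1, hFadd, hFsmul]
    congr 1
    funext k
    rw [hq, one_mul]
  have hc1 : c 1 = 0 := by
    have h1 := hmul 1 1
    rw [mul_one, ht1, one_smul, left_eq_add] at h1
    exact h1
  let φ : G →* Multiplicative (Fin m → ZMod (p ^ b)) :=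
    { toFun := fun g => Multiplicative.ofAdd (F ⟨c g, mem_spn c g⟩)
      map_one' := by
        have h1 : (⟨c 1, mem_spn c 1⟩ : spn c) = 0 := Subtype.ext hc1
        rw [h1, hF0]
        rfl
      map_mul' := fun g h => by
        rw [hcmul]
        rfl }
  have hφ : ∀ g, φ g = Multiplicative.ofAdd (F ⟨c g, mem_spn c g⟩) := fun g => rfl
  refine ⟨φ, ?_, ?_, ?_⟩
  · -- the kernel is open
    let N : AddSubgroup (Fin m → ℤ_[p]) :=
      { carrier := {v | ∃ h : v ∈ spn c, F ⟨v, h⟩ = 0}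
        zero_mem' := ⟨(spn c).zero_mem, hF0⟩
        add_mem' := by
          rintro v w ⟨h1, h2⟩ ⟨h3, h4⟩
          refine ⟨(spn c).add_mem h1 h3, ?_⟩
          have h5 := hFadd ⟨v, h1⟩ ⟨w, h3⟩
          rw [h2, h4, add_zero] at h5
          exact h5
        neg_mem' := by
          rintro v ⟨h1, h2⟩
          refine ⟨(spn c).neg_mem h1, ?_⟩
          have h5 := hFsmul (-1) ⟨v, h1⟩
          rw [h2] at h5
          have h6 : (⟨-v, (spn c).neg_mem h1⟩ : spn c) = (-1 : ℤ_[p]) • ⟨v, h1⟩ :=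
            Subtype.ext (by simp)
          rw [h6, h5]
          funext k
          simp }
    have hN : IsOpen (N : Set (Fin m → ℤ_[p])) := by
      refine isOpen_of_pow N (K := b + K) fun v => ?_
      have h1 : ((p : ℤ_[p]) ^ (b + K)) • v = (p : ℤ_[p]) ^ b • ((p : ℤ_[p]) ^ K • v) := by
        rw [smul_smul, pow_add]
      rw [h1]
      refine ⟨(spn c).smul_mem _ (hK v), ?_⟩
      have h2 := hFsmul ((p : ℤ_[p]) ^ b) ⟨_, hK v⟩
      have h3 : q ((p : ℤ_[p]) ^ b) = 0 := by
        rw [← RingHom.mem_ker, PadicInt.ker_toZModPow]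
        exact Ideal.mem_span_singleton_self _
      rw [h3] at h2
      have h4 : (⟨(p : ℤ_[p]) ^ b • ((p : ℤ_[p]) ^ K • v), (spn c).smul_mem _ (hK v)⟩ : spn c) =
          (p : ℤ_[p]) ^ b • ⟨(p : ℤ_[p]) ^ K • v, hK v⟩ := rfl
      rw [h4, h2]
      funext k
      simp
    have h1 : (φ.ker : Set G) = c ⁻¹' (N : Set (Fin m → ℤ_[p])) := by
      ext g
      rw [SetLike.mem_coe, MonoidHom.mem_ker, hφ, ← ofAdd_zero, Multiplicative.ofAdd.injective.eq_iff]
      constructor
      · intro h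
        exact ⟨mem_spn c g, h⟩
      · rintro ⟨_, h⟩
        exact h
    rw [h1]
    exact hN.preimage hc
  · -- surjectivity
    let S : Submodule ℤ_[p] (Fin m → ℤ_[p]) :=
      { carrier := {v | ∃ h : v ∈ spn c, Multiplicative.ofAdd (F ⟨v, h⟩) ∈ φ.range}
        zero_mem' := ⟨(spn c).zero_mem, by
          have h1 : (⟨0, (spn c).zero_mem⟩ : spn c) = 0 := rfl
          rw [h1, hF0]
          exact φ.range.one_mem⟩
        add_mem' := by
          rintro v w ⟨h1, h2⟩ ⟨h3, h4⟩
          refine ⟨(spn c).add_mem h1 h3, ?_⟩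
          have h5 := hFadd ⟨v, h1⟩ ⟨w, h3⟩
          have h6 : (⟨v + w, (spn c).add_mem h1 h3⟩ : spn c) = ⟨v, h1⟩ + ⟨w, h3⟩ := rfl
          rw [h6, h5, ofAdd_add]
          exact φ.range.mul_mem h2 h4
        smul_mem' := by
          rintro r v ⟨h1, h2⟩
          refine ⟨(spn c).smul_mem r h1, ?_⟩
          have h5 := hFsmul r ⟨v, h1⟩
          have h6 : (⟨r • v, (spn c).smul_mem r h1⟩ : spn c) = r • ⟨v, h1⟩ := rfl
          have h7 : (fun k => q r * F ⟨v, h1⟩ k) = (q r).val • F ⟨v, h1⟩ := by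
            funext k
            rw [Pi.smul_apply, nsmul_eq_mul, ZMod.natCast_val, ZMod.cast_id]
          rw [h6, h5, h7, ofAdd_nsmul]
          exact φ.range.pow_mem h2 _ }
    have hS : spn c ≤ S := by
      refine Submodule.span_le.2 ?_
      rintro _ ⟨g, rfl⟩
      exact ⟨mem_spn c g, g, rfl⟩
    intro y
    have h1 : y ∈ φ.range := by
      obtain ⟨z, hz⟩ : ∃ z : Fin m → ℤ_[p], ∀ k, q (z k) = Multiplicative.toAdd y k := by
        have h2 : ∀ k, ∃ z : ℤ_[p], q z = Multiplicative.toAdd y k := fun k =>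
          ZMod.ringHom_surjective q _
        choose z hz using h2
        exact ⟨z, hz⟩
      set x : spn c := ∑ k, z k • e k with hx
      obtain ⟨h3, h4⟩ := hS x.2
      have h5 : F x = Multiplicative.toAdd y := by
        funext k
        rw [← hz k]
        simp only [F]
        congr 1
        rw [hx, map_sum, Finsupp.finsetSum_apply]
        rw [Finset.sum_eq_single k]
        · rw [map_smul, Finsupp.smul_apply, e.repr_self, Finsupp.single_eq_same, smul_eq_mul,
            mul_one]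
        · intro j _ hj
          rw [map_smul, Finsupp.smul_apply, e.repr_self, Finsupp.single_eq_of_ne (Ne.symm hj),
            smul_zero]
        · intro h
          exact absurd (Finset.mem_univ k) h
      have h6 : (⟨(x : Fin m → ℤ_[p]), h3⟩ : spn c) = x := rfl
      rw [h6, h5] at h4
      exact h4
    obtain ⟨g, hg⟩ := h1
    exact ⟨g, hg⟩
  · intro g hg
    rw [hφ]
    have h1 : (⟨c g, mem_spn c g⟩ : spn c) = 0 := Subtype.ext hg
    rw [h1, hF0]
    rfl

end Pool.Agent.L0h46.TS
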